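import Mathlib
import Pool.Agent.Work.MP_2dba45_nt.Sv.Defs
import Pool.Agent.Work.MP_73869e_nt.SK.LocK
import Pool.Agent.Work.MP_73869e_nt.BG.GDef

set_option autoImplicit false

/-!
Definitions for the theorem on clusters of numbers with at most two prime factors among
`n ^ 2 + g ^ 2`.

Labelled sets: finite sets `A` of pairs `(p, i)`, `p` a prime of `P`, `i : Fin K`, with at most one
label per prime. An outcome `ω` is a labelled set; `(p, i) ∈ ω` means that `p` divides the form `i`.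
-/

namespace Pool.Agent.Work.MP_73869e_nt.TH

open Finset Pool.Agent.Work.MP_2dba45_nt.BilDef Pool.Agent.Work.MP_2dba45_nt.Sv

/-- at most one label per first coordinate -/
def Lab {K : ℕ} (A : Finset (ℕ × Fin K)) : Prop := ∀ a ∈ A, ∀ b ∈ A, a.1 = b.1 → a = b

instance {K : ℕ} (A : Finset (ℕ × Fin K)) : Decidable (Lab A) := by
  unfold Lab
  infer_instance

/-- labelled subsets of `P` -/
def LS (K : ℕ) (P : Finset ℕ) : Finset (Finset (ℕ × Fin K)) :=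
  ((P ×ˢ (univ : Finset (Fin K))).powerset).filter Lab

theorem mem_LS {K : ℕ} {P : Finset ℕ} {A : Finset (ℕ × Fin K)} :
    A ∈ LS K P ↔ (∀ a ∈ A, a.1 ∈ P) ∧ Lab A := by
  unfold LS
  rw [mem_filter, mem_powerset]
  constructor
  · rintro ⟨h1, h2⟩
    refine ⟨fun a ha => ?_, h2⟩
    exact (mem_product.1 (h1 ha)).1
  · rintro ⟨h1, h2⟩
    refine ⟨fun a ha => ?_, h2⟩
    exact mem_product.2 ⟨h1 a ha, mem_univ _⟩

/-- product of the primes of a labelled set -/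
def pr {K : ℕ} (A : Finset (ℕ × Fin K)) : ℕ := ∏ a ∈ A, a.1

/-- multiplicative weight -/
noncomputable def ga {K : ℕ} (γ : ℕ → ℝ) (A : Finset (ℕ × Fin K)) : ℝ := ∏ a ∈ A, γ a.1

/-- probability of the outcome `ω` in the model -/
noncomputable def mu {K : ℕ} (γ : ℕ → ℝ) (P : Finset ℕ) (ω : Finset (ℕ × Fin K)) : ℝ :=
  ga γ ω * ∏ p ∈ P \ ω.image Prod.fst, (1 - K * γ p)

/-- expectation in the model -/
noncomputable def Ex {K : ℕ} (γ : ℕ → ℝ) (P : Finset ℕ) (F : Finset (ℕ × Fin K) → ℝ) : ℝ :=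
  ∑ ω ∈ LS K P, mu γ P ω * F ω

/-- product of centred indicators -/
noncomputable def xx {K : ℕ} (γ : ℕ → ℝ) (A ω : Finset (ℕ × Fin K)) : ℝ :=
  ∏ a ∈ A, (γ a.1 - if a ∈ ω then 1 else 0)

/-- the sieve weight with coefficients `Y` -/
noncomputable def ff {K : ℕ} (γ : ℕ → ℝ) (P : Finset ℕ) (Y : Finset (ℕ × Fin K) → ℝ)
    (ω : Finset (ℕ × Fin K)) : ℝ :=
  ∑ A ∈ LS K P, Y A * xx γ A ω

/-- coefficients of the weight in the basis of monomials `1[B ⊆ ω]` -/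
noncomputable def la {K : ℕ} (γ : ℕ → ℝ) (P : Finset ℕ) (Y : Finset (ℕ × Fin K) → ℝ)
    (B : Finset (ℕ × Fin K)) : ℝ :=
  (-1) ^ #B * ∑ A ∈ (LS K P).filter (fun A => B ⊆ A), Y A * ga γ (A \ B)

/-- the coefficients after summing over the primes with label `j` -/
noncomputable def Zj {K : ℕ} (γ : ℕ → ℝ) (P : Finset ℕ) (j : Fin K) (Y : Finset (ℕ × Fin K) → ℝ)
    (A : Finset (ℕ × Fin K)) : ℝ :=
  if ∃ a ∈ A, a.2 = j then 0 else
    ∑ U ∈ (P \ A.image Prod.fst).powerset, (∏ p ∈ U, γ p) * Y (A ∪ U.image (fun p => (p, j)))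

/-- the outcome of the integer `n` -/
def oo {K : ℕ} (P : Finset ℕ) (g : Fin K → ℕ) (n : ℕ) : Finset (ℕ × Fin K) :=
  (P ×ˢ (univ : Finset (Fin K))).filter (fun a => a.1 ∣ n ^ 2 + (g a.2) ^ 2)

/-- number of residue classes modulo `p` for which `p` divides one of the forms -/
def rh {K : ℕ} (g : Fin K → ℕ) (p : ℕ) : ℕ :=
  #((range p).filter (fun x => p ∣ ∏ i, (x ^ 2 + (g i) ^ 2)))

/-- its density -/
noncomputable def gr {K : ℕ} (g : Fin K → ℕ) (p : ℕ) : ℝ := (rh g p : ℝ) / p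

/-- sum of the reciprocals of the prime divisors -/
noncomputable def sg (m : ℕ) : ℝ := ∑ p ∈ m.primeFactors, 1 / (p : ℝ)

/-- weighted number of products of at most `N ^ t` -/
noncomputable def Nt (P : Finset ℕ) (N : ℕ) (t : ℝ) : ℝ :=
  ∑ S ∈ P.powerset.filter (fun S => ((∏ p ∈ S, p : ℕ) : ℝ) ≤ (N : ℝ) ^ t), GG S

/-- the function of one variable of the weight -/
noncomputable def yy (N L : ℕ) (t₀ : ℝ) (s : ℕ) : ℝ :=
  ∑ l ∈ range L, (1 / 2 : ℝ) ^ l * (if (s : ℝ) ≤ (N : ℝ) ^ ((2 : ℝ) ^ l * t₀) then 1 else 0)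

noncomputable def S1 (P : Finset ℕ) (N L : ℕ) (t₀ : ℝ) : ℝ :=
  ∑ S ∈ P.powerset, GG S * yy N L t₀ (∏ p ∈ S, p)

noncomputable def S2 (P : Finset ℕ) (N L : ℕ) (t₀ : ℝ) : ℝ :=
  ∑ S ∈ P.powerset, GG S * yy N L t₀ (∏ p ∈ S, p) ^ 2

noncomputable def S2t (P : Finset ℕ) (N L : ℕ) (t₀ : ℝ) : ℝ :=
  ∑ S ∈ P.powerset, GG S * yy N L t₀ (∏ p ∈ S, p) ^ 2 *
    (Real.log ((∏ p ∈ S, p : ℕ) : ℝ) / Real.log N)

/-- the primes with label `i` -/
def lb {K : ℕ} (i : Fin K) (A : Finset (ℕ × Fin K)) : Finset ℕ :=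
  (A.filter (fun a => a.2 = i)).image Prod.fst

/-- the coefficients of the weight -/
noncomputable def YY {K : ℕ} (N L : ℕ) (t₀ v : ℝ) (A : Finset (ℕ × Fin K)) : ℝ :=
  if (pr A : ℝ) ≤ (N : ℝ) ^ v then ∏ i, yy N L t₀ (∏ p ∈ lb i A, p) else 0

/-- all forms of the tuple have only prime factors at least `z₀` -/
def Ro {K : ℕ} (z₀ : ℕ) (g : Fin K → ℕ) (n : ℕ) : Prop :=
  ∀ i, ∀ p : ℕ, p.Prime → p ∣ n ^ 2 + (g i) ^ 2 → z₀ ≤ p

end Pool.Agent.Work.MP_73869e_nt.TH
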