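import Mathlib
import Pool.Agent.Work.MP_73869e_nt.TH.TDef

set_option autoImplicit false

/-!
MODULE T01 (recursion for labelled sets), size S-M.
LS K (insert p P) is the disjoint union of LS K P and of the sets insert (p, i) A, A in LS K P, i : Fin K
(a labelled set contains at most one pair with first coordinate p).
-/

namespace Pool.Agent.Work.MP_73869e_nt.TH

open Finset Pool.Agent.Work.MP_2dba45_nt.BilDef Pool.Agent.Work.MP_2dba45_nt.Sv

theorem notMem_of_LS {K : ℕ} {P : Finset ℕ} {p : ℕ} (hp : p ∉ P) {A : Finset (ℕ × Fin K)}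
    (hA : A ∈ LS K P) (i : Fin K) : (p, i) ∉ A := by
  intro h
  exact hp ((mem_LS.1 hA).1 _ h)

theorem insert_mem_LS {K : ℕ} {P : Finset ℕ} {p : ℕ} (hp : p ∉ P) {A : Finset (ℕ × Fin K)}
    (hA : A ∈ LS K P) (i : Fin K) : insert (p, i) A ∈ LS K (insert p P) := by
  rw [mem_LS] at hA ⊢
  obtain ⟨h1, h2⟩ := hA
  refine ⟨fun a ha => ?_, fun a ha b hb hab => ?_⟩
  · rcases mem_insert.1 ha with rfl | ha
    · exact mem_insert_self _ _
    · exact mem_insert_of_mem (h1 a ha)
  · rcases mem_insert.1 ha with rfl | ha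
    · rcases mem_insert.1 hb with rfl | hb
      · rfl
      · have h : p = b.1 := hab
        exact absurd (h ▸ h1 b hb) hp
    · rcases mem_insert.1 hb with rfl | hb
      · have h : a.1 = p := hab
        exact absurd (h ▸ h1 a ha) hp
      · exact h2 a ha b hb hab

theorem sum_LS_insert {K : ℕ} (P : Finset ℕ) (p : ℕ) (hp : p ∉ P) (F : Finset (ℕ × Fin K) → ℝ) :
    ∑ A ∈ LS K (insert p P), F A = ∑ A ∈ LS K P, (F A + ∑ i : Fin K, F (insert (p, i) A)) := by
  rw [sum_add_distrib]
  have h1 : (LS K (insert p P)).filter (fun A => ¬ ∃ i : Fin K, (p, i) ∈ A) = LS K P := by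
    ext A
    rw [mem_filter, mem_LS, mem_LS]
    constructor
    · rintro ⟨⟨h1, h2⟩, h3⟩
      refine ⟨fun a ha => ?_, h2⟩
      rcases mem_insert.1 (h1 a ha) with h | h
      · exact absurd ⟨a.2, by rw [← h]; exact ha⟩ h3
      · exact h
    · rintro ⟨h1, h2⟩
      refine ⟨⟨fun a ha => mem_insert_of_mem (h1 a ha), h2⟩, ?_⟩
      rintro ⟨i, hi⟩
      exact hp (h1 _ hi)
  have h2 : ∑ A ∈ (LS K (insert p P)).filter (fun A => ∃ i : Fin K, (p, i) ∈ A), F A =
      ∑ A ∈ LS K P, ∑ i : Fin K, F (insert (p, i) A) := by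
    rw [← sum_product' (LS K P) (univ : Finset (Fin K)) (fun A i => F (insert (p, i) A))]
    symm
    refine sum_bij (fun x _ => insert (p, x.2) x.1) ?_ ?_ ?_ ?_
    · intro x hx
      rw [mem_product] at hx
      rw [mem_filter]
      exact ⟨insert_mem_LS hp hx.1 x.2, x.2, mem_insert_self _ _⟩
    · intro x hx y hy hxy
      rw [mem_product] at hx hy
      have hx1 := hx.1
      have hy1 := hy.1
      have h3 : x.2 = y.2 := by
        have h4 : (p, x.2) ∈ insert (p, y.2) y.1 := by
          rw [← hxy]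
          exact mem_insert_self _ _
        rcases mem_insert.1 h4 with h | h
        · exact (Prod.ext_iff.1 h).2
        · exact absurd h (notMem_of_LS hp hy1 _)
      have h5 : x.1 = y.1 := by
        have h6 : (insert (p, x.2) x.1).erase (p, x.2) = (insert (p, y.2) y.1).erase (p, y.2) := by
          rw [h3] at hxy ⊢
          rw [hxy]
        rwa [erase_insert (notMem_of_LS hp hx1 _), erase_insert (notMem_of_LS hp hy1 _)] at h6
      exact Prod.ext h5 h3
    · intro A hA
      rw [mem_filter, mem_LS] at hA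
      obtain ⟨⟨h3, h4⟩, i, hi⟩ := hA
      refine ⟨(A.erase (p, i), i), ?_, ?_⟩
      · rw [mem_product]
        refine ⟨?_, mem_univ _⟩
        rw [mem_LS]
        refine ⟨fun a ha => ?_, fun a ha b hb hab => h4 a (mem_of_mem_erase ha) b
          (mem_of_mem_erase hb) hab⟩
        rcases mem_insert.1 (h3 a (mem_of_mem_erase ha)) with h | h
        · exact absurd (h4 a (mem_of_mem_erase ha) (p, i) hi h) (ne_of_mem_erase ha)
        · exact h
      · exact insert_erase hi
    · intro x hx
      rfl
  rw [← sum_filter_add_sum_filter_not (LS K (insert p P)) (fun A => ∃ i : Fin K, (p, i) ∈ A) F,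
    h1, h2, add_comm]

/-- a sum of products over labelled sets is at most the product over `P` -/
theorem sum_LS_prod {K : ℕ} (P : Finset ℕ) (f : ℕ × Fin K → ℝ) :
    ∑ A ∈ LS K P, ∏ a ∈ A, f a = ∏ p ∈ P, (1 + ∑ i : Fin K, f (p, i)) := by
  induction P using Finset.induction_on with
  | empty =>
    have h : LS K (∅ : Finset ℕ) = {∅} := by
      ext A
      rw [mem_LS, mem_singleton]
      constructor
      · rintro ⟨h1, -⟩
        rw [eq_empty_iff_forall_notMem]
        intro a ha
        exact absurd (h1 a ha) (notMem_empty _)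
      · rintro rfl
        exact ⟨fun a ha => absurd ha (notMem_empty _), fun a ha => absurd ha (notMem_empty _)⟩
    rw [h, sum_singleton, prod_empty, prod_empty]
  | insert p P hp ih =>
    rw [sum_LS_insert P p hp, prod_insert hp, ← ih, mul_sum]
    refine sum_congr rfl fun A hA => ?_
    have h : ∀ i : Fin K, ∏ a ∈ insert (p, i) A, f a = f (p, i) * ∏ a ∈ A, f a := fun i =>
      prod_insert (notMem_of_LS hp hA i)
    simp only [h]
    rw [← sum_mul]
    ring

end Pool.Agent.Work.MP_73869e_nt.TH
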