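import Mathlib
import Pool.Agent.Work.MP_73869e_nt.TH.T01

set_option autoImplicit false

/-!
MODULE T03 (monomial expansion).
-/

namespace Pool.Agent.Work.MP_73869e_nt.TH

open Finset Pool.Agent.Work.MP_2dba45_nt.BilDef Pool.Agent.Work.MP_2dba45_nt.Sv

private theorem LS_mono {K : ℕ} {P : Finset ℕ} {A B : Finset (ℕ × Fin K)} (hA : A ∈ LS K P)
    (hB : B ⊆ A) : B ∈ LS K P := by
  rw [mem_LS] at hA ⊢
  exact ⟨fun a ha => hA.1 a (hB ha), fun a ha b hb => hA.2 a (hB ha) b (hB hb)⟩

private theorem xx_exp {K : ℕ} (γ : ℕ → ℝ) (A ω : Finset (ℕ × Fin K)) :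
    xx γ A ω = ∑ B ∈ A.powerset, (-1) ^ #B * ga γ (A \ B) * (if B ⊆ ω then 1 else 0) := by
  unfold xx
  have h1 : ∏ a ∈ A, (γ a.1 - if a ∈ ω then 1 else 0) =
      ∏ a ∈ A, ((-(if a ∈ ω then (1 : ℝ) else 0)) + γ a.1) :=
    Finset.prod_congr rfl fun a _ => by ring
  rw [h1, Finset.prod_add]
  refine Finset.sum_congr rfl fun B _ => ?_
  have h2 : ∏ a ∈ B, (-(if a ∈ ω then (1 : ℝ) else 0)) = (-1) ^ #B * (if B ⊆ ω then 1 else 0) := by
    by_cases h : B ⊆ ω
    · rw [if_pos h, mul_one, ← Finset.prod_const]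
      exact Finset.prod_congr rfl fun a ha => by rw [if_pos (h ha)]
    · rw [if_neg h, mul_zero]
      rw [Finset.not_subset] at h
      obtain ⟨a, ha, ha'⟩ := h
      exact Finset.prod_eq_zero ha (by rw [if_neg ha', neg_zero])
  rw [h2]
  unfold ga
  ring

theorem ff_exp {K : ℕ} (γ : ℕ → ℝ) (P : Finset ℕ) (Y : Finset (ℕ × Fin K) → ℝ)
    (ω : Finset (ℕ × Fin K)) :
    ff γ P Y ω = ∑ B ∈ LS K P, la γ P Y B * (if B ⊆ ω then 1 else 0) := by
  unfold ff
  have h1 : ∑ A ∈ LS K P, Y A * xx γ A ω = ∑ A ∈ LS K P, ∑ B ∈ A.powerset,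
      Y A * ((-1) ^ #B * ga γ (A \ B) * (if B ⊆ ω then 1 else 0)) :=
    Finset.sum_congr rfl fun A _ => by rw [xx_exp, Finset.mul_sum]
  rw [h1, Finset.sum_comm' (t' := LS K P) (s' := fun B => (LS K P).filter (fun A => B ⊆ A))]
  · refine Finset.sum_congr rfl fun B _ => ?_
    unfold la
    rw [Finset.mul_sum, Finset.sum_mul]
    exact Finset.sum_congr rfl fun A _ => by ring
  · intro A B
    rw [mem_powerset, mem_filter]
    constructor
    · rintro ⟨h1, h2⟩
      exact ⟨⟨h1, h2⟩, LS_mono h1 h2⟩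
    · rintro ⟨⟨h1, h2⟩, _⟩
      exact ⟨h1, h2⟩

private theorem mu_old {K : ℕ} (γ : ℕ → ℝ) (P : Finset ℕ) (p : ℕ) (hp : p ∉ P)
    (ω : Finset (ℕ × Fin K)) (hω : ω ∈ LS K P) :
    mu γ (insert p P) ω = mu γ P ω * (1 - K * γ p) := by
  unfold mu
  have h1 : p ∉ ω.image Prod.fst := by
    intro h
    obtain ⟨a, ha, rfl⟩ := mem_image.1 h
    exact hp ((mem_LS.1 hω).1 a ha)
  rw [Finset.insert_sdiff_of_notMem _ h1, Finset.prod_insert]
  · ring
  · intro h
    exact hp (mem_sdiff.1 h).1

private theorem mu_new {K : ℕ} (γ : ℕ → ℝ) (P : Finset ℕ) (p : ℕ) (hp : p ∉ P)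
    (ω : Finset (ℕ × Fin K)) (hω : ω ∈ LS K P) (i : Fin K) :
    mu γ (insert p P) (insert (p, i) ω) = γ p * mu γ P ω := by
  unfold mu
  have h1 : (p, i) ∉ ω := by
    intro h
    exact hp ((mem_LS.1 hω).1 _ h)
  have h2 : insert p P \ (insert (p, i) ω).image Prod.fst = P \ ω.image Prod.fst := by
    rw [image_insert]
    ext q
    simp only [mem_sdiff, mem_insert, not_or]
    constructor
    · rintro ⟨h3 | h3, h4, h5⟩
      · exact absurd h3 h4
      · exact ⟨h3, h5⟩
    · rintro ⟨h3, h5⟩
      exact ⟨Or.inr h3, fun h => hp (h ▸ h3), h5⟩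
  rw [h2]
  unfold ga
  rw [Finset.prod_insert h1]
  ring

theorem Ex_mono {K : ℕ} (γ : ℕ → ℝ) (P : Finset ℕ) (B : Finset (ℕ × Fin K)) (hB : B ∈ LS K P) :
    Ex γ P (fun ω => if B ⊆ ω then 1 else 0) = ga γ B := by
  unfold Ex
  induction P using Finset.induction_on generalizing B with
  | empty =>
    have h1 : LS K (∅ : Finset ℕ) = {∅} := by
      ext A
      rw [mem_LS, mem_singleton]
      constructor
      · rintro ⟨h, _⟩
        rw [Finset.eq_empty_iff_forall_notMem]
        intro a ha
        exact absurd (h a ha) (Finset.notMem_empty _)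
      · rintro rfl
        exact ⟨fun a ha => absurd ha (Finset.notMem_empty _),
          fun a ha => absurd ha (Finset.notMem_empty _)⟩
    rw [h1, mem_singleton] at hB
    subst hB
    rw [h1, Finset.sum_singleton]
    unfold mu ga
    simp
  | insert p P hp ih =>
    rw [sum_LS_insert P p hp]
    have key : ∀ ω ∈ LS K P,
        (mu γ (insert p P) ω * (if B ⊆ ω then 1 else 0) +
          ∑ i : Fin K, mu γ (insert p P) (insert (p, i) ω) * (if B ⊆ insert (p, i) ω then 1 else 0))
        = mu γ P ω * ((1 - K * γ p) * (if B ⊆ ω then 1 else 0) +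
          γ p * ∑ i : Fin K, (if B ⊆ insert (p, i) ω then (1 : ℝ) else 0)) := by
      intro ω hω
      rw [mu_old γ P p hp ω hω]
      have : ∀ i : Fin K, mu γ (insert p P) (insert (p, i) ω) *
          (if B ⊆ insert (p, i) ω then (1 : ℝ) else 0) =
          mu γ P ω * (γ p * (if B ⊆ insert (p, i) ω then 1 else 0)) := by
        intro i
        rw [mu_new γ P p hp ω hω i]
        ring
      simp only [this]
      rw [← Finset.mul_sum, ← Finset.mul_sum]
      ring
    rw [Finset.sum_congr rfl key]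
    by_cases hpB : ∃ i : Fin K, (p, i) ∈ B
    · obtain ⟨i₀, hi₀⟩ := hpB
      set B0 := B.erase (p, i₀) with hB0
      have hBe : B = insert (p, i₀) B0 := (Finset.insert_erase hi₀).symm
      have hB0m : B0 ∈ LS K P := by
        have h1 := mem_LS.1 hB
        rw [mem_LS]
        refine ⟨fun a ha => ?_, fun a ha b hb => h1.2 a (mem_of_mem_erase ha) b (mem_of_mem_erase hb)⟩
        have h2 := h1.1 a (mem_of_mem_erase ha)
        rw [mem_insert] at h2
        rcases h2 with h2 | h2
        · exact absurd (h1.2 a (mem_of_mem_erase ha) (p, i₀) hi₀ h2) (ne_of_mem_erase ha)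
        · exact h2
      have hterm : ∀ ω ∈ LS K P, mu γ P ω * ((1 - K * γ p) * (if B ⊆ ω then 1 else 0) +
          γ p * ∑ i : Fin K, (if B ⊆ insert (p, i) ω then (1 : ℝ) else 0)) =
          γ p * (mu γ P ω * (if B0 ⊆ ω then 1 else 0)) := by
        intro ω hω
        have hpω : ∀ i : Fin K, (p, i) ∉ ω := fun i h => hp ((mem_LS.1 hω).1 _ h)
        have h1 : ¬ B ⊆ ω := fun h => hpω i₀ (h hi₀)
        rw [if_neg h1]
        have h2 : ∑ i : Fin K, (if B ⊆ insert (p, i) ω then (1 : ℝ) else 0) =
            if B0 ⊆ ω then 1 else 0 := by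
          rw [Finset.sum_eq_single i₀]
          · have : B ⊆ insert (p, i₀) ω ↔ B0 ⊆ ω := by
              constructor
              · intro h a ha
                have := h (mem_of_mem_erase ha)
                rw [mem_insert] at this
                rcases this with h3 | h3
                · exact absurd h3 (ne_of_mem_erase ha)
                · exact h3
              · intro h
                rw [hBe]
                exact Finset.insert_subset_insert _ h
            simp only [this]
          · intro i _ hi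
            rw [if_neg]
            intro h
            have := h hi₀
            rw [mem_insert] at this
            rcases this with h3 | h3
            · apply hi
              have := congrArg Prod.snd h3
              exact this.symm
            · exact hpω i₀ h3
          · intro h
            exact absurd (Finset.mem_univ _) h
        rw [h2]
        ring
      rw [Finset.sum_congr rfl hterm, ← Finset.mul_sum, ih B0 hB0m]
      conv_rhs => rw [hBe]
      unfold ga
      rw [Finset.prod_insert (Finset.notMem_erase _ _)]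
    · push Not at hpB
      have hBm : B ∈ LS K P := by
        have h1 := mem_LS.1 hB
        rw [mem_LS]
        refine ⟨fun a ha => ?_, h1.2⟩
        have h2 := h1.1 a ha
        rw [mem_insert] at h2
        rcases h2 with h2 | h2
        · exfalso
          apply hpB a.2
          rw [← h2]
          exact ha
        · exact h2
      rw [← ih B hBm]
      refine Finset.sum_congr rfl fun ω hω => ?_
      have h2 : ∀ i : Fin K, (B ⊆ insert (p, i) ω ↔ B ⊆ ω) := by
        intro i
        rw [Finset.subset_insert_iff_of_notMem (hpB i)]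
      simp only [h2]
      rw [Finset.sum_const, Finset.card_univ, Fintype.card_fin, nsmul_eq_mul]
      ring

theorem Ex_sq {K : ℕ} (γ : ℕ → ℝ) (P : Finset ℕ) (Y : Finset (ℕ × Fin K) → ℝ) :
    Ex γ P (fun ω => (ff γ P Y ω) ^ 2) = ∑ B ∈ LS K P, ∑ B' ∈ LS K P,
      la γ P Y B * la γ P Y B' * (if Lab (B ∪ B') then ga γ (B ∪ B') else 0) := by
  have h1 : ∀ B ∈ LS K P, ∀ B' ∈ LS K P,
      ∑ ω ∈ LS K P, mu γ P ω * (if B ∪ B' ⊆ ω then (1 : ℝ) else 0) =
      (if Lab (B ∪ B') then ga γ (B ∪ B') else 0) := by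
    intro B hB B' hB'
    by_cases h : Lab (B ∪ B')
    · rw [if_pos h]
      refine Ex_mono γ P (B ∪ B') ?_
      rw [mem_LS]
      refine ⟨fun a ha => ?_, h⟩
      rw [mem_union] at ha
      rcases ha with ha | ha
      · exact (mem_LS.1 hB).1 a ha
      · exact (mem_LS.1 hB').1 a ha
    · rw [if_neg h]
      refine Finset.sum_eq_zero fun ω hω => ?_
      rw [if_neg, mul_zero]
      intro h2
      apply h
      intro a ha b hb
      exact (mem_LS.1 hω).2 a (h2 ha) b (h2 hb)
  unfold Ex
  have h2 : ∀ ω ∈ LS K P, mu γ P ω * (ff γ P Y ω) ^ 2 =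
      ∑ B ∈ LS K P, ∑ B' ∈ LS K P, la γ P Y B * la γ P Y B' *
        (mu γ P ω * (if B ∪ B' ⊆ ω then (1 : ℝ) else 0)) := by
    intro ω _
    rw [ff_exp, sq, Finset.sum_mul_sum, Finset.mul_sum]
    refine Finset.sum_congr rfl fun B _ => ?_
    rw [Finset.mul_sum]
    refine Finset.sum_congr rfl fun B' _ => ?_
    by_cases hb : B ⊆ ω
    · by_cases hb' : B' ⊆ ω
      · rw [if_pos hb, if_pos hb', if_pos (Finset.union_subset hb hb')]
        ring
      · rw [if_neg hb', if_neg (fun h => hb' (Finset.union_subset_right h))]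
        ring
    · rw [if_neg hb, if_neg (fun h => hb (Finset.union_subset_left h))]
      ring
  rw [Finset.sum_congr rfl h2, Finset.sum_comm]
  refine Finset.sum_congr rfl fun B hB => ?_
  rw [Finset.sum_comm]
  refine Finset.sum_congr rfl fun B' hB' => ?_
  rw [← Finset.mul_sum, h1 B hB B' hB']

end Pool.Agent.Work.MP_73869e_nt.TH
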