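import Mathlib
import Pool.Agent.Work.MP_73869e_nt.TH.T01

set_option autoImplicit false

/-!
MODULE T04 (size of the coefficients).
-/

namespace Pool.Agent.Work.MP_73869e_nt.TH

open Finset Pool.Agent.Work.MP_2dba45_nt.BilDef Pool.Agent.Work.MP_2dba45_nt.Sv

private theorem ga_nn {K : ℕ} (γ : ℕ → ℝ) (P : Finset ℕ) (hγ : ∀ p ∈ P, 0 ≤ γ p)
    (A : Finset (ℕ × Fin K)) (hA : ∀ a ∈ A, a.1 ∈ P) : 0 ≤ ga γ A :=
  Finset.prod_nonneg fun a ha => hγ _ (hA a ha)

private theorem sum_ga_le {K : ℕ} (γ : ℕ → ℝ) (P : Finset ℕ) (hγ : ∀ p ∈ P, 0 ≤ γ p) (c S : ℝ)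
    (hc : 0 ≤ c) (hS : ∑ p ∈ P, γ p ≤ S) :
    ∑ A ∈ LS K P, ∏ a ∈ A, (c * γ a.1) ≤ Real.exp (c * K * S) := by
  rw [sum_LS_prod P (fun a => c * γ a.1)]
  calc ∏ p ∈ P, (1 + ∑ i : Fin K, c * γ (p, i).1)
      ≤ ∏ p ∈ P, Real.exp (c * K * γ p) := by
        apply Finset.prod_le_prod
        · intro p hp
          have : 0 ≤ ∑ i : Fin K, c * γ (p, i).1 :=
            Finset.sum_nonneg fun i _ => mul_nonneg hc (hγ p hp)
          linarith
        · intro p _
          simp only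
          rw [Finset.sum_const, Finset.card_univ, Fintype.card_fin, nsmul_eq_mul]
          have := Real.add_one_le_exp (c * K * γ p)
          have e : (K : ℝ) * (c * γ p) = c * K * γ p := by ring
          rw [e]
          linarith
    _ = Real.exp (c * K * ∑ p ∈ P, γ p) := by
        rw [← Real.exp_sum, Finset.mul_sum]
    _ ≤ Real.exp (c * K * S) := by
        apply Real.exp_le_exp.2
        apply mul_le_mul_of_nonneg_left hS
        positivity

theorem la_le {K : ℕ} (γ : ℕ → ℝ) (P : Finset ℕ) (hγ : ∀ p ∈ P, 0 ≤ γ p) (S : ℝ)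
    (hS : ∑ p ∈ P, γ p ≤ S) (Y : Finset (ℕ × Fin K) → ℝ) (Y₀ : ℝ) (hY : ∀ A, |Y A| ≤ Y₀)
    (B : Finset (ℕ × Fin K)) :
    |la γ P Y B| ≤ Y₀ * Real.exp (K * S) := by
  have hY0 : 0 ≤ Y₀ := (abs_nonneg _).trans (hY ∅)
  unfold la
  rw [abs_mul, abs_pow, abs_neg, abs_one, one_pow, one_mul]
  have hnn : ∀ A ∈ LS K P, ∀ C ⊆ A, 0 ≤ ga γ C := fun A hA C hC =>
    ga_nn γ P hγ C fun a ha => (mem_LS.1 hA).1 a (hC ha)
  calc |∑ A ∈ (LS K P).filter (fun A => B ⊆ A), Y A * ga γ (A \ B)|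
      ≤ ∑ A ∈ (LS K P).filter (fun A => B ⊆ A), |Y A * ga γ (A \ B)| :=
        Finset.abs_sum_le_sum_abs _ _
    _ ≤ ∑ A ∈ (LS K P).filter (fun A => B ⊆ A), Y₀ * ga γ (A \ B) := by
        refine Finset.sum_le_sum fun A hA => ?_
        rw [mem_filter] at hA
        have h1 := hnn A hA.1 (A \ B) Finset.sdiff_subset
        rw [abs_mul, abs_of_nonneg h1]
        exact mul_le_mul_of_nonneg_right (hY A) h1
    _ = Y₀ * ∑ A ∈ (LS K P).filter (fun A => B ⊆ A), ga γ (A \ B) := by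
        rw [Finset.mul_sum]
    _ = Y₀ * ∑ C ∈ ((LS K P).filter (fun A => B ⊆ A)).image (fun A => A \ B), ga γ C := by
        congr 1
        rw [Finset.sum_image]
        intro A hA A' hA' h
        have h1 := (mem_filter.1 (Finset.mem_coe.1 hA)).2
        have h2 := (mem_filter.1 (Finset.mem_coe.1 hA')).2
        simp only at h
        rw [← Finset.sdiff_union_of_subset h1, ← Finset.sdiff_union_of_subset h2, h]
    _ ≤ Y₀ * ∑ C ∈ LS K P, ga γ C := by
        apply mul_le_mul_of_nonneg_left _ hY0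
        apply Finset.sum_le_sum_of_subset_of_nonneg
        · intro C hC
          obtain ⟨A, hA, rfl⟩ := mem_image.1 hC
          have hA1 := mem_LS.1 (mem_filter.1 hA).1
          rw [mem_LS]
          exact ⟨fun a ha => hA1.1 a (mem_sdiff.1 ha).1,
            fun a ha b hb => hA1.2 a (mem_sdiff.1 ha).1 b (mem_sdiff.1 hb).1⟩
        · intro C hC _
          exact hnn C hC C (Finset.Subset.refl _)
    _ ≤ Y₀ * Real.exp (K * S) := by
        apply mul_le_mul_of_nonneg_left _ hY0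
        have h := sum_ga_le (K := K) γ P hγ 1 S zero_le_one hS
        simp only [one_mul] at h
        exact h

theorem la_supp {K : ℕ} (γ : ℕ → ℝ) (P : Finset ℕ) (hP : ∀ p ∈ P, 1 ≤ p) (R : ℝ)
    (Y : Finset (ℕ × Fin K) → ℝ) (hY : ∀ A, Y A ≠ 0 → (pr A : ℝ) ≤ R) (B : Finset (ℕ × Fin K))
    (hB : la γ P Y B ≠ 0) : (pr B : ℝ) ≤ R := by
  unfold la at hB
  have h1 : ∑ A ∈ (LS K P).filter (fun A => B ⊆ A), Y A * ga γ (A \ B) ≠ 0 := by
    intro h
    apply hB
    rw [h, mul_zero]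
  obtain ⟨A, hA, hA'⟩ := Finset.exists_ne_zero_of_sum_ne_zero h1
  rw [mem_filter] at hA
  have h2 : Y A ≠ 0 := fun h => hA' (by rw [h, zero_mul])
  refine le_trans ?_ (hY A h2)
  have h3 : pr B ≤ pr A := by
    unfold pr
    apply Finset.prod_le_prod_of_subset_of_one_le' hA.2
    intro a ha _
    exact hP _ ((mem_LS.1 hA.1).1 a ha)
  exact_mod_cast h3

theorem la_sum {K : ℕ} (γ : ℕ → ℝ) (P : Finset ℕ) (hP : ∀ p ∈ P, 1 ≤ p) (hγ : ∀ p ∈ P, 0 ≤ γ p)
    (S S' R : ℝ) (hS : ∑ p ∈ P, γ p ≤ S) (hS' : ∑ p ∈ P, 1 / (p : ℝ) ≤ S')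
    (Y : Finset (ℕ × Fin K) → ℝ) (Y₀ : ℝ) (hY : ∀ A, |Y A| ≤ Y₀)
    (hYR : ∀ A, Y A ≠ 0 → (pr A : ℝ) ≤ R) :
    ∑ B ∈ LS K P, |la γ P Y B| * pr B ≤ Y₀ * Real.exp (K * S) * (R ^ 2 * Real.exp (K * S')) := by
  have hY0 : 0 ≤ Y₀ := (abs_nonneg _).trans (hY ∅)
  have hE : 0 ≤ Y₀ * Real.exp (K * S) := mul_nonneg hY0 (Real.exp_pos _).le
  have hgi : ∀ B ∈ LS K P, 0 ≤ ga (fun p => 1 / (p : ℝ)) B := fun B _ =>
    Finset.prod_nonneg fun a _ => by positivity
  calc ∑ B ∈ LS K P, |la γ P Y B| * pr B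
      ≤ ∑ B ∈ LS K P, Y₀ * Real.exp (K * S) * (R ^ 2 * ga (fun p => 1 / (p : ℝ)) B) := by
        refine Finset.sum_le_sum fun B hB => ?_
        by_cases h0 : la γ P Y B = 0
        · rw [h0, abs_zero, zero_mul]
          exact mul_nonneg hE (mul_nonneg (sq_nonneg _) (hgi B hB))
        · have h1 := la_supp γ P hP R Y hYR B h0
          have h2 := la_le γ P hγ S hS Y Y₀ hY B
          have hpr : (0 : ℝ) < pr B := by
            unfold pr
            rw [Nat.cast_prod]
            apply Finset.prod_pos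
            intro a ha
            have := hP _ ((mem_LS.1 hB).1 a ha)
            exact_mod_cast this
          have h3 : ga (fun p => 1 / (p : ℝ)) B = 1 / (pr B : ℝ) := by
            unfold ga pr
            rw [Nat.cast_prod, Finset.prod_div_distrib, Finset.prod_const_one]
          apply mul_le_mul h2 _ hpr.le hE
          rw [h3, mul_one_div, le_div_iff₀ hpr, ← sq]
          exact pow_le_pow_left₀ hpr.le h1 2
    _ = Y₀ * Real.exp (K * S) * (R ^ 2 * ∑ B ∈ LS K P, ga (fun p => 1 / (p : ℝ)) B) := by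
        rw [Finset.mul_sum, Finset.mul_sum]
    _ ≤ _ := by
        apply mul_le_mul_of_nonneg_left _ hE
        apply mul_le_mul_of_nonneg_left _ (sq_nonneg _)
        have h := sum_ga_le (K := K) (fun p => 1 / (p : ℝ)) P (fun p _ => by positivity) 1 S'
          zero_le_one hS'
        simp only [one_mul] at h
        exact h

private theorem nat_le_pow (n : ℕ) : (n : ℝ) ≤ (3 / 2 : ℝ) ^ n := by
  rcases Nat.lt_or_ge n 2 with h | h
  · interval_cases n <;> norm_num
  · induction n, h using Nat.le_induction with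
    | base => norm_num
    | succ n hn ih =>
      rw [pow_succ]
      push_cast
      have : (2 : ℝ) ≤ n := by exact_mod_cast hn
      nlinarith

theorem la_pair {K : ℕ} (γ : ℕ → ℝ) (P : Finset ℕ) (hγ : ∀ p ∈ P, 0 ≤ γ p)
    (S : ℝ) (hS : ∑ p ∈ P, γ p ≤ S)
    (Y : Finset (ℕ × Fin K) → ℝ) (Y₀ : ℝ) (hY : ∀ A, |Y A| ≤ Y₀) :
    ∑ B ∈ LS K P, ∑ B' ∈ LS K P, |la γ P Y B| * |la γ P Y B'| *
      (if Lab (B ∪ B') then ga γ (B ∪ B') * #(B ∪ B') else 0) ≤
      (Y₀ * Real.exp (K * S)) ^ 2 * Real.exp (6 * K * S) := by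
  have hY0 : 0 ≤ Y₀ := (abs_nonneg _).trans (hY ∅)
  have hE : 0 ≤ Y₀ * Real.exp (K * S) := mul_nonneg hY0 (Real.exp_pos _).le
  have hun : ∀ B ∈ LS K P, ∀ B' ∈ LS K P, ∀ a ∈ B ∪ B', a.1 ∈ P := by
    intro B hB B' hB' a ha
    rcases mem_union.1 ha with h | h
    · exact (mem_LS.1 hB).1 a h
    · exact (mem_LS.1 hB').1 a h
  have hnn : ∀ C ∈ LS K P, 0 ≤ ga γ C := fun C hC => ga_nn γ P hγ C (mem_LS.1 hC).1
  calc ∑ B ∈ LS K P, ∑ B' ∈ LS K P, |la γ P Y B| * |la γ P Y B'| *
        (if Lab (B ∪ B') then ga γ (B ∪ B') * #(B ∪ B') else 0)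
      ≤ ∑ B ∈ LS K P, ∑ B' ∈ LS K P, (Y₀ * Real.exp (K * S)) ^ 2 *
        (if Lab (B ∪ B') then ga γ (B ∪ B') * #(B ∪ B') else 0) := by
        refine Finset.sum_le_sum fun B hB => Finset.sum_le_sum fun B' hB' => ?_
        apply mul_le_mul_of_nonneg_right
        · rw [sq]
          exact mul_le_mul (la_le γ P hγ S hS Y Y₀ hY B) (la_le γ P hγ S hS Y Y₀ hY B')
            (abs_nonneg _) hE
        · split_ifs
          · exact mul_nonneg (ga_nn γ P hγ _ (hun B hB B' hB')) (Nat.cast_nonneg _)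
          · exact le_refl _
    _ = (Y₀ * Real.exp (K * S)) ^ 2 * ∑ B ∈ LS K P, ∑ B' ∈ LS K P,
        (if Lab (B ∪ B') then ga γ (B ∪ B') * #(B ∪ B') else 0) := by
        rw [Finset.mul_sum]
        exact Finset.sum_congr rfl fun B _ => by rw [Finset.mul_sum]
    _ ≤ _ := by
        apply mul_le_mul_of_nonneg_left _ (sq_nonneg _)
        rw [← Finset.sum_product']
        rw [← Finset.sum_filter]
        have hmap : ∀ x ∈ (LS K P ×ˢ LS K P).filter (fun x => Lab (x.1 ∪ x.2)),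
            x.1 ∪ x.2 ∈ LS K P := by
          intro x hx
          rw [mem_filter, mem_product] at hx
          rw [mem_LS]
          exact ⟨hun x.1 hx.1.1 x.2 hx.1.2, hx.2⟩
        rw [← Finset.sum_fiberwise_of_maps_to hmap]
        calc ∑ C ∈ LS K P, ∑ x ∈ (((LS K P ×ˢ LS K P).filter
              (fun x => Lab (x.1 ∪ x.2))).filter (fun x => x.1 ∪ x.2 = C)),
              ga γ (x.1 ∪ x.2) * (#(x.1 ∪ x.2) : ℝ)
            ≤ ∑ C ∈ LS K P, ∏ a ∈ C, (6 * γ a.1) := by
              refine Finset.sum_le_sum fun C hC => ?_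
              have h1 : ∑ x ∈ (((LS K P ×ˢ LS K P).filter
                  (fun x => Lab (x.1 ∪ x.2))).filter (fun x => x.1 ∪ x.2 = C)),
                  ga γ (x.1 ∪ x.2) * (#(x.1 ∪ x.2) : ℝ) =
                  ∑ x ∈ (((LS K P ×ˢ LS K P).filter
                  (fun x => Lab (x.1 ∪ x.2))).filter (fun x => x.1 ∪ x.2 = C)),
                  ga γ C * (#C : ℝ) := by
                refine Finset.sum_congr rfl fun x hx => ?_
                rw [(mem_filter.1 hx).2]
              rw [h1, Finset.sum_const, nsmul_eq_mul]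
              have h2 : #(((LS K P ×ˢ LS K P).filter
                  (fun x => Lab (x.1 ∪ x.2))).filter (fun x => x.1 ∪ x.2 = C)) ≤
                  2 ^ #C * 2 ^ #C := by
                rw [← Finset.card_powerset, ← Finset.card_product]
                apply Finset.card_le_card
                intro x hx
                rw [mem_filter] at hx
                rw [mem_product, mem_powerset, mem_powerset, ← hx.2]
                exact ⟨Finset.subset_union_left, Finset.subset_union_right⟩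
              have h3 : ((#(((LS K P ×ˢ LS K P).filter
                  (fun x => Lab (x.1 ∪ x.2))).filter (fun x => x.1 ∪ x.2 = C)) : ℕ) : ℝ) ≤
                  2 ^ #C * 2 ^ #C := by exact_mod_cast h2
              have h4 := nat_le_pow #C
              have h5 := hnn C hC
              rw [Finset.prod_mul_distrib, Finset.prod_const]
              calc _ ≤ (2 ^ #C * 2 ^ #C : ℝ) * (ga γ C * (3 / 2 : ℝ) ^ #C) := by
                    apply mul_le_mul h3 _ (mul_nonneg h5 (Nat.cast_nonneg _)) (by positivity)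
                    exact mul_le_mul_of_nonneg_left h4 h5
                _ = 6 ^ #C * ∏ a ∈ C, γ a.1 := by
                    have : (6 : ℝ) = 2 * 2 * (3 / 2) := by norm_num
                    rw [this, mul_pow, mul_pow]
                    unfold ga
                    ring
          _ ≤ Real.exp (6 * K * S) := sum_ga_le γ P hγ 6 S (by norm_num) hS

end Pool.Agent.Work.MP_73869e_nt.TH
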