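import Mathlib
import Pool.Agent.Work.MP_73869e_nt.TH.TDef
import Pool.Agent.Work.MP_2dba45_nt.Crt

set_option autoImplicit false

/-!
MODULE T14 (number of residue classes), size M.
Crt.card_crt (Pool.Agent.Work.MP_2dba45_nt.Crt) with T = d ∪ C.image Prod.fst (disjoint: the primes of d are
below z₀, those of C at least z₀), bad p t := if p in d then p ∣ prod over i of (t^2 + (g i)^2) else
for all a in C with a.1 = p, p ∣ t^2 + (g a.2)^2. For p = a.1 (unique a, C is Lab) the local count is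
nu ((g a.2)^2) p = nu 1 p (nu_not_dvd of SK.LocK; p does not divide g a.2 as g a.2 < z₀ <= p).
-/

namespace Pool.Agent.Work.MP_73869e_nt.TH

open Finset Pool.Agent.Work.MP_2dba45_nt.BilDef Pool.Agent.Work.MP_2dba45_nt.Sv

private theorem T14_mod (p t a : ℕ) : p ∣ t ^ 2 + a ↔ p ∣ (t % p) ^ 2 + a := by
  have h : t ^ 2 + a ≡ (t % p) ^ 2 + a [MOD p] := ((Nat.mod_modEq t p).symm.pow 2).add_right a
  exact h.dvd_iff dvd_rfl

private theorem T14_modprod {K : ℕ} (g : Fin K → ℕ) (p t : ℕ) :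
    p ∣ ∏ i, (t ^ 2 + (g i) ^ 2) ↔ p ∣ ∏ i, ((t % p) ^ 2 + (g i) ^ 2) := by
  have h : ∏ i, (t ^ 2 + (g i) ^ 2) ≡ ∏ i, ((t % p) ^ 2 + (g i) ^ 2) [MOD p] := by
    rw [← ZMod.natCast_eq_natCast_iff]
    push_cast
    refine prod_congr rfl fun i _ => ?_
    rw [ZMod.natCast_mod]
  exact h.dvd_iff dvd_rfl

open Pool.Agent.Work.MP_2dba45_nt in
theorem cls {K : ℕ} (z₀ : ℕ) (g : Fin K → ℕ) (hg : ∀ i, 1 ≤ g i ∧ g i < z₀) (d : Finset ℕ)
    (hd : ∀ p ∈ d, p.Prime ∧ p < z₀) (C : Finset (ℕ × Fin K)) (hC : Lab C)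
    (hCp : ∀ a ∈ C, a.1.Prime ∧ z₀ ≤ a.1) :
    #((range ((∏ p ∈ d, p) * pr C)).filter (fun c => (∀ p ∈ d, p ∣ ∏ i, (c ^ 2 + (g i) ^ 2)) ∧
      ∀ a ∈ C, a.1 ∣ c ^ 2 + (g a.2) ^ 2)) = (∏ p ∈ d, rh g p) * ∏ a ∈ C, Nu.nu 1 a.1 := by
  classical
  have hinj : Set.InjOn Prod.fst (C : Set (ℕ × Fin K)) := fun a ha b hb h => hC a ha b hb h
  have hdis : Disjoint d (C.image Prod.fst) := by
    rw [Finset.disjoint_left]
    intro p hp hp2
    obtain ⟨a, ha, rfl⟩ := mem_image.1 hp2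
    have h1 := (hd _ hp).2
    have h2 := (hCp a ha).2
    omega
  have hnd : ∀ a ∈ C, a.1 ∉ d := by
    intro a ha h
    have h1 := (hd _ h).2
    have h2 := (hCp a ha).2
    omega
  obtain ⟨bad, hbd, hbC⟩ : ∃ bad : ℕ → ℕ → Prop,
      (∀ p ∈ d, ∀ t, bad p t ↔ p ∣ ∏ i, (t ^ 2 + (g i) ^ 2)) ∧
      (∀ a ∈ C, ∀ t, bad a.1 t ↔ a.1 ∣ t ^ 2 + (g a.2) ^ 2) := by
    refine ⟨fun p t => if p ∈ d then p ∣ ∏ i, (t ^ 2 + (g i) ^ 2) else
      ∀ a ∈ C, a.1 = p → p ∣ t ^ 2 + (g a.2) ^ 2, ?_, ?_⟩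
    · intro p hp t
      beta_reduce
      rw [if_pos hp]
    · intro a ha t
      beta_reduce
      rw [if_neg (hnd a ha)]
      constructor
      · intro h
        exact h a ha rfl
      · intro h b hb hba
        rw [hC b hb a ha hba]
        exact h
  have hTp : ∀ p ∈ d ∪ C.image Prod.fst, p.Prime := by
    intro p hp
    rcases mem_union.1 hp with h | h
    · exact (hd p h).1
    · obtain ⟨a, ha, rfl⟩ := mem_image.1 h
      exact (hCp a ha).1
  have hper : ∀ p ∈ d ∪ C.image Prod.fst, ∀ t, bad p t ↔ bad p (t % p) := by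
    intro p hp t
    rcases mem_union.1 hp with h | h
    · rw [hbd p h, hbd p h]
      exact T14_modprod g p t
    · obtain ⟨a, ha, rfl⟩ := mem_image.1 h
      rw [hbC a ha, hbC a ha]
      exact T14_mod _ _ _
  have key := Crt.card_crt bad (d ∪ C.image Prod.fst) hTp hper
  rw [prod_union hdis, prod_union hdis, prod_image hinj, prod_image hinj] at key
  have e1 : ∏ p ∈ d, Crt.rho bad p = ∏ p ∈ d, rh g p := by
    refine prod_congr rfl fun p hp => ?_
    unfold Crt.rho rh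
    congr 1
    ext x
    rw [mem_filter, mem_filter, hbd p hp]
  have e2 : ∏ a ∈ C, Crt.rho bad a.1 = ∏ a ∈ C, Nu.nu 1 a.1 := by
    refine prod_congr rfl fun a ha => ?_
    have hp := hCp a ha
    have h1 : ¬ a.1 ∣ g a.2 := by
      intro h
      have h2 := Nat.le_of_dvd (by have := (hg a.2).1; omega) h
      have h3 := (hg a.2).2
      omega
    rw [← SK.nu_not_dvd hp.1 h1]
    unfold Crt.rho Nu.nu
    congr 1
    ext x
    rw [mem_filter, mem_filter, hbC a ha]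
  rw [e1, e2] at key
  rw [← key]
  unfold pr
  congr 1
  ext c
  rw [mem_filter, mem_filter]
  refine and_congr_right fun _ => ?_
  constructor
  · rintro ⟨h1, h2⟩ p hp
    rcases mem_union.1 hp with h | h
    · rw [hbd p h]; exact h1 p h
    · obtain ⟨a, ha, rfl⟩ := mem_image.1 h
      rw [hbC a ha]; exact h2 a ha
  · intro h
    refine ⟨fun p hp => (hbd p hp c).1 (h p (mem_union_left _ hp)), fun a ha => ?_⟩
    exact (hbC a ha c).1 (h a.1 (mem_union_right _ (mem_image_of_mem _ ha)))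

end Pool.Agent.Work.MP_73869e_nt.TH
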