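import Mathlib
import Pool.Agent.Work.MP_73869e_nt.TH.T14
import Pool.Agent.Work.MP_2dba45_nt.Sv.Final

set_option autoImplicit false

/-!
MODULE T15 (the counting lemma).
-/

namespace Pool.Agent.Work.MP_73869e_nt.TH

open Finset Pool.Agent.Work.MP_2dba45_nt.BilDef Pool.Agent.Work.MP_2dba45_nt.Sv

theorem t15_sqf (s : Finset ℕ) (hs : ∀ p ∈ s, p.Prime) : Squarefree (∏ p ∈ s, p) := by
  refine Finset.squarefree_prod_of_pairwise_isCoprime (f := fun p : ℕ => p) ?_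
    (fun p hp => (hs p hp).prime.squarefree)
  intro p hp q hq hpq
  exact Nat.coprime_iff_isRelPrime.1 ((Nat.coprime_primes (hs p hp) (hs q hq)).2 hpq)

theorem t15_pr {K : ℕ} (C : Finset (ℕ × Fin K)) (hC : Lab C) :
    pr C = ∏ p ∈ C.image Prod.fst, p := by
  unfold pr
  rw [Finset.prod_image]
  intro a ha b hb h
  exact hC a ha b hb h

theorem t15_per {K : ℕ} (g : Fin K → ℕ) (p r n : ℕ) (h : p ∣ r) :
    p ∣ ∏ i, ((n % r) ^ 2 + (g i) ^ 2) ↔ p ∣ ∏ i, (n ^ 2 + (g i) ^ 2) := by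
  have h1 : n % r ≡ n [MOD p] := (Nat.mod_modEq n r).of_dvd h
  have h2 : ∏ i, ((n % r) ^ 2 + (g i) ^ 2) ≡ ∏ i, (n ^ 2 + (g i) ^ 2) [MOD p] := by
    rw [← Int.natCast_modEq_iff] at h1 ⊢
    push_cast at h1 ⊢
    have : ∀ s : Finset (Fin K), ∏ i ∈ s, (((n : ℤ) % r) ^ 2 + (g i : ℤ) ^ 2) ≡
        ∏ i ∈ s, ((n : ℤ) ^ 2 + (g i : ℤ) ^ 2) [ZMOD p] := by
      classical
      intro s
      induction s using Finset.induction_on with
      | empty => simp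
      | insert a s ha ih =>
        rw [Finset.prod_insert ha, Finset.prod_insert ha]
        exact ((h1.pow 2).add_right _).mul ih
    exact this univ
  exact h2.dvd_iff dvd_rfl

theorem t15_per1 (g p r n : ℕ) (h : p ∣ r) :
    p ∣ (n % r) ^ 2 + g ^ 2 ↔ p ∣ n ^ 2 + g ^ 2 := by
  have h1 : n % r ≡ n [MOD p] := (Nat.mod_modEq n r).of_dvd h
  exact ((h1.pow 2).add_right _).dvd_iff dvd_rfl

theorem t15_excl (z₀ p n a b : ℕ) (hab : a ≠ b) (ha : a ^ 2 < z₀) (hb : b ^ 2 < z₀) (hp : z₀ ≤ p)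
    (h1 : p ∣ n ^ 2 + a ^ 2) (h2 : p ∣ n ^ 2 + b ^ 2) : False := by
  have h : a ^ 2 ≡ b ^ 2 [MOD p] := by
    have h3 : n ^ 2 + a ^ 2 ≡ n ^ 2 + b ^ 2 [MOD p] :=
      ((Nat.modEq_zero_iff_dvd).2 h1).trans ((Nat.modEq_zero_iff_dvd).2 h2).symm
    exact Nat.ModEq.add_left_cancel' _ h3
  have h4 := h
  unfold Nat.ModEq at h4
  rw [Nat.mod_eq_of_lt (ha.trans_le hp), Nat.mod_eq_of_lt (hb.trans_le hp)] at h4
  exact hab (Nat.pow_left_injective (by norm_num) h4)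

/-- the residue classes -/
noncomputable def t15C {K : ℕ} (g : Fin K → ℕ) (d : Finset ℕ) (C : Finset (ℕ × Fin K)) :
    Finset ℕ :=
  (range ((∏ p ∈ d, p) * pr C)).filter (fun c => (∀ p ∈ d, p ∣ ∏ i, (c ^ 2 + (g i) ^ 2)) ∧
      ∀ a ∈ C, a.1 ∣ c ^ 2 + (g a.2) ^ 2)

open Classical in
theorem t15_count {K : ℕ} (z₀ : ℕ) (g : Fin K → ℕ) (hg : ∀ i, 1 ≤ g i ∧ g i < z₀) (j : Fin K)
    (W : ℕ → ℝ) (N : ℕ) (d T : Finset ℕ) (hd : ∀ p ∈ d, p.Prime ∧ p < z₀)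
    (C : Finset (ℕ × Fin K)) (hC : Lab C) (hCp : ∀ a ∈ C, a.1.Prime ∧ z₀ ≤ a.1)
    (hT : ∀ p ∈ T, p.Prime) :
    ∑ n ∈ Ioc N (2 * N), (if ∀ p ∈ d, p ∣ ∏ i, (n ^ 2 + (g i) ^ 2) then (1 : ℝ) else 0) *
        (if ∀ a ∈ C, a.1 ∣ n ^ 2 + (g a.2) ^ 2 then (1 : ℝ) else 0) *
        (if ∀ p ∈ T, p ∣ n ^ 2 + (g j) ^ 2 then (1 : ℝ) else 0) * W n =
      (∏ p ∈ d, gr g p) * ga g1 C * GG T * (∑ n ∈ Ioc N (2 * N), W n) +
        ∑ c ∈ t15C g d C, BG.RemG W N (∏ p ∈ T, p) (g j) ((∏ p ∈ d, p) * pr C) c := by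
  set r := (∏ p ∈ d, p) * pr C with hr
  set D := ∏ p ∈ T, p with hD
  have hd0 : 0 < ∏ p ∈ d, p :=
    Nat.pos_of_ne_zero (Finset.prod_ne_zero_iff.2 fun p hp => (hd p hp).1.ne_zero)
  have hC0 : 0 < pr C :=
    Nat.pos_of_ne_zero (Finset.prod_ne_zero_iff.2 fun p hp => (hCp p hp).1.ne_zero)
  have hr0 : 0 < r := Nat.mul_pos hd0 hC0
  have hD0 : 0 < D := Nat.pos_of_ne_zero (Finset.prod_ne_zero_iff.2 fun p hp => (hT p hp).ne_zero)
  have hdr : ∀ p ∈ d, p ∣ r := fun p hp =>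
    (Finset.dvd_prod_of_mem (fun q => q) hp).trans (Dvd.intro _ rfl)
  have hCr : ∀ a ∈ C, a.1 ∣ r := fun a ha =>
    (Finset.dvd_prod_of_mem (fun a : ℕ × Fin K => a.1) ha).trans (Dvd.intro_left _ rfl)
  have h1 : ∑ c ∈ t15C g d C, ∑ n ∈ (Ioc N (2 * N)).filter
        (fun n => n ≡ c [MOD r] ∧ D ∣ n ^ 2 + (g j) ^ 2), W n =
      ∑ n ∈ Ioc N (2 * N), (if ∀ p ∈ d, p ∣ ∏ i, (n ^ 2 + (g i) ^ 2) then (1 : ℝ) else 0) *
        (if ∀ a ∈ C, a.1 ∣ n ^ 2 + (g a.2) ^ 2 then (1 : ℝ) else 0) *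
        (if ∀ p ∈ T, p ∣ n ^ 2 + (g j) ^ 2 then (1 : ℝ) else 0) * W n := by
    simp_rw [Finset.sum_filter]
    rw [Finset.sum_comm]
    refine Finset.sum_congr rfl fun n _ => ?_
    have hmem : n % r ∈ t15C g d C ↔ (∀ p ∈ d, p ∣ ∏ i, (n ^ 2 + (g i) ^ 2)) ∧
        ∀ a ∈ C, a.1 ∣ n ^ 2 + (g a.2) ^ 2 := by
      unfold t15C
      rw [Finset.mem_filter, Finset.mem_range, and_iff_right (Nat.mod_lt n hr0)]
      refine and_congr ?_ ?_
      · exact forall₂_congr fun p hp => t15_per g p r n (hdr p hp)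
      · exact forall₂_congr fun a ha => t15_per1 (g a.2) a.1 r n (hCr a ha)
    have hlt : ∀ c ∈ t15C g d C, c < r := fun c hc => by
      unfold t15C at hc
      exact Finset.mem_range.1 (Finset.mem_filter.1 hc).1
    by_cases hn : (∀ p ∈ d, p ∣ ∏ i, (n ^ 2 + (g i) ^ 2)) ∧ ∀ a ∈ C, a.1 ∣ n ^ 2 + (g a.2) ^ 2
    · rw [if_pos hn.1, if_pos hn.2, one_mul, one_mul, Finset.sum_eq_single (n % r)]
      · have : n ≡ n % r [MOD r] := (Nat.mod_modEq n r).symm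
        by_cases h2 : D ∣ n ^ 2 + (g j) ^ 2
        · rw [if_pos ⟨this, h2⟩, if_pos ((pre_dvd hT _).1 h2), one_mul]
        · rw [if_neg (fun h => h2 h.2), if_neg (fun h => h2 ((pre_dvd hT _).2 h)), zero_mul]
      · intro c hc hcn
        rw [if_neg]
        rintro ⟨h2, _⟩
        apply hcn
        have h4 : n % r = c % r := h2
        rw [Nat.mod_eq_of_lt (hlt c hc)] at h4
        exact h4.symm
      · intro h2
        exact absurd (hmem.2 hn) h2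
    · have h0 : (if ∀ p ∈ d, p ∣ ∏ i, (n ^ 2 + (g i) ^ 2) then (1 : ℝ) else 0) *
          (if ∀ a ∈ C, a.1 ∣ n ^ 2 + (g a.2) ^ 2 then (1 : ℝ) else 0) = 0 := by
        by_cases h3 : ∀ p ∈ d, p ∣ ∏ i, (n ^ 2 + (g i) ^ 2)
        · rw [if_neg (fun h => hn ⟨h3, h⟩), mul_zero]
        · rw [if_neg h3, zero_mul]
      rw [h0, zero_mul, zero_mul]
      refine Finset.sum_eq_zero fun c hc => ?_
      rw [if_neg]
      rintro ⟨h2, _⟩
      apply hn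
      rw [← hmem]
      have h4 : n % r = c % r := h2
      rw [Nat.mod_eq_of_lt (hlt c hc)] at h4
      rw [h4]
      exact hc
  have h2 : (∏ p ∈ d, gr g p) * ga g1 C = (#(t15C g d C) : ℝ) / r := by
    have h5 : #(t15C g d C) = (∏ p ∈ d, rh g p) *
        ∏ a ∈ C, Pool.Agent.Work.MP_2dba45_nt.Nu.nu 1 a.1 := by
      rw [← cls z₀ g hg d hd C hC hCp]
      rfl
    rw [h5, hr]
    unfold ga gr pr g1
    push_cast
    rw [Finset.prod_div_distrib, Finset.prod_div_distrib, div_mul_div_comm]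
  have h3 : GG T = (#(Rt D) : ℝ) / D := by
    rw [hD, card_Rt T hT]
    push_cast
    rw [← Finset.prod_div_distrib]
    rfl
  unfold BG.RemG
  rw [Finset.sum_sub_distrib, h1, Finset.sum_const, nsmul_eq_mul, h2, h3]
  have hrR : (r : ℝ) ≠ 0 := by positivity
  have hDR : (D : ℝ) ≠ 0 := by positivity
  have h4 : (#(t15C g d C) : ℝ) / r * ((#(Rt D) : ℝ) / D) * (∑ n ∈ Ioc N (2 * N), W n) =
      #(t15C g d C) * ((#(Rt D) : ℝ) / (D * r) * ∑ n ∈ Ioc N (2 * N), W n) := by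
    field_simp
  rw [h4, add_sub_cancel]

open Classical in
theorem cnt {K : ℕ} (N z₀ : ℕ) (g : Fin K → ℕ) (j : Fin K) (W : ℕ → ℝ) (PT : Finset ℕ)
    (φ : Finset ℕ → ℝ) (lp : Finset ℕ → ℝ) (C : Finset (ℕ × Fin K)) (Bl D E : ℝ)
    (hg : ∀ i, 1 ≤ g i ∧ (g i) ^ 2 < z₀) (hinj : Function.Injective g)
    (hPT : ∀ p ∈ PT, p.Prime ∧ z₀ ≤ p) (hC : Lab C) (hCp : ∀ a ∈ C, a.1.Prime ∧ z₀ ≤ a.1)
    (hdis : ∀ a ∈ C, a.1 ∈ PT → a.2 ≠ j) (hBl : 0 ≤ Bl) (hD : 1 ≤ D) (hE0 : 0 ≤ E)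
    (hlp : ∀ d, |lp d| ≤ Bl) (hsupp : ∀ d, lp d ≠ 0 → ((∏ p ∈ d, p : ℕ) : ℝ) ≤ D)
    (hE : ∀ r c : ℕ, Squarefree r → (∀ p : ℕ, p.Prime → p ∣ r → p < z₀ ∨ p ∈ C.image Prod.fst) →
      (r : ℝ) ≤ D * pr C →
      |∑ T ∈ (PT \ C.image Prod.fst).powerset, φ T * BG.RemG W N (∏ p ∈ T, p) (g j) r c| ≤ E) :
    |∑ n ∈ Ioc N (2 * N), W n *
        ((∑ d ∈ (Pool.Agent.Work.MP_2dba45_nt.VV.PP z₀).powerset, lp d *
            (if ∀ p ∈ d, p ∣ ∏ i, (n ^ 2 + (g i) ^ 2) then (1 : ℝ) else 0)) *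
          (if ∀ a ∈ C, a.1 ∣ n ^ 2 + (g a.2) ^ 2 then (1 : ℝ) else 0) *
          (∑ T ∈ PT.powerset, φ T * (if ∀ p ∈ T, p ∣ n ^ 2 + (g j) ^ 2 then (1 : ℝ) else 0))) -
      (∑ d ∈ (Pool.Agent.Work.MP_2dba45_nt.VV.PP z₀).powerset, lp d * ∏ p ∈ d, gr g p) *
        ga g1 C * (∑ T ∈ (PT \ C.image Prod.fst).powerset, φ T * GG T) *
        ∑ n ∈ Ioc N (2 * N), W n| ≤ Bl * D * (D * pr C) * E := by
  set Q := PT \ C.image Prod.fst with hQ
  set 𝒟 := (Pool.Agent.Work.MP_2dba45_nt.VV.PP z₀).powerset with h𝒟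
  set X := ∑ n ∈ Ioc N (2 * N), W n with hX
  have hg' : ∀ i, 1 ≤ g i ∧ g i < z₀ := fun i => ⟨(hg i).1, by
    have := (hg i).2
    have h1 := (hg i).1
    nlinarith⟩
  have hdp : ∀ d ∈ 𝒟, ∀ p ∈ d, p.Prime ∧ p < z₀ := by
    intro d hd p hp
    rw [h𝒟, mem_powerset] at hd
    have := Pool.Agent.Work.MP_2dba45_nt.VV.mem_PP.1 (hd hp)
    exact ⟨this.2, this.1⟩
  have hQp : ∀ T ∈ Q.powerset, ∀ p ∈ T, p.Prime := by
    intro T hT p hp
    have := (mem_powerset.1 hT) hp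
    rw [hQ, mem_sdiff] at this
    exact (hPT p this.1).1
  -- step A
  have hA : ∀ n : ℕ, (if ∀ a ∈ C, a.1 ∣ n ^ 2 + (g a.2) ^ 2 then (1 : ℝ) else 0) *
      (∑ T ∈ PT.powerset, φ T * (if ∀ p ∈ T, p ∣ n ^ 2 + (g j) ^ 2 then (1 : ℝ) else 0)) =
      (if ∀ a ∈ C, a.1 ∣ n ^ 2 + (g a.2) ^ 2 then (1 : ℝ) else 0) *
      (∑ T ∈ Q.powerset, φ T * (if ∀ p ∈ T, p ∣ n ^ 2 + (g j) ^ 2 then (1 : ℝ) else 0)) := by
    intro n
    by_cases hc : ∀ a ∈ C, a.1 ∣ n ^ 2 + (g a.2) ^ 2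
    · rw [if_pos hc, one_mul, one_mul]
      symm
      refine Finset.sum_subset (Finset.powerset_mono.2 Finset.sdiff_subset) ?_
      intro T hT1 hT2
      have hT1' := mem_powerset.1 hT1
      have : ∃ p ∈ T, p ∈ C.image Prod.fst := by
        by_contra hcon
        push Not at hcon
        apply hT2
        rw [mem_powerset]
        intro p hp
        rw [hQ, mem_sdiff]
        exact ⟨hT1' hp, hcon p hp⟩
      obtain ⟨p, hp, hpC⟩ := this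
      rw [mem_image] at hpC
      obtain ⟨a, ha, rfl⟩ := hpC
      rw [if_neg, mul_zero]
      intro hall
      exact t15_excl z₀ a.1 n (g a.2) (g j)
        (fun h => hdis a ha (hT1' hp) (hinj h)) (hg _).2 (hg _).2 (hCp a ha).2 (hc a ha)
        (hall a.1 hp)
    · rw [if_neg hc, zero_mul, zero_mul]
  -- step B
  have hB : ∑ n ∈ Ioc N (2 * N), W n *
        ((∑ d ∈ 𝒟, lp d * (if ∀ p ∈ d, p ∣ ∏ i, (n ^ 2 + (g i) ^ 2) then (1 : ℝ) else 0)) *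
          (if ∀ a ∈ C, a.1 ∣ n ^ 2 + (g a.2) ^ 2 then (1 : ℝ) else 0) *
          (∑ T ∈ PT.powerset, φ T * (if ∀ p ∈ T, p ∣ n ^ 2 + (g j) ^ 2 then (1 : ℝ) else 0))) =
      (∑ d ∈ 𝒟, lp d * ∏ p ∈ d, gr g p) * ga g1 C * (∑ T ∈ Q.powerset, φ T * GG T) * X +
        ∑ d ∈ 𝒟, lp d * ∑ c ∈ t15C g d C, ∑ T ∈ Q.powerset,
          φ T * BG.RemG W N (∏ p ∈ T, p) (g j) ((∏ p ∈ d, p) * pr C) c := by
    have h1 : ∀ n, W n *
        ((∑ d ∈ 𝒟, lp d * (if ∀ p ∈ d, p ∣ ∏ i, (n ^ 2 + (g i) ^ 2) then (1 : ℝ) else 0)) *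
          (if ∀ a ∈ C, a.1 ∣ n ^ 2 + (g a.2) ^ 2 then (1 : ℝ) else 0) *
          (∑ T ∈ PT.powerset, φ T * (if ∀ p ∈ T, p ∣ n ^ 2 + (g j) ^ 2 then (1 : ℝ) else 0))) =
        ∑ d ∈ 𝒟, ∑ T ∈ Q.powerset, lp d * φ T *
          ((if ∀ p ∈ d, p ∣ ∏ i, (n ^ 2 + (g i) ^ 2) then (1 : ℝ) else 0) *
          (if ∀ a ∈ C, a.1 ∣ n ^ 2 + (g a.2) ^ 2 then (1 : ℝ) else 0) *
          (if ∀ p ∈ T, p ∣ n ^ 2 + (g j) ^ 2 then (1 : ℝ) else 0) * W n) := by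
      intro n
      rw [mul_assoc (∑ d ∈ 𝒟, _), hA n, mul_left_comm (∑ d ∈ 𝒟, _), Finset.sum_mul_sum,
        Finset.mul_sum, Finset.mul_sum]
      refine Finset.sum_congr rfl fun d _ => ?_
      rw [Finset.mul_sum, Finset.mul_sum]
      refine Finset.sum_congr rfl fun T _ => ?_
      ring
    simp_rw [h1]
    rw [Finset.sum_comm]
    have h2 : ∀ d ∈ 𝒟, ∑ n ∈ Ioc N (2 * N), ∑ T ∈ Q.powerset, lp d * φ T *
          ((if ∀ p ∈ d, p ∣ ∏ i, (n ^ 2 + (g i) ^ 2) then (1 : ℝ) else 0) *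
          (if ∀ a ∈ C, a.1 ∣ n ^ 2 + (g a.2) ^ 2 then (1 : ℝ) else 0) *
          (if ∀ p ∈ T, p ∣ n ^ 2 + (g j) ^ 2 then (1 : ℝ) else 0) * W n) =
        (lp d * ∏ p ∈ d, gr g p) * (ga g1 C * (∑ T ∈ Q.powerset, φ T * GG T) * X) +
          lp d * ∑ c ∈ t15C g d C, ∑ T ∈ Q.powerset,
            φ T * BG.RemG W N (∏ p ∈ T, p) (g j) ((∏ p ∈ d, p) * pr C) c := by
      intro d hd
      rw [Finset.sum_comm]
      have h3 : ∀ T ∈ Q.powerset, ∑ n ∈ Ioc N (2 * N), lp d * φ T *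
          ((if ∀ p ∈ d, p ∣ ∏ i, (n ^ 2 + (g i) ^ 2) then (1 : ℝ) else 0) *
          (if ∀ a ∈ C, a.1 ∣ n ^ 2 + (g a.2) ^ 2 then (1 : ℝ) else 0) *
          (if ∀ p ∈ T, p ∣ n ^ 2 + (g j) ^ 2 then (1 : ℝ) else 0) * W n) =
          (lp d * ∏ p ∈ d, gr g p) * (ga g1 C * (φ T * GG T) * X) +
          lp d * ∑ c ∈ t15C g d C, φ T *
            BG.RemG W N (∏ p ∈ T, p) (g j) ((∏ p ∈ d, p) * pr C) c := by
        intro T hT
        have hpc := t15_count z₀ g hg' j W N d T (hdp d hd) C hC hCp (hQp T hT)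
        rw [← Finset.mul_sum, hpc, ← Finset.mul_sum]
        ring
      rw [Finset.sum_congr rfl h3, Finset.sum_add_distrib, ← Finset.mul_sum, ← Finset.sum_mul,
        ← Finset.mul_sum, ← Finset.mul_sum]
      congr 2
      rw [Finset.sum_comm]
    rw [Finset.sum_congr rfl h2, Finset.sum_add_distrib, ← Finset.sum_mul]
    ring
  rw [hB, add_sub_cancel_left]
  -- the error
  have hpos : 0 ≤ D * pr C := mul_nonneg (by linarith) (Nat.cast_nonneg _)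
  have h1 : ∑ d ∈ 𝒟, lp d * ∑ c ∈ t15C g d C, ∑ T ∈ Q.powerset,
          φ T * BG.RemG W N (∏ p ∈ T, p) (g j) ((∏ p ∈ d, p) * pr C) c =
      ∑ d ∈ 𝒟.filter (fun d => lp d ≠ 0), lp d * ∑ c ∈ t15C g d C, ∑ T ∈ Q.powerset,
          φ T * BG.RemG W N (∏ p ∈ T, p) (g j) ((∏ p ∈ d, p) * pr C) c := by
    symm
    apply Finset.sum_subset (Finset.filter_subset _ _)
    intro d hd1 hd2
    rw [Finset.mem_filter, not_and_not_right] at hd2
    have : lp d = 0 := by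
      by_contra hcon
      exact absurd (hd2 hd1) (by simpa using hcon)
    rw [this, zero_mul]
  rw [h1]
  have h2 : ∀ d ∈ 𝒟.filter (fun d => lp d ≠ 0), |lp d * ∑ c ∈ t15C g d C, ∑ T ∈ Q.powerset,
          φ T * BG.RemG W N (∏ p ∈ T, p) (g j) ((∏ p ∈ d, p) * pr C) c| ≤
        Bl * (D * pr C * E) := by
    intro d hd1
    rw [Finset.mem_filter] at hd1
    have hdD := hsupp d hd1.2
    have hrle : (((∏ p ∈ d, p) * pr C : ℕ) : ℝ) ≤ D * pr C := by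
      push_cast
      push_cast at hdD
      exact mul_le_mul_of_nonneg_right hdD (Nat.cast_nonneg _)
    rw [abs_mul]
    apply mul_le_mul (hlp d) _ (abs_nonneg _) hBl
    refine (Finset.abs_sum_le_sum_abs _ _).trans ?_
    refine (Finset.sum_le_card_nsmul _ _ E fun c _ => ?_).trans ?_
    · apply hE _ _ ?_ ?_ hrle
      · rw [Nat.squarefree_mul]
        · refine ⟨t15_sqf d fun p hp => (hdp d hd1.1 p hp).1, ?_⟩
          rw [t15_pr C hC]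
          refine t15_sqf _ fun p hp => ?_
          rw [mem_image] at hp
          obtain ⟨a, ha, rfl⟩ := hp
          exact (hCp a ha).1
        · unfold pr
          refine Nat.Coprime.prod_left fun p hp => Nat.Coprime.prod_right fun a ha => ?_
          rw [Nat.coprime_primes (hdp d hd1.1 p hp).1 (hCp a ha).1]
          have h3 := (hdp d hd1.1 p hp).2
          have h4 := (hCp a ha).2
          omega
      · intro p hp hdvd
        rcases (Nat.Prime.dvd_mul hp).1 hdvd with h | h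
        · left
          obtain ⟨q, hq, hpq⟩ := (Prime.dvd_finsetProd_iff hp.prime _).1 h
          have := (Nat.prime_dvd_prime_iff_eq hp (hdp d hd1.1 q hq).1).1 hpq
          rw [this]
          exact (hdp d hd1.1 q hq).2
        · right
          obtain ⟨a, ha, hpa⟩ := (Prime.dvd_finsetProd_iff hp.prime _).1 h
          have := (Nat.prime_dvd_prime_iff_eq hp (hCp a ha).1).1 hpa
          rw [mem_image]
          exact ⟨a, ha, this.symm⟩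
    · rw [nsmul_eq_mul]
      apply mul_le_mul_of_nonneg_right _ hE0
      refine le_trans ?_ hrle
      have : #(t15C g d C) ≤ (∏ p ∈ d, p) * pr C := by
        unfold t15C
        refine (Finset.card_filter_le _ _).trans ?_
        rw [Finset.card_range]
      exact_mod_cast this
  refine (Finset.abs_sum_le_sum_abs _ _).trans ?_
  refine (Finset.sum_le_card_nsmul _ _ _ h2).trans ?_
  rw [nsmul_eq_mul]
  have h3 : (#(𝒟.filter (fun d => lp d ≠ 0)) : ℝ) ≤ D := by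
    have h4 : #(𝒟.filter (fun d => lp d ≠ 0)) ≤ #(Finset.Icc 1 ⌊D⌋₊) := by
      apply Finset.card_le_card_of_injOn (fun d => ∏ p ∈ d, p)
      · intro d hd1
        have hd2 := Finset.mem_filter.mp (Finset.mem_coe.mp hd1)
        rw [Finset.coe_Icc, Set.mem_Icc]
        refine ⟨Finset.prod_pos fun p hp => (hdp d hd2.1 p hp).1.pos, ?_⟩
        exact Nat.le_floor (hsupp d hd2.2)
      · intro d hd1 e he1 hde
        have hd2 := Finset.mem_filter.mp (Finset.mem_coe.mp hd1)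
        have he2 := Finset.mem_filter.mp (Finset.mem_coe.mp he1)
        have h5 := congrArg Nat.primeFactors hde
        rwa [Nat.primeFactors_prod (fun p hp => (hdp d hd2.1 p hp).1),
          Nat.primeFactors_prod (fun p hp => (hdp e he2.1 p hp).1)] at h5
    rw [Nat.card_Icc, Nat.add_sub_cancel] at h4
    exact le_trans (by exact_mod_cast h4) (Nat.floor_le (by linarith))
  calc (#(𝒟.filter (fun d => lp d ≠ 0)) : ℝ) * (Bl * (D * pr C * E)) ≤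
        D * (Bl * (D * pr C * E)) := by
        apply mul_le_mul_of_nonneg_right h3
        positivity
    _ = Bl * D * (D * pr C) * E := by ring

end Pool.Agent.Work.MP_73869e_nt.TH
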