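import Mathlib
import Pool.Agent.Work.MP_73869e_nt.TH.T01

set_option autoImplicit false

/-!
MODULE T05 (one label removed; pointwise bound), size M.
ff_Zj: A ↦ (A', U), A' = pairs of A with label ≠ j, U = primes with label j, is a bijection from LS K P to
pairs (A', U), A' in LS K P without label j, U ⊆ P \ (primes of A'). If ω has no label j, then
xx γ A ω = xx γ A' ω * prod over U of γ p.
la_Zj: if B has a label j and B ⊆ A then A has a label j, so Zj A = 0.
ff_le: |ff| <= Y₀ * sum over A of prod |γ a.1 - 1[a in ω]| = Y₀ * prod over p of (1 + sum_i |γ p - 1[(p,i) in ω]|)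
(sum_LS_prod of T01); the factor is at most 1 + K γ p if p is not a prime of ω, and at most 3 (1 + K γ p)
otherwise (ω has one label at p).
-/

namespace Pool.Agent.Work.MP_73869e_nt.TH

open Finset Pool.Agent.Work.MP_2dba45_nt.BilDef Pool.Agent.Work.MP_2dba45_nt.Sv

private theorem xx_split {K : ℕ} (γ : ℕ → ℝ) (j : Fin K) (ω A' : Finset (ℕ × Fin K)) (U : Finset ℕ)
    (hω : ∀ a ∈ ω, a.2 ≠ j) (hA' : ∀ a ∈ A', a.2 ≠ j) :
    xx γ (A' ∪ U.image (fun p => (p, j))) ω = xx γ A' ω * ∏ p ∈ U, γ p := by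
  unfold xx
  rw [Finset.prod_union, Finset.prod_image]
  · congr 1
    refine Finset.prod_congr rfl fun p _ => ?_
    rw [if_neg, sub_zero]
    intro h
    exact hω _ h rfl
  · intro p _ q _ hpq
    exact (Prod.ext_iff.1 hpq).1
  · rw [Finset.disjoint_left]
    intro a ha hb
    obtain ⟨p, _, rfl⟩ := mem_image.1 hb
    exact hA' _ ha rfl

theorem ff_Zj {K : ℕ} (γ : ℕ → ℝ) (P : Finset ℕ) (j : Fin K) (Y : Finset (ℕ × Fin K) → ℝ)
    (ω : Finset (ℕ × Fin K)) (hω : ∀ a ∈ ω, a.2 ≠ j) :
    ff γ P Y ω = ff γ P (Zj γ P j Y) ω := by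
  unfold ff
  have h1 : ∑ A ∈ LS K P, Zj γ P j Y A * xx γ A ω =
      ∑ A ∈ (LS K P).filter (fun A => ∀ a ∈ A, a.2 ≠ j),
        ∑ U ∈ (P \ A.image Prod.fst).powerset,
          Y (A ∪ U.image (fun p => (p, j))) * (xx γ A ω * ∏ p ∈ U, γ p) := by
    rw [← Finset.sum_filter_add_sum_filter_not (LS K P) (fun A => ∀ a ∈ A, a.2 ≠ j)]
    rw [Finset.sum_eq_zero (s := (LS K P).filter (fun A => ¬ ∀ a ∈ A, a.2 ≠ j)), add_zero]
    · refine Finset.sum_congr rfl fun A hA => ?_
      have h2 : ¬ ∃ a ∈ A, a.2 = j := by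
        rintro ⟨a, ha, hj⟩
        exact (mem_filter.1 hA).2 a ha hj
      unfold Zj
      rw [if_neg h2, Finset.sum_mul]
      refine Finset.sum_congr rfl fun U _ => ?_
      ring
    · intro A hA
      have h2 : ∃ a ∈ A, a.2 = j := by
        have := (mem_filter.1 hA).2
        push Not at this
        exact this
      unfold Zj
      rw [if_pos h2, zero_mul]
  rw [h1, Finset.sum_sigma']
  refine Finset.sum_nbij'
    (fun A => (⟨A.filter (fun a => a.2 ≠ j), (A.filter (fun a => a.2 = j)).image Prod.fst⟩ :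
      (_ : Finset (ℕ × Fin K)) × Finset ℕ))
    (fun x => x.1 ∪ x.2.image (fun p => (p, j))) ?_ ?_ ?_ ?_ ?_
  · intro A hA
    rw [mem_LS] at hA
    rw [mem_sigma]
    refine ⟨?_, ?_⟩
    · rw [mem_filter, mem_LS]
      refine ⟨⟨fun a ha => hA.1 a (mem_filter.1 ha).1, ?_⟩, fun a ha => (mem_filter.1 ha).2⟩
      intro a ha b hb hab
      exact hA.2 a (mem_filter.1 ha).1 b (mem_filter.1 hb).1 hab
    · rw [mem_powerset]
      intro p hp
      obtain ⟨a, ha, rfl⟩ := mem_image.1 hp
      rw [mem_filter] at ha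
      rw [mem_sdiff]
      refine ⟨hA.1 a ha.1, ?_⟩
      intro hc
      obtain ⟨b, hb, hba⟩ := mem_image.1 hc
      rw [mem_filter] at hb
      have := hA.2 b hb.1 a ha.1 hba
      rw [this] at hb
      exact hb.2 ha.2
  · rintro ⟨A, U⟩ hx
    rw [mem_sigma] at hx
    obtain ⟨h2, h3⟩ := hx
    simp only at h2 h3
    rw [mem_filter, mem_LS] at h2
    rw [mem_powerset] at h3
    simp only
    rw [mem_LS]
    refine ⟨?_, ?_⟩
    · intro a ha
      rcases mem_union.1 ha with h4 | h4
      · exact h2.1.1 a h4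
      · obtain ⟨p, hp, rfl⟩ := mem_image.1 h4
        exact (mem_sdiff.1 (h3 hp)).1
    · intro a ha b hb hab
      rcases mem_union.1 ha with h4 | h4 <;> rcases mem_union.1 hb with h5 | h5
      · exact h2.1.2 a h4 b h5 hab
      · obtain ⟨p, hp, rfl⟩ := mem_image.1 h5
        exact absurd (mem_image.2 ⟨a, h4, hab⟩) (mem_sdiff.1 (h3 hp)).2
      · obtain ⟨p, hp, rfl⟩ := mem_image.1 h4
        exact absurd (mem_image.2 ⟨b, h5, hab.symm⟩) (mem_sdiff.1 (h3 hp)).2
      · obtain ⟨p, hp, rfl⟩ := mem_image.1 h4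
        obtain ⟨q, hq, rfl⟩ := mem_image.1 h5
        simp only at hab
        rw [hab]
  · intro A _
    simp only
    ext ⟨p, k⟩
    rw [mem_union, mem_filter, mem_image]
    constructor
    · rintro (h | ⟨q, hq, hqp⟩)
      · exact h.1
      · obtain ⟨⟨r, l⟩, hr, rfl⟩ := mem_image.1 hq
        rw [mem_filter] at hr
        obtain ⟨h5, h6⟩ := hr
        simp only at h6 hqp
        rw [← hqp, ← h6]
        exact h5
    · intro h
      by_cases hk : k = j
      · right
        refine ⟨p, mem_image.2 ⟨(p, k), mem_filter.2 ⟨h, hk⟩, rfl⟩, ?_⟩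
        rw [hk]
      · left
        exact ⟨h, hk⟩
  · rintro ⟨A, U⟩ hx
    rw [mem_sigma] at hx
    obtain ⟨h2, h3⟩ := hx
    simp only at h2 h3
    rw [mem_filter, mem_LS] at h2
    simp only
    have e1 : (A ∪ U.image (fun p => (p, j))).filter (fun a => a.2 ≠ j) = A := by
      ext a
      rw [mem_filter, mem_union, mem_image]
      constructor
      · rintro ⟨h4 | ⟨p, _, rfl⟩, h5⟩
        · exact h4
        · exact absurd rfl h5
      · intro h4
        exact ⟨Or.inl h4, h2.2 a h4⟩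
    have e2 : ((A ∪ U.image (fun p => (p, j))).filter (fun a => a.2 = j)).image Prod.fst = U := by
      ext p
      rw [mem_image]
      constructor
      · rintro ⟨a, ha, rfl⟩
        rw [mem_filter, mem_union, mem_image] at ha
        obtain ⟨h4 | ⟨q, hq, rfl⟩, h5⟩ := ha
        · exact absurd h5 (h2.2 a h4)
        · exact hq
      · intro hp
        exact ⟨(p, j), mem_filter.2 ⟨mem_union_right _ (mem_image.2 ⟨p, hp, rfl⟩), rfl⟩, rfl⟩
    rw [e1, e2]
  · intro A hA
    simp only
    have e : A = A.filter (fun a => a.2 ≠ j) ∪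
        ((A.filter (fun a => a.2 = j)).image Prod.fst).image (fun p => (p, j)) := by
      ext ⟨p, k⟩
      rw [mem_union, mem_filter, mem_image]
      constructor
      · intro h
        by_cases hk : k = j
        · right
          refine ⟨p, mem_image.2 ⟨(p, k), mem_filter.2 ⟨h, hk⟩, rfl⟩, ?_⟩
          rw [hk]
        · left
          exact ⟨h, hk⟩
      · rintro (h | ⟨q, hq, hqp⟩)
        · exact h.1
        · obtain ⟨⟨r, l⟩, hr, rfl⟩ := mem_image.1 hq
          rw [mem_filter] at hr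
          obtain ⟨h5, h6⟩ := hr
          simp only at h6 hqp
          rw [← hqp, ← h6]
          exact h5
    rw [← xx_split γ j ω _ _ hω (fun a ha => (mem_filter.1 ha).2), ← e]

theorem la_Zj {K : ℕ} (γ : ℕ → ℝ) (P : Finset ℕ) (j : Fin K) (Y : Finset (ℕ × Fin K) → ℝ)
    (B : Finset (ℕ × Fin K)) (hB : ∃ a ∈ B, a.2 = j) : la γ P (Zj γ P j Y) B = 0 := by
  unfold la
  rw [Finset.sum_eq_zero, mul_zero]
  intro A hA
  obtain ⟨a, ha, haj⟩ := hB
  have h : ∃ a ∈ A, a.2 = j := ⟨a, (mem_filter.1 hA).2 ha, haj⟩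
  unfold Zj
  rw [if_pos h, zero_mul]

private theorem local_factor {K : ℕ} (x : ℝ) (hx0 : 0 ≤ x) (_hx1 : x ≤ 1) (ω : Finset (ℕ × Fin K))
    (hω : Lab ω) (p : ℕ) :
    1 + ∑ i : Fin K, |x - if (p, i) ∈ ω then 1 else 0| ≤
      (if p ∈ ω.image Prod.fst then 3 else 1) * Real.exp (K * x) := by
  have hexp : (K : ℝ) * x + 1 ≤ Real.exp (K * x) := Real.add_one_le_exp _
  have hKx : 0 ≤ (K : ℝ) * x := by positivity
  split_ifs with h
  · obtain ⟨⟨q, i0⟩, hq, hqp⟩ := mem_image.1 h
    simp only at hqp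
    rw [hqp] at hq
    have h1 : ∀ i : Fin K, |x - if (p, i) ∈ ω then 1 else 0| ≤ x + if i = i0 then 1 else 0 := by
      intro i
      by_cases hi : i = i0
      · rw [hi, if_pos hq, if_pos rfl, abs_le]
        constructor <;> linarith
      · rw [if_neg hi, if_neg, sub_zero, add_zero, abs_of_nonneg hx0]
        intro hc
        have := hω _ hc _ hq rfl
        exact hi (Prod.ext_iff.1 this).2
    calc 1 + ∑ i : Fin K, |x - if (p, i) ∈ ω then 1 else 0|
        ≤ 1 + ∑ i : Fin K, (x + if i = i0 then 1 else 0) := by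
          have := Finset.sum_le_sum (s := (univ : Finset (Fin K))) fun i _ => h1 i
          linarith
      _ = 2 + K * x := by
          rw [Finset.sum_add_distrib, Finset.sum_const, Finset.card_univ, Fintype.card_fin,
            Finset.sum_ite_eq' univ i0, if_pos (mem_univ _), nsmul_eq_mul]
          ring
      _ ≤ 3 * Real.exp (K * x) := by nlinarith
  · have h1 : ∀ i : Fin K, |x - if (p, i) ∈ ω then 1 else 0| = x := by
      intro i
      rw [if_neg, sub_zero, abs_of_nonneg hx0]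
      intro hc
      exact h (mem_image.2 ⟨(p, i), hc, rfl⟩)
    rw [Finset.sum_congr rfl fun i _ => h1 i, Finset.sum_const, Finset.card_univ, Fintype.card_fin,
      nsmul_eq_mul, one_mul]
    linarith

theorem ff_le {K : ℕ} (γ : ℕ → ℝ) (P : Finset ℕ) (hγ : ∀ p ∈ P, 0 ≤ γ p ∧ γ p ≤ 1)
    (S : ℝ) (hS : ∑ p ∈ P, γ p ≤ S) (Y : Finset (ℕ × Fin K) → ℝ) (Y₀ : ℝ) (hY : ∀ A, |Y A| ≤ Y₀)
    (ω : Finset (ℕ × Fin K)) (hω : Lab ω) :
    |ff γ P Y ω| ≤ Y₀ * 3 ^ #ω * Real.exp (K * S) := by
  have hY0 : 0 ≤ Y₀ := le_trans (abs_nonneg _) (hY ∅)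
  unfold ff
  calc |∑ A ∈ LS K P, Y A * xx γ A ω|
      ≤ ∑ A ∈ LS K P, |Y A * xx γ A ω| := Finset.abs_sum_le_sum_abs _ _
    _ ≤ ∑ A ∈ LS K P, Y₀ * ∏ a ∈ A, |γ a.1 - if a ∈ ω then 1 else 0| := by
        refine Finset.sum_le_sum fun A _ => ?_
        rw [abs_mul]
        unfold xx
        rw [Finset.abs_prod]
        exact mul_le_mul_of_nonneg_right (hY A) (Finset.prod_nonneg fun a _ => abs_nonneg _)
    _ = Y₀ * ∏ p ∈ P, (1 + ∑ i : Fin K, |γ p - if (p, i) ∈ ω then 1 else 0|) := by
        rw [← Finset.mul_sum, sum_LS_prod P (fun a => |γ a.1 - if a ∈ ω then 1 else 0|)]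
    _ ≤ Y₀ * (3 ^ #ω * Real.exp (K * S)) := by
        refine mul_le_mul_of_nonneg_left ?_ hY0
        calc ∏ p ∈ P, (1 + ∑ i : Fin K, |γ p - if (p, i) ∈ ω then 1 else 0|)
            ≤ ∏ p ∈ P, ((if p ∈ ω.image Prod.fst then 3 else 1) * Real.exp (K * γ p)) := by
              refine Finset.prod_le_prod (fun p _ => ?_)
                (fun p hp => local_factor (γ p) (hγ p hp).1 (hγ p hp).2 ω hω p)
              have : 0 ≤ ∑ i : Fin K, |γ p - if (p, i) ∈ ω then 1 else 0| :=
                Finset.sum_nonneg fun i _ => abs_nonneg _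
              linarith
          _ = (∏ p ∈ P, (if p ∈ ω.image Prod.fst then (3 : ℝ) else 1)) *
                Real.exp (K * ∑ p ∈ P, γ p) := by
              rw [Finset.prod_mul_distrib, ← Real.exp_sum, Finset.mul_sum]
          _ ≤ 3 ^ #ω * Real.exp (K * S) := by
              refine mul_le_mul ?_ ?_ (Real.exp_pos _).le (by positivity)
              · rw [← Finset.prod_filter, Finset.prod_const]
                refine pow_le_pow_right₀ (by norm_num) ?_
                calc #(P.filter (fun p => p ∈ ω.image Prod.fst)) ≤ #(ω.image Prod.fst) := by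
                      refine card_le_card ?_
                      intro p hp
                      exact (mem_filter.1 hp).2
                  _ ≤ #ω := card_image_le
              · refine Real.exp_le_exp.2 ?_
                exact mul_le_mul_of_nonneg_left hS (by positivity)
    _ = Y₀ * 3 ^ #ω * Real.exp (K * S) := by ring

end Pool.Agent.Work.MP_73869e_nt.TH
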