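import Mathlib
import Pool.Agent.Work.MP_73869e_nt.TH.T01

set_option autoImplicit false

/-!
MODULE T02 (second moment of the weight in the model), size M.
Induction on P with sum_LS_insert of T01 for the sum over outcomes and for the sum over A. For p not in P
write u = ff P Y, v i = ff P (fun A => Y (insert (p, i) A)) (functions of the outcome omega' in LS K P,
which does not contain p), s = sum of v i, g = γ p. Then ff (insert p P) Y at omega' is u + g s, at
insert (p, i) omega' it is u + g s - v i; the weights mu are mu' (1 - K g) and mu' g. Hence the sum over the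
fibre of omega' is (1 - K g) (u + g s)^2 + g * sum_i (u + g s - v i)^2 = u^2 - g^2 s^2 + g * sum_i (v i)^2,
and 0 <= s^2 <= K * sum (v i)^2. So Ex (insert p P) Y = Ex P Y - g^2 Ex P (sum Y_i) + g * sum_i Ex P (Y_i)
lies between Ex P Y + g (1 - K g) sum_i Ex P (Y_i) and Ex P Y + g sum_i Ex P (Y_i); use the induction
hypothesis for Y and for the Y_i = Y (insert (p, i) .).
-/

namespace Pool.Agent.Work.MP_73869e_nt.TH

open Finset Pool.Agent.Work.MP_2dba45_nt.BilDef Pool.Agent.Work.MP_2dba45_nt.Sv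

private theorem LS_empty' (K : ℕ) : LS K (∅ : Finset ℕ) = {∅} := by
  ext A
  rw [mem_LS, mem_singleton]
  constructor
  · rintro ⟨h1, -⟩
    rw [eq_empty_iff_forall_notMem]
    intro a ha
    exact absurd (h1 a ha) (notMem_empty _)
  · rintro rfl
    exact ⟨fun a ha => absurd ha (notMem_empty _), fun a ha => absurd ha (notMem_empty _)⟩

private theorem notMem_img {K : ℕ} {P : Finset ℕ} {p : ℕ} (hp : p ∉ P)
    {ω : Finset (ℕ × Fin K)} (hω : ω ∈ LS K P) : p ∉ ω.image Prod.fst := by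
  intro h
  rw [mem_image] at h
  obtain ⟨a, ha, hap⟩ := h
  exact hp (hap ▸ (mem_LS.1 hω).1 a ha)

private theorem mu_insert_same {K : ℕ} (γ : ℕ → ℝ) {P : Finset ℕ} {p : ℕ} (hp : p ∉ P)
    {ω : Finset (ℕ × Fin K)} (hω : ω ∈ LS K P) :
    mu γ (insert p P) ω = (1 - K * γ p) * mu γ P ω := by
  unfold mu
  have h1 : insert p P \ ω.image Prod.fst = insert p (P \ ω.image Prod.fst) :=
    insert_sdiff_of_notMem _ (notMem_img hp hω)
  have h2 : p ∉ P \ ω.image Prod.fst := fun h => hp (mem_sdiff.1 h).1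
  rw [h1, prod_insert h2]
  ring

private theorem mu_insert_lab {K : ℕ} (γ : ℕ → ℝ) {P : Finset ℕ} {p : ℕ} (hp : p ∉ P)
    {ω : Finset (ℕ × Fin K)} (hω : ω ∈ LS K P) (i : Fin K) :
    mu γ (insert p P) (insert (p, i) ω) = γ p * mu γ P ω := by
  unfold mu ga
  rw [prod_insert (notMem_of_LS hp hω i), image_insert]
  have h1 : insert p P \ insert p (ω.image Prod.fst) = P \ ω.image Prod.fst := by
    ext q
    simp only [mem_sdiff, mem_insert, not_or]
    constructor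
    · rintro ⟨h1, h2, h3⟩
      exact ⟨h1.resolve_left h2, h3⟩
    · rintro ⟨h1, h2⟩
      exact ⟨Or.inr h1, fun h => hp (h ▸ h1), h2⟩
  rw [h1]
  ring

private theorem xx_insert {K : ℕ} (γ : ℕ → ℝ) {P : Finset ℕ} {p : ℕ} (hp : p ∉ P)
    {A : Finset (ℕ × Fin K)} (hA : A ∈ LS K P) (ω : Finset (ℕ × Fin K)) (i : Fin K) :
    xx γ (insert (p, i) A) ω = (γ p - if (p, i) ∈ ω then 1 else 0) * xx γ A ω := by
  unfold xx
  rw [prod_insert (notMem_of_LS hp hA i)]

private theorem xx_of_insert {K : ℕ} (γ : ℕ → ℝ) {P : Finset ℕ} {p : ℕ} (hp : p ∉ P)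
    {A : Finset (ℕ × Fin K)} (hA : A ∈ LS K P) (ω : Finset (ℕ × Fin K)) (j : Fin K) :
    xx γ A (insert (p, j) ω) = xx γ A ω := by
  unfold xx
  refine prod_congr rfl fun a ha => ?_
  have h : a ≠ (p, j) := by
    rintro rfl
    exact notMem_of_LS hp hA j ha
  simp only [mem_insert, h, false_or]

private theorem ff_same {K : ℕ} (γ : ℕ → ℝ) {P : Finset ℕ} {p : ℕ} (hp : p ∉ P)
    (Y : Finset (ℕ × Fin K) → ℝ) {ω : Finset (ℕ × Fin K)} (hω : ω ∈ LS K P) :
    ff γ (insert p P) Y ω =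
      ff γ P Y ω + γ p * ∑ i : Fin K, ff γ P (fun A => Y (insert (p, i) A)) ω := by
  unfold ff
  rw [sum_LS_insert P p hp, sum_add_distrib, sum_comm, mul_sum]
  congr 1
  refine sum_congr rfl fun i _ => ?_
  rw [mul_sum]
  refine sum_congr rfl fun A hA => ?_
  rw [xx_insert γ hp hA, if_neg (notMem_of_LS hp hω i)]
  ring

private theorem ff_lab {K : ℕ} (γ : ℕ → ℝ) {P : Finset ℕ} {p : ℕ} (hp : p ∉ P)
    (Y : Finset (ℕ × Fin K) → ℝ) {ω : Finset (ℕ × Fin K)} (hω : ω ∈ LS K P) (j : Fin K) :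
    ff γ (insert p P) Y (insert (p, j) ω) =
      ff γ P Y ω + γ p * ∑ i : Fin K, ff γ P (fun A => Y (insert (p, i) A)) ω -
        ff γ P (fun A => Y (insert (p, j) A)) ω := by
  have h1 : ff γ (insert p P) Y (insert (p, j) ω) =
      ff γ P Y ω + ∑ i : Fin K, (γ p - if i = j then 1 else 0) *
        ff γ P (fun A => Y (insert (p, i) A)) ω := by
    unfold ff
    rw [sum_LS_insert P p hp, sum_add_distrib, sum_comm]
    congr 1
    · refine sum_congr rfl fun A hA => ?_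
      rw [xx_of_insert γ hp hA]
    · refine sum_congr rfl fun i _ => ?_
      rw [mul_sum]
      refine sum_congr rfl fun A hA => ?_
      rw [xx_insert γ hp hA, xx_of_insert γ hp hA]
      have h2 : ((p, i) ∈ insert (p, j) ω) ↔ i = j := by
        rw [mem_insert]
        constructor
        · rintro (h | h)
          · exact (Prod.ext_iff.1 h).2
          · exact absurd h (notMem_of_LS hp hω i)
        · rintro rfl
          exact Or.inl rfl
      simp only [h2]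
      ring
  rw [h1]
  simp only [sub_mul, sum_sub_distrib, ite_mul, one_mul, zero_mul, sum_ite_eq', mem_univ, if_true]
  rw [mul_sum]
  ring

private theorem Ex_insert {K : ℕ} (γ : ℕ → ℝ) {P : Finset ℕ} {p : ℕ} (hp : p ∉ P)
    (Y : Finset (ℕ × Fin K) → ℝ) :
    Ex γ (insert p P) (fun ω => (ff γ (insert p P) Y ω) ^ 2) =
      ∑ ω ∈ LS K P, mu γ P ω * ((ff γ P Y ω) ^ 2 -
        γ p ^ 2 * (∑ i : Fin K, ff γ P (fun A => Y (insert (p, i) A)) ω) ^ 2 +
        γ p * ∑ i : Fin K, (ff γ P (fun A => Y (insert (p, i) A)) ω) ^ 2) := by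
  unfold Ex
  rw [sum_LS_insert P p hp]
  refine sum_congr rfl fun ω hω => ?_
  beta_reduce
  rw [mu_insert_same γ hp hω, ff_same γ hp Y hω]
  have h1 : ∀ i : Fin K, mu γ (insert p P) (insert (p, i) ω) *
      (ff γ (insert p P) Y (insert (p, i) ω)) ^ 2 = (γ p * mu γ P ω) *
      (ff γ P Y ω + γ p * ∑ i : Fin K, ff γ P (fun A => Y (insert (p, i) A)) ω -
        ff γ P (fun A => Y (insert (p, i) A)) ω) ^ 2 := fun i => by
    rw [mu_insert_lab γ hp hω, ff_lab γ hp Y hω]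
  simp only [h1]
  set u := ff γ P Y ω with hu
  set v : Fin K → ℝ := fun i => ff γ P (fun A => Y (insert (p, i) A)) ω with hv
  set s := ∑ i : Fin K, v i with hs
  have h2 : ∑ i : Fin K, (γ p * mu γ P ω) * (u + γ p * s - v i) ^ 2 =
      (γ p * mu γ P ω) * (K * (u + γ p * s) ^ 2 - 2 * (u + γ p * s) * s + ∑ i, v i ^ 2) := by
    rw [← mul_sum]
    congr 1
    have h3 : ∀ i : Fin K, (u + γ p * s - v i) ^ 2 =
        (u + γ p * s) ^ 2 - 2 * (u + γ p * s) * v i + v i ^ 2 := fun i => by ring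
    simp only [h3, sum_add_distrib, sum_sub_distrib, ← mul_sum, sum_const, card_univ,
      Fintype.card_fin, nsmul_eq_mul]
    rw [← hs]
  have h4 : ∑ i : Fin K, (γ p * mu γ P ω) * (u + γ p * s - v i) ^ 2 =
      ∑ i : Fin K, γ p * mu γ P ω *
      (u + γ p * s - ff γ P (fun A => Y (insert (p, i) A)) ω) ^ 2 := rfl
  rw [← h4, h2]
  ring

private theorem mu_nonneg' {K : ℕ} (γ : ℕ → ℝ) (P : Finset ℕ)
    (hγ : ∀ p ∈ P, 0 ≤ γ p ∧ K * γ p ≤ 1) {ω : Finset (ℕ × Fin K)} (hω : ω ∈ LS K P) :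
    0 ≤ mu γ P ω := by
  unfold mu ga
  refine mul_nonneg (prod_nonneg fun a ha => (hγ _ ((mem_LS.1 hω).1 a ha)).1)
    (prod_nonneg fun q hq => ?_)
  have := (hγ q (mem_sdiff.1 hq).1).2
  linarith

private theorem Ex_empty {K : ℕ} (γ : ℕ → ℝ) (Y : Finset (ℕ × Fin K) → ℝ) :
    Ex γ (∅ : Finset ℕ) (fun ω => (ff γ ∅ Y ω) ^ 2) = Y ∅ ^ 2 := by
  unfold Ex ff
  rw [LS_empty', sum_singleton]
  beta_reduce
  rw [sum_singleton]
  unfold mu ga xx
  simp

private theorem sum_ga {K : ℕ} (γ : ℕ → ℝ) {P : Finset ℕ} {p : ℕ} (hp : p ∉ P)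
    (F : Finset (ℕ × Fin K) → ℝ) :
    ∑ A ∈ LS K (insert p P), F A * ga γ A =
      ∑ A ∈ LS K P, F A * ga γ A +
        γ p * ∑ i : Fin K, ∑ A ∈ LS K P, F (insert (p, i) A) * ga γ A := by
  rw [sum_LS_insert P p hp, sum_add_distrib, sum_comm, mul_sum]
  congr 1
  refine sum_congr rfl fun i _ => ?_
  rw [mul_sum]
  refine sum_congr rfl fun A hA => ?_
  unfold ga
  rw [prod_insert (notMem_of_LS hp hA i)]
  ring

theorem Ex_upper {K : ℕ} (γ : ℕ → ℝ) (P : Finset ℕ) (hγ : ∀ p ∈ P, 0 ≤ γ p ∧ K * γ p ≤ 1)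
    (Y : Finset (ℕ × Fin K) → ℝ) :
    Ex γ P (fun ω => (ff γ P Y ω) ^ 2) ≤ ∑ A ∈ LS K P, Y A ^ 2 * ga γ A := by
  induction P using Finset.induction_on generalizing Y with
  | empty =>
    rw [Ex_empty, LS_empty', sum_singleton]
    simp [ga]
  | insert p P hp ih =>
    have hγ' : ∀ q ∈ P, 0 ≤ γ q ∧ K * γ q ≤ 1 := fun q hq => hγ q (mem_insert_of_mem hq)
    have hp0 := (hγ p (mem_insert_self _ _)).1
    have ih' := ih hγ'
    rw [Ex_insert γ hp, sum_ga γ hp (fun A => Y A ^ 2)]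
    have h1 : ∑ ω ∈ LS K P, mu γ P ω * ((ff γ P Y ω) ^ 2 -
        γ p ^ 2 * (∑ i : Fin K, ff γ P (fun A => Y (insert (p, i) A)) ω) ^ 2 +
        γ p * ∑ i : Fin K, (ff γ P (fun A => Y (insert (p, i) A)) ω) ^ 2) ≤
        ∑ ω ∈ LS K P, mu γ P ω * ((ff γ P Y ω) ^ 2 +
        γ p * ∑ i : Fin K, (ff γ P (fun A => Y (insert (p, i) A)) ω) ^ 2) := by
      refine sum_le_sum fun ω hω => ?_
      refine mul_le_mul_of_nonneg_left ?_ (mu_nonneg' γ P hγ' hω)
      have := mul_nonneg (sq_nonneg (γ p))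
        (sq_nonneg (∑ i : Fin K, ff γ P (fun A => Y (insert (p, i) A)) ω))
      linarith
    refine h1.trans ?_
    have h2 : ∑ ω ∈ LS K P, mu γ P ω * ((ff γ P Y ω) ^ 2 +
        γ p * ∑ i : Fin K, (ff γ P (fun A => Y (insert (p, i) A)) ω) ^ 2) =
        Ex γ P (fun ω => (ff γ P Y ω) ^ 2) +
        γ p * ∑ i : Fin K, Ex γ P (fun ω => (ff γ P (fun A => Y (insert (p, i) A)) ω) ^ 2) := by
      unfold Ex
      rw [sum_comm, mul_sum, ← sum_add_distrib]
      refine sum_congr rfl fun ω _ => ?_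
      rw [← mul_sum]
      ring
    rw [h2]
    refine add_le_add (ih' Y) (mul_le_mul_of_nonneg_left (sum_le_sum fun i _ => ?_) hp0)
    exact ih' (fun A => Y (insert (p, i) A))

theorem Ex_lower {K : ℕ} (γ : ℕ → ℝ) (P : Finset ℕ) (hγ : ∀ p ∈ P, 0 ≤ γ p ∧ K * γ p ≤ 1)
    (Y : Finset (ℕ × Fin K) → ℝ) :
    ∑ A ∈ LS K P, Y A ^ 2 * ga γ A * ∏ a ∈ A, (1 - K * γ a.1) ≤
      Ex γ P (fun ω => (ff γ P Y ω) ^ 2) := by
  induction P using Finset.induction_on generalizing Y with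
  | empty =>
    rw [Ex_empty, LS_empty', sum_singleton]
    simp [ga]
  | insert p P hp ih =>
    have hγ' : ∀ q ∈ P, 0 ≤ γ q ∧ K * γ q ≤ 1 := fun q hq => hγ q (mem_insert_of_mem hq)
    have hp0 := (hγ p (mem_insert_self _ _)).1
    have hp1 := (hγ p (mem_insert_self _ _)).2
    have ih' := ih hγ'
    rw [Ex_insert γ hp]
    have h0 : ∑ A ∈ LS K (insert p P), Y A ^ 2 * ga γ A * ∏ a ∈ A, (1 - K * γ a.1) =
        ∑ A ∈ LS K P, Y A ^ 2 * ga γ A * ∏ a ∈ A, (1 - K * γ a.1) +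
        γ p * (1 - K * γ p) * ∑ i : Fin K, ∑ A ∈ LS K P,
          Y (insert (p, i) A) ^ 2 * ga γ A * ∏ a ∈ A, (1 - K * γ a.1) := by
      rw [sum_LS_insert P p hp, sum_add_distrib, sum_comm, mul_sum]
      congr 1
      refine sum_congr rfl fun i _ => ?_
      rw [mul_sum]
      refine sum_congr rfl fun A hA => ?_
      unfold ga
      rw [prod_insert (notMem_of_LS hp hA i), prod_insert (notMem_of_LS hp hA i)]
      ring
    rw [h0]
    have h1 : ∑ ω ∈ LS K P, mu γ P ω * ((ff γ P Y ω) ^ 2 +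
        γ p * (1 - K * γ p) * ∑ i : Fin K, (ff γ P (fun A => Y (insert (p, i) A)) ω) ^ 2) ≤
        ∑ ω ∈ LS K P, mu γ P ω * ((ff γ P Y ω) ^ 2 -
        γ p ^ 2 * (∑ i : Fin K, ff γ P (fun A => Y (insert (p, i) A)) ω) ^ 2 +
        γ p * ∑ i : Fin K, (ff γ P (fun A => Y (insert (p, i) A)) ω) ^ 2) := by
      refine sum_le_sum fun ω hω => ?_
      refine mul_le_mul_of_nonneg_left ?_ (mu_nonneg' γ P hγ' hω)
      have h3 : (∑ i : Fin K, ff γ P (fun A => Y (insert (p, i) A)) ω) ^ 2 ≤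
          K * ∑ i : Fin K, (ff γ P (fun A => Y (insert (p, i) A)) ω) ^ 2 := by
        have := sq_sum_le_card_mul_sum_sq (s := (univ : Finset (Fin K)))
          (f := fun i => ff γ P (fun A => Y (insert (p, i) A)) ω)
        simpa using this
      have h4 := mul_le_mul_of_nonneg_left h3 (sq_nonneg (γ p))
      nlinarith [h4]
    refine le_trans ?_ h1
    have h2 : ∑ ω ∈ LS K P, mu γ P ω * ((ff γ P Y ω) ^ 2 +
        γ p * (1 - K * γ p) * ∑ i : Fin K, (ff γ P (fun A => Y (insert (p, i) A)) ω) ^ 2) =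
        Ex γ P (fun ω => (ff γ P Y ω) ^ 2) +
        γ p * (1 - K * γ p) *
          ∑ i : Fin K, Ex γ P (fun ω => (ff γ P (fun A => Y (insert (p, i) A)) ω) ^ 2) := by
      unfold Ex
      rw [sum_comm, mul_sum, ← sum_add_distrib]
      refine sum_congr rfl fun ω _ => ?_
      rw [← mul_sum]
      ring
    rw [h2]
    refine add_le_add (ih' Y) (mul_le_mul_of_nonneg_left (sum_le_sum fun i _ => ?_)
      (mul_nonneg hp0 (by linarith)))
    exact ih' (fun A => Y (insert (p, i) A))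

end Pool.Agent.Work.MP_73869e_nt.TH
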