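import Mathlib
import Pool.Agent.Work.MP_73869e_nt.TH.TDef

set_option autoImplicit false

/-!
MODULE T06 (products over labels), size S-M.
prod_labels: A ↦ (lb i A)_i is a bijection from subsets of P × Fin K to functions Fin K → subsets of P
(Fintype.piFinset, Finset.prod_univ_sum). ga_lb: every a in A lies in exactly one A.filter (a.2 = i) and
Prod.fst is injective on it. pr_lb similarly.
-/

namespace Pool.Agent.Work.MP_73869e_nt.TH

open Finset Pool.Agent.Work.MP_2dba45_nt.BilDef Pool.Agent.Work.MP_2dba45_nt.Sv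

theorem mem_lb {K : ℕ} (A : Finset (ℕ × Fin K)) (i : Fin K) (p : ℕ) : p ∈ lb i A ↔ (p, i) ∈ A := by
  unfold lb
  rw [mem_image]
  constructor
  · rintro ⟨⟨q, k⟩, ha, rfl⟩
    rw [mem_filter] at ha
    obtain ⟨h1, h2⟩ := ha
    simp only at h2
    rw [← h2]
    exact h1
  · intro h
    exact ⟨(p, i), mem_filter.2 ⟨h, rfl⟩, rfl⟩

theorem prod_labels {K : ℕ} (P : Finset ℕ) (h : Fin K → Finset ℕ → ℝ) :
    ∑ A ∈ (P ×ˢ (univ : Finset (Fin K))).powerset, ∏ i, h i (lb i A) =
      ∏ i, ∑ S ∈ P.powerset, h i S := by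
  rw [Finset.prod_univ_sum]
  refine Finset.sum_nbij' (fun A => fun i => lb i A)
    (fun f => (P ×ˢ (univ : Finset (Fin K))).filter (fun a => a.1 ∈ f a.2)) ?_ ?_ ?_ ?_ ?_
  · intro A hA
    rw [Fintype.mem_piFinset]
    intro i
    rw [mem_powerset]
    intro p hp
    rw [mem_lb] at hp
    exact (mem_product.1 (mem_powerset.1 hA hp)).1
  · intro f _
    rw [mem_powerset]
    exact filter_subset _ _
  · intro A hA
    ext ⟨p, i⟩
    simp only [mem_filter, mem_lb]
    constructor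
    · exact fun hh => hh.2
    · exact fun hh => ⟨mem_powerset.1 hA hh, hh⟩
  · intro f hf
    funext i
    ext p
    rw [mem_lb, mem_filter, mem_product]
    rw [Fintype.mem_piFinset] at hf
    constructor
    · exact fun hh => hh.2
    · exact fun hh => ⟨⟨mem_powerset.1 (hf i) hh, mem_univ _⟩, hh⟩
  · intro A _
    rfl

private theorem prod_lb {K : ℕ} {M : Type*} [CommMonoid M] (A : Finset (ℕ × Fin K)) (f : ℕ → M) :
    ∏ a ∈ A, f a.1 = ∏ i, ∏ p ∈ lb i A, f p := by
  rw [← Finset.prod_fiberwise (s := A) (g := fun a : ℕ × Fin K => a.2) (f := fun a => f a.1)]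
  refine Finset.prod_congr rfl fun i _ => ?_
  unfold lb
  rw [Finset.prod_image]
  rintro ⟨p, k⟩ ha ⟨q, l⟩ hb hab
  have ha' := (mem_filter.1 ha).2
  have hb' := (mem_filter.1 hb).2
  simp only at ha' hb' hab
  rw [ha', hb', hab]

theorem ga_lb {K : ℕ} (A : Finset (ℕ × Fin K)) : ga g1 A = ∏ i, GG (lb i A) := by
  unfold ga GG
  exact prod_lb A g1

theorem pr_lb {K : ℕ} (A : Finset (ℕ × Fin K)) : pr A = ∏ i, ∏ p ∈ lb i A, p := by
  unfold pr
  exact prod_lb A (fun p => p)

end Pool.Agent.Work.MP_73869e_nt.TH
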