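import Mathlib
import Pool.Agent.Work.MP_73869e_nt.TH.T06

set_option autoImplicit false

/-!
Lower bound for the coefficients `Zj`.
-/

namespace Pool.Agent.Work.MP_73869e_nt.TH

open Finset Pool.Agent.Work.MP_2dba45_nt.BilDef Pool.Agent.Work.MP_2dba45_nt.Sv

private theorem t08_yy_nonneg (N L : ℕ) (t₀ : ℝ) (s : ℕ) : 0 ≤ yy N L t₀ s := by
  unfold yy
  apply Finset.sum_nonneg
  intro l _
  split_ifs <;> positivity

private theorem t08_yy_anti (N L : ℕ) (t₀ : ℝ) {s t : ℕ} (h : s ≤ t) :
    yy N L t₀ t ≤ yy N L t₀ s := by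
  unfold yy
  apply Finset.sum_le_sum
  intro l _
  apply mul_le_mul_of_nonneg_left _ (by positivity)
  have hst : (s : ℝ) ≤ t := by exact_mod_cast h
  split_ifs with h1 h2 h2
  · exact le_rfl
  · exact absurd (hst.trans h1) h2
  · norm_num
  · exact le_rfl

private theorem t08_g1_nonneg (p : ℕ) : 0 ≤ g1 p := by
  unfold g1
  positivity

private theorem t08_GG_nonneg (S : Finset ℕ) : 0 ≤ GG S :=
  Finset.prod_nonneg (fun p _ => t08_g1_nonneg p)

private theorem t08_g1_le {p : ℕ} (hp : p.Prime) {x : ℝ} (hx : 0 < x) (hxp : x ≤ p) :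
    g1 p ≤ 2 / x := by
  unfold g1
  have h2 : ((Pool.Agent.Work.MP_2dba45_nt.Nu.nu 1 p : ℕ) : ℝ) ≤ 2 := by
    exact_mod_cast Pool.Agent.Work.MP_2dba45_nt.Nu.nu_le 1 p hp
  have hp0 : (0 : ℝ) < p := lt_of_lt_of_le hx hxp
  calc (Pool.Agent.Work.MP_2dba45_nt.Nu.nu 1 p : ℝ) / p ≤ 2 / p := by
        apply div_le_div_of_nonneg_right h2 hp0.le
    _ ≤ 2 / x := by
        apply div_le_div_of_nonneg_left (by norm_num) hx hxp

/-- removing finitely many primes from the sum -/
private theorem t08_remove (N L : ℕ) (t₀ : ℝ) (P Q : Finset ℕ) (hP : ∀ p ∈ P, 1 ≤ p)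
    (hQ : Q ⊆ P) :
    S1 P N L t₀ ≤ (∑ U ∈ (P \ Q).powerset, GG U * yy N L t₀ (∏ p ∈ U, p)) +
      ∑ q ∈ Q, g1 q * S1 P N L t₀ := by
  classical
  have hone : ∀ q ∈ Q, ∑ U ∈ P.powerset.filter (fun U => q ∈ U),
      GG U * yy N L t₀ (∏ p ∈ U, p) ≤ g1 q * S1 P N L t₀ := by
    intro q hq
    have hqP := hQ hq
    have e : ∑ U ∈ P.powerset.filter (fun U => q ∈ U), GG U * yy N L t₀ (∏ p ∈ U, p) =
        ∑ U ∈ (P.erase q).powerset, GG (insert q U) * yy N L t₀ (∏ p ∈ insert q U, p) := by
      symm
      apply Finset.sum_bij (fun U _ => insert q U)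
      · intro U hU
        rw [mem_powerset] at hU
        rw [mem_filter, mem_powerset]
        refine ⟨?_, mem_insert_self _ _⟩
        intro x hx
        rcases mem_insert.1 hx with h | h
        · rw [h]; exact hqP
        · exact mem_of_mem_erase (hU h)
      · intro U hU V hV h
        rw [mem_powerset] at hU hV
        have hqU : q ∉ U := fun hh => by
          have := hU hh
          exact (notMem_erase q P) this
        have hqV : q ∉ V := fun hh => by
          have := hV hh
          exact (notMem_erase q P) this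
        beta_reduce at h
        have := congrArg (fun W => W.erase q) h
        beta_reduce at this
        rwa [erase_insert hqU, erase_insert hqV] at this
      · intro V hV
        rw [mem_filter, mem_powerset] at hV
        refine ⟨V.erase q, ?_, insert_erase hV.2⟩
        rw [mem_powerset]
        exact erase_subset_erase q hV.1
      · intro U hU
        rfl
    rw [e]
    unfold S1
    rw [Finset.mul_sum]
    calc ∑ U ∈ (P.erase q).powerset, GG (insert q U) * yy N L t₀ (∏ p ∈ insert q U, p) ≤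
        ∑ U ∈ (P.erase q).powerset, g1 q * (GG U * yy N L t₀ (∏ p ∈ U, p)) := by
          apply Finset.sum_le_sum
          intro U hU
          rw [mem_powerset] at hU
          have hqU : q ∉ U := fun hh => (notMem_erase q P) (hU hh)
          have h1 : GG (insert q U) = g1 q * GG U := by
            unfold GG
            rw [Finset.prod_insert hqU]
          have h2 : ∏ p ∈ U, p ≤ ∏ p ∈ insert q U, p := by
            rw [Finset.prod_insert hqU]
            exact Nat.le_mul_of_pos_left _ (hP q hqP)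
          rw [h1, mul_assoc]
          apply mul_le_mul_of_nonneg_left _ (t08_g1_nonneg q)
          exact mul_le_mul_of_nonneg_left (t08_yy_anti N L t₀ h2) (t08_GG_nonneg U)
      _ ≤ _ := by
          apply Finset.sum_le_sum_of_subset_of_nonneg
          · exact powerset_mono.2 (erase_subset _ _)
          · intro U _ _
            exact mul_nonneg (t08_g1_nonneg q)
              (mul_nonneg (t08_GG_nonneg U) (t08_yy_nonneg N L t₀ _))
  have hsub : P.powerset ⊆ (P \ Q).powerset ∪
      Q.biUnion (fun q => P.powerset.filter (fun U => q ∈ U)) := by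
    intro U hU
    rw [mem_union]
    by_cases h : ∃ q ∈ Q, q ∈ U
    · right
      obtain ⟨q, hq, hqU⟩ := h
      rw [mem_biUnion]
      exact ⟨q, hq, mem_filter.2 ⟨hU, hqU⟩⟩
    · left
      rw [mem_powerset] at hU ⊢
      intro x hx
      rw [mem_sdiff]
      exact ⟨hU hx, fun hq => h ⟨x, hq, hx⟩⟩
  have hnn : ∀ U : Finset ℕ, 0 ≤ GG U * yy N L t₀ (∏ p ∈ U, p) := fun U =>
    mul_nonneg (t08_GG_nonneg U) (t08_yy_nonneg N L t₀ _)
  calc S1 P N L t₀ = ∑ U ∈ P.powerset, GG U * yy N L t₀ (∏ p ∈ U, p) := rfl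
    _ ≤ ∑ U ∈ (P \ Q).powerset ∪ Q.biUnion (fun q => P.powerset.filter (fun U => q ∈ U)),
        GG U * yy N L t₀ (∏ p ∈ U, p) :=
        Finset.sum_le_sum_of_subset_of_nonneg hsub (fun U _ _ => hnn U)
    _ ≤ (∑ U ∈ (P \ Q).powerset, GG U * yy N L t₀ (∏ p ∈ U, p)) +
        ∑ U ∈ Q.biUnion (fun q => P.powerset.filter (fun U => q ∈ U)),
          GG U * yy N L t₀ (∏ p ∈ U, p) := by
        rw [← Finset.sum_union_inter]
        have : 0 ≤ ∑ U ∈ (P \ Q).powerset ∩
          Q.biUnion (fun q => P.powerset.filter (fun U => q ∈ U)),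
          GG U * yy N L t₀ (∏ p ∈ U, p) := Finset.sum_nonneg (fun U _ => hnn U)
        linarith
    _ ≤ (∑ U ∈ (P \ Q).powerset, GG U * yy N L t₀ (∏ p ∈ U, p)) +
        ∑ q ∈ Q, ∑ U ∈ P.powerset.filter (fun U => q ∈ U),
          GG U * yy N L t₀ (∏ p ∈ U, p) := by
        apply add_le_add_right
        calc ∑ U ∈ Q.biUnion (fun q => P.powerset.filter (fun U => q ∈ U)),
            GG U * yy N L t₀ (∏ p ∈ U, p) ≤
            ∑ U ∈ Q.biUnion (fun q => P.powerset.filter (fun U => q ∈ U)),
              ∑ q ∈ Q, (if q ∈ U then GG U * yy N L t₀ (∏ p ∈ U, p) else 0) := by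
              apply Finset.sum_le_sum
              intro U hU
              rw [mem_biUnion] at hU
              obtain ⟨q, hq, hqU⟩ := hU
              rw [mem_filter] at hqU
              have h := Finset.single_le_sum
                (f := fun q => if q ∈ U then GG U * yy N L t₀ (∏ p ∈ U, p) else 0)
                (fun x _ => by
                  beta_reduce
                  split_ifs
                  · exact hnn U
                  · exact le_rfl) hq
              beta_reduce at h
              rwa [if_pos hqU.2] at h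
          _ ≤ ∑ U ∈ P.powerset,
              ∑ q ∈ Q, (if q ∈ U then GG U * yy N L t₀ (∏ p ∈ U, p) else 0) := by
              apply Finset.sum_le_sum_of_subset_of_nonneg
              · intro U hU
                rw [mem_biUnion] at hU
                obtain ⟨q, _, hqU⟩ := hU
                exact (mem_filter.1 hqU).1
              · intro U _ _
                apply Finset.sum_nonneg
                intro q _
                split_ifs
                · exact hnn U
                · exact le_rfl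
          _ = _ := by
              rw [Finset.sum_comm]
              apply Finset.sum_congr rfl
              intro q _
              rw [Finset.sum_filter]
    _ ≤ _ := by
        have := Finset.sum_le_sum hone
        linarith

private theorem t08_YY {K : ℕ} (N L : ℕ) (t₀ v : ℝ) (j : Fin K) (hN : 2 ≤ N)
    (ht₀ : 0 < t₀) (hLv : (2 : ℝ) ^ L * t₀ ≤ v / 2)
    (A : Finset (ℕ × Fin K)) (hj : ∀ a ∈ A, a.2 ≠ j)
    (hA2 : (pr A : ℝ) ≤ (N : ℝ) ^ (v / 2)) (U : Finset ℕ) :
    YY N L t₀ v (A ∪ U.image (fun p => (p, j))) =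
      (∏ i ∈ univ.erase j, yy N L t₀ (∏ p ∈ lb i A, p)) * yy N L t₀ (∏ p ∈ U, p) := by
  classical
  have hN1 : (1 : ℝ) ≤ N := by
    have : (2 : ℝ) ≤ N := by exact_mod_cast hN
    linarith
  have hN0 : (0 : ℝ) < N := by linarith
  have hlbj : lb j (A ∪ U.image (fun p => (p, j))) = U := by
    ext p
    rw [mem_lb, mem_union, mem_image]
    constructor
    · rintro (h | ⟨x, hx, hx2⟩)
      · exact absurd rfl (hj _ h)
      · rw [Prod.mk.injEq] at hx2
        rw [← hx2.1]
        exact hx
    · intro h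
      right
      exact ⟨p, h, rfl⟩
  have hlbi : ∀ i : Fin K, i ≠ j → lb i (A ∪ U.image (fun p => (p, j))) = lb i A := by
    intro i hi
    ext p
    rw [mem_lb, mem_lb, mem_union, mem_image]
    constructor
    · rintro (h | ⟨x, hx, hx2⟩)
      · exact h
      · rw [Prod.mk.injEq] at hx2
        exact absurd hx2.2.symm hi
    · intro h
      left
      exact h
  have hprod : ∏ i, yy N L t₀ (∏ p ∈ lb i (A ∪ U.image (fun p => (p, j))), p) =
      (∏ i ∈ univ.erase j, yy N L t₀ (∏ p ∈ lb i A, p)) * yy N L t₀ (∏ p ∈ U, p) := by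
    rw [← Finset.prod_erase_mul univ _ (mem_univ j), hlbj]
    congr 1
    apply Finset.prod_congr rfl
    intro i hi
    rw [hlbi i (ne_of_mem_erase hi)]
  have hpr : pr (A ∪ U.image (fun p => (p, j))) = pr A * ∏ p ∈ U, p := by
    unfold pr
    rw [Finset.prod_union]
    · congr 1
      rw [Finset.prod_image]
      intro x _ y _ h
      beta_reduce at h
      rw [Prod.mk.injEq] at h
      exact h.1
    · rw [Finset.disjoint_left]
      intro a ha ha2
      rw [mem_image] at ha2
      obtain ⟨x, _, hx⟩ := ha2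
      apply hj a ha
      rw [← hx]
  unfold YY
  by_cases h : (pr (A ∪ U.image (fun p => (p, j))) : ℝ) ≤ (N : ℝ) ^ v
  · rw [if_pos h, hprod]
  · rw [if_neg h]
    have h0 : yy N L t₀ (∏ p ∈ U, p) = 0 := by
      unfold yy
      apply Finset.sum_eq_zero
      intro l hl
      rw [if_neg, mul_zero]
      intro h1
      apply h
      rw [hpr]
      push_cast
      have h2 : (N : ℝ) ^ ((2 : ℝ) ^ l * t₀) ≤ (N : ℝ) ^ (v / 2) := by
        apply Real.rpow_le_rpow_of_exponent_le hN1
        refine le_trans ?_ hLv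
        apply mul_le_mul_of_nonneg_right _ ht₀.le
        exact pow_le_pow_right₀ (by norm_num) (mem_range.1 hl).le
      have h3 := h1.trans h2
      push_cast at h3
      calc (pr A : ℝ) * ∏ p ∈ U, (p : ℝ) ≤ (N : ℝ) ^ (v / 2) * (N : ℝ) ^ (v / 2) := by
            apply mul_le_mul hA2 h3
            · apply Finset.prod_nonneg
              intro p _
              positivity
            · positivity
        _ = (N : ℝ) ^ v := by
            rw [← Real.rpow_add hN0]
            congr 1
            ring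
    rw [h0, mul_zero]

theorem Zj_ge {K : ℕ} (N L : ℕ) (P : Finset ℕ) (t₀ v δ : ℝ) (j : Fin K) (hN : 2 ≤ N) (hL : 1 ≤ L)
    (hP : ∀ p ∈ P, p.Prime ∧ (N : ℝ) ^ δ ≤ p) (hδ : 0 < δ) (ht₀ : 0 < t₀) (hv : 0 < v)
    (hLv : (2 : ℝ) ^ L * t₀ ≤ v / 2) (h1 : (v / δ) * (2 / (N : ℝ) ^ δ) ≤ 1 / 4)
    (A : Finset (ℕ × Fin K)) (hA : A ∈ LS K P) (hj : ∀ a ∈ A, a.2 ≠ j)
    (hA2 : (pr A : ℝ) ≤ (N : ℝ) ^ (v / 2)) :
    (∏ i ∈ univ.erase j, yy N L t₀ (∏ p ∈ lb i A, p)) * (3 / 4 * S1 P N L t₀) ≤
      Zj g1 P j (YY N L t₀ v) A := by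
  classical
  rw [mem_LS] at hA
  have hN1 : (1 : ℝ) < N := by
    have : (2 : ℝ) ≤ N := by exact_mod_cast hN
    linarith
  have hN0 : (0 : ℝ) < N := by linarith
  have hNδ : (0 : ℝ) < (N : ℝ) ^ δ := by positivity
  have hZ : Zj g1 P j (YY N L t₀ v) A =
      (∏ i ∈ univ.erase j, yy N L t₀ (∏ p ∈ lb i A, p)) *
        ∑ U ∈ (P \ A.image Prod.fst).powerset, GG U * yy N L t₀ (∏ p ∈ U, p) := by
    unfold Zj
    rw [if_neg (by push Not; exact hj), Finset.mul_sum]
    apply Finset.sum_congr rfl
    intro U _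
    rw [t08_YY N L t₀ v j hN ht₀ hLv A hj hA2 U]
    unfold GG
    ring
  rw [hZ]
  apply mul_le_mul_of_nonneg_left
  · have hQ : A.image Prod.fst ⊆ P := by
      intro p hp
      rw [mem_image] at hp
      obtain ⟨a, ha, rfl⟩ := hp
      exact hA.1 a ha
    have hrem := t08_remove N L t₀ P (A.image Prod.fst) (fun p hp => (hP p hp).1.one_lt.le) hQ
    rw [← Finset.sum_mul] at hrem
    have hS1 : 0 ≤ S1 P N L t₀ := by
      unfold S1
      exact Finset.sum_nonneg (fun U _ => mul_nonneg (t08_GG_nonneg U) (t08_yy_nonneg N L t₀ _))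
    have hcard : (#(A.image Prod.fst) : ℝ) * δ ≤ v / 2 := by
      have h2 : (N : ℝ) ^ (δ * #A) ≤ (N : ℝ) ^ (v / 2) := by
        refine le_trans ?_ hA2
        unfold pr
        push_cast
        rw [Real.rpow_mul hN0.le, Real.rpow_natCast, ← Finset.prod_const]
        apply Finset.prod_le_prod
        · intro a _
          positivity
        · intro a ha
          exact (hP _ (hA.1 a ha)).2
      have h3 : δ * #A ≤ v / 2 := (Real.rpow_le_rpow_left_iff hN1).1 h2
      have h4 : (#(A.image Prod.fst) : ℝ) ≤ #A := by exact_mod_cast Finset.card_image_le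
      nlinarith
    have hsum : ∑ q ∈ A.image Prod.fst, g1 q ≤ 1 / 4 := by
      calc ∑ q ∈ A.image Prod.fst, g1 q ≤ ∑ _q ∈ A.image Prod.fst, 2 / (N : ℝ) ^ δ := by
            apply Finset.sum_le_sum
            intro q hq
            exact t08_g1_le (hP q (hQ hq)).1 hNδ (hP q (hQ hq)).2
        _ = (#(A.image Prod.fst) : ℝ) * (2 / (N : ℝ) ^ δ) := by
            rw [Finset.sum_const, nsmul_eq_mul]
        _ ≤ (v / δ) * (2 / (N : ℝ) ^ δ) := by
            apply mul_le_mul_of_nonneg_right _ (by positivity)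
            rw [le_div_iff₀ hδ]
            linarith
        _ ≤ 1 / 4 := h1
    have h5 := mul_le_mul_of_nonneg_right hsum hS1
    linarith
  · exact Finset.prod_nonneg (fun i _ => t08_yy_nonneg N L t₀ _)

end Pool.Agent.Work.MP_73869e_nt.TH
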