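import Mathlib
import Pool.Agent.Work.MP_73869e_nt.TH.T06

set_option autoImplicit false

/-!
MODULE T09 (lower bound for the sum over tuples), size M.
Start from the sum over all A ⊆ P × Fin K without label j of (product over i ≠ j of yy(lb i A)^2) * ga A,
which is S2^(K-1) (prod_labels of T06 with h j S = 1 if S = ∅ and 0 otherwise).
(1) Subtract the A with pr A > N^(v/2): they are at most (2/v) * sum over A of (log pr A / log N) * term,
log pr A = sum over i ≠ j of log (prod lb i A), each giving S2t * S2^(K-2): in total at most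
(2/v) K S2t S2^(K-2) <= S2^(K-1) / 4 by h3 (for K = 1 there is nothing: pr A = 1).
(2) Subtract the A which are not Lab: then some p in P lies in lb i A and lb i' A, i ≠ i'; since yy is
antitone and GG (insert p S) = g1 p * GG S, those A contribute at most (g1 p)^2 * S2^(K-1); in total at most
K^2 * sum over p in P of (g1 p)^2 * S2^(K-1) and sum (g1 p)^2 <= sum over integers n >= N^δ of 4/n^2
<= 8 / N^δ; use h2. Note S2 >= 1 > 0 when L >= 1 (S = ∅).
-/

namespace Pool.Agent.Work.MP_73869e_nt.TH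

open Finset Pool.Agent.Work.MP_2dba45_nt.BilDef Pool.Agent.Work.MP_2dba45_nt.Sv

private theorem g1_nn (p : ℕ) : 0 ≤ g1 p := by
  unfold g1
  positivity

private theorem GG_nn (S : Finset ℕ) : 0 ≤ GG S := by
  unfold GG
  exact Finset.prod_nonneg fun p _ => g1_nn p

private theorem yy_nn (N L : ℕ) (t₀ : ℝ) (s : ℕ) : 0 ≤ yy N L t₀ s := by
  unfold yy
  refine Finset.sum_nonneg fun l _ => ?_
  refine mul_nonneg (by positivity) ?_
  split_ifs <;> norm_num

private theorem yy_anti (N L : ℕ) (t₀ : ℝ) {s t : ℕ} (h : s ≤ t) : yy N L t₀ t ≤ yy N L t₀ s := by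
  unfold yy
  refine Finset.sum_le_sum fun l _ => ?_
  refine mul_le_mul_of_nonneg_left ?_ (by positivity)
  have h' : (s : ℝ) ≤ t := by exact_mod_cast h
  split_ifs with h1 h2
  · exact le_refl _
  · exact absurd (h'.trans h1) h2
  · exact zero_le_one
  · exact le_refl _

/-- the factor of the label `i` -/
private noncomputable def hh {K : ℕ} (N L : ℕ) (t₀ : ℝ) (j i : Fin K) (S : Finset ℕ) : ℝ :=
  if i = j then (if S = ∅ then 1 else 0) else GG S * yy N L t₀ (∏ p ∈ S, p) ^ 2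

private theorem hh_nn {K : ℕ} (N L : ℕ) (t₀ : ℝ) (j i : Fin K) (S : Finset ℕ) :
    0 ≤ hh N L t₀ j i S := by
  unfold hh
  split_ifs
  · exact zero_le_one
  · exact le_refl _
  · exact mul_nonneg (GG_nn _) (by positivity)

private theorem hh_sum {K : ℕ} (N L : ℕ) (P : Finset ℕ) (t₀ : ℝ) (j i : Fin K) :
    ∑ S ∈ P.powerset, hh N L t₀ j i S = if i = j then 1 else S2 P N L t₀ := by
  unfold hh
  split_ifs
  · rw [Finset.sum_ite_eq' P.powerset ∅, if_pos (empty_mem_powerset _)]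
  · rfl

private theorem prod_hh_sum {K : ℕ} (N L : ℕ) (P : Finset ℕ) (t₀ : ℝ) (j : Fin K) :
    ∏ i, ∑ S ∈ P.powerset, hh N L t₀ j i S = S2 P N L t₀ ^ (K - 1) := by
  rw [Finset.prod_congr rfl fun i _ => hh_sum N L P t₀ j i]
  rw [← Finset.mul_prod_erase univ _ (mem_univ j), if_pos rfl, one_mul]
  rw [Finset.prod_congr rfl (g := fun _ => S2 P N L t₀)]
  · rw [Finset.prod_const, card_erase_of_mem (mem_univ j), card_univ, Fintype.card_fin]
  · intro i hi
    rw [if_neg (ne_of_mem_erase hi)]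

/-- the summand of a set `A` -/
private noncomputable def HH {K : ℕ} (N L : ℕ) (t₀ : ℝ) (j : Fin K) (A : Finset (ℕ × Fin K)) : ℝ :=
  ∏ i, hh N L t₀ j i (lb i A)

private theorem HH_nn {K : ℕ} (N L : ℕ) (t₀ : ℝ) (j : Fin K) (A : Finset (ℕ × Fin K)) :
    0 ≤ HH N L t₀ j A := Finset.prod_nonneg fun i _ => hh_nn _ _ _ _ _ _

private theorem HH_eq {K : ℕ} (N L : ℕ) (t₀ : ℝ) (j : Fin K) (A : Finset (ℕ × Fin K))
    (hA : ∀ a ∈ A, a.2 ≠ j) :
    HH N L t₀ j A = (∏ i ∈ univ.erase j, yy N L t₀ (∏ p ∈ lb i A, p)) ^ 2 * ga g1 A := by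
  have h0 : lb j A = ∅ := by
    rw [eq_empty_iff_forall_notMem]
    intro p hp
    rw [mem_lb] at hp
    exact hA _ hp rfl
  unfold HH
  rw [ga_lb, ← Finset.mul_prod_erase univ _ (mem_univ j),
    ← Finset.mul_prod_erase univ (fun i => GG (lb i A)) (mem_univ j)]
  have h1 : hh N L t₀ j j (lb j A) = 1 := by
    unfold hh
    rw [if_pos rfl, if_pos h0]
  have h2 : GG (lb j A) = 1 := by
    rw [h0]
    unfold GG
    rw [prod_empty]
  rw [h1, h2, one_mul, one_mul, ← Finset.prod_pow, ← Finset.prod_mul_distrib]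
  refine Finset.prod_congr rfl fun i hi => ?_
  unfold hh
  rw [if_neg (ne_of_mem_erase hi), mul_comm]

private theorem HH_zero {K : ℕ} (N L : ℕ) (t₀ : ℝ) (j : Fin K) (A : Finset (ℕ × Fin K))
    (hA : ¬ ∀ a ∈ A, a.2 ≠ j) : HH N L t₀ j A = 0 := by
  push Not at hA
  obtain ⟨⟨p, k⟩, ha, hk⟩ := hA
  simp only at hk
  rw [hk] at ha
  unfold HH
  refine Finset.prod_eq_zero (mem_univ j) ?_
  unfold hh
  rw [if_pos rfl, if_neg]
  intro h
  have : p ∈ lb j A := (mem_lb A j p).2 ha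
  rw [h] at this
  exact absurd this (notMem_empty _)

/-- the sum over sets of large product -/
private theorem part1 {K : ℕ} (N L : ℕ) (P : Finset ℕ) (t₀ v : ℝ) (j : Fin K) (hN : 2 ≤ N)
    (hP : ∀ p ∈ P, p.Prime) (hv : 0 < v)
    (h3 : 8 * K * S2t P N L t₀ ≤ v * S2 P N L t₀) :
    ∑ A ∈ (P ×ˢ (univ : Finset (Fin K))).powerset.filter
        (fun A => ¬ (pr A : ℝ) ≤ (N : ℝ) ^ (v / 2)), HH N L t₀ j A
      ≤ 1 / 4 * S2 P N L t₀ ^ (K - 1) := by
  have hlogN : 0 < Real.log N := Real.log_pos (by exact_mod_cast hN)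
  have hNpos : (0 : ℝ) < N := by positivity
  have hK : 0 < K := lt_of_le_of_lt (Nat.zero_le _) j.2
  have hK' : (0 : ℝ) < K := by exact_mod_cast hK
  -- the sum with the logarithm of one label
  have key : ∀ i₀ : Fin K, 8 * K * ∑ A ∈ (P ×ˢ (univ : Finset (Fin K))).powerset,
      HH N L t₀ j A * (Real.log ((∏ p ∈ lb i₀ A, p : ℕ) : ℝ) / Real.log N) ≤
        v * S2 P N L t₀ ^ (K - 1) := by
    intro i₀
    have e1 : ∑ A ∈ (P ×ˢ (univ : Finset (Fin K))).powerset,
        HH N L t₀ j A * (Real.log ((∏ p ∈ lb i₀ A, p : ℕ) : ℝ) / Real.log N) =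
        ∏ i, ∑ S ∈ P.powerset, hh N L t₀ j i S *
          (if i = i₀ then (Real.log ((∏ p ∈ S, p : ℕ) : ℝ) / Real.log N) else 1) := by
      rw [← prod_labels P (fun i S => hh N L t₀ j i S *
          (if i = i₀ then (Real.log ((∏ p ∈ S, p : ℕ) : ℝ) / Real.log N) else 1))]
      refine Finset.sum_congr rfl fun A _ => ?_
      rw [Finset.prod_mul_distrib]
      unfold HH
      congr 1
      rw [Finset.prod_ite_eq' univ i₀, if_pos (mem_univ _)]
    rw [e1, ← Finset.mul_prod_erase univ _ (mem_univ i₀)]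
    rw [Finset.prod_congr (s₁ := univ.erase i₀) rfl
      (g := fun i => ∑ S ∈ P.powerset, hh N L t₀ j i S)]
    · rw [← prod_hh_sum N L P t₀ j, ← Finset.mul_prod_erase univ
        (fun i => ∑ S ∈ P.powerset, hh N L t₀ j i S) (mem_univ i₀)]
      rw [← mul_assoc, ← mul_assoc]
      refine mul_le_mul_of_nonneg_right ?_ ?_
      · by_cases hij : i₀ = j
        · have e2 : ∑ S ∈ P.powerset, hh N L t₀ j i₀ S *
              (if i₀ = i₀ then (Real.log ((∏ p ∈ S, p : ℕ) : ℝ) / Real.log N) else 1) = 0 := by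
            refine Finset.sum_eq_zero fun S _ => ?_
            rw [if_pos rfl]
            unfold hh
            rw [if_pos hij]
            split_ifs with hS
            · rw [hS, prod_empty, Nat.cast_one, Real.log_one, zero_div, mul_zero]
            · rw [zero_mul]
          rw [e2, mul_zero]
          exact mul_nonneg hv.le (Finset.sum_nonneg fun S _ => hh_nn _ _ _ _ _ _)
        · have e2 : ∑ S ∈ P.powerset, hh N L t₀ j i₀ S *
              (if i₀ = i₀ then (Real.log ((∏ p ∈ S, p : ℕ) : ℝ) / Real.log N) else 1) =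
                S2t P N L t₀ := by
            unfold S2t
            refine Finset.sum_congr rfl fun S _ => ?_
            rw [if_pos rfl]
            unfold hh
            rw [if_neg hij]
          rw [e2, hh_sum, if_neg hij]
          exact h3
      · exact Finset.prod_nonneg fun i _ => Finset.sum_nonneg fun S _ => hh_nn _ _ _ _ _ _
    · intro i hi
      refine Finset.sum_congr rfl fun S _ => ?_
      rw [if_neg (ne_of_mem_erase hi), mul_one]
  -- Markov
  have hmark : ∀ A ∈ (P ×ˢ (univ : Finset (Fin K))).powerset.filter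
        (fun A => ¬ (pr A : ℝ) ≤ (N : ℝ) ^ (v / 2)),
      HH N L t₀ j A ≤ 2 / v * (HH N L t₀ j A * (Real.log (pr A : ℝ) / Real.log N)) := by
    intro A hA
    have h1 : (N : ℝ) ^ (v / 2) < pr A := not_le.1 (mem_filter.1 hA).2
    have h2 : v / 2 * Real.log N ≤ Real.log (pr A : ℝ) := by
      rw [← Real.log_rpow hNpos]
      exact Real.log_le_log (Real.rpow_pos_of_pos hNpos _) h1.le
    have h3 : v / 2 ≤ Real.log (pr A : ℝ) / Real.log N := by
      rwa [le_div_iff₀ hlogN]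
    have h4 : 1 ≤ 2 / v * (Real.log (pr A : ℝ) / Real.log N) := by
      calc (1 : ℝ) = 2 / v * (v / 2) := by field_simp
        _ ≤ _ := mul_le_mul_of_nonneg_left h3 (by positivity)
    calc HH N L t₀ j A = HH N L t₀ j A * 1 := (mul_one _).symm
      _ ≤ HH N L t₀ j A * (2 / v * (Real.log (pr A : ℝ) / Real.log N)) :=
          mul_le_mul_of_nonneg_left h4 (HH_nn _ _ _ _ _)
      _ = _ := by ring
  have hlogpr : ∀ A ∈ (P ×ˢ (univ : Finset (Fin K))).powerset,
      Real.log (pr A : ℝ) = ∑ i, Real.log ((∏ p ∈ lb i A, p : ℕ) : ℝ) := by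
    intro A hA
    rw [pr_lb, Nat.cast_prod, Real.log_prod]
    intro i _
    rw [Nat.cast_ne_zero, Finset.prod_ne_zero_iff]
    intro p hp
    rw [mem_lb] at hp
    exact (hP p (mem_product.1 (mem_powerset.1 hA hp)).1).ne_zero
  have hlognn : ∀ A ∈ (P ×ˢ (univ : Finset (Fin K))).powerset, 0 ≤ Real.log (pr A : ℝ) := by
    intro A hA
    refine Real.log_nonneg ?_
    have : 1 ≤ pr A := by
      unfold pr
      exact Finset.one_le_prod' fun a ha => (hP a.1 (mem_product.1 (mem_powerset.1 hA ha)).1).one_le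
    exact_mod_cast this
  calc ∑ A ∈ (P ×ˢ (univ : Finset (Fin K))).powerset.filter
        (fun A => ¬ (pr A : ℝ) ≤ (N : ℝ) ^ (v / 2)), HH N L t₀ j A
      ≤ ∑ A ∈ (P ×ˢ (univ : Finset (Fin K))).powerset.filter
        (fun A => ¬ (pr A : ℝ) ≤ (N : ℝ) ^ (v / 2)),
          2 / v * (HH N L t₀ j A * (Real.log (pr A : ℝ) / Real.log N)) :=
        Finset.sum_le_sum hmark
    _ ≤ ∑ A ∈ (P ×ˢ (univ : Finset (Fin K))).powerset,
          2 / v * (HH N L t₀ j A * (Real.log (pr A : ℝ) / Real.log N)) := by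
        refine Finset.sum_le_sum_of_subset_of_nonneg (filter_subset _ _) ?_
        intro A hA _
        exact mul_nonneg (by positivity)
          (mul_nonneg (HH_nn _ _ _ _ _) (div_nonneg (hlognn A hA) hlogN.le))
    _ = 2 / v * ∑ i₀ : Fin K, ∑ A ∈ (P ×ˢ (univ : Finset (Fin K))).powerset,
          HH N L t₀ j A * (Real.log ((∏ p ∈ lb i₀ A, p : ℕ) : ℝ) / Real.log N) := by
        rw [← Finset.mul_sum, Finset.sum_comm]
        congr 1
        refine Finset.sum_congr rfl fun A hA => ?_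
        rw [hlogpr A hA, Finset.sum_div, Finset.mul_sum]
    _ ≤ 2 / v * ∑ _i₀ : Fin K, v * S2 P N L t₀ ^ (K - 1) / (8 * K) := by
        refine mul_le_mul_of_nonneg_left (Finset.sum_le_sum fun i₀ _ => ?_) (by positivity)
        rw [le_div_iff₀ (by positivity), mul_comm]
        exact key i₀
    _ = 1 / 4 * S2 P N L t₀ ^ (K - 1) := by
        rw [Finset.sum_const, card_univ, Fintype.card_fin, nsmul_eq_mul]
        field_simp
        ring

/-- sum over the sets containing `p` -/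
private theorem sum_mem {K : ℕ} (N L : ℕ) (P : Finset ℕ) (t₀ : ℝ) (j i : Fin K)
    (p : ℕ) (hp : p ∈ P) (hp1 : 1 ≤ p) :
    ∑ S ∈ P.powerset, hh N L t₀ j i S * (if p ∈ S then 1 else 0) ≤
      g1 p * ∑ S ∈ P.powerset, hh N L t₀ j i S := by
  by_cases hij : i = j
  · rw [Finset.sum_eq_zero]
    · exact mul_nonneg (g1_nn p) (Finset.sum_nonneg fun S _ => hh_nn _ _ _ _ _ _)
    · intro S _
      unfold hh
      rw [if_pos hij]
      by_cases hS : S = ∅
      · rw [hS, if_neg (notMem_empty p), mul_zero]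
      · rw [if_neg hS, zero_mul]
  · have hPe : P = insert p (P.erase p) := (insert_erase hp).symm
    have hnp : p ∉ P.erase p := notMem_erase p P
    have e1 : ∑ S ∈ P.powerset, hh N L t₀ j i S * (if p ∈ S then 1 else 0) =
        ∑ S ∈ (P.erase p).powerset, hh N L t₀ j i (insert p S) := by
      conv_lhs => rw [hPe]
      rw [Finset.sum_powerset_insert hnp]
      rw [Finset.sum_eq_zero (s := (P.erase p).powerset), zero_add]
      · refine Finset.sum_congr rfl fun S _ => ?_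
        rw [if_pos (mem_insert_self p S), mul_one]
      · intro S hS
        rw [if_neg, mul_zero]
        intro hc
        exact hnp (mem_powerset.1 hS hc)
    rw [e1]
    calc ∑ S ∈ (P.erase p).powerset, hh N L t₀ j i (insert p S)
        ≤ ∑ S ∈ (P.erase p).powerset, g1 p * hh N L t₀ j i S := by
          refine Finset.sum_le_sum fun S hS => ?_
          have hpS : p ∉ S := fun hc => hnp (mem_powerset.1 hS hc)
          unfold hh
          rw [if_neg hij, if_neg hij]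
          unfold GG
          rw [Finset.prod_insert hpS, Finset.prod_insert hpS, mul_assoc]
          refine mul_le_mul_of_nonneg_left ?_ (g1_nn p)
          refine mul_le_mul_of_nonneg_left ?_ (GG_nn S)
          refine pow_le_pow_left₀ (yy_nn _ _ _ _) ?_ 2
          refine yy_anti N L t₀ ?_
          exact Nat.le_mul_of_pos_left _ hp1
      _ = g1 p * ∑ S ∈ (P.erase p).powerset, hh N L t₀ j i S := by rw [Finset.mul_sum]
      _ ≤ g1 p * ∑ S ∈ P.powerset, hh N L t₀ j i S := by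
          refine mul_le_mul_of_nonneg_left ?_ (g1_nn p)
          refine Finset.sum_le_sum_of_subset_of_nonneg
            (powerset_mono.2 (erase_subset _ _)) ?_
          intro S _ _
          exact hh_nn _ _ _ _ _ _

/-- the sets containing `p` with two labels -/
private theorem part2a {K : ℕ} (N L : ℕ) (P : Finset ℕ) (t₀ : ℝ) (j : Fin K)
    (p : ℕ) (hp : p ∈ P) (hp1 : 1 ≤ p) (i₁ i₂ : Fin K) (h12 : i₁ ≠ i₂) :
    ∑ A ∈ (P ×ˢ (univ : Finset (Fin K))).powerset.filter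
        (fun A => (p, i₁) ∈ A ∧ (p, i₂) ∈ A), HH N L t₀ j A
      ≤ (g1 p) ^ 2 * S2 P N L t₀ ^ (K - 1) := by
  have e1 : ∑ A ∈ (P ×ˢ (univ : Finset (Fin K))).powerset.filter
        (fun A => (p, i₁) ∈ A ∧ (p, i₂) ∈ A), HH N L t₀ j A =
      ∏ i, ∑ S ∈ P.powerset, hh N L t₀ j i S *
        (if i = i₁ ∨ i = i₂ then (if p ∈ S then 1 else 0) else 1) := by
    rw [← prod_labels P (fun i S => hh N L t₀ j i S *
        (if i = i₁ ∨ i = i₂ then (if p ∈ S then 1 else 0) else 1)), Finset.sum_filter]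
    refine Finset.sum_congr rfl fun A _ => ?_
    rw [Finset.prod_mul_distrib]
    have e2 : (∏ i : Fin K, (if i = i₁ ∨ i = i₂ then (if p ∈ lb i A then (1 : ℝ) else 0) else 1)) =
        if ((p, i₁) ∈ A ∧ (p, i₂) ∈ A) then 1 else 0 := by
      split_ifs with h
      · refine Finset.prod_eq_one fun i _ => ?_
        split_ifs with h5 h6
        · rfl
        · exfalso
          apply h6
          rw [mem_lb]
          rcases h5 with rfl | rfl
          · exact h.1
          · exact h.2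
        · rfl
      · rw [not_and_or] at h
        rcases h with h | h
        · refine Finset.prod_eq_zero (mem_univ i₁) ?_
          rw [if_pos (Or.inl rfl), if_neg]
          rwa [mem_lb]
        · refine Finset.prod_eq_zero (mem_univ i₂) ?_
          rw [if_pos (Or.inr rfl), if_neg]
          rwa [mem_lb]
    rw [e2]
    unfold HH
    split_ifs
    · rw [mul_one]
    · rw [mul_zero]
  rw [e1]
  calc ∏ i, ∑ S ∈ P.powerset, hh N L t₀ j i S *
        (if i = i₁ ∨ i = i₂ then (if p ∈ S then 1 else 0) else 1)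
      ≤ ∏ i : Fin K, ((if i = i₁ ∨ i = i₂ then g1 p else 1) *
          ∑ S ∈ P.powerset, hh N L t₀ j i S) := by
        refine Finset.prod_le_prod (fun i _ => ?_) (fun i _ => ?_)
        · refine Finset.sum_nonneg fun S _ => mul_nonneg (hh_nn _ _ _ _ _ _) ?_
          split_ifs <;> norm_num
        · by_cases h : i = i₁ ∨ i = i₂
          · simp only [if_pos h]
            exact sum_mem N L P t₀ j i p hp hp1
          · simp only [if_neg h, mul_one, one_mul]
            exact le_refl _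
    _ = (g1 p) ^ 2 * S2 P N L t₀ ^ (K - 1) := by
        rw [Finset.prod_mul_distrib, prod_hh_sum]
        congr 1
        rw [← Finset.prod_filter, Finset.prod_const]
        congr 1
        have : univ.filter (fun i : Fin K => i = i₁ ∨ i = i₂) = {i₁, i₂} := by
          ext i
          simp
        rw [this, card_pair h12]

private theorem sum_g1_sq (N : ℕ) (P : Finset ℕ) (δ : ℝ) (hN : 2 ≤ N)
    (hP : ∀ p ∈ P, p.Prime ∧ (N : ℝ) ^ δ ≤ p) (hδ : 0 < δ) :
    ∑ p ∈ P, (g1 p) ^ 2 ≤ 8 / (N : ℝ) ^ δ := by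
  have hN1 : (1 : ℝ) < N := by exact_mod_cast hN
  have hx : 1 < (N : ℝ) ^ δ := Real.one_lt_rpow hN1 hδ
  set x := (N : ℝ) ^ δ with hxdef
  have hm : 1 < ⌈x⌉₊ := by
    have := Nat.le_ceil x
    exact_mod_cast lt_of_lt_of_le hx this
  have h1 : ∀ p ∈ P, (g1 p) ^ 2 ≤ 4 * ((p : ℝ) ^ 2)⁻¹ := by
    intro p hp
    have h2 : (Pool.Agent.Work.MP_2dba45_nt.Nu.nu 1 p : ℝ) ≤ 2 := by exact_mod_cast Pool.Agent.Work.MP_2dba45_nt.Nu.nu_le 1 p (hP p hp).1
    unfold g1
    rw [div_pow, div_eq_mul_inv]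
    refine mul_le_mul_of_nonneg_right ?_ (by positivity)
    have : (0 : ℝ) ≤ Pool.Agent.Work.MP_2dba45_nt.Nu.nu 1 p := Nat.cast_nonneg _
    nlinarith
  have h2 : P ⊆ Ioo (⌈x⌉₊ - 1) (P.sup id + 1) := by
    intro p hp
    rw [mem_Ioo]
    constructor
    · have : ⌈x⌉₊ ≤ p := Nat.ceil_le.2 (hP p hp).2
      omega
    · have : p ≤ P.sup id := le_sup (f := id) hp
      omega
  calc ∑ p ∈ P, (g1 p) ^ 2 ≤ ∑ p ∈ P, 4 * ((p : ℝ) ^ 2)⁻¹ := Finset.sum_le_sum h1
    _ ≤ ∑ p ∈ Ioo (⌈x⌉₊ - 1) (P.sup id + 1), 4 * ((p : ℝ) ^ 2)⁻¹ := by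
        refine Finset.sum_le_sum_of_subset_of_nonneg h2 ?_
        intro p _ _
        positivity
    _ = 4 * ∑ p ∈ Ioo (⌈x⌉₊ - 1) (P.sup id + 1), ((p : ℝ) ^ 2)⁻¹ := by rw [Finset.mul_sum]
    _ ≤ 4 * (2 / (((⌈x⌉₊ - 1 : ℕ) : ℝ) + 1)) := by
        refine mul_le_mul_of_nonneg_left ?_ (by norm_num)
        exact sum_Ioo_inv_sq_le _ _
    _ ≤ 8 / x := by
        have h3 : (((⌈x⌉₊ - 1 : ℕ) : ℝ) + 1) = (⌈x⌉₊ : ℝ) := by
          have : ⌈x⌉₊ - 1 + 1 = ⌈x⌉₊ := by omega
          exact_mod_cast this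
        rw [h3]
        have h4 : x ≤ (⌈x⌉₊ : ℝ) := Nat.le_ceil x
        have hx0 : 0 < x := by linarith
        rw [show (4 : ℝ) * (2 / (⌈x⌉₊ : ℝ)) = 8 / (⌈x⌉₊ : ℝ) by ring]
        exact div_le_div_of_nonneg_left (by norm_num) hx0 h4

private theorem part2 {K : ℕ} (N L : ℕ) (P : Finset ℕ) (t₀ δ : ℝ) (j : Fin K) (hN : 2 ≤ N)
    (hP : ∀ p ∈ P, p.Prime ∧ (N : ℝ) ^ δ ≤ p) (hδ : 0 < δ)
    (h2 : (K : ℝ) ^ 2 * (8 / (N : ℝ) ^ δ) ≤ 1 / 8) (hS2 : 0 ≤ S2 P N L t₀) :
    ∑ A ∈ (P ×ˢ (univ : Finset (Fin K))).powerset.filter (fun A => ¬ Lab A), HH N L t₀ j A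
      ≤ 1 / 8 * S2 P N L t₀ ^ (K - 1) := by
  have hcov : ∑ A ∈ (P ×ˢ (univ : Finset (Fin K))).powerset.filter (fun A => ¬ Lab A),
      HH N L t₀ j A ≤ ∑ x ∈ P ×ˢ ((univ ×ˢ univ : Finset (Fin K × Fin K)).filter
        (fun y => y.1 ≠ y.2)), ∑ A ∈ (P ×ˢ (univ : Finset (Fin K))).powerset.filter
          (fun A => (x.1, x.2.1) ∈ A ∧ (x.1, x.2.2) ∈ A), HH N L t₀ j A := by
    have e1 : ∀ x : ℕ × (Fin K × Fin K),
        ∑ A ∈ (P ×ˢ (univ : Finset (Fin K))).powerset.filter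
          (fun A => (x.1, x.2.1) ∈ A ∧ (x.1, x.2.2) ∈ A), HH N L t₀ j A =
        ∑ A ∈ (P ×ˢ (univ : Finset (Fin K))).powerset,
          if ((x.1, x.2.1) ∈ A ∧ (x.1, x.2.2) ∈ A) then HH N L t₀ j A else 0 := by
      intro x
      rw [Finset.sum_filter]
    rw [Finset.sum_congr rfl fun x _ => e1 x, Finset.sum_comm, Finset.sum_filter]
    refine Finset.sum_le_sum fun A hA => ?_
    have hnn : ∀ x ∈ P ×ˢ ((univ ×ˢ univ : Finset (Fin K × Fin K)).filter (fun y => y.1 ≠ y.2)),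
        0 ≤ if ((x.1, x.2.1) ∈ A ∧ (x.1, x.2.2) ∈ A) then HH N L t₀ j A else 0 := by
      intro x _
      split_ifs
      · exact HH_nn _ _ _ _ _
      · exact le_refl _
    split_ifs with hlab
    · exact Finset.sum_nonneg hnn
    · unfold Lab at hlab
      push Not at hlab
      obtain ⟨⟨p, i₁⟩, ha, ⟨q, i₂⟩, hb, hpq, hne⟩ := hlab
      simp only at hpq
      subst hpq
      have hne' : i₁ ≠ i₂ := fun hc => hne (by rw [hc])
      have hx : (p, (i₁, i₂)) ∈ P ×ˢ ((univ ×ˢ univ : Finset (Fin K × Fin K)).filter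
          (fun y => y.1 ≠ y.2)) := by
        rw [mem_product, mem_filter]
        exact ⟨(mem_product.1 (mem_powerset.1 hA ha)).1, mem_product.2 ⟨mem_univ _, mem_univ _⟩,
          hne'⟩
      refine le_trans (le_of_eq ?_) (Finset.single_le_sum hnn hx)
      rw [if_pos ⟨ha, hb⟩]
  calc ∑ A ∈ (P ×ˢ (univ : Finset (Fin K))).powerset.filter (fun A => ¬ Lab A), HH N L t₀ j A
      ≤ _ := hcov
    _ ≤ ∑ x ∈ P ×ˢ ((univ ×ˢ univ : Finset (Fin K × Fin K)).filter (fun y => y.1 ≠ y.2)),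
          (g1 x.1) ^ 2 * S2 P N L t₀ ^ (K - 1) := by
        refine Finset.sum_le_sum fun x hx => ?_
        rw [mem_product, mem_filter] at hx
        exact part2a N L P t₀ j x.1 hx.1 (hP x.1 hx.1).1.one_le _ _ hx.2.2
    _ = (#((univ ×ˢ univ : Finset (Fin K × Fin K)).filter (fun y => y.1 ≠ y.2)) : ℝ) *
          (∑ p ∈ P, (g1 p) ^ 2) * S2 P N L t₀ ^ (K - 1) := by
        rw [Finset.sum_product]
        simp only [Finset.sum_const, nsmul_eq_mul]
        rw [← Finset.mul_sum, ← Finset.sum_mul, mul_assoc]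
    _ ≤ (K : ℝ) ^ 2 * (8 / (N : ℝ) ^ δ) * S2 P N L t₀ ^ (K - 1) := by
        refine mul_le_mul_of_nonneg_right ?_ (pow_nonneg hS2 _)
        refine mul_le_mul ?_ (sum_g1_sq N P δ hN hP hδ)
          (Finset.sum_nonneg fun p _ => by positivity) (by positivity)
        have : #((univ ×ˢ univ : Finset (Fin K × Fin K)).filter (fun y => y.1 ≠ y.2)) ≤ K ^ 2 := by
          refine (card_filter_le _ _).trans ?_
          rw [card_product, card_univ, Fintype.card_fin, sq]
        exact_mod_cast this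
    _ ≤ 1 / 8 * S2 P N L t₀ ^ (K - 1) :=
        mul_le_mul_of_nonneg_right h2 (pow_nonneg hS2 _)

theorem tuple_ge {K : ℕ} (N L : ℕ) (P : Finset ℕ) (t₀ v δ : ℝ) (j : Fin K) (hN : 2 ≤ N) (hL : 1 ≤ L)
    (hP : ∀ p ∈ P, p.Prime ∧ (N : ℝ) ^ δ ≤ p) (hδ : 0 < δ) (ht₀ : 0 < t₀) (hv : 0 < v)
    (h2 : (K : ℝ) ^ 2 * (8 / (N : ℝ) ^ δ) ≤ 1 / 8)
    (h3 : 8 * K * S2t P N L t₀ ≤ v * S2 P N L t₀) :
    5 / 8 * S2 P N L t₀ ^ (K - 1) ≤
      ∑ A ∈ (LS K P).filter (fun A => (∀ a ∈ A, a.2 ≠ j) ∧ (pr A : ℝ) ≤ (N : ℝ) ^ (v / 2)),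
        (∏ i ∈ univ.erase j, yy N L t₀ (∏ p ∈ lb i A, p)) ^ 2 * ga g1 A := by
  have hS2 : 0 ≤ S2 P N L t₀ := by
    unfold S2
    exact Finset.sum_nonneg fun S _ => mul_nonneg (GG_nn S) (by positivity)
  have p1 := part1 N L P t₀ v j hN (fun p hp => (hP p hp).1) hv h3
  have p2 := part2 N L P t₀ δ j hN hP hδ h2 hS2
  have e0 : S2 P N L t₀ ^ (K - 1) =
      ∑ A ∈ (P ×ˢ (univ : Finset (Fin K))).powerset, HH N L t₀ j A := by
    rw [← prod_hh_sum N L P t₀ j, ← prod_labels]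
    rfl
  have hsplit : ∑ A ∈ (P ×ˢ (univ : Finset (Fin K))).powerset, HH N L t₀ j A ≤
      ∑ A ∈ (LS K P).filter (fun A => (∀ a ∈ A, a.2 ≠ j) ∧ (pr A : ℝ) ≤ (N : ℝ) ^ (v / 2)),
        HH N L t₀ j A +
      ∑ A ∈ (P ×ˢ (univ : Finset (Fin K))).powerset.filter (fun A => ¬ Lab A), HH N L t₀ j A +
      ∑ A ∈ (P ×ˢ (univ : Finset (Fin K))).powerset.filter
        (fun A => ¬ (pr A : ℝ) ≤ (N : ℝ) ^ (v / 2)), HH N L t₀ j A := by
    have e3 : (LS K P).filter (fun A => (∀ a ∈ A, a.2 ≠ j) ∧ (pr A : ℝ) ≤ (N : ℝ) ^ (v / 2)) =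
        (P ×ˢ (univ : Finset (Fin K))).powerset.filter
          (fun A => Lab A ∧ ((∀ a ∈ A, a.2 ≠ j) ∧ (pr A : ℝ) ≤ (N : ℝ) ^ (v / 2))) := by
      unfold LS
      rw [Finset.filter_filter]
    rw [e3, Finset.sum_filter, Finset.sum_filter, Finset.sum_filter, ← Finset.sum_add_distrib,
      ← Finset.sum_add_distrib]
    refine Finset.sum_le_sum fun A _ => ?_
    have hnn := HH_nn N L t₀ j A
    by_cases c1 : ∀ a ∈ A, a.2 ≠ j
    · by_cases c2 : Lab A
      · by_cases c3 : (pr A : ℝ) ≤ (N : ℝ) ^ (v / 2)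
        · rw [if_pos ⟨c2, c1, c3⟩, if_neg (not_not.2 c2), if_neg (not_not.2 c3)]
          linarith
        · rw [if_neg (fun h => c3 h.2.2), if_neg (not_not.2 c2), if_pos c3]
          linarith
      · rw [if_neg (fun h => c2 h.1), if_pos c2]
        split_ifs <;> linarith
    · rw [HH_zero N L t₀ j A c1]
      simp
  have e4 : ∑ A ∈ (LS K P).filter (fun A => (∀ a ∈ A, a.2 ≠ j) ∧ (pr A : ℝ) ≤ (N : ℝ) ^ (v / 2)),
        HH N L t₀ j A =
      ∑ A ∈ (LS K P).filter (fun A => (∀ a ∈ A, a.2 ≠ j) ∧ (pr A : ℝ) ≤ (N : ℝ) ^ (v / 2)),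
        (∏ i ∈ univ.erase j, yy N L t₀ (∏ p ∈ lb i A, p)) ^ 2 * ga g1 A := by
    refine Finset.sum_congr rfl fun A hA => ?_
    exact HH_eq N L t₀ j A (mem_filter.1 hA).2.1
  rw [← e4]
  linarith

end Pool.Agent.Work.MP_73869e_nt.TH
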