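import Mathlib
import Pool.Agent.Work.MP_73869e_nt.TH.T02
import Pool.Agent.Work.MP_73869e_nt.TH.T08
import Pool.Agent.Work.MP_73869e_nt.TH.T09
import Pool.Agent.Work.MP_73869e_nt.BG.GFin2
import Pool.Agent.Work.MP_73869e_nt.SK.TB
import Pool.Agent.Work.MP_73869e_nt.TH.A2

set_option autoImplicit false

/-!
Assembly 3: lower bound for the second moment of `f_j`; remainders.
-/

namespace Pool.Agent.Work.MP_73869e_nt.TH

open Finset Pool.Agent.Work.MP_2dba45_nt.BilDef Pool.Agent.Work.MP_2dba45_nt.Sv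
  Pool.Agent.Work.MP_73869e_nt.SK

theorem one_sub_sum_le {ι : Type*} (s : Finset ι) (x : ι → ℝ) (hx : ∀ i ∈ s, 0 ≤ x i ∧ x i ≤ 1) :
    1 - ∑ i ∈ s, x i ≤ ∏ i ∈ s, (1 - x i) := by
  classical
  induction s using Finset.induction_on with
  | empty => simp
  | insert a s ha ih =>
    rw [sum_insert ha, prod_insert ha]
    have h1 := ih fun i hi => hx i (mem_insert_of_mem hi)
    have h2 := hx a (mem_insert_self a s)
    have h3 : 0 ≤ ∑ i ∈ s, x i := sum_nonneg fun i hi => (hx i (mem_insert_of_mem hi)).1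
    have h4 : (1 - x a) * (1 - ∑ i ∈ s, x i) ≤ (1 - x a) * ∏ i ∈ s, (1 - x i) :=
      mul_le_mul_of_nonneg_left h1 (by linarith)
    nlinarith [mul_nonneg h2.1 h3]

theorem card_le_of_pr {K : ℕ} (N : ℕ) (P : Finset ℕ) (v δ : ℝ) (hN : 2 ≤ N)
    (hP : ∀ p ∈ P, p.Prime ∧ (N : ℝ) ^ δ ≤ p) (hδ : 0 < δ)
    (A : Finset (ℕ × Fin K)) (hA : A ∈ LS K P) (hA2 : (pr A : ℝ) ≤ (N : ℝ) ^ v) :
    (#A : ℝ) ≤ v / δ := by
  have hN0 : (0 : ℝ) < N := by positivity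
  have hN1 : (1 : ℝ) < N := by exact_mod_cast (by omega : 1 < N)
  have h1 : ((N : ℝ) ^ δ) ^ #A ≤ pr A := by
    rw [← prod_const]
    unfold pr
    push_cast
    apply prod_le_prod
    · intro a _
      positivity
    · intro a ha
      exact (hP a.1 ((mem_LS.1 hA).1 a ha)).2
  have h2 : (N : ℝ) ^ (δ * #A) ≤ (N : ℝ) ^ v := by
    rw [Real.rpow_mul hN0.le, Real.rpow_natCast]
    exact h1.trans hA2
  have h3 := (Real.rpow_le_rpow_left_iff hN1).1 h2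
  rw [le_div_iff₀ hδ]
  linarith

theorem Ej_ge {K : ℕ} (N L : ℕ) (P : Finset ℕ) (t₀ v δ : ℝ) (j : Fin K) (hN : 2 ≤ N) (hL : 1 ≤ L)
    (hP : ∀ p ∈ P, p.Prime ∧ (N : ℝ) ^ δ ≤ p) (hδ : 0 < δ) (ht₀ : 0 < t₀) (hv : 0 < v)
    (hLv : (2 : ℝ) ^ L * t₀ ≤ v / 2) (h1 : K * ((v / δ) * (2 / (N : ℝ) ^ δ)) ≤ 1 / 4)
    (h2 : (K : ℝ) ^ 2 * (8 / (N : ℝ) ^ δ) ≤ 1 / 8)
    (h3 : 8 * K * S2t P N L t₀ ≤ v * S2 P N L t₀) (hS1 : 0 ≤ S1 P N L t₀) :
    1 / 8 * S1 P N L t₀ ^ 2 * S2 P N L t₀ ^ (K - 1) ≤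
      Ex g1 P (fun ω => (ff g1 P (Zj g1 P j (YY N L t₀ v)) ω) ^ 2) := by
  have hN0 : (0 : ℝ) < N := by positivity
  have hK1 : (1 : ℝ) ≤ K := by
    have : 0 < K := Fin.pos j
    exact_mod_cast this
  have hNδ : (0 : ℝ) < (N : ℝ) ^ δ := Real.rpow_pos_of_pos hN0 δ
  have hvd : 0 < (v / δ) * (2 / (N : ℝ) ^ δ) := by positivity
  have h1' : (v / δ) * (2 / (N : ℝ) ^ δ) ≤ 1 / 4 := by
    refine le_trans ?_ h1
    exact le_mul_of_one_le_left hvd.le hK1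
  have hg0 : ∀ p, 0 ≤ g1 p := fun p => by unfold g1; positivity
  have hg2 : ∀ p ∈ P, g1 p ≤ 2 / (N : ℝ) ^ δ := by
    intro p hp
    refine (mt_g1_le p (hP p hp).1).trans ?_
    exact div_le_div_of_nonneg_left (by norm_num) hNδ (hP p hp).2
  have hKg : ∀ p ∈ P, 0 ≤ g1 p ∧ K * g1 p ≤ 1 := by
    intro p hp
    refine ⟨hg0 p, ?_⟩
    have h4 : (K : ℝ) * g1 p ≤ K * (2 / (N : ℝ) ^ δ) :=
      mul_le_mul_of_nonneg_left (hg2 p hp) (by linarith)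
    have h5 : (K : ℝ) * (8 / (N : ℝ) ^ δ) ≤ 1 / 8 := by
      refine le_trans ?_ h2
      apply mul_le_mul_of_nonneg_right _ (by positivity)
      nlinarith
    have h6 : (K : ℝ) * (8 / (N : ℝ) ^ δ) = 4 * (K * (2 / (N : ℝ) ^ δ)) := by ring
    linarith
  have hlow := Ex_lower g1 P hKg (Zj g1 P j (YY N L t₀ v))
  refine le_trans ?_ hlow
  have htup := tuple_ge N L P t₀ v δ j hN hL hP hδ ht₀ hv h2 h3
  set 𝒜 := (LS K P).filter (fun A => (∀ a ∈ A, a.2 ≠ j) ∧ (pr A : ℝ) ≤ (N : ℝ) ^ (v / 2)) with h𝒜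
  have hga : ∀ A : Finset (ℕ × Fin K), 0 ≤ ga g1 A := fun A => by
    unfold ga
    exact prod_nonneg fun a _ => hg0 _
  have hprodnn : ∀ A ∈ LS K P, 0 ≤ ∏ a ∈ A, (1 - K * g1 a.1) := by
    intro A hA
    exact prod_nonneg fun a ha => by
      have := hKg a.1 ((mem_LS.1 hA).1 a ha)
      linarith [this.2]
  have hstep : ∑ A ∈ 𝒜, (Zj g1 P j (YY N L t₀ v) A) ^ 2 * ga g1 A *
      ∏ a ∈ A, (1 - K * g1 a.1) ≤
      ∑ A ∈ LS K P, (Zj g1 P j (YY N L t₀ v) A) ^ 2 * ga g1 A * ∏ a ∈ A, (1 - K * g1 a.1) := by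
    apply sum_le_sum_of_subset_of_nonneg (filter_subset _ _)
    intro A hA _
    exact mul_nonneg (mul_nonneg (sq_nonneg _) (hga A)) (hprodnn A hA)
  refine le_trans ?_ hstep
  have hterm : ∀ A ∈ 𝒜, 9 / 32 * S1 P N L t₀ ^ 2 *
      ((∏ i ∈ univ.erase j, yy N L t₀ (∏ p ∈ lb i A, p)) ^ 2 * ga g1 A) ≤
      (Zj g1 P j (YY N L t₀ v) A) ^ 2 * ga g1 A * ∏ a ∈ A, (1 - K * g1 a.1) := by
    intro A hA
    rw [h𝒜, mem_filter] at hA
    obtain ⟨hA, hj, hA2⟩ := hA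
    have hz := Zj_ge N L P t₀ v δ j hN hL hP hδ ht₀ hv hLv h1' A hA hj hA2
    set prn := ∏ i ∈ univ.erase j, yy N L t₀ (∏ p ∈ lb i A, p) with hprn
    have hprn0 : 0 ≤ prn := by
      apply prod_nonneg
      intro i _
      unfold yy
      apply sum_nonneg
      intro l _
      apply mul_nonneg (by positivity)
      split_ifs <;> norm_num
    have hprod : 1 / 2 ≤ ∏ a ∈ A, (1 - K * g1 a.1) := by
      have h5 := one_sub_sum_le A (fun a => K * g1 a.1) (fun a ha => by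
        have := hKg a.1 ((mem_LS.1 hA).1 a ha)
        exact ⟨mul_nonneg (by linarith) this.1, this.2⟩)
      refine le_trans ?_ h5
      have h6 : ∑ a ∈ A, K * g1 a.1 ≤ ∑ _a ∈ A, K * (2 / (N : ℝ) ^ δ) := by
        refine sum_le_sum fun a ha => ?_
        exact mul_le_mul_of_nonneg_left (hg2 a.1 ((mem_LS.1 hA).1 a ha)) (by linarith)
      rw [sum_const, nsmul_eq_mul] at h6
      have hA3 : (pr A : ℝ) ≤ (N : ℝ) ^ v := by
        refine hA2.trans ?_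
        apply Real.rpow_le_rpow_of_exponent_le (by exact_mod_cast (by omega : 1 ≤ N))
        linarith
      have h7 := card_le_of_pr N P v δ hN hP hδ A hA hA3
      have h8 : (#A : ℝ) * (K * (2 / (N : ℝ) ^ δ)) ≤ (v / δ) * (K * (2 / (N : ℝ) ^ δ)) := by
        apply mul_le_mul_of_nonneg_right h7
        positivity
      have h9 : (v / δ) * (K * (2 / (N : ℝ) ^ δ)) = K * ((v / δ) * (2 / (N : ℝ) ^ δ)) := by ring
      linarith
    have hz2 : (prn * (3 / 4 * S1 P N L t₀)) ^ 2 ≤ (Zj g1 P j (YY N L t₀ v) A) ^ 2 :=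
      pow_le_pow_left₀ (by positivity) hz 2
    calc 9 / 32 * S1 P N L t₀ ^ 2 * (prn ^ 2 * ga g1 A)
        = (prn * (3 / 4 * S1 P N L t₀)) ^ 2 * ga g1 A * (1 / 2) := by ring
      _ ≤ (Zj g1 P j (YY N L t₀ v) A) ^ 2 * ga g1 A * ∏ a ∈ A, (1 - K * g1 a.1) := by
        apply mul_le_mul _ hprod (by norm_num)
        · exact mul_nonneg (sq_nonneg _) (hga A)
        · exact mul_le_mul_of_nonneg_right hz2 (hga A)
  refine le_trans ?_ (sum_le_sum hterm)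
  rw [← mul_sum]
  have hS2 : 0 ≤ S2 P N L t₀ := by
    unfold S2
    apply sum_nonneg
    intro S _
    apply mul_nonneg _ (sq_nonneg _)
    unfold GG
    exact prod_nonneg fun p _ => hg0 p
  calc 1 / 8 * S1 P N L t₀ ^ 2 * S2 P N L t₀ ^ (K - 1)
      ≤ 9 / 32 * S1 P N L t₀ ^ 2 * (5 / 8 * S2 P N L t₀ ^ (K - 1)) := by
        have : 0 ≤ S1 P N L t₀ ^ 2 * S2 P N L t₀ ^ (K - 1) := by positivity
        nlinarith
    _ ≤ _ := mul_le_mul_of_nonneg_left htup (by positivity)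

/-- the remainder for a single modulus -/
theorem rem_one (W : ℕ → ℝ) (N g r c : ℕ) (E : ℝ) (M Q : ℝ) (hM : 1 ≤ M) (hQ : 1 ≤ Q)
    (h : ∀ b : ℕ → ℝ, (∀ q, |b q| ≤ 1) →
      ∑ m ∈ (Icc 1 ⌊M⌋₊).filter (fun m => m.Coprime (g * r)),
        |∑ q ∈ (Icc 1 ⌊Q⌋₊).filter (fun q => Squarefree q ∧ q.Coprime (2 * m * (g * r))),
          b q * BG.RemG W N (m * q) g r c| ≤ E) :
    |BG.RemG W N 1 g r c| ≤ E := by
  classical
  have h1 := h (fun q => if q = 1 then 1 else 0) (fun q => by split_ifs <;> simp)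
  refine le_trans ?_ h1
  have hM1 : 1 ≤ ⌊M⌋₊ := Nat.le_floor (by exact_mod_cast hM)
  have hQ1 : 1 ≤ ⌊Q⌋₊ := Nat.le_floor (by exact_mod_cast hQ)
  have hmem : 1 ∈ (Icc 1 ⌊M⌋₊).filter (fun m => m.Coprime (g * r)) := by
    rw [mem_filter, mem_Icc]
    exact ⟨⟨le_rfl, hM1⟩, Nat.coprime_one_left _⟩
  refine le_trans (le_of_eq ?_) (single_le_sum (f := fun m =>
    |∑ q ∈ (Icc 1 ⌊Q⌋₊).filter (fun q => Squarefree q ∧ q.Coprime (2 * m * (g * r))),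
          (if q = 1 then (1 : ℝ) else 0) * BG.RemG W N (m * q) g r c|)
    (fun m _ => abs_nonneg _) hmem)
  congr 1
  rw [sum_eq_single 1]
  · rw [if_pos rfl, one_mul, mul_one]
  · intro q _ hq
    rw [if_neg hq, zero_mul]
  · intro hq
    exfalso
    apply hq
    rw [mem_filter, mem_Icc]
    exact ⟨⟨le_rfl, hQ1⟩, squarefree_one, Nat.coprime_one_left _⟩

theorem fin_evK (a κ : ℝ) (K : ℕ) (ha : a < 1) (hκ : 0 < κ) :
    ∀ᶠ N : ℕ in Filter.atTop, (N : ℝ) ^ a ≤ κ * (N / (Real.log N) ^ K) := by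
  have h1 := (isLittleO_log_rpow_rpow_atTop (s := 1 - a) (K : ℝ) (by linarith)).def hκ
  have h2 := tendsto_natCast_atTop_atTop (R := ℝ) |>.eventually h1
  filter_upwards [h2, Filter.eventually_ge_atTop 3] with N hN hN3
  have hN0 : (0 : ℝ) < N := by positivity
  have hlog : 0 < Real.log N := Real.log_pos (by exact_mod_cast (by omega : 1 < N))
  rw [Real.norm_of_nonneg (by positivity), Real.norm_of_nonneg (by positivity)] at hN
  rw [Real.rpow_natCast] at hN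
  rw [← mul_div_assoc, le_div_iff₀ (by positivity)]
  calc (N : ℝ) ^ a * Real.log N ^ K ≤ (N : ℝ) ^ a * (κ * (N : ℝ) ^ (1 - a)) :=
        mul_le_mul_of_nonneg_left hN (by positivity)
    _ = κ * ((N : ℝ) ^ a * (N : ℝ) ^ (1 - a)) := by ring
    _ = κ * N := by rw [← Real.rpow_add hN0]; norm_num

end Pool.Agent.Work.MP_73869e_nt.TH
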