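import Mathlib
import Pool.Agent.Work.MP_73869e_nt.TH.T06

set_option autoImplicit false

/-!
MODULE T07 (upper bound for the second moment), size S.
LS K P is contained in the powerset of P × Fin K and all terms are nonnegative; YY A ^ 2 is at most the
product over i of yy (lb i A) ^ 2; then ga_lb and prod_labels of T06 with
h i S = GG S * yy (prod S) ^ 2. (g1 and yy are nonnegative.)
-/

namespace Pool.Agent.Work.MP_73869e_nt.TH

open Finset Pool.Agent.Work.MP_2dba45_nt.BilDef Pool.Agent.Work.MP_2dba45_nt.Sv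

private theorem g1_nn (p : ℕ) : 0 ≤ g1 p := by
  unfold g1
  positivity

private theorem GG_nn (S : Finset ℕ) : 0 ≤ GG S := by
  unfold GG
  exact Finset.prod_nonneg fun p _ => g1_nn p

private theorem yy_nn (N L : ℕ) (t₀ : ℝ) (s : ℕ) : 0 ≤ yy N L t₀ s := by
  unfold yy
  refine Finset.sum_nonneg fun l _ => ?_
  refine mul_nonneg (by positivity) ?_
  split_ifs <;> norm_num

private theorem yy_le2 (N L : ℕ) (t₀ : ℝ) (s : ℕ) : yy N L t₀ s ≤ 2 := by
  unfold yy
  calc ∑ l ∈ range L, (1 / 2 : ℝ) ^ l * (if (s : ℝ) ≤ (N : ℝ) ^ ((2 : ℝ) ^ l * t₀) then 1 else 0)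
      ≤ ∑ l ∈ range L, (1 / 2 : ℝ) ^ l := by
        refine Finset.sum_le_sum fun l _ => ?_
        have h : (0 : ℝ) ≤ (1 / 2 : ℝ) ^ l := by positivity
        split_ifs
        · rw [mul_one]
        · rw [mul_zero]; exact h
    _ ≤ 2 := sum_geometric_two_le L

private theorem YY_sq_le {K : ℕ} (N L : ℕ) (t₀ v : ℝ) (A : Finset (ℕ × Fin K)) :
    (YY N L t₀ v A) ^ 2 ≤ ∏ i, yy N L t₀ (∏ p ∈ lb i A, p) ^ 2 := by
  unfold YY
  split_ifs with h
  · rw [Finset.prod_pow]
  · rw [zero_pow two_ne_zero]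
    exact Finset.prod_nonneg fun i _ => by positivity

theorem II_le {K : ℕ} (P : Finset ℕ) (N L : ℕ) (t₀ v : ℝ) :
    ∑ A ∈ LS K P, (YY N L t₀ v A) ^ 2 * ga g1 A ≤ S2 P N L t₀ ^ K := by
  have h1 : S2 P N L t₀ ^ K =
      ∑ A ∈ (P ×ˢ (univ : Finset (Fin K))).powerset,
        ∏ i, (GG (lb i A) * yy N L t₀ (∏ p ∈ lb i A, p) ^ 2) := by
    rw [prod_labels P (fun _ S => GG S * yy N L t₀ (∏ p ∈ S, p) ^ 2)]
    rw [Finset.prod_const, Finset.card_univ, Fintype.card_fin]
    rfl
  rw [h1]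
  have h2 : ∀ A : Finset (ℕ × Fin K),
      (YY N L t₀ v A) ^ 2 * ga g1 A ≤
        ∏ i, (GG (lb i A) * yy N L t₀ (∏ p ∈ lb i A, p) ^ 2) := by
    intro A
    rw [Finset.prod_mul_distrib, ← ga_lb, mul_comm (ga g1 A)]
    refine mul_le_mul_of_nonneg_right (YY_sq_le N L t₀ v A) ?_
    rw [ga_lb]
    exact Finset.prod_nonneg fun i _ => GG_nn _
  calc ∑ A ∈ LS K P, (YY N L t₀ v A) ^ 2 * ga g1 A
      ≤ ∑ A ∈ LS K P, ∏ i, (GG (lb i A) * yy N L t₀ (∏ p ∈ lb i A, p) ^ 2) :=
        Finset.sum_le_sum fun A _ => h2 A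
    _ ≤ _ := by
        refine Finset.sum_le_sum_of_subset_of_nonneg ?_ ?_
        · unfold LS
          exact filter_subset _ _
        · intro A _ _
          exact Finset.prod_nonneg fun i _ => mul_nonneg (GG_nn _) (by positivity)

theorem YY_bound {K : ℕ} (N L : ℕ) (t₀ v : ℝ) (A : Finset (ℕ × Fin K)) :
    |YY N L t₀ v A| ≤ 2 ^ K ∧ (YY N L t₀ v A ≠ 0 → (pr A : ℝ) ≤ (N : ℝ) ^ v) := by
  constructor
  · unfold YY
    split_ifs with h
    · rw [abs_of_nonneg (Finset.prod_nonneg fun i _ => yy_nn _ _ _ _)]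
      calc ∏ i, yy N L t₀ (∏ p ∈ lb i A, p) ≤ ∏ _i : Fin K, (2 : ℝ) :=
            Finset.prod_le_prod (fun i _ => yy_nn _ _ _ _) (fun i _ => yy_le2 _ _ _ _)
        _ = 2 ^ K := by rw [Finset.prod_const, Finset.card_univ, Fintype.card_fin]
    · rw [abs_zero]
      positivity
  · intro h
    by_contra hc
    apply h
    unfold YY
    rw [if_neg hc]

theorem Zj_bound {K : ℕ} (P : Finset ℕ) (hP : ∀ p ∈ P, 1 ≤ p) (S : ℝ) (hS : ∑ p ∈ P, g1 p ≤ S)
    (j : Fin K) (N L : ℕ) (t₀ v : ℝ) (A : Finset (ℕ × Fin K)) :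
    |Zj g1 P j (YY N L t₀ v) A| ≤ 2 ^ K * Real.exp S ∧
      (Zj g1 P j (YY N L t₀ v) A ≠ 0 → (pr A : ℝ) ≤ (N : ℝ) ^ v) := by
  constructor
  · unfold Zj
    split_ifs with h
    · rw [abs_zero]
      positivity
    · calc |∑ U ∈ (P \ A.image Prod.fst).powerset, (∏ p ∈ U, g1 p) *
              YY N L t₀ v (A ∪ U.image (fun p => (p, j)))|
          ≤ ∑ U ∈ (P \ A.image Prod.fst).powerset, |(∏ p ∈ U, g1 p) *
              YY N L t₀ v (A ∪ U.image (fun p => (p, j)))| := Finset.abs_sum_le_sum_abs _ _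
        _ ≤ ∑ U ∈ (P \ A.image Prod.fst).powerset, (∏ p ∈ U, g1 p) * 2 ^ K := by
            refine Finset.sum_le_sum fun U _ => ?_
            have h0 : 0 ≤ ∏ p ∈ U, g1 p := Finset.prod_nonneg fun p _ => g1_nn p
            rw [abs_mul, abs_of_nonneg h0]
            exact mul_le_mul_of_nonneg_left (YY_bound N L t₀ v _).1 h0
        _ = (∏ p ∈ P \ A.image Prod.fst, (1 + g1 p)) * 2 ^ K := by
            rw [← Finset.sum_mul, Finset.prod_one_add]
        _ ≤ (Real.exp S) * 2 ^ K := by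
            refine mul_le_mul_of_nonneg_right ?_ (by positivity)
            calc ∏ p ∈ P \ A.image Prod.fst, (1 + g1 p)
                ≤ ∏ p ∈ P \ A.image Prod.fst, Real.exp (g1 p) := by
                  refine Finset.prod_le_prod (fun p _ => by have := g1_nn p; linarith) (fun p _ => ?_)
                  have := Real.add_one_le_exp (g1 p)
                  linarith
              _ = Real.exp (∑ p ∈ P \ A.image Prod.fst, g1 p) := (Real.exp_sum _ _).symm
              _ ≤ Real.exp S := by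
                  refine Real.exp_le_exp.2 (le_trans ?_ hS)
                  exact Finset.sum_le_sum_of_subset_of_nonneg sdiff_subset
                    (fun p _ _ => g1_nn p)
        _ = 2 ^ K * Real.exp S := mul_comm _ _
  · intro h
    unfold Zj at h
    split_ifs at h with h1
    · exact absurd rfl h
    · obtain ⟨U, hU, hne⟩ := Finset.exists_ne_zero_of_sum_ne_zero h
      have h2 := (YY_bound N L t₀ v _).2 (right_ne_zero_of_mul hne)
      refine le_trans ?_ h2
      have h3 : pr A ≤ pr (A ∪ U.image (fun p => (p, j))) := by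
        unfold pr
        refine Finset.prod_le_prod_of_subset_of_one_le' subset_union_left ?_
        intro a ha hna
        rcases mem_union.1 ha with h4 | h4
        · exact absurd h4 hna
        · obtain ⟨p, hp, rfl⟩ := mem_image.1 h4
          exact hP p (mem_sdiff.1 (mem_powerset.1 hU hp)).1
      exact_mod_cast h3

end Pool.Agent.Work.MP_73869e_nt.TH
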