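import Mathlib
import Pool.Agent.Work.MP_73869e_nt.TH.TDef

set_option autoImplicit false

/-!
The three sums `S1`, `S2`, `S2t`.
-/

namespace Pool.Agent.Work.MP_73869e_nt.TH

open Finset Pool.Agent.Work.MP_2dba45_nt.BilDef Pool.Agent.Work.MP_2dba45_nt.Sv

private theorem t10_pair (N : ℕ) (t₀ : ℝ) (s : ℝ) (hN : 2 ≤ N) (ht : 0 ≤ t₀) (l l' : ℕ) :
    (if s ≤ (N : ℝ) ^ ((2 : ℝ) ^ l * t₀) then (1 : ℝ) else 0) *
      (if s ≤ (N : ℝ) ^ ((2 : ℝ) ^ l' * t₀) then (1 : ℝ) else 0) =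
      if s ≤ (N : ℝ) ^ ((2 : ℝ) ^ (min l l') * t₀) then (1 : ℝ) else 0 := by
  have hN1 : (1 : ℝ) ≤ N := by
    have : (2 : ℝ) ≤ N := by exact_mod_cast hN
    linarith
  have hmono : ∀ a b : ℕ, a ≤ b → (N : ℝ) ^ ((2 : ℝ) ^ a * t₀) ≤ (N : ℝ) ^ ((2 : ℝ) ^ b * t₀) := by
    intro a b hab
    apply Real.rpow_le_rpow_of_exponent_le hN1
    apply mul_le_mul_of_nonneg_right _ ht
    exact pow_le_pow_right₀ (by norm_num) hab
  rcases le_total l l' with h | h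
  · rw [min_eq_left h]
    by_cases h1 : s ≤ (N : ℝ) ^ ((2 : ℝ) ^ l * t₀)
    · rw [if_pos h1, if_pos (h1.trans (hmono _ _ h))]
      norm_num
    · rw [if_neg h1]
      norm_num
  · rw [min_eq_right h]
    by_cases h1 : s ≤ (N : ℝ) ^ ((2 : ℝ) ^ l' * t₀)
    · rw [if_pos h1, if_pos (h1.trans (hmono _ _ h))]
      norm_num
    · rw [if_neg h1]
      norm_num

private theorem t10_S1 (P : Finset ℕ) (N L : ℕ) (t₀ : ℝ) :
    S1 P N L t₀ = ∑ l ∈ range L, (1 / 2 : ℝ) ^ l * Nt P N ((2 : ℝ) ^ l * t₀) := by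
  unfold S1 yy Nt
  simp_rw [Finset.mul_sum]
  rw [Finset.sum_comm]
  apply Finset.sum_congr rfl
  intro l _
  rw [Finset.sum_filter]
  apply Finset.sum_congr rfl
  intro S _
  split_ifs <;> ring

private theorem t10_sq (P : Finset ℕ) (N L : ℕ) (t₀ : ℝ) (hN : 2 ≤ N) (ht : 0 ≤ t₀)
    (w : Finset ℕ → ℝ) :
    ∑ S ∈ P.powerset, GG S * yy N L t₀ (∏ p ∈ S, p) ^ 2 * w S =
      ∑ l ∈ range L, ∑ l' ∈ range L, (1 / 2 : ℝ) ^ l * (1 / 2 : ℝ) ^ l' *
        ∑ S ∈ P.powerset.filter (fun S => ((∏ p ∈ S, p : ℕ) : ℝ) ≤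
          (N : ℝ) ^ ((2 : ℝ) ^ (min l l') * t₀)), GG S * w S := by
  have h1 : ∀ S : Finset ℕ, GG S * yy N L t₀ (∏ p ∈ S, p) ^ 2 * w S =
      ∑ l ∈ range L, ∑ l' ∈ range L, (1 / 2 : ℝ) ^ l * (1 / 2 : ℝ) ^ l' *
        (if ((∏ p ∈ S, p : ℕ) : ℝ) ≤ (N : ℝ) ^ ((2 : ℝ) ^ (min l l') * t₀) then GG S * w S
          else 0) := by
    intro S
    unfold yy
    rw [sq, Finset.sum_mul_sum, Finset.mul_sum, Finset.sum_mul]
    apply Finset.sum_congr rfl
    intro l _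
    rw [Finset.mul_sum, Finset.sum_mul]
    apply Finset.sum_congr rfl
    intro l' _
    have h := t10_pair N t₀ ((∏ p ∈ S, p : ℕ) : ℝ) hN ht l l'
    have e : GG S * ((1 / 2 : ℝ) ^ l * (if ((∏ p ∈ S, p : ℕ) : ℝ) ≤
        (N : ℝ) ^ ((2 : ℝ) ^ l * t₀) then (1 : ℝ) else 0) *
        ((1 / 2 : ℝ) ^ l' * (if ((∏ p ∈ S, p : ℕ) : ℝ) ≤
        (N : ℝ) ^ ((2 : ℝ) ^ l' * t₀) then (1 : ℝ) else 0))) * w S =
        (1 / 2 : ℝ) ^ l * (1 / 2 : ℝ) ^ l' * (GG S * w S) *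
        ((if ((∏ p ∈ S, p : ℕ) : ℝ) ≤
        (N : ℝ) ^ ((2 : ℝ) ^ l * t₀) then (1 : ℝ) else 0) * (if ((∏ p ∈ S, p : ℕ) : ℝ) ≤
        (N : ℝ) ^ ((2 : ℝ) ^ l' * t₀) then (1 : ℝ) else 0)) := by ring
    rw [e, h]
    split_ifs <;> ring
  rw [Finset.sum_congr rfl (fun S _ => h1 S), Finset.sum_comm]
  apply Finset.sum_congr rfl
  intro l _
  rw [Finset.sum_comm]
  apply Finset.sum_congr rfl
  intro l' _
  rw [Finset.sum_filter, Finset.mul_sum]

/-- double sums over squares -/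
private theorem t10_rec (f : ℕ → ℕ → ℝ) (hf : ∀ a b, f a b = f b a) (L : ℕ) :
    ∑ l ∈ range (L + 1), ∑ l' ∈ range (L + 1), f l l' =
      (∑ l ∈ range L, ∑ l' ∈ range L, f l l') + 2 * (∑ l ∈ range L, f l L) + f L L := by
  rw [Finset.sum_range_succ]
  have h1 : ∑ l ∈ range L, ∑ l' ∈ range (L + 1), f l l' =
      (∑ l ∈ range L, ∑ l' ∈ range L, f l l') + ∑ l ∈ range L, f l L := by
    rw [← Finset.sum_add_distrib]
    apply Finset.sum_congr rfl
    intro l _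
    rw [Finset.sum_range_succ]
  have h2 : ∑ l' ∈ range (L + 1), f L l' = (∑ l ∈ range L, f l L) + f L L := by
    rw [Finset.sum_range_succ]
    congr 1
    apply Finset.sum_congr rfl
    intro l _
    exact hf _ _
  rw [h1, h2]
  ring

private theorem t10_max (L : ℕ) :
    ∑ l ∈ range L, ∑ l' ∈ range L, (1 / 2 : ℝ) ^ l * (1 / 2 : ℝ) ^ l' * (2 : ℝ) ^ (min l l') =
      6 - 2 * (2 * L + 3) * (1 / 2 : ℝ) ^ L := by
  induction L with
  | zero => norm_num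
  | succ L ih =>
    rw [t10_rec _ (fun a b => by rw [min_comm]; ring), ih]
    have h1 : ∑ l ∈ range L, (1 / 2 : ℝ) ^ l * (1 / 2 : ℝ) ^ L * (2 : ℝ) ^ (min l L) =
        L * (1 / 2 : ℝ) ^ L := by
      have : ∀ l ∈ range L, (1 / 2 : ℝ) ^ l * (1 / 2 : ℝ) ^ L * (2 : ℝ) ^ (min l L) =
          (1 / 2 : ℝ) ^ L := by
        intro l hl
        rw [min_eq_left (mem_range.1 hl).le]
        have : (1 / 2 : ℝ) ^ l * (2 : ℝ) ^ l = 1 := by
          rw [← mul_pow]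
          norm_num
        calc (1 / 2 : ℝ) ^ l * (1 / 2 : ℝ) ^ L * (2 : ℝ) ^ l =
            ((1 / 2 : ℝ) ^ l * (2 : ℝ) ^ l) * (1 / 2 : ℝ) ^ L := by ring
          _ = _ := by rw [this, one_mul]
      rw [Finset.sum_congr rfl this, Finset.sum_const, card_range, nsmul_eq_mul]
    have h2 : (1 / 2 : ℝ) ^ L * (1 / 2 : ℝ) ^ L * (2 : ℝ) ^ (min L L) = (1 / 2 : ℝ) ^ L := by
      rw [min_self]
      have : (1 / 2 : ℝ) ^ L * (2 : ℝ) ^ L = 1 := by
        rw [← mul_pow]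
        norm_num
      rw [mul_assoc, this, mul_one]
    rw [h1, h2]
    push_cast
    rw [pow_succ]
    ring

private theorem t10_geo (L : ℕ) :
    ∑ l ∈ range L, (2 : ℝ) ^ l * (1 / 2 : ℝ) ^ L ≤ 1 := by
  rw [← Finset.sum_mul]
  have h : ∑ l ∈ range L, (2 : ℝ) ^ l = 2 ^ L - 1 := by
    rw [geom_sum_eq (by norm_num)]
    norm_num
  rw [h]
  have : (2 : ℝ) ^ L * (1 / 2 : ℝ) ^ L = 1 := by
    rw [← mul_pow]
    norm_num
  have h2 : (0 : ℝ) ≤ (1 / 2 : ℝ) ^ L := by positivity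
  nlinarith

private theorem t10_abs (L : ℕ) :
    ∑ l ∈ range L, ∑ l' ∈ range L, (1 / 2 : ℝ) ^ l * (1 / 2 : ℝ) ^ l' *
      ((2 : ℝ) ^ (min l l') * (2 : ℝ) ^ (min l l')) ≤ 3 * L := by
  induction L with
  | zero => norm_num
  | succ L ih =>
    rw [t10_rec _ (fun a b => by rw [min_comm]; ring)]
    have h1 : ∑ l ∈ range L, (1 / 2 : ℝ) ^ l * (1 / 2 : ℝ) ^ L *
        ((2 : ℝ) ^ (min l L) * (2 : ℝ) ^ (min l L)) ≤ 1 := by
      refine le_trans (le_of_eq ?_) (t10_geo L)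
      apply Finset.sum_congr rfl
      intro l hl
      rw [min_eq_left (mem_range.1 hl).le]
      have : (1 / 2 : ℝ) ^ l * (2 : ℝ) ^ l = 1 := by
        rw [← mul_pow]
        norm_num
      calc (1 / 2 : ℝ) ^ l * (1 / 2 : ℝ) ^ L * ((2 : ℝ) ^ l * (2 : ℝ) ^ l) =
          ((1 / 2 : ℝ) ^ l * (2 : ℝ) ^ l) * ((2 : ℝ) ^ l * (1 / 2 : ℝ) ^ L) := by ring
        _ = _ := by rw [this, one_mul]
    have h2 : (1 / 2 : ℝ) ^ L * (1 / 2 : ℝ) ^ L * ((2 : ℝ) ^ (min L L) * (2 : ℝ) ^ (min L L)) =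
        1 := by
      rw [min_self]
      have : (1 / 2 : ℝ) ^ L * (2 : ℝ) ^ L = 1 := by
        rw [← mul_pow]
        norm_num
      calc (1 / 2 : ℝ) ^ L * (1 / 2 : ℝ) ^ L * ((2 : ℝ) ^ L * (2 : ℝ) ^ L) =
          ((1 / 2 : ℝ) ^ L * (2 : ℝ) ^ L) * ((1 / 2 : ℝ) ^ L * (2 : ℝ) ^ L) := by ring
        _ = _ := by rw [this, one_mul]
    rw [h2]
    push_cast
    linarith

theorem s12 (P : Finset ℕ) (N L : ℕ) (t₀ δ v c C : ℝ) (hP : ∀ p ∈ P, 1 ≤ p) (hN : 2 ≤ N)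
    (hδ : 0 < δ) (hδt : δ ≤ t₀) (hL : 1 ≤ L) (hv : (2 : ℝ) ^ L * t₀ ≤ v) (hc : 0 < c)
    (hlow : ∀ t, δ ≤ t → t ≤ v → c * (t / δ) ≤ Nt P N t)
    (hup : ∀ t, δ ≤ t → t ≤ v → Nt P N t ≤ C * (t / δ)) :
    c * L * (t₀ / δ) ≤ S1 P N L t₀ ∧ c * (t₀ / δ) ≤ S2 P N L t₀ ∧
      S2 P N L t₀ ≤ 8 * C * (t₀ / δ) ∧ S2t P N L t₀ ≤ 4 * C * L * t₀ * (t₀ / δ) := by
  have ht0 : 0 < t₀ := lt_of_lt_of_le hδ hδt
  have hN1 : (1 : ℝ) < N := by
    have : (2 : ℝ) ≤ N := by exact_mod_cast hN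
    linarith
  have hlogN : 0 < Real.log N := Real.log_pos hN1
  -- range of the exponents
  have hr1 : ∀ k : ℕ, δ ≤ (2 : ℝ) ^ k * t₀ := by
    intro k
    have : (1 : ℝ) ≤ (2 : ℝ) ^ k := one_le_pow₀ (by norm_num)
    nlinarith
  have hr2 : ∀ k : ℕ, k < L → (2 : ℝ) ^ k * t₀ ≤ v := by
    intro k hk
    refine le_trans ?_ hv
    apply mul_le_mul_of_nonneg_right _ ht0.le
    exact pow_le_pow_right₀ (by norm_num) hk.le
  have hlo : ∀ k : ℕ, k < L → c * ((2 : ℝ) ^ k * (t₀ / δ)) ≤ Nt P N ((2 : ℝ) ^ k * t₀) := by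
    intro k hk
    have h := hlow _ (hr1 k) (hr2 k hk)
    rw [mul_div_assoc] at h
    exact h
  have hhi : ∀ k : ℕ, k < L → Nt P N ((2 : ℝ) ^ k * t₀) ≤ C * ((2 : ℝ) ^ k * (t₀ / δ)) := by
    intro k hk
    have h := hup _ (hr1 k) (hr2 k hk)
    rw [mul_div_assoc] at h
    exact h
  have htδ : 0 < t₀ / δ := div_pos ht0 hδ
  have hNt0 : ∀ k : ℕ, k < L → 0 ≤ Nt P N ((2 : ℝ) ^ k * t₀) := by
    intro k hk
    refine le_trans ?_ (hlo k hk)
    positivity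
  have hC : 0 < C := by
    have h1 := hlo 0 (by omega)
    have h2 := hhi 0 (by omega)
    by_contra h
    push Not at h
    have h3 : C * ((2 : ℝ) ^ 0 * (t₀ / δ)) ≤ 0 :=
      mul_nonpos_of_nonpos_of_nonneg h (by positivity)
    have h4 : 0 < c * ((2 : ℝ) ^ 0 * (t₀ / δ)) := by positivity
    linarith
  have hS2 : S2 P N L t₀ = ∑ l ∈ range L, ∑ l' ∈ range L, (1 / 2 : ℝ) ^ l * (1 / 2 : ℝ) ^ l' *
      Nt P N ((2 : ℝ) ^ (min l l') * t₀) := by
    have h := t10_sq P N L t₀ hN ht0.le (fun _ => 1)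
    unfold S2 Nt
    simp only [mul_one] at h
    exact h
  have hmin : ∀ l l' : ℕ, l ∈ range L → min l l' < L := by
    intro l l' hl
    exact lt_of_le_of_lt (min_le_left _ _) (mem_range.1 hl)
  refine ⟨?_, ?_, ?_, ?_⟩
  · rw [t10_S1]
    calc c * L * (t₀ / δ) = ∑ _l ∈ range L, c * (t₀ / δ) := by
          rw [Finset.sum_const, card_range, nsmul_eq_mul]
          ring
      _ ≤ _ := by
          apply Finset.sum_le_sum
          intro l hl
          have h := hlo l (mem_range.1 hl)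
          have h2 : (1 / 2 : ℝ) ^ l * (2 : ℝ) ^ l = 1 := by
            rw [← mul_pow]
            norm_num
          calc c * (t₀ / δ) = (1 / 2 : ℝ) ^ l * (2 : ℝ) ^ l * (c * (t₀ / δ)) := by
                rw [h2, one_mul]
            _ = (1 / 2 : ℝ) ^ l * (c * ((2 : ℝ) ^ l * (t₀ / δ))) := by ring
            _ ≤ _ := mul_le_mul_of_nonneg_left h (by positivity)
  · rw [hS2]
    have h0 : (0 : ℕ) ∈ range L := mem_range.2 (by omega)
    have hnn : ∀ l ∈ range L, ∀ l' ∈ range L, 0 ≤ (1 / 2 : ℝ) ^ l * (1 / 2 : ℝ) ^ l' *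
        Nt P N ((2 : ℝ) ^ (min l l') * t₀) := by
      intro l hl l' _
      exact mul_nonneg (by positivity) (hNt0 _ (hmin l l' hl))
    calc c * (t₀ / δ) = c * ((2 : ℝ) ^ 0 * (t₀ / δ)) := by ring
      _ ≤ Nt P N ((2 : ℝ) ^ 0 * t₀) := hlo 0 (by omega)
      _ = (1 / 2 : ℝ) ^ 0 * (1 / 2 : ℝ) ^ 0 * Nt P N ((2 : ℝ) ^ (min 0 0) * t₀) := by
          norm_num
      _ ≤ ∑ l' ∈ range L, (1 / 2 : ℝ) ^ 0 * (1 / 2 : ℝ) ^ l' *
          Nt P N ((2 : ℝ) ^ (min 0 l') * t₀) :=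
          Finset.single_le_sum (f := fun l' => (1 / 2 : ℝ) ^ 0 * (1 / 2 : ℝ) ^ l' *
            Nt P N ((2 : ℝ) ^ (min 0 l') * t₀)) (fun l' hl' => hnn 0 h0 l' hl') h0
      _ ≤ _ := Finset.single_le_sum (f := fun l => ∑ l' ∈ range L, (1 / 2 : ℝ) ^ l *
            (1 / 2 : ℝ) ^ l' * Nt P N ((2 : ℝ) ^ (min l l') * t₀))
            (fun l hl => Finset.sum_nonneg (fun l' hl' => hnn l hl l' hl')) h0
  · rw [hS2]
    calc ∑ l ∈ range L, ∑ l' ∈ range L, (1 / 2 : ℝ) ^ l * (1 / 2 : ℝ) ^ l' *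
        Nt P N ((2 : ℝ) ^ (min l l') * t₀) ≤
        ∑ l ∈ range L, ∑ l' ∈ range L, (C * (t₀ / δ)) *
          ((1 / 2 : ℝ) ^ l * (1 / 2 : ℝ) ^ l' * (2 : ℝ) ^ (min l l')) := by
          apply Finset.sum_le_sum
          intro l hl
          apply Finset.sum_le_sum
          intro l' _
          have h := hhi _ (hmin l l' hl)
          calc (1 / 2 : ℝ) ^ l * (1 / 2 : ℝ) ^ l' * Nt P N ((2 : ℝ) ^ (min l l') * t₀) ≤
              (1 / 2 : ℝ) ^ l * (1 / 2 : ℝ) ^ l' * (C * ((2 : ℝ) ^ (min l l') * (t₀ / δ))) :=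
                mul_le_mul_of_nonneg_left h (by positivity)
            _ = _ := by ring
      _ = (C * (t₀ / δ)) * (6 - 2 * (2 * L + 3) * (1 / 2 : ℝ) ^ L) := by
          rw [← t10_max L, Finset.mul_sum]
          apply Finset.sum_congr rfl
          intro l _
          rw [Finset.mul_sum]
      _ ≤ (C * (t₀ / δ)) * 8 := by
          apply mul_le_mul_of_nonneg_left _ (by positivity)
          have : (0 : ℝ) ≤ 2 * (2 * L + 3) * (1 / 2 : ℝ) ^ L := by positivity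
          linarith
      _ = _ := by ring
  · unfold S2t
    rw [t10_sq P N L t₀ hN ht0.le
      (fun S => Real.log ((∏ p ∈ S, p : ℕ) : ℝ) / Real.log N)]
    have hinner : ∀ k : ℕ, k < L →
        ∑ S ∈ P.powerset.filter (fun S => ((∏ p ∈ S, p : ℕ) : ℝ) ≤
          (N : ℝ) ^ ((2 : ℝ) ^ k * t₀)), GG S *
            (Real.log ((∏ p ∈ S, p : ℕ) : ℝ) / Real.log N) ≤
        ((2 : ℝ) ^ k * t₀) * (C * ((2 : ℝ) ^ k * (t₀ / δ))) := by
      intro k hk
      calc _ ≤ ∑ S ∈ P.powerset.filter (fun S => ((∏ p ∈ S, p : ℕ) : ℝ) ≤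
          (N : ℝ) ^ ((2 : ℝ) ^ k * t₀)), GG S * ((2 : ℝ) ^ k * t₀) := by
            apply Finset.sum_le_sum
            intro S hS
            rw [mem_filter, mem_powerset] at hS
            apply mul_le_mul_of_nonneg_left
            · have hpos : (0 : ℝ) < ((∏ p ∈ S, p : ℕ) : ℝ) := by
                have : 0 < ∏ p ∈ S, p := by
                  apply Finset.prod_pos
                  intro p hp
                  have := hP p (hS.1 hp)
                  omega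
                exact_mod_cast this
              rw [div_le_iff₀ hlogN]
              have h := Real.log_le_log hpos hS.2
              rwa [Real.log_rpow (by linarith)] at h
            · unfold GG
              apply Finset.prod_nonneg
              intro p _
              unfold g1
              positivity
        _ = ((2 : ℝ) ^ k * t₀) * Nt P N ((2 : ℝ) ^ k * t₀) := by
            unfold Nt
            rw [Finset.mul_sum]
            apply Finset.sum_congr rfl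
            intro S _
            ring
        _ ≤ _ := mul_le_mul_of_nonneg_left (hhi k hk) (by positivity)
    calc _ ≤ ∑ l ∈ range L, ∑ l' ∈ range L, (C * t₀ * (t₀ / δ)) *
          ((1 / 2 : ℝ) ^ l * (1 / 2 : ℝ) ^ l' *
            ((2 : ℝ) ^ (min l l') * (2 : ℝ) ^ (min l l'))) := by
          apply Finset.sum_le_sum
          intro l hl
          apply Finset.sum_le_sum
          intro l' _
          have h := hinner _ (hmin l l' hl)
          refine le_trans (mul_le_mul_of_nonneg_left h (by positivity)) (le_of_eq ?_)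
          ring
      _ = (C * t₀ * (t₀ / δ)) * ∑ l ∈ range L, ∑ l' ∈ range L,
          ((1 / 2 : ℝ) ^ l * (1 / 2 : ℝ) ^ l' *
            ((2 : ℝ) ^ (min l l') * (2 : ℝ) ^ (min l l'))) := by
          rw [Finset.mul_sum]
          apply Finset.sum_congr rfl
          intro l _
          rw [Finset.mul_sum]
      _ ≤ (C * t₀ * (t₀ / δ)) * (3 * L) :=
          mul_le_mul_of_nonneg_left (t10_abs L) (by positivity)
      _ ≤ _ := by
          have : (0 : ℝ) ≤ C * t₀ * (t₀ / δ) * L := by positivity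
          nlinarith

end Pool.Agent.Work.MP_73869e_nt.TH
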