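import Mathlib
import Pool.Agent.Work.MP_73869e_nt.TH.TDef
import Pool.Agent.Work.MP_2dba45_nt.Sv.Mert1

set_option autoImplicit false

/-!
MODULE T11 (upper bound for Nt), size M.
Sets S of primes of P with product at most N^t consist of primes at most N^t, so
Nt P N t <= prod over primes N^δ <= p <= N^t of (1 + g1 p) <= exp (sum of g1 p). By sum_g1 of
Pool.Agent.Work.MP_2dba45_nt.Sv.Mert1 (with w = N^δ, x = N^t + 1).
-/

namespace Pool.Agent.Work.MP_73869e_nt.TH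

open Finset Pool.Agent.Work.MP_2dba45_nt.BilDef Pool.Agent.Work.MP_2dba45_nt.Sv

private theorem t11_large {δ : ℝ} (hδ : 0 < δ) : ∃ N₀ : ℕ, ∀ N : ℕ, N₀ ≤ N →
    3 ≤ N ∧ 2 ≤ (N : ℝ) ^ δ := by
  refine ⟨⌈(2 : ℝ) ^ (1 / δ)⌉₊ + 3, fun N hN => ⟨by omega, ?_⟩⟩
  have h1 : (2 : ℝ) ^ (1 / δ) ≤ N := by
    have h2 : ⌈(2 : ℝ) ^ (1 / δ)⌉₊ ≤ N := by omega
    exact (Nat.le_ceil _).trans (by exact_mod_cast h2)
  calc (2 : ℝ) = ((2 : ℝ) ^ (1 / δ)) ^ δ := by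
        rw [← Real.rpow_mul (by norm_num), one_div_mul_cancel hδ.ne', Real.rpow_one]
    _ ≤ (N : ℝ) ^ δ := Real.rpow_le_rpow (by positivity) h1 hδ.le

private theorem t11_prod_le (P : Finset ℕ) : ∏ p ∈ P, (1 + g1 p) ≤ Real.exp (∑ p ∈ P, g1 p) := by
  rw [Real.exp_sum]
  refine Finset.prod_le_prod (fun p _ => ?_) (fun p _ => ?_)
  · have := mt_g1_nonneg p
    linarith
  · have := Real.add_one_le_exp (g1 p)
    linarith

private theorem t11_GG_nonneg (T : Finset ℕ) : 0 ≤ GG T :=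
  Finset.prod_nonneg fun p _ => mt_g1_nonneg p

theorem Nt_le : ∃ C : ℝ, 0 < C ∧ ∀ δ : ℝ, 0 < δ → δ ≤ 1 / 10 → ∃ N₀ : ℕ, ∀ N : ℕ, N₀ ≤ N →
    ∀ P ⊆ PQ (pw N δ) N, ∀ t : ℝ, δ ≤ t → t ≤ 1 → Nt P N t ≤ C * (t / δ) := by
  obtain ⟨C, hC0, hC⟩ := sum_g1
  refine ⟨2 * Real.exp (C / Real.log 2), by positivity, fun δ hδ hδ1 => ?_⟩
  obtain ⟨N₀, hN₀⟩ := t11_large hδ
  refine ⟨N₀, fun N hN P hP t ht ht1 => ?_⟩
  obtain ⟨hN3, hN2⟩ := hN₀ N hN
  have hNr : (3 : ℝ) ≤ N := by exact_mod_cast hN3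
  have hN0 : (0 : ℝ) < N := by linarith
  have hlogN : 0 < Real.log N := Real.log_pos (by linarith)
  have ht0 : 0 < t := lt_of_lt_of_le hδ ht
  have hNt : (N : ℝ) ^ δ ≤ (N : ℝ) ^ t := Real.rpow_le_rpow_of_exponent_le (by linarith) ht
  set Q : Finset ℕ := P.filter (fun p : ℕ => (p : ℝ) ≤ (N : ℝ) ^ t) with hQ
  have h1 : Nt P N t ≤ ∑ S ∈ Q.powerset, GG S := by
    unfold Nt
    refine Finset.sum_le_sum_of_subset_of_nonneg ?_ fun S _ _ => t11_GG_nonneg S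
    intro S hS
    rw [mem_filter, mem_powerset] at hS
    rw [mem_powerset]
    intro p hp
    rw [hQ, mem_filter]
    refine ⟨hS.1 hp, ?_⟩
    have h2 : p ≤ ∏ q ∈ S, q := by
      have hdvd : p ∣ ∏ q ∈ S, q := Finset.dvd_prod_of_mem (fun q => q) hp
      refine Nat.le_of_dvd ?_ hdvd
      refine Finset.prod_pos fun q hq => ?_
      have := hP (hS.1 hq)
      unfold PQ at this
      rw [mem_filter] at this
      exact this.2.pos
    have h3 : (p : ℝ) ≤ ((∏ q ∈ S, q : ℕ) : ℝ) := by exact_mod_cast h2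
    exact h3.trans hS.2
  have h2 : ∑ S ∈ Q.powerset, GG S = ∏ p ∈ Q, (1 + g1 p) := by
    rw [Finset.prod_one_add]
    rfl
  have h3 : ∑ p ∈ Q, g1 p ≤
      ∑ p ∈ (Ico ⌈(N : ℝ) ^ δ⌉₊ ⌈(N : ℝ) ^ t + 1⌉₊).filter Nat.Prime, g1 p := by
    refine Finset.sum_le_sum_of_subset_of_nonneg ?_ fun p _ _ => mt_g1_nonneg p
    intro p hp
    rw [hQ, mem_filter] at hp
    have h4 := hP hp.1
    unfold PQ pw at h4
    rw [mem_filter, mem_Ico] at h4
    rw [mem_filter, mem_Ico]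
    refine ⟨⟨h4.1.1, ?_⟩, h4.2⟩
    rw [Nat.lt_ceil]
    linarith [hp.2]
  have h4 := (abs_le.1 (hC ((N : ℝ) ^ δ) ((N : ℝ) ^ t + 1) hN2 (by linarith))).2
  have hlw : Real.log ((N : ℝ) ^ δ) = δ * Real.log N := Real.log_rpow hN0 _
  have hlw2 : Real.log 2 ≤ δ * Real.log N := by
    rw [← hlw]
    exact Real.log_le_log (by norm_num) hN2
  have hl2 : 0 < Real.log 2 := Real.log_pos (by norm_num)
  have hlx : Real.log ((N : ℝ) ^ t + 1) ≤ t * Real.log N + Real.log 2 := by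
    have h5 : (N : ℝ) ^ t + 1 ≤ (N : ℝ) ^ t * 2 := by linarith
    have h6 : (0 : ℝ) < (N : ℝ) ^ t := by positivity
    have h7 := Real.log_le_log (by positivity) h5
    rw [Real.log_mul h6.ne' (by norm_num), Real.log_rpow hN0] at h7
    exact h7
  have hlx0 : 0 < Real.log ((N : ℝ) ^ t + 1) := Real.log_pos (by linarith)
  have h5 : Real.log (Real.log ((N : ℝ) ^ t + 1)) - Real.log (Real.log ((N : ℝ) ^ δ)) ≤
      Real.log (2 * (t / δ)) := by
    rw [hlw, ← Real.log_div hlx0.ne' (by positivity)]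
    refine Real.log_le_log (by positivity) ?_
    rw [div_le_iff₀ (by positivity)]
    have h6 : 2 * (t / δ) * (δ * Real.log N) = 2 * t * Real.log N := by
      field_simp
    rw [h6]
    have h7 : δ * Real.log N ≤ t * Real.log N := mul_le_mul_of_nonneg_right ht hlogN.le
    linarith
  have h6 : C / Real.log ((N : ℝ) ^ δ) ≤ C / Real.log 2 := by
    rw [hlw]
    exact div_le_div_of_nonneg_left hC0 hl2 hlw2
  calc Nt P N t ≤ ∏ p ∈ Q, (1 + g1 p) := h2 ▸ h1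
    _ ≤ Real.exp (∑ p ∈ Q, g1 p) := t11_prod_le Q
    _ ≤ Real.exp (Real.log (2 * (t / δ)) + C / Real.log 2) := by
        apply Real.exp_le_exp.2
        linarith
    _ = 2 * Real.exp (C / Real.log 2) * (t / δ) := by
        rw [Real.exp_add, Real.exp_log (by positivity)]
        ring

theorem sum_g1P : ∃ C : ℝ, 0 < C ∧ ∀ δ : ℝ, 0 < δ → δ ≤ 1 / 10 → ∃ N₀ : ℕ, ∀ N : ℕ, N₀ ≤ N →
    ∑ p ∈ PQ (pw N δ) N, g1 p ≤ Real.log (1 / δ) + C := by
  obtain ⟨C, hC0, hC⟩ := sum_g1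
  have hl2 : 0 < Real.log 2 := Real.log_pos (by norm_num)
  refine ⟨C / Real.log 2 + 1, by positivity, fun δ hδ hδ1 => ?_⟩
  obtain ⟨N₀, hN₀⟩ := t11_large hδ
  refine ⟨N₀, fun N hN => ?_⟩
  obtain ⟨hN3, hN2⟩ := hN₀ N hN
  have hNr : (3 : ℝ) ≤ N := by exact_mod_cast hN3
  have hN0 : (0 : ℝ) < N := by linarith
  have hlogN : 0 < Real.log N := Real.log_pos (by linarith)
  have hN1 : (N : ℝ) ^ δ ≤ (N : ℝ) := by
    calc (N : ℝ) ^ δ ≤ (N : ℝ) ^ (1 : ℝ) :=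
          Real.rpow_le_rpow_of_exponent_le (by linarith) (by linarith)
      _ = N := Real.rpow_one _
  have h4 := (abs_le.1 (hC ((N : ℝ) ^ δ) (N : ℝ) hN2 hN1)).2
  have hlw : Real.log ((N : ℝ) ^ δ) = δ * Real.log N := Real.log_rpow hN0 _
  have hlw2 : Real.log 2 ≤ δ * Real.log N := by
    rw [← hlw]
    exact Real.log_le_log (by norm_num) hN2
  have h5 : Real.log (Real.log (N : ℝ)) - Real.log (Real.log ((N : ℝ) ^ δ)) =
      Real.log (1 / δ) := by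
    rw [hlw, ← Real.log_div hlogN.ne' (by positivity)]
    congr 1
    field_simp
  have h6 : C / Real.log ((N : ℝ) ^ δ) ≤ C / Real.log 2 := by
    rw [hlw]
    exact div_le_div_of_nonneg_left hC0 hl2 hlw2
  rw [Nat.ceil_natCast] at h4
  have h7 : PQ (pw N δ) N = (Ico ⌈(N : ℝ) ^ δ⌉₊ N).filter Nat.Prime := rfl
  rw [h7]
  linarith

theorem sum_oneP : ∃ C : ℝ, 0 < C ∧ ∀ δ : ℝ, 0 < δ → δ ≤ 1 / 10 → ∃ N₀ : ℕ, ∀ N : ℕ, N₀ ≤ N →
    ∑ p ∈ PQ (pw N δ) N, 1 / (p : ℝ) ≤ Real.log (1 / δ) + C := by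
  obtain ⟨C, hC0, hC⟩ := Pool.Agent.Work.MP_2dba45_nt.Psum.psum_one
  refine ⟨C + 1, by positivity, fun δ hδ hδ1 => ?_⟩
  obtain ⟨N₀, hN₀⟩ := t11_large hδ
  refine ⟨N₀, fun N hN => ?_⟩
  obtain ⟨hN3, hN2⟩ := hN₀ N hN
  have hNr : (3 : ℝ) ≤ N := by exact_mod_cast hN3
  have hN0 : (0 : ℝ) < N := by linarith
  have hlogN : 0 < Real.log N := Real.log_pos (by linarith)
  have hN1 : (N : ℝ) ^ δ ≤ (N : ℝ) := by
    calc (N : ℝ) ^ δ ≤ (N : ℝ) ^ (1 : ℝ) :=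
          Real.rpow_le_rpow_of_exponent_le (by linarith) (by linarith)
      _ = N := Real.rpow_one _
  set W := ⌈(N : ℝ) ^ δ⌉₊ with hW
  have hWge : (N : ℝ) ^ δ ≤ W := Nat.le_ceil _
  have hW2 : 2 ≤ W := by
    have : (2 : ℝ) ≤ W := hN2.trans hWge
    exact_mod_cast this
  have hWN : W ≤ N := Nat.ceil_le.2 hN1
  have h4 := (abs_le.1 (hC W N hW2 hWN)).2
  have hlw : Real.log ((N : ℝ) ^ δ) = δ * Real.log N := Real.log_rpow hN0 _
  have hlW : δ * Real.log N ≤ Real.log W := by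
    rw [← hlw]
    exact Real.log_le_log (by linarith) hWge
  have h5 : Real.log (Real.log (N : ℝ)) - Real.log (Real.log W) ≤ Real.log (1 / δ) := by
    have h6 : Real.log (δ * Real.log N) ≤ Real.log (Real.log W) :=
      Real.log_le_log (by positivity) hlW
    rw [Real.log_mul hδ.ne' hlogN.ne'] at h6
    rw [one_div, Real.log_inv]
    linarith
  have h7 : PQ (pw N δ) N ⊆ insert W ((Ioc W N).filter Nat.Prime) := by
    intro p hp
    have hp' : p ∈ (Ico W N).filter Nat.Prime := hp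
    rw [mem_filter, mem_Ico] at hp'
    rw [mem_insert, mem_filter, mem_Ioc]
    by_cases h : p = W
    · exact Or.inl h
    · right
      exact ⟨⟨by omega, by omega⟩, hp'.2⟩
  have h8 : ∑ p ∈ PQ (pw N δ) N, 1 / (p : ℝ) ≤
      ∑ p ∈ insert W ((Ioc W N).filter Nat.Prime), 1 / (p : ℝ) :=
    Finset.sum_le_sum_of_subset_of_nonneg h7 fun p _ _ => by positivity
  have h9 : W ∉ (Ioc W N).filter Nat.Prime := by simp
  rw [Finset.sum_insert h9] at h8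
  have h10 : 1 / (W : ℝ) ≤ 1 := by
    have : (1 : ℝ) ≤ W := by
      have : (2 : ℝ) ≤ W := hN2.trans hWge
      linarith
    rw [div_le_one (by linarith)]
    exact this
  linarith

end Pool.Agent.Work.MP_73869e_nt.TH
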