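import Mathlib
import Pool.Agent.Work.MP_73869e_nt.TH.TDef
import Pool.Agent.Work.MP_2dba45_nt.Sv.Mert1

set_option autoImplicit false

/-!
MODULE T12 (lower bound for Nt).
-/

namespace Pool.Agent.Work.MP_73869e_nt.TH

open Finset Pool.Agent.Work.MP_2dba45_nt.BilDef Pool.Agent.Work.MP_2dba45_nt.Sv

theorem t12_sum_powerset (P : Finset ℕ) (f : ℕ → ℝ) :
    ∑ S ∈ P.powerset, ∏ p ∈ S, f p = ∏ p ∈ P, (1 + f p) := by
  rw [Finset.prod_one_add]

theorem t12_sq (P : Finset ℕ) (hP : ∀ p ∈ P, p.Prime) : ∑ p ∈ P, g1 p ^ 2 ≤ 8 := by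
  obtain ⟨n, hn⟩ : ∃ n, ∀ p ∈ P, p < n := ⟨P.sup id + 1, fun p hp =>
    Nat.lt_succ_of_le (Finset.le_sup (f := id) hp)⟩
  have h1 : ∑ p ∈ P, g1 p ^ 2 ≤ ∑ p ∈ Ioo 0 n, 4 * ((p : ℝ) ^ 2)⁻¹ := by
    calc ∑ p ∈ P, g1 p ^ 2 ≤ ∑ p ∈ P, 4 * ((p : ℝ) ^ 2)⁻¹ := by
          refine Finset.sum_le_sum fun p hp => ?_
          have h := mt_g1_le p (hP p hp)
          have h0 := mt_g1_nonneg p
          calc g1 p ^ 2 ≤ (2 / (p : ℝ)) ^ 2 := by gcongr
            _ = 4 * ((p : ℝ) ^ 2)⁻¹ := by rw [div_pow]; norm_num [div_eq_mul_inv]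
      _ ≤ ∑ p ∈ Ioo 0 n, 4 * ((p : ℝ) ^ 2)⁻¹ := by
          refine Finset.sum_le_sum_of_subset_of_nonneg (fun p hp => ?_) (fun p _ _ => by positivity)
          exact mem_Ioo.2 ⟨(hP p hp).pos, hn p hp⟩
  rw [← Finset.mul_sum] at h1
  have h2 := sum_Ioo_inv_sq_le (α := ℝ) 0 n
  norm_num at h2
  linarith

theorem t12_exp (x : ℝ) (h0 : 0 ≤ x) (h1 : x ≤ 1) : Real.exp x - 1 ≤ 2 * x := by
  have := Real.abs_exp_sub_one_le (x := x) (by rw [abs_of_nonneg h0]; exact h1)
  rw [abs_of_nonneg h0] at this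
  exact (le_abs_self _).trans this

theorem Nt_ge : ∃ c : ℝ, 0 < c ∧ ∀ δ : ℝ, 0 < δ → δ ≤ 1 / 10 → ∃ N₀ : ℕ, ∀ N : ℕ, N₀ ≤ N →
    ∀ t v : ℝ, δ ≤ t → t ≤ v → v ≤ 1 → c * (t / δ) ≤ Nt (PQ (pw N δ) (pw N v)) N t := by
  obtain ⟨C1, hC1, hsum⟩ := sum_g1
  obtain ⟨C0, hC0, hmert⟩ := Pool.Agent.Work.MP_2dba45_nt.Nu.mert_nu
  refine ⟨Real.exp (-9) / 8, by positivity, fun δ hδ hδ1 => ?_⟩
  refine ⟨⌈Real.exp ((C0 + C1 + 1) / δ)⌉₊ + 2, fun N hN t v hδt htv hv => ?_⟩
  have hN2 : 2 ≤ N := by omega
  have hNR : (2 : ℝ) ≤ N := by exact_mod_cast hN2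
  have hN0 : (0 : ℝ) < N := by linarith
  have hlN : 0 < Real.log N := Real.log_pos (by linarith)
  have hlog : C0 + C1 + 1 ≤ δ * Real.log N := by
    have h1 : Real.exp ((C0 + C1 + 1) / δ) ≤ N := by
      refine (Nat.le_ceil _).trans ?_
      exact_mod_cast (by omega : ⌈Real.exp ((C0 + C1 + 1) / δ)⌉₊ ≤ N)
    have h2 := (Real.le_log_iff_exp_le hN0).2 h1
    rw [div_le_iff₀ hδ] at h2
    linarith
  have hGnn : ∀ S : Finset ℕ, 0 ≤ GG S := fun S => Finset.prod_nonneg fun p _ => mt_g1_nonneg p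
  set P := PQ (pw N δ) (pw N v) with hP
  by_cases hu : t / 4 ≤ 2 * δ
  · have h1 : (1 : ℝ) ≤ Nt P N t := by
      unfold Nt
      have : (1 : ℝ) = GG ∅ := by simp [GG]
      rw [this]
      refine Finset.single_le_sum (f := GG) (fun S _ => hGnn S) ?_
      rw [mem_filter]
      refine ⟨by simp, ?_⟩
      simp only [Finset.prod_empty, Nat.cast_one]
      exact Real.one_le_rpow (by linarith) (by linarith)
    have h2 : t / δ ≤ 8 := by rw [div_le_iff₀ hδ]; linarith
    have h3 : Real.exp (-9) ≤ 1 := Real.exp_le_one_iff.2 (by norm_num)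
    have h4 : 0 ≤ t / δ := by have : 0 ≤ t := by linarith
                              positivity
    calc Real.exp (-9) / 8 * (t / δ) ≤ 1 / 8 * 8 := by gcongr
      _ = 1 := by norm_num
      _ ≤ _ := h1
  · push Not at hu
    set u := t / 4 with hudef
    have hu0 : 0 < u := by linarith
    have hut : u ≤ t := by linarith
    set P' := PQ (pw N δ) (pw N u) with hP'
    have hPP : P' ⊆ P := by
      intro p hp
      rw [hP', PQ, mem_filter, mem_Ico] at hp
      rw [hP, PQ, mem_filter, mem_Ico]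
      refine ⟨⟨hp.1.1, hp.1.2.trans_le ?_⟩, hp.2⟩
      unfold pw
      exact Nat.ceil_le_ceil (Real.rpow_le_rpow_of_exponent_le (by linarith) (by linarith))
    have hprime : ∀ p ∈ P', p.Prime := fun p hp => by
      rw [hP', PQ, mem_filter] at hp; exact hp.2
    have hlt : ∀ p ∈ P', (p : ℝ) < (N : ℝ) ^ u := fun p hp => by
      rw [hP', PQ, mem_filter, mem_Ico] at hp
      exact Nat.lt_ceil.1 hp.1.2
    set κ : ℝ := 1 / (u * Real.log N) with hκ
    have hκ0 : 0 < κ := by positivity
    have hκl : ∀ p ∈ P', 0 ≤ κ * Real.log p ∧ κ * Real.log p ≤ 1 := by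
      intro p hp
      have h1 := hlt p hp
      have hp1 : (1 : ℝ) ≤ p := by exact_mod_cast (hprime p hp).one_lt.le
      have h2 : Real.log p ≤ u * Real.log N := by
        rw [← Real.log_rpow hN0]
        exact Real.log_le_log (by linarith) h1.le
      refine ⟨mul_nonneg hκ0.le (Real.log_nonneg hp1), ?_⟩
      rw [hκ, one_div, inv_mul_le_iff₀ (by positivity)]
      linarith
    -- the main inequality
    have hmain : ∏ p ∈ P', (1 + g1 p) - Real.exp (-4) * ∏ p ∈ P', (1 + g1 p * (p : ℝ) ^ κ)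
        ≤ Nt P N t := by
      have e1 : ∏ p ∈ P', (1 + g1 p) = ∑ S ∈ P'.powerset, GG S := by
        rw [← t12_sum_powerset]; rfl
      have e2 : Real.exp (-4) * ∏ p ∈ P', (1 + g1 p * (p : ℝ) ^ κ) =
          ∑ S ∈ P'.powerset, GG S * (Real.exp (-4) * ((∏ p ∈ S, p : ℕ) : ℝ) ^ κ) := by
        rw [← t12_sum_powerset, Finset.mul_sum]
        refine Finset.sum_congr rfl fun S _ => ?_
        rw [Finset.prod_mul_distrib, Nat.cast_prod,
          Real.finsetProd_rpow _ _ (fun p _ => Nat.cast_nonneg p)]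
        unfold GG
        ring
      rw [e1, e2, ← Finset.sum_sub_distrib]
      have hsub : ∑ S ∈ P'.powerset.filter (fun S => ((∏ p ∈ S, p : ℕ) : ℝ) ≤ (N : ℝ) ^ t), GG S
          ≤ Nt P N t := by
        unfold Nt
        refine Finset.sum_le_sum_of_subset_of_nonneg (fun S hS => ?_) (fun S _ _ => hGnn S)
        rw [mem_filter, mem_powerset] at hS ⊢
        exact ⟨hS.1.trans hPP, hS.2⟩
      refine le_trans ?_ hsub
      rw [Finset.sum_filter]
      refine Finset.sum_le_sum fun S hS => ?_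
      have hSP := mem_powerset.1 hS
      split_ifs with h
      · have : 0 ≤ GG S * (Real.exp (-4) * ((∏ p ∈ S, p : ℕ) : ℝ) ^ κ) :=
          mul_nonneg (hGnn S) (by positivity)
        linarith
      · push Not at h
        have h1 : (1 : ℝ) ≤ Real.exp (-4) * ((∏ p ∈ S, p : ℕ) : ℝ) ^ κ := by
          have h2 : Real.exp 4 ≤ ((∏ p ∈ S, p : ℕ) : ℝ) ^ κ := by
            have h3 : ((N : ℝ) ^ t) ^ κ = Real.exp 4 := by
              rw [← Real.rpow_mul hN0.le, Real.rpow_def_of_pos hN0]
              congr 1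
              rw [hκ]
              have : t = 4 * u := by rw [hudef]; ring
              rw [this]
              field_simp
            rw [← h3]
            exact Real.rpow_le_rpow (by positivity) h.le hκ0.le
          calc (1 : ℝ) = Real.exp (-4) * Real.exp 4 := by rw [← Real.exp_add]; norm_num
            _ ≤ _ := by gcongr
        have := mul_le_mul_of_nonneg_left h1 (hGnn S)
        linarith
    -- bound for the second product
    have hsec : ∏ p ∈ P', (1 + g1 p * (p : ℝ) ^ κ) ≤ (∏ p ∈ P', (1 + g1 p)) * Real.exp 3 := by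
      have h1 : ∏ p ∈ P', (1 + g1 p * (p : ℝ) ^ κ) ≤
          ∏ p ∈ P', ((1 + g1 p) * Real.exp (2 * κ * (g1 p * Real.log p))) := by
        refine Finset.prod_le_prod (fun p hp => ?_) (fun p hp => ?_)
        · have := mt_g1_nonneg p
          positivity
        · have hg := mt_g1_nonneg p
          have hp0 : (0 : ℝ) < p := by exact_mod_cast (hprime p hp).pos
          have h2 : (p : ℝ) ^ κ - 1 ≤ 2 * (κ * Real.log p) := by
            rw [Real.rpow_def_of_pos hp0, mul_comm]
            exact t12_exp _ (hκl p hp).1 (hκl p hp).2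
          have h3 := Real.add_one_le_exp (2 * κ * (g1 p * Real.log p))
          have h4 : g1 p * ((p : ℝ) ^ κ - 1) ≤ 2 * κ * (g1 p * Real.log p) := by
            have := mul_le_mul_of_nonneg_left h2 hg
            nlinarith
          have h5 : 0 ≤ (p : ℝ) ^ κ - 1 := by
            have : (1 : ℝ) ≤ (p : ℝ) ^ κ :=
              Real.one_le_rpow (by exact_mod_cast (hprime p hp).one_lt.le) hκ0.le
            linarith
          have h6 : 0 ≤ g1 p * ((p : ℝ) ^ κ - 1) := mul_nonneg hg h5
          calc 1 + g1 p * (p : ℝ) ^ κ = (1 + g1 p) + g1 p * ((p : ℝ) ^ κ - 1) := by ring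
            _ ≤ (1 + g1 p) * (1 + g1 p * ((p : ℝ) ^ κ - 1)) := by nlinarith
            _ ≤ (1 + g1 p) * (2 * κ * (g1 p * Real.log p) + 1) :=
                mul_le_mul_of_nonneg_left (by linarith) (by linarith)
            _ ≤ _ := by gcongr
      refine h1.trans ?_
      rw [Finset.prod_mul_distrib, ← Real.exp_sum, ← Finset.mul_sum]
      have hle : 2 * κ * ∑ p ∈ P', g1 p * Real.log p ≤ 3 := by
        have h7 : ∑ p ∈ P', g1 p * Real.log p ≤ u * Real.log N + C0 := by
          set M := ⌊(N : ℝ) ^ u⌋₊ with hM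
          have hNu : (1 : ℝ) ≤ (N : ℝ) ^ u := Real.one_le_rpow (by linarith) hu0.le
          have hM1 : 0 < M := Nat.floor_pos.2 hNu
          have h8 := hmert 1 (Or.inl rfl) M hM1
          have h9 : Real.log M ≤ u * Real.log N := by
            rw [← Real.log_rpow hN0]
            exact Real.log_le_log (by exact_mod_cast hM1) (Nat.floor_le (by positivity))
          have h10 : ∑ p ∈ P', g1 p * Real.log p ≤ ∑ p ∈ (Ioc 0 M).filter Nat.Prime,
              (Pool.Agent.Work.MP_2dba45_nt.Nu.nu 1 p : ℝ) * (Real.log p / p) := by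
            calc ∑ p ∈ P', g1 p * Real.log p = ∑ p ∈ P',
                (Pool.Agent.Work.MP_2dba45_nt.Nu.nu 1 p : ℝ) * (Real.log p / p) := by
                  refine Finset.sum_congr rfl fun p _ => ?_
                  unfold g1
                  ring
              _ ≤ _ := by
                refine Finset.sum_le_sum_of_subset_of_nonneg (fun p hp => ?_) (fun p hp _ => ?_)
                · rw [mem_filter, mem_Ioc]
                  exact ⟨⟨(hprime p hp).pos, Nat.le_floor (hlt p hp).le⟩, hprime p hp⟩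
                · have hp' := (mem_filter.1 hp).2
                  have : 0 ≤ Real.log p := Real.log_nonneg (by exact_mod_cast hp'.one_lt.le)
                  positivity
          rw [abs_le] at h8
          linarith [h8.2]
        have h11 : C0 ≤ (1 / 2) * (u * Real.log N) := by
          have : 2 * δ * Real.log N ≤ u * Real.log N :=
            mul_le_mul_of_nonneg_right hu.le hlN.le
          linarith
        have hX : 0 < u * Real.log N := by positivity
        calc 2 * κ * ∑ p ∈ P', g1 p * Real.log p ≤ 2 * κ * (u * Real.log N + C0) := by gcongr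
          _ ≤ 2 * κ * (u * Real.log N + (1 / 2) * (u * Real.log N)) := by gcongr
          _ = 3 := by rw [hκ]; field_simp; norm_num
      have hp0 : 0 ≤ ∏ p ∈ P', (1 + g1 p) := Finset.prod_nonneg fun p _ => by
        have := mt_g1_nonneg p; linarith
      gcongr
    -- lower bound for the first product
    have hfst : Real.exp (-9) * (u / δ) ≤ ∏ p ∈ P', (1 + g1 p) := by
      have h1 : ∀ p ∈ P', Real.exp (g1 p - g1 p ^ 2) ≤ 1 + g1 p := by
        intro p hp
        have hg := mt_g1_nonneg p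
        have hg1 : g1 p ≤ 1 := by
          refine (mt_g1_le p (hprime p hp)).trans ?_
          have : (2 : ℝ) ≤ p := by exact_mod_cast (hprime p hp).two_le
          rw [div_le_one (by linarith)]
          exact this
        have h2 := Real.one_sub_inv_le_log_of_pos (x := 1 + g1 p) (by linarith)
        have h3 : g1 p - g1 p ^ 2 ≤ 1 - (1 + g1 p)⁻¹ := by
          have : 1 - (1 + g1 p)⁻¹ = g1 p / (1 + g1 p) := by field_simp; ring
          rw [this, le_div_iff₀ (by linarith)]
          nlinarith [pow_nonneg hg 3]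
        calc Real.exp (g1 p - g1 p ^ 2) ≤ Real.exp (Real.log (1 + g1 p)) :=
              Real.exp_le_exp.2 (h3.trans h2)
          _ = 1 + g1 p := Real.exp_log (by linarith)
      calc Real.exp (-9) * (u / δ) = Real.exp (Real.log (u / δ) - 9) := by
            rw [sub_eq_add_neg, Real.exp_add, Real.exp_log (by positivity), mul_comm]
        _ ≤ Real.exp (∑ p ∈ P', (g1 p - g1 p ^ 2)) := by
            apply Real.exp_le_exp.2
            rw [Finset.sum_sub_distrib]
            have h4 := t12_sq P' hprime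
            have hNδ : (2 : ℝ) ≤ (N : ℝ) ^ δ := by
              rw [Real.rpow_def_of_pos hN0]
              have := Real.add_one_le_exp (Real.log N * δ)
              linarith
            have h5 := hsum ((N : ℝ) ^ δ) ((N : ℝ) ^ u) hNδ
              (Real.rpow_le_rpow_of_exponent_le (by linarith) (by linarith))
            rw [Real.log_rpow hN0, Real.log_rpow hN0] at h5
            have h6 : Real.log (u * Real.log N) - Real.log (δ * Real.log N) = Real.log (u / δ) := by
              rw [Real.log_mul hu0.ne' hlN.ne', Real.log_mul hδ.ne' hlN.ne',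
                Real.log_div hu0.ne' hδ.ne']
              ring
            rw [h6] at h5
            have h7 : C1 / (δ * Real.log N) ≤ 1 := by
              rw [div_le_one (by positivity)]
              linarith
            have h8 : P' = (Ico ⌈(N : ℝ) ^ δ⌉₊ ⌈(N : ℝ) ^ u⌉₊).filter Nat.Prime := rfl
            rw [← h8] at h5
            rw [abs_le] at h5
            linarith [h5.1]
        _ = ∏ p ∈ P', Real.exp (g1 p - g1 p ^ 2) := by rw [Real.exp_sum]
        _ ≤ _ := Finset.prod_le_prod (fun p _ => (Real.exp_pos _).le) h1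
    have hp0 : 0 ≤ ∏ p ∈ P', (1 + g1 p) := Finset.prod_nonneg fun p _ => by
      have := mt_g1_nonneg p; linarith
    have hhalf : Real.exp (-4) * Real.exp 3 ≤ 1 / 2 := by
      rw [← Real.exp_add]
      norm_num
      have := Real.exp_one_gt_d9
      rw [show (-1 : ℝ) = -(1) by norm_num, Real.exp_neg]
      rw [inv_le_comm₀ (by positivity) (by norm_num)]
      norm_num
      linarith
    have h12 : Real.exp (-4) * ∏ p ∈ P', (1 + g1 p * (p : ℝ) ^ κ) ≤
        1 / 2 * ∏ p ∈ P', (1 + g1 p) := by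
      calc Real.exp (-4) * ∏ p ∈ P', (1 + g1 p * (p : ℝ) ^ κ)
          ≤ Real.exp (-4) * ((∏ p ∈ P', (1 + g1 p)) * Real.exp 3) := by gcongr
        _ = (Real.exp (-4) * Real.exp 3) * ∏ p ∈ P', (1 + g1 p) := by ring
        _ ≤ _ := by gcongr
    have e : Real.exp (-9) / 8 * (t / δ) = 1 / 2 * (Real.exp (-9) * (u / δ)) := by
      rw [hudef]; ring
    rw [e]
    linarith

end Pool.Agent.Work.MP_73869e_nt.TH
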