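import Mathlib
import Pool.Agent.Work.MP_73869e_nt.TH.TDef

set_option autoImplicit false

/-!
MODULE T13 (local densities of the tuple).
-/

namespace Pool.Agent.Work.MP_73869e_nt.TH

open Finset Pool.Agent.Work.MP_2dba45_nt.BilDef Pool.Agent.Work.MP_2dba45_nt.Sv

open Pool.Agent.Work.MP_2dba45_nt.Nu in
private theorem rh_le_sum {K : ℕ} (g : Fin K → ℕ) (p : ℕ) (hp : p.Prime) :
    rh g p ≤ ∑ i, nu ((g i) ^ 2) p := by
  unfold rh nu
  refine le_trans (Finset.card_le_card ?_) (Finset.card_biUnion_le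
    (s := (univ : Finset (Fin K))) (t := fun i => (range p).filter (fun x => p ∣ x ^ 2 + (g i) ^ 2)))
  intro x hx
  rw [mem_filter] at hx
  rw [mem_biUnion]
  obtain ⟨i, hi, h⟩ := (Prime.dvd_finsetProd_iff hp.prime _).1 hx.2
  exact ⟨i, hi, mem_filter.2 ⟨hx.1, h⟩⟩

open Pool.Agent.Work.MP_2dba45_nt.Nu in
theorem rh_le {K : ℕ} (g : Fin K → ℕ) (p : ℕ) (hp : p.Prime) : rh g p ≤ 2 * K := by
  refine (rh_le_sum g p hp).trans ?_
  calc ∑ i, nu ((g i) ^ 2) p ≤ ∑ _i : Fin K, 2 := Finset.sum_le_sum fun i _ => nu_le _ p hp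
    _ = 2 * K := by rw [Finset.sum_const, Finset.card_univ, Fintype.card_fin, smul_eq_mul, mul_comm]

theorem gr_nonneg {K : ℕ} (g : Fin K → ℕ) (p : ℕ) : 0 ≤ gr g p := by
  unfold gr
  positivity

private theorem gr_le {K : ℕ} (g : Fin K → ℕ) (p : ℕ) (hp : p.Prime) : gr g p ≤ 2 * K / p := by
  unfold gr
  have h1 : (rh g p : ℝ) ≤ 2 * K := by exact_mod_cast rh_le g p hp
  have hp0 : (0 : ℝ) < p := by exact_mod_cast hp.pos
  gcongr

theorem gr_half {K : ℕ} (g : Fin K → ℕ) (hw : ∀ p : ℕ, p.Prime → p ≤ 4 * K → ∀ i, p ∣ g i) (p : ℕ)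
    (hp : p.Prime) : gr g p ≤ 1 / 2 := by
  have hp0 : (0 : ℝ) < p := by exact_mod_cast hp.pos
  rcases Nat.lt_or_ge (4 * K) p with h | h
  · refine (gr_le g p hp).trans ?_
    rw [div_le_iff₀ hp0]
    have : ((4 * K : ℕ) : ℝ) < p := by exact_mod_cast h
    push_cast at this
    linarith
  · have h1 := hw p hp h
    have h2 : rh g p ≤ 1 := by
      unfold rh
      rw [Finset.card_le_one]
      have h3 : ∀ x ∈ (range p).filter (fun x => p ∣ ∏ i, (x ^ 2 + (g i) ^ 2)), x = 0 := by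
        intro x hx
        rw [mem_filter, mem_range] at hx
        obtain ⟨i, _, h4⟩ := (Prime.dvd_finsetProd_iff hp.prime _).1 hx.2
        have h5 : p ∣ x ^ 2 := (Nat.dvd_add_left (dvd_pow (h1 i) two_ne_zero)).1 h4
        exact Nat.eq_zero_of_dvd_of_lt (hp.dvd_of_dvd_pow h5) hx.1
      intro a ha b hb
      rw [h3 a ha, h3 b hb]
    unfold gr
    rw [div_le_iff₀ hp0]
    have h6 : (rh g p : ℝ) ≤ 1 := by exact_mod_cast h2
    have h7 : (2 : ℝ) ≤ p := by exact_mod_cast hp.two_le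
    linarith

theorem gr_block (K : ℕ) : ∃ L₀ : ℝ, 0 ≤ L₀ ∧ ∀ (g : Fin K → ℕ) (z : ℕ) (y : ℝ), 1 ≤ y →
    ∑ p ∈ (Pool.Agent.Work.MP_2dba45_nt.VV.PP z).filter
      (fun p : ℕ => y ≤ (p : ℝ) ∧ (p : ℝ) < y ^ 2), gr g p ≤ L₀ := by
  obtain ⟨L, hL0, hL⟩ := Pool.Agent.Work.MP_73869e_nt.SK.block_one
  refine ⟨2 * K * L, by positivity, fun g z y hy => ?_⟩
  have h := hL z y hy
  calc _ ≤ ∑ p ∈ (Pool.Agent.Work.MP_2dba45_nt.VV.PP z).filter
        (fun p : ℕ => y ≤ (p : ℝ) ∧ (p : ℝ) < y ^ 2), 2 * K * (1 / (p : ℝ)) := by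
        refine Finset.sum_le_sum fun p hp => ?_
        rw [Finset.mem_filter, Pool.Agent.Work.MP_2dba45_nt.VV.mem_PP] at hp
        refine (gr_le g p hp.1.2).trans (le_of_eq ?_)
        ring
    _ ≤ 2 * K * L := by
        rw [← Finset.mul_sum]
        exact mul_le_mul_of_nonneg_left h (by positivity)

open Pool.Agent.Work.MP_2dba45_nt.Nu Pool.Agent.Work.MP_2dba45_nt.VV
  Pool.Agent.Work.MP_2dba45_nt.Psum in
private theorem sum_nu_PP : ∃ C : ℝ, 0 ≤ C ∧ ∀ z : ℕ, 2 ≤ z →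
    ∑ p ∈ PP z, (nu 1 p : ℝ) / p ≤ Real.log (Real.log z) + C := by
  obtain ⟨C, hC0, hC⟩ := psum_nu
  set L := Real.log (Real.log 2) with hL
  refine ⟨|1 + C - L|, abs_nonneg _, fun z hz => ?_⟩
  have hlz : Real.log 2 ≤ Real.log z := Real.log_le_log (by norm_num) (by exact_mod_cast hz)
  have hl2 : 0 < Real.log 2 := Real.log_pos (by norm_num)
  have hsub : PP z ⊆ insert 2 ((Ioc 2 z).filter Nat.Prime) := by
    intro p hp
    rw [mem_PP] at hp
    rw [Finset.mem_insert, Finset.mem_filter, Finset.mem_Ioc]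
    have := hp.2.two_le
    rcases Nat.eq_or_lt_of_le this with h | h
    · exact Or.inl h.symm
    · exact Or.inr ⟨⟨h, by omega⟩, hp.2⟩
  have h1 := (abs_le.1 (hC 1 (Or.inl rfl) 2 z (le_refl _) hz)).2
  calc ∑ p ∈ PP z, (nu 1 p : ℝ) / p ≤ ∑ p ∈ insert 2 ((Ioc 2 z).filter Nat.Prime),
        (nu 1 p : ℝ) / p :=
        Finset.sum_le_sum_of_subset_of_nonneg hsub (fun p _ _ => by positivity)
    _ = (nu 1 2 : ℝ) / (2 : ℕ) + ∑ p ∈ (Ioc 2 z).filter Nat.Prime, (nu 1 p : ℝ) / p := by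
        rw [Finset.sum_insert (by simp)]
    _ ≤ _ := by
        have h2 : (nu 1 2 : ℝ) / (2 : ℕ) ≤ 1 := by
          rw [Pool.Agent.Work.MP_73869e_nt.SK.nu_one_two]; norm_num
        push_cast at h1
        have h3 := le_abs_self (1 + C - L)
        linarith

open Pool.Agent.Work.MP_2dba45_nt.Nu Pool.Agent.Work.MP_2dba45_nt.VV
  Pool.Agent.Work.MP_2dba45_nt.Psum in
theorem V_geT (K : ℕ) : ∃ c : ℝ, 0 < c ∧ ∀ (g : Fin K → ℕ) (z : ℕ),
    (∀ p : ℕ, p.Prime → p ≤ 4 * K → ∀ i, p ∣ g i) → (∀ i, 1 ≤ g i) → 2 ≤ z →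
    c / (Real.log z) ^ K * Real.exp (-∑ i, sg (g i)) ≤
      ∏ p ∈ Pool.Agent.Work.MP_2dba45_nt.VV.PP z, (1 - gr g p) := by
  obtain ⟨C, hC0, hC⟩ := sum_nu_PP
  refine ⟨Real.exp (-(K * C + 16 * K ^ 2)), Real.exp_pos _, fun g z hw hg hz => ?_⟩
  have hl2 : 0 < Real.log 2 := Real.log_pos (by norm_num)
  have hlz : Real.log 2 ≤ Real.log z := Real.log_le_log (by norm_num) (by exact_mod_cast hz)
  have hlz0 : 0 < Real.log z := by linarith
  have hprod := prod_ge (PP z) (fun n hn => (mem_PP.1 hn).2.one_lt.le) (fun p => gr g p)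
    (fun p _ => gr_nonneg g p) (fun p hp => gr_half g hw p (mem_PP.1 hp).2) (2 * K) (by positivity)
    (fun p hp => gr_le g p (mem_PP.1 hp).2)
  refine le_trans ?_ hprod
  have hterm : ∀ p ∈ PP z, gr g p ≤ ∑ i : Fin K, ((nu 1 p : ℝ) / p +
      (if p ∣ g i then 1 / (p : ℝ) else 0)) := by
    intro p hp
    have hpp := (mem_PP.1 hp).2
    have hp0 : (0 : ℝ) < p := by exact_mod_cast hpp.pos
    have h1 : (rh g p : ℝ) ≤ ∑ i, (nu ((g i) ^ 2) p : ℝ) := by
      exact_mod_cast rh_le_sum g p hpp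
    unfold gr
    calc (rh g p : ℝ) / p ≤ (∑ i, (nu ((g i) ^ 2) p : ℝ)) / p := by gcongr
      _ = ∑ i, (nu ((g i) ^ 2) p : ℝ) / p := by rw [Finset.sum_div]
      _ ≤ _ := by
        refine Finset.sum_le_sum fun i _ => ?_
        by_cases h : p ∣ g i
        · rw [Pool.Agent.Work.MP_73869e_nt.SK.nu_dvd hpp h, if_pos h, Nat.cast_one]
          have : (0 : ℝ) ≤ (nu 1 p : ℝ) / p := by positivity
          linarith
        · rw [Pool.Agent.Work.MP_73869e_nt.SK.nu_not_dvd hpp h, if_neg h, add_zero]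
  have hsum : ∑ p ∈ PP z, gr g p ≤ K * (Real.log (Real.log z) + C) + ∑ i, sg (g i) := by
    calc ∑ p ∈ PP z, gr g p ≤ ∑ p ∈ PP z, ∑ i : Fin K, ((nu 1 p : ℝ) / p +
        (if p ∣ g i then 1 / (p : ℝ) else 0)) := Finset.sum_le_sum hterm
      _ = ∑ i : Fin K, (∑ p ∈ PP z, (nu 1 p : ℝ) / p +
          ∑ p ∈ PP z, (if p ∣ g i then 1 / (p : ℝ) else 0)) := by
          rw [Finset.sum_comm]
          exact Finset.sum_congr rfl fun i _ => Finset.sum_add_distrib
      _ ≤ ∑ i : Fin K, ((Real.log (Real.log z) + C) + sg (g i)) := by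
          refine Finset.sum_le_sum fun i _ => add_le_add (hC z hz) ?_
          rw [← Finset.sum_filter]
          unfold sg
          apply Finset.sum_le_sum_of_subset_of_nonneg
          · intro p hp
            rw [mem_filter, mem_PP] at hp
            rw [Nat.mem_primeFactors]
            exact ⟨hp.1.2, hp.2, by have := hg i; omega⟩
          · intro p _ _
            positivity
      _ = _ := by
          rw [Finset.sum_add_distrib, Finset.sum_const, Finset.card_univ, Fintype.card_fin,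
            nsmul_eq_mul]
  have e1 : Real.exp (-(K * C + 16 * K ^ 2)) / (Real.log z) ^ K * Real.exp (-∑ i, sg (g i)) =
      Real.exp (-(K * C + 16 * K ^ 2) - K * Real.log (Real.log z) - ∑ i, sg (g i)) := by
    have h1 : (Real.log z) ^ K = Real.exp (K * Real.log (Real.log z)) := by
      rw [Real.exp_nat_mul, Real.exp_log hlz0]
    rw [h1, Real.exp_sub, Real.exp_sub, Real.exp_neg (∑ i, sg (g i))]
    ring
  rw [e1]
  apply Real.exp_le_exp.2
  nlinarith

end Pool.Agent.Work.MP_73869e_nt.TH
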