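import Mathlib
import Pool.Agent.Work.MP_73869e_nt.TH.T11

set_option autoImplicit false

/-!
MODULE T16 (removing a few primes), size S-M.
The difference is the sum over T ⊆ PQ meeting E; it is at most the sum over p in E ∩ PQ of the sum over
T containing p of 2 GG T = 2 g1 p * sum over T' ⊆ PQ \ {p} of GG T' <= 2 (2/N^δ) exp (sum of g1) and the sum of
g1 is at most log (1/δ) + C (sum_g1P of T11).
-/

namespace Pool.Agent.Work.MP_73869e_nt.TH

open Finset Pool.Agent.Work.MP_2dba45_nt.BilDef Pool.Agent.Work.MP_2dba45_nt.Sv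

private theorem t16_GG_nonneg (T : Finset ℕ) : 0 ≤ GG T :=
  Finset.prod_nonneg fun p _ => mt_g1_nonneg p

private theorem t16_sum_GG (P : Finset ℕ) : ∑ T ∈ P.powerset, GG T ≤ Real.exp (∑ p ∈ P, g1 p) := by
  have h2 : ∑ S ∈ P.powerset, GG S = ∏ p ∈ P, (1 + g1 p) := by
    rw [Finset.prod_one_add]
    rfl
  rw [h2, Real.exp_sum]
  refine Finset.prod_le_prod (fun p _ => ?_) (fun p _ => ?_)
  · have := mt_g1_nonneg p
    linarith
  · have := Real.add_one_le_exp (g1 p)
    linarith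

private theorem t16_contain (P : Finset ℕ) (p : ℕ) (hp : p ∈ P) :
    ∑ T ∈ P.powerset.filter (fun T => p ∈ T), GG T ≤ g1 p * ∑ T ∈ P.powerset, GG T := by
  have h1 : ∑ T ∈ P.powerset.filter (fun T => p ∈ T), GG T =
      ∑ T ∈ (P.erase p).powerset, g1 p * GG T := by
    symm
    refine Finset.sum_bij' (fun T _ => insert p T) (fun T _ => T.erase p) ?_ ?_ ?_ ?_ ?_
    · intro T hT
      rw [mem_powerset] at hT
      rw [mem_filter, mem_powerset]
      refine ⟨?_, mem_insert_self _ _⟩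
      intro q hq
      rw [mem_insert] at hq
      rcases hq with rfl | hq
      · exact hp
      · exact mem_of_mem_erase (hT hq)
    · intro T hT
      rw [mem_filter, mem_powerset] at hT
      rw [mem_powerset]
      exact erase_subset_erase p hT.1
    · intro T hT
      rw [mem_powerset] at hT
      have : p ∉ T := fun h => (mem_erase.1 (hT h)).1 rfl
      exact erase_insert this
    · intro T hT
      rw [mem_filter] at hT
      exact insert_erase hT.2
    · intro T hT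
      rw [mem_powerset] at hT
      have : p ∉ T := fun h => (mem_erase.1 (hT h)).1 rfl
      unfold GG
      rw [prod_insert this]
  rw [h1, ← Finset.mul_sum]
  refine mul_le_mul_of_nonneg_left ?_ (mt_g1_nonneg p)
  exact Finset.sum_le_sum_of_subset_of_nonneg (powerset_mono.2 (erase_subset _ _))
    fun T _ _ => t16_GG_nonneg T

private theorem t16_biUnion (f : Finset ℕ → ℝ) (hf : ∀ T, 0 ≤ f T) (s : Finset ℕ)
    (t : ℕ → Finset (Finset ℕ)) :
    ∑ T ∈ s.biUnion t, f T ≤ ∑ p ∈ s, ∑ T ∈ t p, f T := by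
  induction s using Finset.induction_on with
  | empty => simp
  | insert a s ha ih =>
    rw [biUnion_insert, Finset.sum_insert ha]
    have h := Finset.sum_union_inter (s₁ := t a) (s₂ := s.biUnion t) (f := f)
    have h2 : 0 ≤ ∑ T ∈ t a ∩ s.biUnion t, f T := Finset.sum_nonneg fun T _ => hf T
    linarith

theorem uu : ∃ C : ℝ, 0 < C ∧ ∀ δ : ℝ, 0 < δ → δ ≤ 1 / 10 → ∃ N₀ : ℕ, ∀ N : ℕ, N₀ ≤ N →
    ∀ (φ : Finset ℕ → ℝ) (E : Finset ℕ), (∀ T, |φ T| ≤ 2) →
      |∑ T ∈ (PQ (pw N δ) N).powerset, φ T * GG T -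
        ∑ T ∈ (PQ (pw N δ) N \ E).powerset, φ T * GG T| ≤ #E * (C / (δ * (N : ℝ) ^ δ)) := by
  obtain ⟨C, hC0, hC⟩ := sum_g1P
  refine ⟨4 * Real.exp C, by positivity, fun δ hδ hδ1 => ?_⟩
  obtain ⟨N₀, hN₀⟩ := hC δ hδ hδ1
  refine ⟨N₀ + 1, fun N hN φ E hφ => ?_⟩
  have hN1 : 0 < N := by omega
  have hN0 : (0 : ℝ) < N := by exact_mod_cast hN1
  have hS := hN₀ N (by omega)
  set P := PQ (pw N δ) N with hP
  have h1 : ∑ T ∈ P.powerset, φ T * GG T - ∑ T ∈ (P \ E).powerset, φ T * GG T =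
      ∑ T ∈ P.powerset \ (P \ E).powerset, φ T * GG T := by
    rw [← Finset.sum_sdiff (powerset_mono.2 (sdiff_subset : P \ E ⊆ P))]
    ring
  rw [h1]
  have h2 : |∑ T ∈ P.powerset \ (P \ E).powerset, φ T * GG T| ≤
      ∑ T ∈ P.powerset \ (P \ E).powerset, 2 * GG T := by
    refine (Finset.abs_sum_le_sum_abs _ _).trans (Finset.sum_le_sum fun T _ => ?_)
    rw [abs_mul, abs_of_nonneg (t16_GG_nonneg T)]
    exact mul_le_mul_of_nonneg_right (hφ T) (t16_GG_nonneg T)
  have h3 : P.powerset \ (P \ E).powerset ⊆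
      (E ∩ P).biUnion (fun p => P.powerset.filter (fun T => p ∈ T)) := by
    intro T hT
    rw [mem_sdiff, mem_powerset, mem_powerset] at hT
    obtain ⟨hT1, hT2⟩ := hT
    rw [not_subset] at hT2
    obtain ⟨p, hp, hp2⟩ := hT2
    rw [mem_biUnion]
    refine ⟨p, ?_, ?_⟩
    · rw [mem_inter]
      refine ⟨?_, hT1 hp⟩
      by_contra h
      exact hp2 (mem_sdiff.2 ⟨hT1 hp, h⟩)
    · rw [mem_filter, mem_powerset]
      exact ⟨hT1, hp⟩
  have h4 : ∑ T ∈ P.powerset \ (P \ E).powerset, 2 * GG T ≤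
      ∑ p ∈ E ∩ P, ∑ T ∈ P.powerset.filter (fun T => p ∈ T), 2 * GG T := by
    refine (Finset.sum_le_sum_of_subset_of_nonneg h3 fun T _ _ => ?_).trans ?_
    · have := t16_GG_nonneg T
      linarith
    · exact t16_biUnion (fun T => 2 * GG T) (fun T => by
        have := t16_GG_nonneg T
        positivity) _ _
  have h5 : ∀ p ∈ E ∩ P, ∑ T ∈ P.powerset.filter (fun T => p ∈ T), 2 * GG T ≤
      4 * Real.exp C / (δ * (N : ℝ) ^ δ) := by
    intro p hp
    rw [mem_inter] at hp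
    rw [← Finset.mul_sum]
    have h6 := t16_contain P p hp.2
    have h7 : ∑ T ∈ P.powerset, GG T ≤ Real.exp (Real.log (1 / δ) + C) :=
      (t16_sum_GG P).trans (Real.exp_le_exp.2 hS)
    rw [Real.exp_add, Real.exp_log (by positivity)] at h7
    have h8 : p ∈ (Ico ⌈(N : ℝ) ^ δ⌉₊ N).filter Nat.Prime := hp.2
    rw [mem_filter, mem_Ico] at h8
    have h9 : (N : ℝ) ^ δ ≤ p := (Nat.le_ceil _).trans (by exact_mod_cast h8.1.1)
    have h10 : (0 : ℝ) < (N : ℝ) ^ δ := by positivity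
    have h11 : g1 p ≤ 2 / (N : ℝ) ^ δ := by
      refine (mt_g1_le p h8.2).trans ?_
      exact div_le_div_of_nonneg_left (by norm_num) h10 h9
    calc 2 * ∑ T ∈ P.powerset.filter (fun T => p ∈ T), GG T
        ≤ 2 * (2 / (N : ℝ) ^ δ * (1 / δ * Real.exp C)) := by
          refine mul_le_mul_of_nonneg_left (h6.trans ?_) (by norm_num)
          exact mul_le_mul h11 h7 (Finset.sum_nonneg fun T _ => t16_GG_nonneg T) (by positivity)
      _ = 4 * Real.exp C / (δ * (N : ℝ) ^ δ) := by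
          field_simp
          ring
  calc |∑ T ∈ P.powerset \ (P \ E).powerset, φ T * GG T|
      ≤ ∑ p ∈ E ∩ P, ∑ T ∈ P.powerset.filter (fun T => p ∈ T), 2 * GG T := h2.trans h4
    _ ≤ ∑ p ∈ E ∩ P, 4 * Real.exp C / (δ * (N : ℝ) ^ δ) := Finset.sum_le_sum h5
    _ = #(E ∩ P) * (4 * Real.exp C / (δ * (N : ℝ) ^ δ)) := by
        rw [Finset.sum_const, nsmul_eq_mul]
    _ ≤ #E * (4 * Real.exp C / (δ * (N : ℝ) ^ δ)) := by
        refine mul_le_mul_of_nonneg_right ?_ (by positivity)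
        exact_mod_cast Finset.card_le_card inter_subset_left

end Pool.Agent.Work.MP_73869e_nt.TH
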