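import Mathlib
import Pool.Agent.Work.MP_73869e_nt.TH.TDef

set_option autoImplicit false

/-!
MODULE T17 (upper bound for the sieve main term), size S-M.
Take the expectation of the inequality hsub for the random set B of primes in which p lies with probability
g p independently: sum over B ⊆ P of (prod over B of g) (prod over P \ B of (1 - g)) * (...), and
sum over B ⊇ d of the weight = prod over d of g. The indicator of B = ∅ has expectation prod (1 - g).
-/

namespace Pool.Agent.Work.MP_73869e_nt.TH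

open Finset Pool.Agent.Work.MP_2dba45_nt.BilDef Pool.Agent.Work.MP_2dba45_nt.Sv

private theorem t17_inner (P d : Finset ℕ) (hd : d ⊆ P) (g : ℕ → ℝ) :
    ∑ B ∈ P.powerset.filter (fun B => d ⊆ B), (∏ p ∈ B, g p) * ∏ p ∈ P \ B, (1 - g p) =
      ∏ p ∈ d, g p := by
  have h1 : ∑ B ∈ P.powerset.filter (fun B => d ⊆ B), (∏ p ∈ B, g p) * ∏ p ∈ P \ B, (1 - g p) =
      ∑ C ∈ (P \ d).powerset, (∏ p ∈ d, g p) * ((∏ p ∈ C, g p) * ∏ p ∈ (P \ d) \ C, (1 - g p)) := by
    refine Finset.sum_nbij' (fun B => B \ d) (fun C => d ∪ C) ?_ ?_ ?_ ?_ ?_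
    · intro B hB
      rw [mem_filter, mem_powerset] at hB
      rw [mem_powerset]
      exact sdiff_subset_sdiff hB.1 le_rfl
    · intro C hC
      rw [mem_powerset] at hC
      rw [mem_filter, mem_powerset]
      exact ⟨union_subset hd (hC.trans sdiff_subset), subset_union_left⟩
    · intro B hB
      rw [mem_filter, mem_powerset] at hB
      exact union_sdiff_of_subset hB.2
    · intro C hC
      rw [mem_powerset] at hC
      have hdisj : Disjoint C d := disjoint_of_subset_left hC sdiff_disjoint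
      show (d ∪ C) \ d = C
      rw [union_sdiff_left, sdiff_eq_self_of_disjoint hdisj]
    · intro B hB
      rw [mem_filter, mem_powerset] at hB
      have h2 : ∏ p ∈ B, g p = (∏ p ∈ d, g p) * ∏ p ∈ B \ d, g p := by
        rw [mul_comm]
        exact (prod_sdiff hB.2).symm
      have h3 : (P \ d) \ (B \ d) = P \ B := by
        ext x
        simp only [mem_sdiff]
        constructor
        · rintro ⟨⟨h4, h5⟩, h6⟩
          exact ⟨h4, fun h7 => h6 ⟨h7, h5⟩⟩
        · rintro ⟨h4, h5⟩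
          exact ⟨⟨h4, fun h6 => h5 (hB.2 h6)⟩, fun h6 => h5 h6.1⟩
      rw [h2, h3]
      ring
  rw [h1, ← mul_sum, ← prod_add]
  have h4 : ∏ p ∈ P \ d, (g p + (1 - g p)) = 1 := prod_eq_one fun p _ => by ring
  rw [h4, mul_one]

private theorem t17_swap (P : Finset ℕ) (g : ℕ → ℝ) (f : Finset ℕ → ℝ) :
    ∑ B ∈ P.powerset, ((∏ p ∈ B, g p) * ∏ p ∈ P \ B, (1 - g p)) * ∑ d ∈ B.powerset, f d =
      ∑ d ∈ P.powerset, f d * ∏ p ∈ d, g p := by
  simp_rw [mul_sum]
  rw [sum_comm' (t' := P.powerset) (s' := fun d => P.powerset.filter (fun B => d ⊆ B))]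
  · refine sum_congr rfl fun d hd => ?_
    rw [← sum_mul, t17_inner P d (mem_powerset.1 hd) g, mul_comm]
  · intro B d
    simp only [mem_powerset, mem_filter]
    constructor
    · rintro ⟨h1, h2⟩
      exact ⟨⟨h1, h2⟩, h2.trans h1⟩
    · rintro ⟨⟨h1, h2⟩, _⟩
      exact ⟨h1, h2⟩

theorem bh_upper (P : Finset ℕ) (g : ℕ → ℝ) (hg : ∀ p ∈ P, 0 ≤ g p ∧ g p ≤ 1)
    (lp dp : Finset ℕ → ℝ)
    (hsub : ∀ B ⊆ P, ∑ d ∈ B.powerset, lp d - (if B = ∅ then (1 : ℝ) else 0) ≤
      ∑ d ∈ B.powerset, dp d) :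
    ∑ d ∈ P.powerset, lp d * ∏ p ∈ d, g p ≤
      ∏ p ∈ P, (1 - g p) + ∑ d ∈ P.powerset, dp d * ∏ p ∈ d, g p := by
  rw [← t17_swap P g lp, ← t17_swap P g dp]
  have h0 : ∑ B ∈ P.powerset, ((∏ p ∈ B, g p) * ∏ p ∈ P \ B, (1 - g p)) *
      (if B = ∅ then (1 : ℝ) else 0) = ∏ p ∈ P, (1 - g p) := by
    rw [sum_eq_single ∅]
    · simp
    · intro B _ hB
      rw [if_neg hB, mul_zero]
    · intro h
      exact absurd (empty_mem_powerset P) h
  rw [← h0, ← sum_add_distrib]
  refine sum_le_sum fun B hB => ?_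
  rw [mem_powerset] at hB
  rw [← mul_add]
  refine mul_le_mul_of_nonneg_left ?_ ?_
  · linarith [hsub B hB]
  · refine mul_nonneg (prod_nonneg fun p hp => (hg p (hB hp)).1) (prod_nonneg fun p hp => ?_)
    linarith [(hg p (sdiff_subset hp)).2]

end Pool.Agent.Work.MP_73869e_nt.TH
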