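import Mathlib
import Pool.Agent.Work.MP_73869e_nt.TH.A2
import Pool.Agent.Work.MP_73869e_nt.TH.A3
import Pool.Agent.Work.MP_73869e_nt.TH.T07
import Pool.Agent.Work.MP_73869e_nt.TH.T10
import Pool.Agent.Work.MP_73869e_nt.TH.T11
import Pool.Agent.Work.MP_73869e_nt.TH.T12
import Pool.Agent.Work.MP_73869e_nt.TH.T13
import Pool.Agent.Work.MP_73869e_nt.TH.T16
import Pool.Agent.Work.MP_73869e_nt.TH.T17
import Pool.Agent.Work.MP_2dba45_nt.Sv.Final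

set_option autoImplicit false

/-!
Assembly 4: the sums for one tuple.
-/

namespace Pool.Agent.Work.MP_73869e_nt.TH

open Finset Pool.Agent.Work.MP_2dba45_nt.BilDef Pool.Agent.Work.MP_2dba45_nt.Sv
  Pool.Agent.Work.MP_73869e_nt.SK

/-- the remainder bound in the form used by `expand` -/
theorem hE_of (Bk : ℕ → ℝ)
    (hRem : ∀ (k N r : ℕ) (P : Finset ℕ) (R : ℕ → ℝ) (E : ℝ),
      1 ≤ k → 2 ≤ N → (∀ p ∈ P, p.Prime ∧ p.Coprime (2 * r)) →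
      (∀ b : ℕ → ℝ, (∀ q, |b q| ≤ 1) →
        ∑ m ∈ (Icc 1 ⌊(N : ℝ) ^ ((1199 : ℝ) / 1200)⌋₊).filter (fun m => m.Coprime r),
          |∑ q ∈ (Icc 1 ⌊(N : ℝ) ^ ((99 : ℝ) / 1200)⌋₊).filter
              (fun q => Squarefree q ∧ q.Coprime (2 * m * r)),
            b q * R (m * q)| ≤ E) →
      |∑ T ∈ P.powerset, phi (270 * k) (1199 * k) (1298 * k) (wt k) lamb
          (costs (cost (1200 * k) N) T) * R (∏ p ∈ T, p)| ≤ Bk k * E ∧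
      |∑ T ∈ P.powerset, |phi (270 * k) (1199 * k) (1298 * k) (wt k) lamb
          (costs (cost (1200 * k) N) T)| * R (∏ p ∈ T, p)| ≤ Bk k * E)
    (k N z₀ g : ℕ) (W : ℕ → ℝ) (η : ℝ) (hk : 1 ≤ k) (hN : 2 ≤ N) (hz₀ : 3 ≤ z₀) (hg1 : 1 ≤ g)
    (hgz : g < z₀)
    (hbil : ∀ r c : ℕ, Squarefree r → (r : ℝ) ≤ (N : ℝ) ^ η →
        ∀ M Q : ℝ, M ≤ (N : ℝ) ^ (1 - (1 : ℝ) / 1200) → Q ≤ (N : ℝ) ^ ((1 : ℝ) / 12 - 1 / 1200) →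
          ∀ b : ℕ → ℝ, (∀ q, |b q| ≤ 1) →
            ∑ m ∈ (Icc 1 ⌊M⌋₊).filter (fun m => m.Coprime (g * r)),
              |∑ q ∈ (Icc 1 ⌊Q⌋₊).filter (fun q => Squarefree q ∧ q.Coprime (2 * m * (g * r))),
                b q * BG.RemG W N (m * q) g r c| ≤ (N : ℝ) ^ (1 - η))
    (Q : Finset ℕ) (r c : ℕ) (hr : Squarefree r)
    (hrp : ∀ p : ℕ, p.Prime → p ∣ r → p < z₀ ∨ p ∈ Q) (hrN : (r : ℝ) ≤ (N : ℝ) ^ η) :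
    |∑ T ∈ (PQ z₀ N \ Q).powerset, ph k N T * BG.RemG W N (∏ p ∈ T, p) g r c| ≤
        Bk k * (N : ℝ) ^ (1 - η) ∧
    |∑ T ∈ (PQ z₀ N \ Q).powerset, |ph k N T| * BG.RemG W N (∏ p ∈ T, p) g r c| ≤
        Bk k * (N : ℝ) ^ (1 - η) := by
  have h := hRem k N (g * r) (PQ z₀ N \ Q) (fun D => BG.RemG W N D g r c) ((N : ℝ) ^ (1 - η)) hk hN
    ?_ ?_
  · exact h
  · intro p hp
    rw [mem_sdiff, PQ, mem_filter, mem_Ico] at hp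
    obtain ⟨⟨⟨hpz, -⟩, hpp⟩, hpQ⟩ := hp
    refine ⟨hpp, ?_⟩
    rw [Nat.coprime_mul_iff_right, Nat.coprime_mul_iff_right]
    refine ⟨?_, ?_, ?_⟩
    · rw [Nat.Prime.coprime_iff_not_dvd hpp]
      intro hd
      have := Nat.le_of_dvd (by norm_num) hd
      omega
    · rw [Nat.Prime.coprime_iff_not_dvd hpp]
      intro hd
      have := Nat.le_of_dvd (by omega) hd
      omega
    · rw [Nat.Prime.coprime_iff_not_dvd hpp]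
      intro hd
      rcases hrp p hpp hd with h1 | h1
      · omega
      · exact hpQ h1
  · intro b hb
    apply hbil r c hr hrN _ _ _ _ b hb
    · apply le_of_eq; norm_num
    · apply le_of_eq; norm_num

open Classical in
/-- the contribution of the form `j` -/
theorem form_j {K : ℕ} (N z₀ R' k : ℕ) (g : Fin K → ℕ) (j : Fin K) (W : ℕ → ℝ)
    (lp dp : Finset ℕ → ℝ) (Y : Finset (ℕ × Fin K) → ℝ)
    (D E R Y₀ S S' u₀ V U1 U2 cδ Ca Cb : ℝ)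
    (hW : ∀ n, 0 ≤ W n) (hg : ∀ i, 1 ≤ g i ∧ (g i) ^ 2 < z₀) (hinj : Function.Injective g)
    (hlp : ∀ d, |lp d| ≤ 1) (hdp : ∀ d, |dp d| ≤ z₀) (hz₀D : (z₀ : ℝ) ≤ D) (hD : 1 ≤ D)
    (hsupp : ∀ d, lp d ≠ 0 ∨ dp d ≠ 0 → ((∏ p ∈ d, p : ℕ) : ℝ) ≤ D)
    (hE0 : 0 ≤ E) (hR : 0 ≤ R) (hu₀ : 0 ≤ u₀)
    (hE : ∀ (Q : Finset ℕ) (r c : ℕ), Squarefree r →
      (∀ p : ℕ, p.Prime → p ∣ r → p < z₀ ∨ p ∈ Q) → (r : ℝ) ≤ D * R ^ 2 →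
      |∑ T ∈ (PQ z₀ N \ Q).powerset, ph k N T * BG.RemG W N (∏ p ∈ T, p) (g j) r c| ≤ E ∧
      |∑ T ∈ (PQ z₀ N \ Q).powerset, |ph k N T| * BG.RemG W N (∏ p ∈ T, p) (g j) r c| ≤ E)
    (hU1 : ∀ Q : Finset ℕ, |∑ T ∈ (PQ z₀ N \ Q).powerset, ph k N T * GG T - U1| ≤ #Q * u₀)
    (hU2 : ∀ Q : Finset ℕ, |∑ T ∈ (PQ z₀ N \ Q).powerset, |ph k N T| * GG T - U2| ≤ #Q * u₀)
    (hY : ∀ A, |Zj g1 (PQ z₀ R') j Y A| ≤ Y₀)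
    (hYR : ∀ A, Zj g1 (PQ z₀ R') j Y A ≠ 0 → (pr A : ℝ) ≤ R)
    (hS : ∑ p ∈ PQ z₀ R', g1 p ≤ S) (hS' : ∑ p ∈ PQ z₀ R', 1 / (p : ℝ) ≤ S')
    (hV0 : 0 ≤ V)
    (hs1 : V ≤ ∑ d ∈ (Pool.Agent.Work.MP_2dba45_nt.VV.PP z₀).powerset, lp d * ∏ p ∈ d, gr g p)
    (hs1' : ∑ d ∈ (Pool.Agent.Work.MP_2dba45_nt.VV.PP z₀).powerset, lp d * ∏ p ∈ d, gr g p ≤ 2 * V)
    (hs2 : 0 ≤ ∑ d ∈ (Pool.Agent.Work.MP_2dba45_nt.VV.PP z₀).powerset, dp d * ∏ p ∈ d, gr g p)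
    (hs2' : ∑ d ∈ (Pool.Agent.Work.MP_2dba45_nt.VV.PP z₀).powerset, dp d * ∏ p ∈ d, gr g p ≤ V)
    (hmm : V * cδ ≤
      (∑ d ∈ (Pool.Agent.Work.MP_2dba45_nt.VV.PP z₀).powerset, lp d * ∏ p ∈ d, gr g p) * U1 -
      (∑ d ∈ (Pool.Agent.Work.MP_2dba45_nt.VV.PP z₀).powerset, dp d * ∏ p ∈ d, gr g p) * U2)
    (hEx : 0 ≤ Ex g1 (PQ z₀ R') (fun ω => (ff g1 (PQ z₀ R') (Zj g1 (PQ z₀ R') j Y) ω) ^ 2))
    (hCa : Ca = (Y₀ * Real.exp (K * S)) ^ 2 * Real.exp (6 * K * S))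
    (hCb : Cb = (Y₀ * Real.exp (K * S) * (R ^ 2 * Real.exp (K * S'))) ^ 2) :
    (∑ n ∈ Ioc N (2 * N), W n) *
        Ex g1 (PQ z₀ R') (fun ω => (ff g1 (PQ z₀ R') (Zj g1 (PQ z₀ R') j Y) ω) ^ 2) * (V * cδ) -
      (3 * V * (∑ n ∈ Ioc N (2 * N), W n) * u₀ * Ca + 2 * D ^ 3 * E * Cb) ≤
    ∑ n ∈ Ioc N (2 * N), W n *
        ((∑ d ∈ (Pool.Agent.Work.MP_2dba45_nt.VV.PP z₀).powerset, lp d *
            (if ∀ p ∈ d, p ∣ ∏ i, (n ^ 2 + (g i) ^ 2) then (1 : ℝ) else 0)) *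
          (ff g1 (PQ z₀ R') (Zj g1 (PQ z₀ R') j Y) (oo (PQ z₀ R') g n)) ^ 2 *
          (∑ T ∈ (PQ z₀ N).powerset, ph k N T *
            (if ∀ p ∈ T, p ∣ n ^ 2 + (g j) ^ 2 then (1 : ℝ) else 0)) -
      (∑ d ∈ (Pool.Agent.Work.MP_2dba45_nt.VV.PP z₀).powerset, dp d *
            (if ∀ p ∈ d, p ∣ ∏ i, (n ^ 2 + (g i) ^ 2) then (1 : ℝ) else 0)) *
        (ff g1 (PQ z₀ R') (Zj g1 (PQ z₀ R') j Y) (oo (PQ z₀ R') g n)) ^ 2 *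
          (∑ T ∈ (PQ z₀ N).powerset, |ph k N T| *
            (if ∀ p ∈ T, p ∣ n ^ 2 + (g j) ^ 2 then (1 : ℝ) else 0))) := by
  have hPT : ∀ p ∈ PQ z₀ N, p.Prime ∧ z₀ ≤ p := by
    intro p hp
    rw [PQ, mem_filter, mem_Ico] at hp
    exact ⟨hp.2, hp.1.1⟩
  have hP : ∀ p ∈ PQ z₀ R', p.Prime ∧ z₀ ≤ p := by
    intro p hp
    rw [PQ, mem_filter, mem_Ico] at hp
    exact ⟨hp.2, hp.1.1⟩
  have hdis : ∀ B, la g1 (PQ z₀ R') (Zj g1 (PQ z₀ R') j Y) B ≠ 0 →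
      ∀ a ∈ B, a.1 ∈ PQ z₀ N → a.2 ≠ j := by
    intro B hB a ha _ haj
    exact hB (la_Zj g1 (PQ z₀ R') j Y B ⟨a, ha, haj⟩)
  have hE1 := expand N z₀ g j W (PQ z₀ N) (PQ z₀ R') (ph k N) lp (Zj g1 (PQ z₀ R') j Y)
    1 D E R Y₀ S S' u₀ U1 hW hg hinj hPT hP hdis zero_le_one hD hE0 hR hu₀ hlp
    (fun d hd => hsupp d (Or.inl hd)) (fun Q r c h1 h2 h3 => (hE Q r c h1 h2 h3).1) hU1 hY hYR hS hS'
  have hE2 := expand N z₀ g j W (PQ z₀ N) (PQ z₀ R') (fun T => |ph k N T|) dp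
    (Zj g1 (PQ z₀ R') j Y)
    D D E R Y₀ S S' u₀ U2 hW hg hinj hPT hP hdis (by linarith) hD hE0 hR hu₀
    (fun d => (hdp d).trans hz₀D)
    (fun d hd => hsupp d (Or.inr hd)) (fun Q r c h1 h2 h3 => (hE Q r c h1 h2 h3).2) hU2 hY hYR hS hS'
  simp only [mul_sub] at *
  rw [sum_sub_distrib]
  set X := ∑ n ∈ Ioc N (2 * N), W n with hX
  have hX0 : 0 ≤ X := sum_nonneg fun n _ => hW n
  set EE := Ex g1 (PQ z₀ R') (fun ω => (ff g1 (PQ z₀ R') (Zj g1 (PQ z₀ R') j Y) ω) ^ 2) with hEE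
  set s1 := ∑ d ∈ (Pool.Agent.Work.MP_2dba45_nt.VV.PP z₀).powerset, lp d * ∏ p ∈ d, gr g p with hs1d
  set s2 := ∑ d ∈ (Pool.Agent.Work.MP_2dba45_nt.VV.PP z₀).powerset, dp d * ∏ p ∈ d, gr g p with hs2d
  rw [← hCa, ← hCb] at hE1 hE2
  have hCa0 : 0 ≤ Ca := by rw [hCa]; positivity
  have hCb0 : 0 ≤ Cb := by rw [hCb]; positivity
  have a1 := (abs_le.1 hE1).1
  have a2 := (abs_le.1 hE2).2
  have hs1nn : 0 ≤ s1 := hV0.trans hs1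
  rw [abs_of_nonneg hs1nn] at a1
  rw [abs_of_nonneg hs2] at a2
  have b1 : s1 * X * u₀ * Ca ≤ 2 * V * X * u₀ * Ca := by gcongr
  have b2 : s2 * X * u₀ * Ca ≤ V * X * u₀ * Ca := by gcongr
  have b3 : X * EE * (V * cδ) ≤ s1 * X * U1 * EE - s2 * X * U2 * EE := by
    have : X * EE * (V * cδ) ≤ X * EE * (s1 * U1 - s2 * U2) :=
      mul_le_mul_of_nonneg_left hmm (mul_nonneg hX0 hEx)
    calc _ ≤ _ := this
      _ = _ := by ring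
  have b4 : 1 * D * D * E * Cb ≤ D ^ 3 * E * Cb := by
    have h0 : 0 ≤ D := by linarith
    have : 1 * D * D ≤ D ^ 3 := by nlinarith [mul_nonneg h0 h0]
    gcongr
  have b5 : D * D * D * E * Cb = D ^ 3 * E * Cb := by ring
  linarith

open Classical in
/-- the upper bound for the total mass -/
theorem mass_up {K : ℕ} (N z₀ R' : ℕ) (g : Fin K → ℕ) (j : Fin K) (W : ℕ → ℝ)
    (lp : Finset ℕ → ℝ) (Y : Finset (ℕ × Fin K) → ℝ)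
    (D E R Y₀ S S' V Cb : ℝ)
    (hW : ∀ n, 0 ≤ W n) (hg : ∀ i, 1 ≤ g i ∧ (g i) ^ 2 < z₀) (hinj : Function.Injective g)
    (hlp : ∀ d, |lp d| ≤ 1) (hD : 1 ≤ D)
    (hsupp : ∀ d, lp d ≠ 0 → ((∏ p ∈ d, p : ℕ) : ℝ) ≤ D)
    (hsub : ∀ B ⊆ Pool.Agent.Work.MP_2dba45_nt.VV.PP z₀,
      (if B = ∅ then (1 : ℝ) else 0) ≤ ∑ d ∈ B.powerset, lp d)
    (hE0 : 0 ≤ E) (hR : 0 ≤ R)
    (hE : ∀ r c : ℕ, Squarefree r → (r : ℝ) ≤ D * R ^ 2 → |BG.RemG W N 1 (g j) r c| ≤ E)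
    (hY : ∀ A, |Y A| ≤ Y₀) (hYR : ∀ A, Y A ≠ 0 → (pr A : ℝ) ≤ R)
    (hS : ∑ p ∈ PQ z₀ R', g1 p ≤ S) (hS' : ∑ p ∈ PQ z₀ R', 1 / (p : ℝ) ≤ S')
    (hs1' : ∑ d ∈ (Pool.Agent.Work.MP_2dba45_nt.VV.PP z₀).powerset, lp d * ∏ p ∈ d, gr g p ≤ 2 * V)
    (hEx : 0 ≤ Ex g1 (PQ z₀ R') (fun ω => (ff g1 (PQ z₀ R') Y ω) ^ 2))
    (hCb : Cb = (Y₀ * Real.exp (K * S) * (R ^ 2 * Real.exp (K * S'))) ^ 2) :
    ∑ n ∈ Ioc N (2 * N), W n *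
      (if Ro z₀ g n then (ff g1 (PQ z₀ R') Y (oo (PQ z₀ R') g n)) ^ 2 else 0) ≤
      2 * V * (∑ n ∈ Ioc N (2 * N), W n) *
        Ex g1 (PQ z₀ R') (fun ω => (ff g1 (PQ z₀ R') Y ω) ^ 2) + D ^ 3 * E * Cb := by
  have hP : ∀ p ∈ PQ z₀ R', p.Prime ∧ z₀ ≤ p := by
    intro p hp
    rw [PQ, mem_filter, mem_Ico] at hp
    exact ⟨hp.2, hp.1.1⟩
  have hE1 := expand N z₀ g j W ∅ (PQ z₀ R') (fun _ => 1) lp Y
    1 D E R Y₀ S S' 0 1 hW hg hinj (fun p hp => absurd hp (notMem_empty p)) hP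
    (fun B _ a _ h => absurd h (notMem_empty _)) zero_le_one hD hE0 hR le_rfl hlp hsupp
    (fun Q r c h1 h2 h3 => by
      rw [empty_sdiff, powerset_empty, sum_singleton, prod_empty, one_mul]
      exact hE r c h1 h3)
    (fun Q => by
      rw [empty_sdiff, powerset_empty, sum_singleton]
      unfold GG
      rw [prod_empty]
      norm_num) hY hYR hS hS'
  rw [← hCb] at hE1
  have a1 := (abs_le.1 hE1).2
  set X := ∑ n ∈ Ioc N (2 * N), W n with hX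
  have hX0 : 0 ≤ X := sum_nonneg fun n _ => hW n
  set EE := Ex g1 (PQ z₀ R') (fun ω => (ff g1 (PQ z₀ R') Y ω) ^ 2) with hEE
  set s1 := ∑ d ∈ (Pool.Agent.Work.MP_2dba45_nt.VV.PP z₀).powerset, lp d * ∏ p ∈ d, gr g p with hs1d
  have hCb0 : 0 ≤ Cb := by rw [hCb]; positivity
  have b1 : ∑ n ∈ Ioc N (2 * N), W n *
      (if Ro z₀ g n then (ff g1 (PQ z₀ R') Y (oo (PQ z₀ R') g n)) ^ 2 else 0) ≤
      ∑ n ∈ Ioc N (2 * N), W n *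
        ((∑ d ∈ (Pool.Agent.Work.MP_2dba45_nt.VV.PP z₀).powerset, lp d *
            (if ∀ p ∈ d, p ∣ ∏ i, (n ^ 2 + (g i) ^ 2) then (1 : ℝ) else 0)) *
          (ff g1 (PQ z₀ R') Y (oo (PQ z₀ R') g n)) ^ 2 *
          (∑ T ∈ (∅ : Finset ℕ).powerset, (1 : ℝ) *
            (if ∀ p ∈ T, p ∣ n ^ 2 + (g j) ^ 2 then (1 : ℝ) else 0))) := by
    refine sum_le_sum fun n _ => ?_
    apply mul_le_mul_of_nonneg_left _ (hW n)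
    rw [powerset_empty, sum_singleton, one_mul, if_pos (fun p hp => absurd hp (notMem_empty p)),
      mul_one, ← bad_sum z₀ g n lp]
    have h1 := hsub _ (filter_subset (fun p => p ∣ ∏ i, (n ^ 2 + (g i) ^ 2)) _)
    have h2 : (if Ro z₀ g n then (ff g1 (PQ z₀ R') Y (oo (PQ z₀ R') g n)) ^ 2 else 0) =
        (if (Pool.Agent.Work.MP_2dba45_nt.VV.PP z₀).filter (fun p => p ∣ ∏ i, (n ^ 2 + (g i) ^ 2))
          = ∅ then (1 : ℝ) else 0) * (ff g1 (PQ z₀ R') Y (oo (PQ z₀ R') g n)) ^ 2 := by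
      have h3 := Ro_iff z₀ g n
      by_cases h : Ro z₀ g n
      · rw [if_pos h, if_pos (h3.2 h), one_mul]
      · rw [if_neg h, if_neg (fun h4 => h (h3.1 h4)), zero_mul]
    rw [h2]
    exact mul_le_mul_of_nonneg_right h1 (sq_nonneg _)
  have b2 : s1 * X * 1 * EE ≤ 2 * V * X * EE := by
    rw [mul_one]
    gcongr
  have b4 : 1 * D * D * E * Cb ≤ D ^ 3 * E * Cb := by
    have h0 : 0 ≤ D := by linarith
    have : 1 * D * D ≤ D ^ 3 := by nlinarith [mul_nonneg h0 h0]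
    gcongr
  have b5 : |s1| * X * 0 * ((Y₀ * Real.exp (K * S)) ^ 2 * Real.exp (6 * K * S)) = 0 := by ring
  linarith

end Pool.Agent.Work.MP_73869e_nt.TH
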