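import Mathlib
import Pool.Agent.Work.MP_73869e_nt.TH.A4

set_option autoImplicit false

/-!
Assembly 5: parameters.
-/

namespace Pool.Agent.Work.MP_73869e_nt.TH

open Finset Pool.Agent.Work.MP_2dba45_nt.BilDef Pool.Agent.Work.MP_2dba45_nt.Sv
  Pool.Agent.Work.MP_73869e_nt.SK

theorem par_alg (m L K : ℕ) (cn Cn c1 v t₀ δ s1 s2 : ℝ) (hL1 : 1 ≤ L) (hK : 1 ≤ K)
    (hcn : 0 < cn) (hCn : 0 < Cn) (hc1 : 0 < c1) (hv : 0 < v) (hδ : 0 < δ)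
    (hL : 16384 * m * Cn ^ 2 ≤ L * (c1 * cn ^ 3 * v)) (ht₀ : t₀ = cn * v / (32 * Cn * L * K))
    (h1 : cn * L * (t₀ / δ) ≤ s1) (h2 : cn * (t₀ / δ) ≤ s2) (h2' : s2 ≤ 8 * Cn * (t₀ / δ)) :
    s2 ^ (K - 1) * (16 * m * Cn * (t₀ / δ)) ≤
      K * (1 / 8 * s1 ^ 2 * s2 ^ (K - 1)) * (c1 * δ / 2) - m * (2 * s2 ^ K) := by
  have hL0 : (0 : ℝ) < L := by exact_mod_cast hL1
  have hK0 : (0 : ℝ) < K := by exact_mod_cast hK
  have ht0 : 0 < t₀ := by rw [ht₀]; positivity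
  set u := t₀ / δ with hu
  have hu0 : 0 < u := by positivity
  have hs2 : 0 < s2 := lt_of_lt_of_le (by positivity) h2
  have hKL : K * L * t₀ = cn * v / (32 * Cn) := by
    rw [ht₀]; field_simp
  have e1 : 32 * m * Cn * u ≤ K * s1 ^ 2 * c1 * δ / 16 := by
    have a1 : (cn * L * u) ^ 2 ≤ s1 ^ 2 := pow_le_pow_left₀ (by positivity) h1 2
    have a2 : K * (cn * L * u) ^ 2 * c1 * δ / 16 ≤ K * s1 ^ 2 * c1 * δ / 16 := by gcongr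
    refine le_trans ?_ a2
    have a3 : K * (cn * L * u) ^ 2 * c1 * δ / 16 = (K * L * t₀) * (cn ^ 2 * L * c1 / 16) * u := by
      rw [hu]; field_simp
    rw [a3, hKL]
    have a4 : cn * v / (32 * Cn) * (cn ^ 2 * L * c1 / 16) * u =
        (L * (c1 * cn ^ 3 * v)) * u / (512 * Cn) := by field_simp; ring
    rw [a4, le_div_iff₀ (by positivity)]
    calc 32 * m * Cn * u * (512 * Cn) = (16384 * m * Cn ^ 2) * u := by ring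
      _ ≤ (L * (c1 * cn ^ 3 * v)) * u := mul_le_mul_of_nonneg_right hL hu0.le
  have e2 : (m : ℝ) * (2 * s2) ≤ 16 * m * Cn * u := by
    calc (m : ℝ) * (2 * s2) ≤ m * (2 * (8 * Cn * u)) := by gcongr
      _ = 16 * m * Cn * u := by ring
  have e3 : s2 ^ K = s2 ^ (K - 1) * s2 := by
    rw [← pow_succ]
    congr 1
    omega
  rw [e3]
  have e4 : K * (1 / 8 * s1 ^ 2 * s2 ^ (K - 1)) * (c1 * δ / 2) - m * (2 * (s2 ^ (K - 1) * s2)) =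
      s2 ^ (K - 1) * (K * s1 ^ 2 * c1 * δ / 16 - m * (2 * s2)) := by ring
  rw [e4]
  apply mul_le_mul_of_nonneg_left _ (by positivity)
  linarith

theorem log_ev (a : ℝ) (s : ℕ) (ha : 0 < a) :
    ∀ᶠ N : ℕ in Filter.atTop, (Real.log N) ^ s ≤ (N : ℝ) ^ a := by
  have h1 := (isLittleO_log_rpow_rpow_atTop (s := a) (s : ℝ) ha).def (c := 1) one_pos
  have h2 := tendsto_natCast_atTop_atTop (R := ℝ) |>.eventually h1
  filter_upwards [h2, Filter.eventually_ge_atTop 3] with N hN hN3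
  have hN0 : (0 : ℝ) < N := by positivity
  have hlog : 0 < Real.log N := Real.log_pos (by exact_mod_cast (by omega : 1 < N))
  rw [Real.norm_of_nonneg (by positivity), Real.norm_of_nonneg (by positivity), one_mul,
    Real.rpow_natCast] at hN
  exact hN

/-- absorbing a constant times a small power -/
theorem abs_ev (a κ e : ℝ) (K : ℕ) (ha : a < 1) (hκ : 0 < κ) (he : 0 ≤ e) :
    ∀ᶠ N : ℕ in Filter.atTop, e * (N : ℝ) ^ a ≤ κ * (N / (Real.log N) ^ K) := by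
  filter_upwards [fin_evK a (κ / (e + 1)) K ha (by positivity), Filter.eventually_ge_atTop 3]
    with N hN hN3
  have hN0 : (0 : ℝ) < N := by positivity
  have hlog : 0 < Real.log N := Real.log_pos (by exact_mod_cast (by omega : 1 < N))
  have hx : 0 ≤ (N : ℝ) / (Real.log N) ^ K := by positivity
  calc e * (N : ℝ) ^ a ≤ e * (κ / (e + 1) * (N / (Real.log N) ^ K)) :=
        mul_le_mul_of_nonneg_left hN he
    _ = (e / (e + 1)) * (κ * (N / (Real.log N) ^ K)) := by ring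
    _ ≤ 1 * (κ * (N / (Real.log N) ^ K)) := by
        apply mul_le_mul_of_nonneg_right _ (by positivity)
        rw [div_le_one (by linarith)]
        linarith
    _ = _ := one_mul _

open Classical in
theorem form_total {K : ℕ} (N z₀ R' k m : ℕ) (δ : ℝ) (g : Fin K → ℕ) (j₀ : Fin K) (W : ℕ → ℝ)
    (lp dp : Finset ℕ → ℝ) (Y : Finset (ℕ × Fin K) → ℝ)
    (D E E₀ R Y₀ Yj S S' u₀ V U1 U2 cδ Ca Cb Cb₀ Ej EE Bf nb : ℝ)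
    (hz₀ : z₀ = pw N δ) (hR' : R' ≤ pw N zExp) (hk : 1 ≤ k) (hN : 2 ≤ N)
    (hW : ∀ n, 0 ≤ W n ∧ W n ≤ 1) (hg : ∀ i, 1 ≤ g i ∧ (g i) ^ 2 < z₀)
    (hinj : Function.Injective g)
    (hlp : ∀ d, |lp d| ≤ 1) (hdp : ∀ d, |dp d| ≤ z₀) (hz₀D : (z₀ : ℝ) ≤ D) (hD : 1 ≤ D)
    (hsupp : ∀ d, lp d ≠ 0 ∨ dp d ≠ 0 → ((∏ p ∈ d, p : ℕ) : ℝ) ≤ D)
    (hsub : ∀ B ⊆ Pool.Agent.Work.MP_2dba45_nt.VV.PP z₀,
      (if B = ∅ then (1 : ℝ) else 0) ≤ ∑ d ∈ B.powerset, lp d ∧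
      ∑ d ∈ B.powerset, lp d - (if B = ∅ then (1 : ℝ) else 0) ≤ ∑ d ∈ B.powerset, dp d)
    (hE0 : 0 ≤ E) (hE00 : 0 ≤ E₀) (hR : 0 ≤ R) (hu₀ : 0 ≤ u₀)
    (hE : ∀ (j : Fin K) (Q : Finset ℕ) (r c : ℕ), Squarefree r →
      (∀ p : ℕ, p.Prime → p ∣ r → p < z₀ ∨ p ∈ Q) → (r : ℝ) ≤ D * R ^ 2 →
      |∑ T ∈ (PQ z₀ N \ Q).powerset, ph k N T * BG.RemG W N (∏ p ∈ T, p) (g j) r c| ≤ E ∧
      |∑ T ∈ (PQ z₀ N \ Q).powerset, |ph k N T| * BG.RemG W N (∏ p ∈ T, p) (g j) r c| ≤ E)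
    (hE' : ∀ r c : ℕ, Squarefree r → (r : ℝ) ≤ D * R ^ 2 → |BG.RemG W N 1 (g j₀) r c| ≤ E₀)
    (hU1 : ∀ Q : Finset ℕ, |∑ T ∈ (PQ z₀ N \ Q).powerset, ph k N T * GG T - U1| ≤ #Q * u₀)
    (hU2 : ∀ Q : Finset ℕ, |∑ T ∈ (PQ z₀ N \ Q).powerset, |ph k N T| * GG T - U2| ≤ #Q * u₀)
    (hY0 : ∀ A, |Y A| ≤ Y₀) (hYR0 : ∀ A, Y A ≠ 0 → (pr A : ℝ) ≤ R)
    (hY : ∀ j A, |Zj g1 (PQ z₀ R') j Y A| ≤ Yj)
    (hYR : ∀ j A, Zj g1 (PQ z₀ R') j Y A ≠ 0 → (pr A : ℝ) ≤ R)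
    (hS : ∑ p ∈ PQ z₀ R', g1 p ≤ S) (hS' : ∑ p ∈ PQ z₀ R', 1 / (p : ℝ) ≤ S')
    (hV0 : 0 ≤ V)
    (hs1 : V ≤ ∑ d ∈ (Pool.Agent.Work.MP_2dba45_nt.VV.PP z₀).powerset, lp d * ∏ p ∈ d, gr g p)
    (hs1' : ∑ d ∈ (Pool.Agent.Work.MP_2dba45_nt.VV.PP z₀).powerset, lp d * ∏ p ∈ d, gr g p ≤ 2 * V)
    (hs2 : 0 ≤ ∑ d ∈ (Pool.Agent.Work.MP_2dba45_nt.VV.PP z₀).powerset, dp d * ∏ p ∈ d, gr g p)
    (hs2' : ∑ d ∈ (Pool.Agent.Work.MP_2dba45_nt.VV.PP z₀).powerset, dp d * ∏ p ∈ d, gr g p ≤ V)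
    (hcδ : 0 ≤ cδ)
    (hmm : V * cδ ≤
      (∑ d ∈ (Pool.Agent.Work.MP_2dba45_nt.VV.PP z₀).powerset, lp d * ∏ p ∈ d, gr g p) * U1 -
      (∑ d ∈ (Pool.Agent.Work.MP_2dba45_nt.VV.PP z₀).powerset, dp d * ∏ p ∈ d, gr g p) * U2)
    (hEj0 : 0 ≤ Ej)
    (hEj : ∀ j, Ej ≤ Ex g1 (PQ z₀ R')
      (fun ω => (ff g1 (PQ z₀ R') (Zj g1 (PQ z₀ R') j Y) ω) ^ 2))
    (hEx : 0 ≤ Ex g1 (PQ z₀ R') (fun ω => (ff g1 (PQ z₀ R') Y ω) ^ 2))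
    (hEE : Ex g1 (PQ z₀ R') (fun ω => (ff g1 (PQ z₀ R') Y ω) ^ 2) ≤ EE)
    (hwt : ∀ j, ∀ n ∈ Ioc N (2 * N),
      (∀ p : ℕ, p.Prime → p ∣ n ^ 2 + (g j) ^ 2 → pw N δ ≤ p) →
      WW (PQ (pw N δ) N) (cost (1200 * k) N) (pw N zExp) (pw N yExp) (1298 * k) (wt k) lamb
        (fun T => if T ⊆ (PQ (pw N δ) N).filter (fun p => p ∣ n ^ 2 + (g j) ^ 2) then 1 else 0) ≤
      (if GoodK N (g j) n then 1 else 0) + (if BadK N (g j) n then 1 else 0))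
    (hBf : ∀ j, ∀ n ∈ Ioc N (2 * N),
      |ff g1 (PQ z₀ R') (Zj g1 (PQ z₀ R') j Y) (oo (PQ z₀ R') g n)| ≤ Bf)
    (hbad : ∀ j, (#((Ioc N (2 * N)).filter (fun n => BadK N (g j) n)) : ℝ) ≤ nb)
    (hCa : Ca = (Yj * Real.exp (K * S)) ^ 2 * Real.exp (6 * K * S))
    (hCb : Cb = (Yj * Real.exp (K * S) * (R ^ 2 * Real.exp (K * S'))) ^ 2)
    (hCb₀ : Cb₀ = (Y₀ * Real.exp (K * S) * (R ^ 2 * Real.exp (K * S'))) ^ 2) :
    (∑ n ∈ Ioc N (2 * N), W n) * V * (K * Ej * cδ - m * (2 * EE)) -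
      (K * (3 * V * (∑ n ∈ Ioc N (2 * N), W n) * u₀ * Ca + 2 * D ^ 3 * E * Cb + Bf ^ 2 * nb) +
        m * (D ^ 3 * E₀ * Cb₀)) ≤
    ∑ n ∈ Ioc N (2 * N), W n *
      (if Ro z₀ g n then (ff g1 (PQ z₀ R') Y (oo (PQ z₀ R') g n)) ^ 2 else 0) *
      ((∑ j, if GoodK N (g j) n then (1 : ℝ) else 0) - m) := by
  set X := ∑ n ∈ Ioc N (2 * N), W n with hX
  have hX0 : 0 ≤ X := sum_nonneg fun n _ => (hW n).1
  have hup := mass_up N z₀ R' g j₀ W lp Y D E₀ R Y₀ S S' V Cb₀ (fun n => (hW n).1) hg hinj hlp hD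
    (fun d hd => hsupp d (Or.inl hd)) (fun B hB => (hsub B hB).1) hE00 hR hE' hY0 hYR0 hS hS' hs1'
    hEx hCb₀
  have hlow : ∀ j : Fin K, X * V * (Ej * cδ) -
      (3 * V * X * u₀ * Ca + 2 * D ^ 3 * E * Cb + Bf ^ 2 * nb) ≤
      ∑ n ∈ Ioc N (2 * N), W n * (if Ro z₀ g n ∧ GoodK N (g j) n then
        (ff g1 (PQ z₀ R') Y (oo (PQ z₀ R') g n)) ^ 2 else 0) := by
    intro j
    have h1 := form_j N z₀ R' k g j W lp dp Y D E R Yj S S' u₀ V U1 U2 cδ Ca Cb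
      (fun n => (hW n).1) hg hinj hlp hdp hz₀D hD hsupp hE0 hR hu₀ (hE j) hU1 hU2 (hY j) (hYR j)
      hS hS' hV0 hs1 hs1' hs2 hs2' hmm (hEj0.trans (hEj j)) hCa hCb
    rw [← hX] at h1
    have h2 : X * V * (Ej * cδ) ≤ X * Ex g1 (PQ z₀ R')
        (fun ω => (ff g1 (PQ z₀ R') (Zj g1 (PQ z₀ R') j Y) ω) ^ 2) * (V * cδ) := by
      calc X * V * (Ej * cδ) = X * Ej * (V * cδ) := by ring
        _ ≤ _ := by
          apply mul_le_mul_of_nonneg_right _ (by positivity)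
          exact mul_le_mul_of_nonneg_left (hEj j) hX0
    have h3 : ∑ n ∈ Ioc N (2 * N), W n *
        ((∑ d ∈ (Pool.Agent.Work.MP_2dba45_nt.VV.PP z₀).powerset, lp d *
            (if ∀ p ∈ d, p ∣ ∏ i, (n ^ 2 + (g i) ^ 2) then (1 : ℝ) else 0)) *
          (ff g1 (PQ z₀ R') (Zj g1 (PQ z₀ R') j Y) (oo (PQ z₀ R') g n)) ^ 2 *
          (∑ T ∈ (PQ z₀ N).powerset, ph k N T *
            (if ∀ p ∈ T, p ∣ n ^ 2 + (g j) ^ 2 then (1 : ℝ) else 0)) -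
      (∑ d ∈ (Pool.Agent.Work.MP_2dba45_nt.VV.PP z₀).powerset, dp d *
            (if ∀ p ∈ d, p ∣ ∏ i, (n ^ 2 + (g i) ^ 2) then (1 : ℝ) else 0)) *
        (ff g1 (PQ z₀ R') (Zj g1 (PQ z₀ R') j Y) (oo (PQ z₀ R') g n)) ^ 2 *
          (∑ T ∈ (PQ z₀ N).powerset, |ph k N T| *
            (if ∀ p ∈ T, p ∣ n ^ 2 + (g j) ^ 2 then (1 : ℝ) else 0))) ≤
        ∑ n ∈ Ioc N (2 * N), (W n * (if Ro z₀ g n ∧ GoodK N (g j) n then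
          (ff g1 (PQ z₀ R') Y (oo (PQ z₀ R') g n)) ^ 2 else 0) +
          Bf ^ 2 * (if BadK N (g j) n then 1 else 0)) := by
      refine sum_le_sum fun n hn => ?_
      have h4 := ptw N k z₀ R' δ g j n lp dp Y Bf hz₀ hR' hk hN hsub (hwt j n hn) (hBf j n hn)
      refine (mul_le_mul_of_nonneg_left h4 (hW n).1).trans ?_
      rw [mul_add]
      have h5 : 0 ≤ Bf ^ 2 * (if BadK N (g j) n then (1 : ℝ) else 0) := by
        split_ifs <;> positivity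
      have h6 := mul_le_of_le_one_left h5 (hW n).2
      linarith
    rw [sum_add_distrib, ← mul_sum, sum_boole] at h3
    have h6 : Bf ^ 2 * (#((Ioc N (2 * N)).filter (fun n => BadK N (g j) n)) : ℝ) ≤ Bf ^ 2 * nb :=
      mul_le_mul_of_nonneg_left (hbad j) (sq_nonneg _)
    linarith
  have e1 : ∑ n ∈ Ioc N (2 * N), W n *
      (if Ro z₀ g n then (ff g1 (PQ z₀ R') Y (oo (PQ z₀ R') g n)) ^ 2 else 0) *
      ((∑ j, if GoodK N (g j) n then (1 : ℝ) else 0) - m) =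
      ∑ j : Fin K, (∑ n ∈ Ioc N (2 * N), W n * (if Ro z₀ g n ∧ GoodK N (g j) n then
        (ff g1 (PQ z₀ R') Y (oo (PQ z₀ R') g n)) ^ 2 else 0)) -
      m * ∑ n ∈ Ioc N (2 * N), W n *
      (if Ro z₀ g n then (ff g1 (PQ z₀ R') Y (oo (PQ z₀ R') g n)) ^ 2 else 0) := by
    rw [sum_comm, mul_sum, ← sum_sub_distrib]
    refine sum_congr rfl fun n _ => ?_
    rw [mul_sub, mul_sum]
    congr 1
    · refine sum_congr rfl fun j _ => ?_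
      by_cases h1 : Ro z₀ g n
      · by_cases h2 : GoodK N (g j) n
        · rw [if_pos h1, if_pos h2, if_pos ⟨h1, h2⟩, mul_one]
        · rw [if_pos h1, if_neg h2, if_neg (fun h => h2 h.2), mul_zero, mul_zero]
      · rw [if_neg h1, mul_zero, zero_mul, if_neg (fun h : Ro z₀ g n ∧ _ => h1 h.1), mul_zero]
    · ring
  rw [e1]
  have e2 := sum_le_sum fun (j : Fin K) (_ : j ∈ (univ : Finset (Fin K))) => hlow j
  rw [sum_const, card_univ, Fintype.card_fin, nsmul_eq_mul] at e2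
  have e3 : 2 * V * X * Ex g1 (PQ z₀ R') (fun ω => (ff g1 (PQ z₀ R') Y ω) ^ 2) ≤
      2 * V * X * EE := mul_le_mul_of_nonneg_left hEE (by positivity)
  have e4 : (m : ℝ) * ∑ n ∈ Ioc N (2 * N), W n *
      (if Ro z₀ g n then (ff g1 (PQ z₀ R') Y (oo (PQ z₀ R') g n)) ^ 2 else 0) ≤
      m * (2 * V * X * EE + D ^ 3 * E₀ * Cb₀) :=
    mul_le_mul_of_nonneg_left (hup.trans (by linarith)) (Nat.cast_nonneg m)
  have e5 : X * V * (K * Ej * cδ - m * (2 * EE)) -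
      (K * (3 * V * X * u₀ * Ca + 2 * D ^ 3 * E * Cb + Bf ^ 2 * nb) + m * (D ^ 3 * E₀ * Cb₀)) =
      K * (X * V * (Ej * cδ) - (3 * V * X * u₀ * Ca + 2 * D ^ 3 * E * Cb + Bf ^ 2 * nb)) -
      m * (2 * V * X * EE + D ^ 3 * E₀ * Cb₀) := by ring
  rw [e5]
  linarith

end Pool.Agent.Work.MP_73869e_nt.TH
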