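import Mathlib
import Pool.Agent.Work.MP_73869e_nt.TH.TDef
import Pool.Agent.Work.MP_2dba45_nt.Psum

set_option autoImplicit false

/-!
MODULE T18 (moments of the sum of reciprocals of prime divisors), size M.
avg_sg: exp (C sg m) = prod over p ∣ m of exp (C/p) = sum over d ∣ m squarefree of h d with h multiplicative,
h p = exp (C/p) - 1 <= C' / p; so the sum over m <= G is at most G * sum over d of h d / d <= G * prod over
primes of (1 + C'/p^2), bounded.
sel_sg: the multiples g = W g' of the product W of the primes up to w, g' <= G / W; sg (g) <= sg W + sg g', and the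
sum of sg g' over g' <= x is at most x * sum of 1/p^2 <= x, so at least half of the g' have sg g' <= 2.
-/

namespace Pool.Agent.Work.MP_73869e_nt.TH

open Finset Pool.Agent.Work.MP_2dba45_nt.BilDef Pool.Agent.Work.MP_2dba45_nt.Sv

private theorem t18_sg_nonneg (m : ℕ) : 0 ≤ sg m := by
  unfold sg
  exact sum_nonneg fun p _ => by positivity

private theorem t18_expand (C : ℝ) (m : ℕ) :
    Real.exp (C * sg m) = ∑ d ∈ m.primeFactors.powerset, ∏ p ∈ d, (Real.exp (C / p) - 1) := by
  unfold sg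
  rw [mul_sum, Real.exp_sum, ← prod_one_add]
  refine prod_congr rfl fun p _ => ?_
  rw [mul_one_div]
  ring

private theorem t18_h_le (C : ℝ) (hC : 0 ≤ C) (p : ℕ) (hp : 1 ≤ p) :
    0 ≤ Real.exp (C / p) - 1 ∧ Real.exp (C / p) - 1 ≤ C * Real.exp C / p := by
  have hp' : (1 : ℝ) ≤ p := by exact_mod_cast hp
  have hx : 0 ≤ C / p := by positivity
  have hx1 : C / p ≤ C := div_le_self hC hp'
  constructor
  · have := Real.one_le_exp hx
    linarith
  · have h1 : 1 - C / p ≤ Real.exp (-(C / p)) := Real.one_sub_le_exp_neg _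
    have h2 : Real.exp (C / p) * Real.exp (-(C / p)) = 1 := by
      rw [← Real.exp_add]; simp
    have h3 : Real.exp (C / p) * (1 - C / p) ≤ 1 := by
      calc Real.exp (C / p) * (1 - C / p) ≤ Real.exp (C / p) * Real.exp (-(C / p)) :=
            mul_le_mul_of_nonneg_left h1 (Real.exp_pos _).le
        _ = 1 := h2
    have h4 : Real.exp (C / p) ≤ Real.exp C := Real.exp_le_exp.2 hx1
    calc Real.exp (C / p) - 1 ≤ Real.exp (C / p) * (C / p) := by nlinarith
      _ ≤ Real.exp C * (C / p) := mul_le_mul_of_nonneg_right h4 hx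
      _ = C * Real.exp C / p := by ring

private theorem t18_count (G : ℕ) (d : Finset ℕ) (hd : ∀ p ∈ d, p.Prime) :
    (#((Icc 1 G).filter (fun m => d ⊆ m.primeFactors)) : ℝ) ≤ G * ∏ p ∈ d, (1 / (p : ℝ)) := by
  have h1 : (Icc 1 G).filter (fun m => d ⊆ m.primeFactors) ⊆
      (Ioc 0 G).filter (fun m => (∏ p ∈ d, p) ∣ m) := by
    intro m hm
    rw [mem_filter, mem_Icc] at hm
    rw [mem_filter, mem_Ioc]
    refine ⟨⟨by omega, hm.1.2⟩, ?_⟩
    exact Finset.prod_primes_dvd m (fun p hp => (hd p hp).prime) fun p hp =>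
      Nat.dvd_of_mem_primeFactors (hm.2 hp)
  have h2 := card_le_card h1
  rw [Nat.Ioc_filter_dvd_card_eq_div] at h2
  have h3 : ((G / ∏ p ∈ d, p : ℕ) : ℝ) ≤ (G : ℝ) / ((∏ p ∈ d, p : ℕ) : ℝ) := Nat.cast_div_le
  calc (#((Icc 1 G).filter (fun m => d ⊆ m.primeFactors)) : ℝ)
      ≤ ((G / ∏ p ∈ d, p : ℕ) : ℝ) := by exact_mod_cast h2
    _ ≤ (G : ℝ) / ((∏ p ∈ d, p : ℕ) : ℝ) := h3
    _ = G * ∏ p ∈ d, (1 / (p : ℝ)) := by
        rw [prod_div_distrib, prod_const_one]
        push_cast
        ring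

theorem avg_sg (C : ℝ) : ∃ C' : ℝ, 0 < C' ∧ ∀ G : ℕ, ∑ m ∈ Icc 1 G, Real.exp (C * sg m) ≤ C' * G := by
  classical
  set A := |C| with hA
  have hA0 : 0 ≤ A := abs_nonneg C
  refine ⟨Real.exp (A * Real.exp A * 2), Real.exp_pos _, fun G => ?_⟩
  have h1 : ∀ m ∈ Icc 1 G, Real.exp (C * sg m) ≤
      ∑ d ∈ m.primeFactors.powerset, ∏ p ∈ d, (Real.exp (A / p) - 1) := by
    intro m _
    rw [← t18_expand]
    exact Real.exp_le_exp.2 (mul_le_mul_of_nonneg_right (le_abs_self C) (t18_sg_nonneg m))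
  refine (sum_le_sum h1).trans ?_
  set PP := (Icc 1 G).filter Nat.Prime with hPP
  rw [sum_comm' (t' := PP.powerset) (s' := fun d => (Icc 1 G).filter (fun m => d ⊆ m.primeFactors))]
  · have h2 : ∀ d ∈ PP.powerset, ∑ m ∈ (Icc 1 G).filter (fun m => d ⊆ m.primeFactors),
        ∏ p ∈ d, (Real.exp (A / p) - 1) ≤ G * ∏ p ∈ d, ((Real.exp (A / p) - 1) / p) := by
      intro d hd
      rw [mem_powerset] at hd
      have hdp : ∀ p ∈ d, p.Prime := fun p hp => (mem_filter.1 (hd hp)).2
      rw [sum_const, nsmul_eq_mul]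
      have h3 := t18_count G d hdp
      have h4 : 0 ≤ ∏ p ∈ d, (Real.exp (A / p) - 1) :=
        prod_nonneg fun p hp => (t18_h_le A hA0 p (hdp p hp).one_lt.le).1
      calc (#((Icc 1 G).filter (fun m => d ⊆ m.primeFactors)) : ℝ) *
            ∏ p ∈ d, (Real.exp (A / p) - 1)
          ≤ (G * ∏ p ∈ d, (1 / (p : ℝ))) * ∏ p ∈ d, (Real.exp (A / p) - 1) :=
            mul_le_mul_of_nonneg_right h3 h4
        _ = G * ∏ p ∈ d, ((Real.exp (A / p) - 1) / p) := by
            rw [mul_assoc, ← prod_mul_distrib]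
            congr 1
            refine prod_congr rfl fun p _ => ?_
            ring
    refine (sum_le_sum h2).trans ?_
    rw [← mul_sum, ← prod_one_add]
    have h5 : ∏ p ∈ PP, (1 + (Real.exp (A / p) - 1) / (p : ℝ)) ≤ Real.exp (A * Real.exp A * 2) := by
      calc ∏ p ∈ PP, (1 + (Real.exp (A / p) - 1) / (p : ℝ))
          ≤ ∏ p ∈ PP, Real.exp (A * Real.exp A * (1 / (p : ℝ) ^ 2)) := by
            refine prod_le_prod (fun p hp => ?_) fun p hp => ?_
            · have hp1 : 1 ≤ p := (mem_filter.1 hp).2.one_lt.le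
              have := (t18_h_le A hA0 p hp1).1
              have hp' : (0 : ℝ) ≤ p := by positivity
              have := div_nonneg this hp'
              linarith
            · have hp1 : 1 ≤ p := (mem_filter.1 hp).2.one_lt.le
              have hp0 : (0 : ℝ) < p := by exact_mod_cast hp1
              have h6 := (t18_h_le A hA0 p hp1).2
              have h7 : (Real.exp (A / p) - 1) / (p : ℝ) ≤ A * Real.exp A * (1 / (p : ℝ) ^ 2) := by
                calc (Real.exp (A / p) - 1) / (p : ℝ) ≤ (A * Real.exp A / p) / p :=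
                      div_le_div_of_nonneg_right h6 hp0.le
                  _ = A * Real.exp A * (1 / (p : ℝ) ^ 2) := by field_simp
              have h8 := Real.add_one_le_exp (A * Real.exp A * (1 / (p : ℝ) ^ 2))
              linarith
        _ = Real.exp (A * Real.exp A * ∑ p ∈ PP, 1 / (p : ℝ) ^ 2) := by
            rw [← Real.exp_sum, mul_sum]
        _ ≤ Real.exp (A * Real.exp A * 2) := by
            refine Real.exp_le_exp.2 (mul_le_mul_of_nonneg_left ?_ (by positivity))
            refine Pool.Agent.Work.MP_2dba45_nt.Psum.sum_inv_sq_le PP fun n hn => ?_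
            exact (mem_Icc.1 (mem_filter.1 hn).1).1
    calc (G : ℝ) * ∏ p ∈ PP, (1 + (Real.exp (A / p) - 1) / (p : ℝ))
        ≤ G * Real.exp (A * Real.exp A * 2) := mul_le_mul_of_nonneg_left h5 (by positivity)
      _ = Real.exp (A * Real.exp A * 2) * G := mul_comm _ _
  · intro m d
    simp only [mem_powerset, mem_filter]
    constructor
    · rintro ⟨h3, h4⟩
      refine ⟨⟨h3, h4⟩, fun p hp => ?_⟩
      have h5 := h4 hp
      rw [hPP, mem_filter, mem_Icc]
      have h6 := Nat.prime_of_mem_primeFactors h5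
      have h7 := Nat.le_of_mem_primeFactors h5
      exact ⟨⟨h6.one_lt.le, h7.trans (mem_Icc.1 h3).2⟩, h6⟩
    · rintro ⟨⟨h3, h4⟩, _⟩
      exact ⟨h3, h4⟩

open Classical in
theorem sel_sg (w : ℕ) : ∃ c C : ℝ, 0 < c ∧ 0 < C ∧ ∃ G₀ : ℕ, ∀ G : ℕ, G₀ ≤ G →
    c * G ≤ #((Icc 1 G).filter (fun g => (∀ p : ℕ, p.Prime → p ≤ w → p ∣ g) ∧ sg g ≤ C)) := by
  obtain ⟨C', hC', hav⟩ := avg_sg 1
  set W := primorial w with hW
  have hW0 : 0 < W := primorial_pos w
  have hWr : (0 : ℝ) < W := by exact_mod_cast hW0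
  have hC1 : 1 ≤ C' := by
    have h1 := hav 1
    simp only [Icc_self, sum_singleton, one_mul, Nat.cast_one, mul_one] at h1
    have h2 : sg 1 = 0 := by unfold sg; simp
    rw [h2, Real.exp_zero] at h1
    exact h1
  have hlog : 0 < Real.log (2 * C') := Real.log_pos (by linarith)
  refine ⟨1 / (4 * W), sg W + Real.log (2 * C'), by positivity, by
    have := t18_sg_nonneg W
    linarith, W, fun G hG => ?_⟩
  set x := G / W with hx
  have hx1 : 1 ≤ x := (Nat.one_le_div_iff hW0).2 hG
  have hxr : (G : ℝ) / (2 * W) ≤ x := by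
    have h1 : G < (x + 1) * W := by
      rw [hx]; exact Nat.lt_mul_of_div_lt (Nat.lt_succ_self _) hW0
    have h2 : (G : ℝ) < (x + 1) * W := by exact_mod_cast h1
    have h3 : (1 : ℝ) ≤ x := by exact_mod_cast hx1
    rw [div_le_iff₀ (by positivity)]
    nlinarith
  -- Markov
  set good := (Icc 1 x).filter (fun m => sg m ≤ Real.log (2 * C')) with hgood
  set bad := (Icc 1 x).filter (fun m => ¬ sg m ≤ Real.log (2 * C')) with hbad
  have hcard : good.card + bad.card = x := by
    rw [hgood, hbad, card_filter_add_card_filter_not]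
    simp
  have hb : (bad.card : ℝ) ≤ x / 2 := by
    have h1 : (bad.card : ℝ) * (2 * C') ≤ ∑ m ∈ Icc 1 x, Real.exp (1 * sg m) := by
      calc (bad.card : ℝ) * (2 * C') = ∑ _m ∈ bad, (2 * C') := by
            rw [sum_const, nsmul_eq_mul]
        _ ≤ ∑ m ∈ bad, Real.exp (1 * sg m) := by
            refine sum_le_sum fun m hm => ?_
            rw [hbad, mem_filter, not_le] at hm
            rw [one_mul, ← Real.exp_log (by linarith : 0 < 2 * C')]
            exact Real.exp_le_exp.2 hm.2.le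
        _ ≤ ∑ m ∈ Icc 1 x, Real.exp (1 * sg m) :=
            sum_le_sum_of_subset_of_nonneg (filter_subset _ _) fun m _ _ => (Real.exp_pos _).le
    have h2 := h1.trans (hav x)
    have h3 : (bad.card : ℝ) * 2 * C' ≤ x * C' := by linarith
    have h4 := le_of_mul_le_mul_right h3 hC'
    linarith
  have hg : (x : ℝ) / 2 ≤ good.card := by
    have h1 : (good.card : ℝ) + bad.card = x := by exact_mod_cast hcard
    linarith
  have hinj : good.card ≤ #((Icc 1 G).filter (fun g => (∀ p : ℕ, p.Prime → p ≤ w → p ∣ g) ∧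
      sg g ≤ sg W + Real.log (2 * C'))) := by
    refine card_le_card_of_injOn (fun m => W * m) (fun m hm => ?_) fun a _ b _ hab =>
      Nat.eq_of_mul_eq_mul_left hW0 hab
    have hm' := Finset.mem_coe.1 hm
    rw [hgood, mem_filter, mem_Icc] at hm'
    refine Finset.mem_coe.2 ?_
    rw [mem_filter, mem_Icc]
    refine ⟨⟨Nat.mul_pos hW0 hm'.1.1, ?_⟩, fun p hp hpw => ?_, ?_⟩
    · exact (Nat.mul_le_mul_left W hm'.1.2).trans (Nat.mul_div_le G W)
    · refine dvd_mul_of_dvd_left ?_ m
      rw [hW]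
      unfold primorial
      refine dvd_prod_of_mem _ ?_
      rw [mem_filter, mem_range]
      exact ⟨by omega, hp⟩
    · have h1 : sg (W * m) ≤ sg W + sg m := by
        unfold sg
        rw [Nat.primeFactors_mul hW0.ne' (by omega : m ≠ 0)]
        have h2 := sum_union_inter (s₁ := W.primeFactors) (s₂ := m.primeFactors)
          (f := fun p => 1 / (p : ℝ))
        have h3 : 0 ≤ ∑ p ∈ W.primeFactors ∩ m.primeFactors, 1 / (p : ℝ) :=
          sum_nonneg fun p _ => by positivity
        linarith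
      exact h1.trans (by linarith [hm'.2])
  calc 1 / (4 * (W : ℝ)) * G = (G / (2 * W)) / 2 := by ring
    _ ≤ x / 2 := by linarith
    _ ≤ good.card := hg
    _ ≤ _ := by exact_mod_cast hinj

end Pool.Agent.Work.MP_73869e_nt.TH
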