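import Mathlib
import Pool.Agent.Work.MP_73869e_nt.TH.T17
import Pool.Agent.Work.MP_2dba45_nt.Sv.BHc
import Pool.Agent.Work.MP_2dba45_nt.Psum
import Pool.Agent.Work.MP_2dba45_nt.Crt

set_option autoImplicit false

/-!
MODULE T19 (upper bound sieve for a set of shifts), size M-L.
Let l = #S, P = primes p with 4 l < p < z₀ = pw N δ, rho p = number of classes x mod p with
p ∣ prod over s in S of (x^2 + s^2): rho p <= 2 l <= p/2. If p does not divide 2 Δ, Δ = prod over s of s *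
prod over s < s' of (s'^2 - s^2), the l forms have disjoint sets of nu 1 p roots, so rho p = l nu 1 p.
brun_hooley (Pool.Agent.Work.MP_2dba45_nt.Sv.BHc) with g p = rho p / p, b = b₀: lp upper weights.
The count is at most sum over n of sum over d ⊆ bad primes of lp d = sum over d of lp d * (number of n in
(N, 2N] in the prod rho classes mod prod d) <= N * sum lp d prod g + sum |lp d| * #classes
<= N * (1 + e^-b) prod (1 - g p) + D^2, D = z₀^(4b+10) <= N^(1/4) if δ (4 b + 10) <= 1/8 (this is the choice of δ₁)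
(bh_upper of T17 for the main term, errors as in fin_rem). Finally prod over P of (1 - g p) <=
exp (- sum over P of rho p / p) (prod_le in Psum) and sum over P of rho p / p >= l * sum over 4 l < p < z₀ of
nu 1 p / p - 2 l * sum over p ∣ Δ of 1/p >= l log log z₀ - C - 2 l * sum over p ∣ Δ of 1/p (psum_nu).
log z₀ >= δ log N, and D^2 <= N^(1/2) is absorbed since exp >= 1.
-/

namespace Pool.Agent.Work.MP_73869e_nt.TH

open Finset Pool.Agent.Work.MP_2dba45_nt.BilDef Pool.Agent.Work.MP_2dba45_nt.Sv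

/-- `p` divides one of the forms -/
private def t19_bad (S : Finset ℕ) (p t : ℕ) : Prop := p ∣ ∏ s ∈ S, (t ^ 2 + s ^ 2)

/-- the local density -/
private noncomputable def t19_g (S : Finset ℕ) (p : ℕ) : ℝ :=
  (Pool.Agent.Work.MP_2dba45_nt.Crt.rho (t19_bad S) p : ℝ) / p

private theorem t19_bad_iff {S : Finset ℕ} {p t : ℕ} (hp : p.Prime) :
    t19_bad S p t ↔ ∃ s ∈ S, p ∣ t ^ 2 + s ^ 2 := by
  unfold t19_bad
  exact hp.prime.dvd_finsetProd_iff _

private theorem t19_per (S : Finset ℕ) (p t : ℕ) (hp : p.Prime) :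
    t19_bad S p t ↔ t19_bad S p (t % p) := by
  rw [t19_bad_iff hp, t19_bad_iff hp]
  refine exists_congr fun s => and_congr_right fun _ => ?_
  have h : t ^ 2 + s ^ 2 ≡ (t % p) ^ 2 + s ^ 2 [MOD p] :=
    ((Nat.mod_modEq t p).symm.pow 2).add_right _
  exact h.dvd_iff dvd_rfl

open Classical in
private theorem t19_rho_le (S : Finset ℕ) (p : ℕ) (hp : p.Prime) :
    Pool.Agent.Work.MP_2dba45_nt.Crt.rho (t19_bad S) p ≤ 2 * #S := by
  unfold Pool.Agent.Work.MP_2dba45_nt.Crt.rho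
  have h1 : (range p).filter (fun t => t19_bad S p t) ⊆
      S.biUnion (fun s => (range p).filter (fun x => p ∣ x ^ 2 + s ^ 2)) := by
    intro t ht
    rw [mem_filter, t19_bad_iff hp] at ht
    obtain ⟨h2, s, hs, h3⟩ := ht
    exact mem_biUnion.2 ⟨s, hs, mem_filter.2 ⟨h2, h3⟩⟩
  refine (card_le_card h1).trans (card_biUnion_le.trans ?_)
  rw [mul_comm, ← smul_eq_mul]
  refine sum_le_card_nsmul _ _ _ fun s _ => ?_
  exact Pool.Agent.Work.MP_2dba45_nt.Nu.nu_le (s ^ 2) p hp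

open Classical in
private theorem t19_rho_ge (S : Finset ℕ) (p : ℕ) (hp : p.Prime)
    (h1 : ∀ s ∈ S, ¬ p ∣ s) (h2 : ∀ s ∈ S, ∀ s' ∈ S, s < s' → ¬ p ∣ (s' - s) ∧ ¬ p ∣ (s' + s)) :
    Pool.Agent.Work.MP_2dba45_nt.Crt.rho (t19_bad S) p =
      #S * Pool.Agent.Work.MP_2dba45_nt.Nu.nu 1 p := by
  have hlt : ∀ s ∈ S, ∀ s' ∈ S, s < s' → Disjoint ((range p).filter (fun x => p ∣ x ^ 2 + s ^ 2))
      ((range p).filter (fun x => p ∣ x ^ 2 + s' ^ 2)) := by
    intro s hs s' hs' hss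
    rw [disjoint_left]
    intro x hx hx'
    rw [mem_filter] at hx hx'
    have h3 := Nat.dvd_sub hx'.2 hx.2
    have h4 : x ^ 2 + s' ^ 2 - (x ^ 2 + s ^ 2) = (s' + s) * (s' - s) := by
      rw [Nat.add_sub_add_left, Nat.sq_sub_sq]
    rw [h4] at h3
    rcases (Nat.Prime.dvd_mul hp).1 h3 with h5 | h5
    · exact (h2 s hs s' hs' hss).2 h5
    · exact (h2 s hs s' hs' hss).1 h5
  have h3 : (range p).filter (fun t => t19_bad S p t) =
      S.biUnion (fun s => (range p).filter (fun x => p ∣ x ^ 2 + s ^ 2)) := by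
    ext t
    rw [mem_filter, t19_bad_iff hp, mem_biUnion]
    constructor
    · rintro ⟨h2, s, hs, h3⟩
      exact ⟨s, hs, mem_filter.2 ⟨h2, h3⟩⟩
    · rintro ⟨s, hs, h3⟩
      rw [mem_filter] at h3
      exact ⟨h3.1, s, hs, h3.2⟩
  unfold Pool.Agent.Work.MP_2dba45_nt.Crt.rho
  rw [h3, card_biUnion]
  · rw [← smul_eq_mul, ← sum_const]
    refine sum_congr rfl fun s hs => ?_
    exact SK.nu_not_dvd hp (h1 s hs)
  · intro s hs s' hs' hne
    rcases lt_or_gt_of_ne hne with h | h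
    · exact hlt s hs s' hs' h
    · exact (hlt s' hs' s hs h).symm

private theorem t19_g_nonneg (S : Finset ℕ) (p : ℕ) : 0 ≤ t19_g S p := by
  unfold t19_g
  positivity

private theorem t19_g_le (S : Finset ℕ) (p : ℕ) (hp : p.Prime) :
    t19_g S p ≤ 2 * #S * (1 / (p : ℝ)) := by
  unfold t19_g
  have h1 : (Pool.Agent.Work.MP_2dba45_nt.Crt.rho (t19_bad S) p : ℝ) ≤ 2 * #S := by
    exact_mod_cast t19_rho_le S p hp
  have hp0 : (0 : ℝ) < p := by exact_mod_cast hp.pos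
  rw [mul_one_div]
  gcongr

/-- the exceptional sum -/
private noncomputable def t19_E (S : Finset ℕ) : ℝ :=
  ∑ s ∈ S, sg s + ∑ s ∈ S, ∑ s' ∈ S.filter (fun s' => s < s'), (sg (s' - s) + sg (s' + s))

private theorem t19_sg_nonneg (m : ℕ) : 0 ≤ sg m := by
  unfold sg
  exact sum_nonneg fun p _ => by positivity

private theorem t19_E_nonneg (S : Finset ℕ) : 0 ≤ t19_E S := by
  unfold t19_E
  refine add_nonneg (sum_nonneg fun s _ => t19_sg_nonneg s) (sum_nonneg fun s _ =>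
    sum_nonneg fun s' _ => add_nonneg (t19_sg_nonneg _) (t19_sg_nonneg _))

private theorem t19_sg_ge (P : Finset ℕ) (hP : ∀ p ∈ P, p.Prime) (m : ℕ) (hm : m ≠ 0) :
    ∑ p ∈ P, (if p ∣ m then 1 / (p : ℝ) else 0) ≤ sg m := by
  rw [← sum_filter]
  unfold sg
  refine sum_le_sum_of_subset_of_nonneg ?_ fun p _ _ => by positivity
  intro p hp
  rw [mem_filter] at hp
  rw [Nat.mem_primeFactors]
  exact ⟨hP p hp.1, hp.2, hm⟩

private theorem t19_g_ge (S : Finset ℕ) (p : ℕ) (hp : p.Prime) :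
    #S * ((Pool.Agent.Work.MP_2dba45_nt.Nu.nu 1 p : ℝ) / p) - 2 * #S *
      (∑ s ∈ S, (if p ∣ s then 1 / (p : ℝ) else 0) +
        ∑ s ∈ S, ∑ s' ∈ S.filter (fun s' => s < s'), ((if p ∣ s' - s then 1 / (p : ℝ) else 0) +
          (if p ∣ s' + s then 1 / (p : ℝ) else 0))) ≤ t19_g S p := by
  have hp0 : (0 : ℝ) < p := by exact_mod_cast hp.pos
  have hnn : ∀ m : ℕ, (0 : ℝ) ≤ (if p ∣ m then 1 / (p : ℝ) else 0) := by
    intro m
    split_ifs
    · positivity
    · exact le_rfl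
  set X := ∑ s ∈ S, (if p ∣ s then 1 / (p : ℝ) else 0) with hX
  set Y := ∑ s ∈ S, ∑ s' ∈ S.filter (fun s' => s < s'), ((if p ∣ s' - s then 1 / (p : ℝ) else 0) +
          (if p ∣ s' + s then 1 / (p : ℝ) else 0)) with hY
  have hX0 : 0 ≤ X := sum_nonneg fun s _ => hnn s
  have hY0 : 0 ≤ Y := sum_nonneg fun s _ => sum_nonneg fun s' _ => add_nonneg (hnn _) (hnn _)
  by_cases hc : (∀ s ∈ S, ¬ p ∣ s) ∧
      (∀ s ∈ S, ∀ s' ∈ S, s < s' → ¬ p ∣ (s' - s) ∧ ¬ p ∣ (s' + s))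
  · have h1 : t19_g S p = #S * ((Pool.Agent.Work.MP_2dba45_nt.Nu.nu 1 p : ℝ) / p) := by
      unfold t19_g
      rw [t19_rho_ge S p hp hc.1 hc.2]
      push_cast
      ring
    rw [h1]
    have : 0 ≤ 2 * (#S : ℝ) * (X + Y) := by positivity
    linarith
  · have h1 : 1 / (p : ℝ) ≤ X + Y := by
      rw [not_and_or] at hc
      rcases hc with hc | hc
      · push Not at hc
        obtain ⟨s, hs, hps⟩ := hc
        have h2 : (if p ∣ s then 1 / (p : ℝ) else 0) ≤ X :=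
          single_le_sum (f := fun s => (if p ∣ s then 1 / (p : ℝ) else 0)) (fun s _ => hnn s) hs
        rw [if_pos hps] at h2
        linarith
      · have hc' : ∃ s ∈ S, ∃ s' ∈ S, s < s' ∧ (p ∣ (s' - s) ∨ p ∣ (s' + s)) := by
          by_contra hcon
          apply hc
          intro s hs s' hs' hss
          constructor
          · intro h
            exact hcon ⟨s, hs, s', hs', hss, Or.inl h⟩
          · intro h
            exact hcon ⟨s, hs, s', hs', hss, Or.inr h⟩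
        obtain ⟨s, hs, s', hs', hss, hd⟩ := hc'
        have h2 : ∑ s' ∈ S.filter (fun s' => s < s'), ((if p ∣ s' - s then 1 / (p : ℝ) else 0) +
            (if p ∣ s' + s then 1 / (p : ℝ) else 0)) ≤ Y :=
          single_le_sum (f := fun s => ∑ s' ∈ S.filter (fun s' => s < s'),
            ((if p ∣ s' - s then 1 / (p : ℝ) else 0) + (if p ∣ s' + s then 1 / (p : ℝ) else 0)))
            (fun s _ => sum_nonneg fun s' _ => add_nonneg (hnn _) (hnn _)) hs
        have h3 : ((if p ∣ s' - s then 1 / (p : ℝ) else 0) +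
            (if p ∣ s' + s then 1 / (p : ℝ) else 0)) ≤
            ∑ s' ∈ S.filter (fun s' => s < s'), ((if p ∣ s' - s then 1 / (p : ℝ) else 0) +
            (if p ∣ s' + s then 1 / (p : ℝ) else 0)) :=
          single_le_sum (f := fun s' => ((if p ∣ s' - s then 1 / (p : ℝ) else 0) +
            (if p ∣ s' + s then 1 / (p : ℝ) else 0)))
            (fun s' _ => add_nonneg (hnn _) (hnn _)) (mem_filter.2 ⟨hs', hss⟩)
        have h4 : 1 / (p : ℝ) ≤ ((if p ∣ s' - s then 1 / (p : ℝ) else 0) +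
            (if p ∣ s' + s then 1 / (p : ℝ) else 0)) := by
          rcases hd with hd | hd
          · rw [if_pos hd]
            linarith [hnn (s' + s)]
          · rw [if_pos hd]
            linarith [hnn (s' - s)]
        linarith
    have h2 : (Pool.Agent.Work.MP_2dba45_nt.Nu.nu 1 p : ℝ) / p ≤ 2 * (1 / (p : ℝ)) := by
      have h3 : (Pool.Agent.Work.MP_2dba45_nt.Nu.nu 1 p : ℝ) ≤ 2 := by
        exact_mod_cast Pool.Agent.Work.MP_2dba45_nt.Nu.nu_le 1 p hp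
      rw [mul_one_div]
      gcongr
    have h3 : #S * ((Pool.Agent.Work.MP_2dba45_nt.Nu.nu 1 p : ℝ) / p) ≤ 2 * #S * (X + Y) := by
      calc #S * ((Pool.Agent.Work.MP_2dba45_nt.Nu.nu 1 p : ℝ) / p)
          ≤ #S * (2 * (1 / (p : ℝ))) := mul_le_mul_of_nonneg_left h2 (Nat.cast_nonneg _)
        _ ≤ #S * (2 * (X + Y)) := mul_le_mul_of_nonneg_left (by linarith) (Nat.cast_nonneg _)
        _ = 2 * #S * (X + Y) := by ring
    have h4 := t19_g_nonneg S p
    linarith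

private theorem t19_sum_g_ge (S P : Finset ℕ) (hP : ∀ p ∈ P, p.Prime) (hS : ∀ s ∈ S, 1 ≤ s) :
    #S * (∑ p ∈ P, (Pool.Agent.Work.MP_2dba45_nt.Nu.nu 1 p : ℝ) / p) - 2 * #S * t19_E S ≤
      ∑ p ∈ P, t19_g S p := by
  have h1 := sum_le_sum fun p hp => t19_g_ge S p (hP p hp)
  refine le_trans ?_ h1
  rw [sum_sub_distrib, ← mul_sum, ← mul_sum, sum_add_distrib]
  have h2 : ∑ p ∈ P, ∑ s ∈ S, (if p ∣ s then 1 / (p : ℝ) else 0) ≤ ∑ s ∈ S, sg s := by
    rw [sum_comm]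
    exact sum_le_sum fun s hs => t19_sg_ge P hP s (by have := hS s hs; omega)
  have h3 : ∑ p ∈ P, ∑ s ∈ S, ∑ s' ∈ S.filter (fun s' => s < s'),
      ((if p ∣ s' - s then 1 / (p : ℝ) else 0) + (if p ∣ s' + s then 1 / (p : ℝ) else 0)) ≤
      ∑ s ∈ S, ∑ s' ∈ S.filter (fun s' => s < s'), (sg (s' - s) + sg (s' + s)) := by
    rw [sum_comm]
    refine sum_le_sum fun s hs => ?_
    rw [sum_comm]
    refine sum_le_sum fun s' hs' => ?_
    rw [mem_filter] at hs'
    rw [sum_add_distrib]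
    exact add_le_add (t19_sg_ge P hP _ (by omega)) (t19_sg_ge P hP _ (by omega))
  unfold t19_E
  have h4 : (0 : ℝ) ≤ 2 * #S := by positivity
  have h5 := mul_le_mul_of_nonneg_left (add_le_add h2 h3) h4
  linarith

open Classical in
private theorem t19_count (S d : Finset ℕ) (hd : ∀ p ∈ d, p.Prime) (N : ℕ) :
    |(#((Ioc N (2 * N)).filter (fun n => ∀ p ∈ d, t19_bad S p n)) : ℝ) - N * ∏ p ∈ d, t19_g S p| ≤
      2 * ((∏ p ∈ d, p : ℕ) : ℝ) := by
  have h1 := Pool.Agent.Work.MP_2dba45_nt.Crt.cnt_range (t19_bad S) d hd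
    (fun p hp t => t19_per S p t (hd p hp)) (2 * N + 1)
  have h2 := Pool.Agent.Work.MP_2dba45_nt.Crt.cnt_range (t19_bad S) d hd
    (fun p hp t => t19_per S p t (hd p hp)) (N + 1)
  have h3 : Pool.Agent.Work.MP_2dba45_nt.Sel.gg
      (fun p => (Pool.Agent.Work.MP_2dba45_nt.Crt.rho (t19_bad S) p : ℝ) / p) d =
      ∏ p ∈ d, t19_g S p := rfl
  rw [h3] at h1 h2
  have h4 : ∀ L, Pool.Agent.Work.MP_2dba45_nt.Sel.cnt (range L) (t19_bad S) d =
      #((range L).filter (fun n => ∀ p ∈ d, t19_bad S p n)) := by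
    intro L
    unfold Pool.Agent.Work.MP_2dba45_nt.Sel.cnt
    congr
  rw [h4] at h1 h2
  have h5 : #((range (2 * N + 1)).filter (fun n => ∀ p ∈ d, t19_bad S p n)) =
      #((range (N + 1)).filter (fun n => ∀ p ∈ d, t19_bad S p n)) +
      #((Ioc N (2 * N)).filter (fun n => ∀ p ∈ d, t19_bad S p n)) := by
    rw [← card_union_of_disjoint]
    · congr 1
      ext n
      simp only [mem_union, mem_filter, mem_range, mem_Ioc]
      constructor
      · rintro ⟨h6, h7⟩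
        by_cases h8 : n < N + 1
        · exact Or.inl ⟨h8, h7⟩
        · exact Or.inr ⟨⟨by omega, by omega⟩, h7⟩
      · rintro (⟨h6, h7⟩ | ⟨h6, h7⟩)
        · exact ⟨by omega, h7⟩
        · exact ⟨by omega, h7⟩
    · rw [disjoint_left]
      intro n hn hn'
      rw [mem_filter, mem_range] at hn
      rw [mem_filter, mem_Ioc] at hn'
      omega
  have h6 : (#((range (2 * N + 1)).filter (fun n => ∀ p ∈ d, t19_bad S p n)) : ℝ) =
      #((range (N + 1)).filter (fun n => ∀ p ∈ d, t19_bad S p n)) +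
      #((Ioc N (2 * N)).filter (fun n => ∀ p ∈ d, t19_bad S p n)) := by
    exact_mod_cast h5
  rw [h6] at h1
  push_cast at h1 h2 ⊢
  rw [abs_le] at h1 h2 ⊢
  constructor
  · linarith [h1.1, h2.2]
  · linarith [h1.2, h2.1]

private theorem t19_rem (Q : Finset (Finset ℕ)) (hd : ∀ d ∈ Q, ∀ p ∈ d, p.Prime)
    (lp : Finset ℕ → ℝ) (G : Finset ℕ → ℝ) (D : ℝ) (hD : 0 ≤ D)
    (hlp : ∀ d, |lp d| ≤ 1)
    (hsupp : ∀ d ∈ Q, lp d ≠ 0 → ((∏ p ∈ d, p : ℕ) : ℝ) ≤ D)
    (hG : ∀ d ∈ Q, |G d| ≤ 2 * ((∏ p ∈ d, p : ℕ) : ℝ)) :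
    |∑ d ∈ Q, lp d * G d| ≤ 2 * D ^ 2 := by
  classical
  have h1 : ∑ d ∈ Q, lp d * G d = ∑ d ∈ Q.filter (fun d => lp d ≠ 0), lp d * G d := by
    symm
    apply Finset.sum_subset (Finset.filter_subset _ _)
    intro d hd1 hd2
    rw [Finset.mem_filter, not_and_not_right] at hd2
    have : lp d = 0 := by
      by_contra hcon
      exact absurd (hd2 hd1) (by simpa using hcon)
    rw [this, zero_mul]
  rw [h1]
  have h2 : ∀ d ∈ Q.filter (fun d => lp d ≠ 0), |lp d * G d| ≤ 2 * D := by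
    intro d hd1
    rw [Finset.mem_filter] at hd1
    rw [abs_mul]
    have h3 := hG d hd1.1
    have h4 := hsupp d hd1.1 hd1.2
    calc |lp d| * |G d| ≤ 1 * (2 * D) :=
          mul_le_mul (hlp d) (h3.trans (by linarith)) (abs_nonneg _) zero_le_one
      _ = 2 * D := one_mul _
  refine (Finset.abs_sum_le_sum_abs _ _).trans ?_
  refine (Finset.sum_le_card_nsmul _ _ _ h2).trans ?_
  rw [nsmul_eq_mul]
  have h3 : (#(Q.filter (fun d => lp d ≠ 0)) : ℝ) ≤ D := by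
    have h4 : #(Q.filter (fun d => lp d ≠ 0)) ≤ #(Finset.Icc 1 ⌊D⌋₊) := by
      apply Finset.card_le_card_of_injOn (fun d => ∏ p ∈ d, p)
      · intro d hd1
        have hd2 := Finset.mem_filter.mp (Finset.mem_coe.mp hd1)
        rw [Finset.coe_Icc, Set.mem_Icc]
        refine ⟨Finset.prod_pos fun p hp => (hd d hd2.1 p hp).pos, ?_⟩
        exact Nat.le_floor (hsupp d hd2.1 hd2.2)
      · intro d hd1 e he1 hde
        have hd2 := Finset.mem_filter.mp (Finset.mem_coe.mp hd1)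
        have he2 := Finset.mem_filter.mp (Finset.mem_coe.mp he1)
        have h5 := congrArg Nat.primeFactors hde
        rwa [Nat.primeFactors_prod (hd d hd2.1), Nat.primeFactors_prod (hd e he2.1)] at h5
    rw [Nat.card_Icc, Nat.add_sub_cancel] at h4
    exact le_trans (by exact_mod_cast h4) (Nat.floor_le hD)
  calc (#(Q.filter (fun d => lp d ≠ 0)) : ℝ) * (2 * D) ≤ D * (2 * D) :=
        mul_le_mul_of_nonneg_right h3 (by positivity)
    _ = 2 * D ^ 2 := by ring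

open Classical in
/-- the sieve bound -/
private theorem t19_sieve (l : ℕ) : ∃ b : ℕ, ∀ (N z : ℕ) (S : Finset ℕ), #S = l → 2 ≤ z →
    (#((Ioc N (2 * N)).filter (fun n => ∀ s ∈ S, ∀ p : ℕ, p.Prime → p ∣ n ^ 2 + s ^ 2 →
        z ≤ p)) : ℝ) ≤ 2 * N * ∏ p ∈ (Ioc (4 * l + 2) (z - 1)).filter Nat.Prime, (1 - t19_g S p) +
      2 * ((z : ℝ) ^ (4 * b + 10)) ^ 2 := by
  classical
  obtain ⟨L, hL0, hL⟩ := SK.block_one
  obtain ⟨b, hb⟩ := brun_hooley (2 * l * L) (by positivity)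
  refine ⟨b, fun N z S hSl hz => ?_⟩
  set P := (Ioc (4 * l + 2) (z - 1)).filter Nat.Prime with hP
  have hPp : ∀ p ∈ P, p.Prime := fun p hp => (mem_filter.1 hp).2
  have hPr : ∀ p ∈ P, 4 * l + 2 < p ∧ p < z := by
    intro p hp
    have h1 := mem_Ioc.1 (mem_filter.1 hp).1
    omega
  have hg : ∀ p ∈ P, 0 ≤ t19_g S p ∧ t19_g S p ≤ 1 / 2 := by
    intro p hp
    refine ⟨t19_g_nonneg S p, ?_⟩
    refine (t19_g_le S p (hPp p hp)).trans ?_
    have h1 := (hPr p hp).1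
    have h2 : (4 * l + 2 : ℝ) < p := by exact_mod_cast h1
    have h3 : (0 : ℝ) < p := by exact_mod_cast (hPp p hp).pos
    rw [hSl, mul_one_div, div_le_iff₀ h3]
    linarith
  obtain ⟨lp, dp, hlp, hdp, hsupp, hsub, hlow, herr⟩ := hb b le_rfl z P (t19_g S) hz
    (fun p hp => ⟨(hPp p hp).two_le, (hPr p hp).2⟩) hg (by
      intro y hy
      have h1 := hL z y hy
      calc ∑ p ∈ P.filter (fun p : ℕ => y ≤ (p : ℝ) ∧ (p : ℝ) < y ^ 2), t19_g S p
          ≤ ∑ p ∈ P.filter (fun p : ℕ => y ≤ (p : ℝ) ∧ (p : ℝ) < y ^ 2), 2 * l * (1 / (p : ℝ)) := by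
            refine sum_le_sum fun p hp => ?_
            rw [← hSl]
            exact t19_g_le S p (hPp p (mem_filter.1 hp).1)
        _ = 2 * l * ∑ p ∈ P.filter (fun p : ℕ => y ≤ (p : ℝ) ∧ (p : ℝ) < y ^ 2), (1 / (p : ℝ)) := by
            rw [mul_sum]
        _ ≤ 2 * l * L := by
            refine mul_le_mul_of_nonneg_left (le_trans ?_ h1) (by positivity)
            refine sum_le_sum_of_subset_of_nonneg ?_ fun p _ _ => by positivity
            refine filter_subset_filter _ ?_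
            intro p hp
            rw [Pool.Agent.Work.MP_2dba45_nt.VV.mem_PP]
            exact ⟨(hPr p hp).2, hPp p hp⟩)
  set V := ∏ p ∈ P, (1 - t19_g S p) with hV
  have hV0 : 0 ≤ V := prod_nonneg fun p hp => by linarith [(hg p hp).2]
  set D : ℝ := (z : ℝ) ^ (4 * b + 10) with hD
  have hD0 : 0 ≤ D := by positivity
  -- main term
  have hmain : ∑ d ∈ P.powerset, lp d * ∏ p ∈ d, t19_g S p ≤ 2 * V := by
    have h1 := bh_upper P (t19_g S) (fun p hp => ⟨(hg p hp).1, (hg p hp).2.trans (by norm_num)⟩)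
      lp dp (fun B hB => (hsub B hB).2)
    have h2 : Real.exp (-(b : ℝ)) ≤ 1 := Real.exp_le_one_iff.2 (by
      have : (0 : ℝ) ≤ b := Nat.cast_nonneg b
      linarith)
    have h3 : Real.exp (-(b : ℝ)) * V ≤ 1 * V := mul_le_mul_of_nonneg_right h2 hV0
    linarith
  -- pointwise
  have hpt : ∀ n ∈ Ioc N (2 * N), (if (∀ s ∈ S, ∀ p : ℕ, p.Prime → p ∣ n ^ 2 + s ^ 2 →
      z ≤ p) then (1 : ℝ) else 0) ≤
      ∑ d ∈ P.powerset, lp d * (if ∀ p ∈ d, t19_bad S p n then 1 else 0) := by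
    intro n _
    have h1 : ∑ d ∈ P.powerset, lp d * (if ∀ p ∈ d, t19_bad S p n then 1 else 0) =
        ∑ d ∈ (P.filter (fun p => t19_bad S p n)).powerset, lp d := by
      have h2 : (P.filter (fun p => t19_bad S p n)).powerset =
          P.powerset.filter (fun d => ∀ p ∈ d, t19_bad S p n) := by
        ext d
        rw [mem_powerset, mem_filter, mem_powerset]
        constructor
        · intro h
          exact ⟨h.trans (filter_subset _ _), fun p hp => (mem_filter.1 (h hp)).2⟩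
        · rintro ⟨h3, h4⟩ p hp
          exact mem_filter.2 ⟨h3 hp, h4 p hp⟩
      rw [h2, sum_filter]
      refine sum_congr rfl fun d _ => ?_
      split_ifs <;> simp
    rw [h1]
    have h2 := (hsub _ (filter_subset (fun p => t19_bad S p n) P)).1
    refine le_trans ?_ h2
    by_cases h3 : ∀ s ∈ S, ∀ p : ℕ, p.Prime → p ∣ n ^ 2 + s ^ 2 → z ≤ p
    · rw [if_pos h3, if_pos]
      rw [filter_eq_empty_iff]
      intro p hp hbad
      rw [t19_bad_iff (hPp p hp)] at hbad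
      obtain ⟨s, hs, hdv⟩ := hbad
      have h4 := h3 s hs p (hPp p hp) hdv
      have h5 := (hPr p hp).2
      omega
    · rw [if_neg h3]
      split_ifs <;> norm_num
  have hcount : (#((Ioc N (2 * N)).filter (fun n => ∀ s ∈ S, ∀ p : ℕ, p.Prime →
      p ∣ n ^ 2 + s ^ 2 → z ≤ p)) : ℝ) ≤ ∑ d ∈ P.powerset, lp d *
        (#((Ioc N (2 * N)).filter (fun n => ∀ p ∈ d, t19_bad S p n)) : ℝ) := by
    have h1 := sum_le_sum hpt
    rw [sum_comm] at h1
    have h2 : ∑ n ∈ Ioc N (2 * N), (if (∀ s ∈ S, ∀ p : ℕ, p.Prime → p ∣ n ^ 2 + s ^ 2 →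
        z ≤ p) then (1 : ℝ) else 0) = (#((Ioc N (2 * N)).filter (fun n => ∀ s ∈ S, ∀ p : ℕ,
        p.Prime → p ∣ n ^ 2 + s ^ 2 → z ≤ p)) : ℝ) := by
      rw [card_filter]
      push_cast
      rfl
    rw [h2] at h1
    refine h1.trans (le_of_eq ?_)
    refine sum_congr rfl fun d _ => ?_
    rw [← mul_sum, card_filter]
    push_cast
    rfl
  refine hcount.trans ?_
  have hrem := t19_rem P.powerset (fun d hd p hp => hPp p (mem_powerset.1 hd hp)) lp
    (fun d => (#((Ioc N (2 * N)).filter (fun n => ∀ p ∈ d, t19_bad S p n)) : ℝ) -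
      N * ∏ p ∈ d, t19_g S p) D hD0 hlp (fun d _ hne => (hsupp d (Or.inl hne)).2)
    (fun d hd => t19_count S d (fun p hp => hPp p (mem_powerset.1 hd hp)) N)
  have h1 := (abs_le.1 hrem).2
  have h2 : ∑ d ∈ P.powerset, lp d * ((#((Ioc N (2 * N)).filter
      (fun n => ∀ p ∈ d, t19_bad S p n)) : ℝ) - N * ∏ p ∈ d, t19_g S p) =
      ∑ d ∈ P.powerset, lp d * (#((Ioc N (2 * N)).filter (fun n => ∀ p ∈ d, t19_bad S p n)) : ℝ) -
        N * ∑ d ∈ P.powerset, lp d * ∏ p ∈ d, t19_g S p := by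
    rw [mul_sum, ← sum_sub_distrib]
    refine sum_congr rfl fun d _ => ?_
    ring
  rw [h2] at h1
  have h3 : (N : ℝ) * ∑ d ∈ P.powerset, lp d * ∏ p ∈ d, t19_g S p ≤ N * (2 * V) :=
    mul_le_mul_of_nonneg_left hmain (Nat.cast_nonneg _)
  linarith

open Classical in
theorem shifts_le (l : ℕ) : ∃ δ₁ : ℝ, 0 < δ₁ ∧ ∀ δ : ℝ, 0 < δ → δ ≤ δ₁ → ∃ (C : ℝ) (N₀ : ℕ), 0 < C ∧
    ∀ N : ℕ, N₀ ≤ N → ∀ S : Finset ℕ, #S = l → (∀ s ∈ S, 1 ≤ s ∧ s ≤ N) →
      (#((Ioc N (2 * N)).filter (fun n => ∀ s ∈ S, ∀ p : ℕ, p.Prime → p ∣ n ^ 2 + s ^ 2 →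
        pw N δ ≤ p)) : ℝ) ≤ C * (N / (Real.log N) ^ l) *
        Real.exp (2 * l * (∑ s ∈ S, sg s + ∑ s ∈ S, ∑ s' ∈ S.filter (fun s' => s < s'),
          (sg (s' - s) + sg (s' + s)))) := by
  obtain ⟨b, hb⟩ := t19_sieve l
  obtain ⟨C₀, hC₀, hpsum⟩ := Pool.Agent.Work.MP_2dba45_nt.Psum.psum_nu
  refine ⟨1 / (8 * (4 * b + 10)), by positivity, fun δ hδ hδ₁ => ?_⟩
  set A : ℝ := Real.exp (l * (Real.log (Real.log ((4 * l + 2 : ℕ) : ℝ)) + C₀)) with hA
  have hA0 : 0 < A := Real.exp_pos _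
  -- large N
  have hlarge : ∃ N₀ : ℕ, ∀ N : ℕ, N₀ ≤ N → 3 ≤ N ∧ (2 : ℝ) ≤ (N : ℝ) ^ (δ / 2) ∧
      ((4 * l + 4 : ℕ) : ℝ) ≤ (N : ℝ) ^ δ ∧ (Real.log N) ^ l ≤ (N : ℝ) ^ (1 / 2 : ℝ) := by
    have h1 : Filter.Tendsto (fun N : ℕ => (N : ℝ) ^ (δ / 2)) Filter.atTop Filter.atTop :=
      (tendsto_rpow_atTop (by positivity)).comp tendsto_natCast_atTop_atTop
    have h2 : Filter.Tendsto (fun N : ℕ => (N : ℝ) ^ δ) Filter.atTop Filter.atTop :=
      (tendsto_rpow_atTop hδ).comp tendsto_natCast_atTop_atTop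
    have h3 := (isLittleO_log_rpow_rpow_atTop (s := 1 / 2) (l : ℝ) (by norm_num)).bound
      (c := 1) one_pos
    have h4 := tendsto_natCast_atTop_atTop.eventually h3
    have h5 := (h1.eventually_ge_atTop 2).and ((h2.eventually_ge_atTop ((4 * l + 4 : ℕ) : ℝ)).and
      (h4.and (Filter.eventually_ge_atTop 3)))
    obtain ⟨N₀, hN₀⟩ := Filter.eventually_atTop.1 h5
    refine ⟨N₀, fun N hN => ?_⟩
    obtain ⟨h6, h7, h8, h9⟩ := hN₀ N hN
    refine ⟨h9, h6, h7, ?_⟩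
    have hN1 : (1 : ℝ) ≤ N := by exact_mod_cast (by omega : 1 ≤ N)
    have hlog : 0 ≤ Real.log N := Real.log_nonneg hN1
    rw [Real.norm_of_nonneg (by positivity), Real.norm_of_nonneg (by positivity), one_mul,
      Real.rpow_natCast] at h8
    exact h8
  obtain ⟨N₀, hN₀⟩ := hlarge
  refine ⟨2 * (A * (2 / δ) ^ l) + 2, N₀, by positivity, fun N hN S hSl hS => ?_⟩
  obtain ⟨hN3, hN1, hN2, hNlog⟩ := hN₀ N hN
  have hNr : (3 : ℝ) ≤ N := by exact_mod_cast hN3
  have hN0 : (0 : ℝ) < N := by linarith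
  have hlogN : 0 < Real.log N := Real.log_pos (by linarith)
  set z := pw N δ with hz
  have hzge : (N : ℝ) ^ δ ≤ z := Nat.le_ceil _
  have hzle : (z : ℝ) ≤ (N : ℝ) ^ (2 * δ) := by
    have h1 : (z : ℝ) < (N : ℝ) ^ δ + 1 := Nat.ceil_lt_add_one (by positivity)
    have h2 : (N : ℝ) ^ (2 * δ) = (N : ℝ) ^ δ * (N : ℝ) ^ δ := by
      rw [← Real.rpow_add hN0]
      ring_nf
    have h3 : (4 : ℝ) ≤ (N : ℝ) ^ δ := by
      refine le_trans ?_ hN2
      push_cast
      have : (0 : ℝ) ≤ l := Nat.cast_nonneg l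
      linarith
    rw [h2]
    nlinarith
  have hz4 : 4 * l + 4 ≤ z := by exact_mod_cast hN2.trans hzge
  have h1 := hb N z S hSl (by omega)
  -- error term
  have herr : ((z : ℝ) ^ (4 * b + 10)) ^ 2 ≤ (N : ℝ) ^ (1 / 2 : ℝ) := by
    have h2 : (z : ℝ) ^ (4 * b + 10) ≤ ((N : ℝ) ^ (2 * δ)) ^ (4 * b + 10) :=
      pow_le_pow_left₀ (Nat.cast_nonneg _) hzle _
    have h3 : ((N : ℝ) ^ (2 * δ)) ^ (4 * b + 10) ≤ (N : ℝ) ^ (1 / 4 : ℝ) := by
      rw [← Real.rpow_natCast, ← Real.rpow_mul hN0.le]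
      refine Real.rpow_le_rpow_of_exponent_le (by linarith) ?_
      have h4 : δ * (8 * (4 * b + 10)) ≤ 1 := by
        rw [le_div_iff₀ (by positivity)] at hδ₁
        exact hδ₁
      push_cast
      linarith
    have h4 : ((z : ℝ) ^ (4 * b + 10)) ^ 2 ≤ ((N : ℝ) ^ (1 / 4 : ℝ)) ^ 2 :=
      pow_le_pow_left₀ (by positivity) (h2.trans h3) 2
    refine h4.trans (le_of_eq ?_)
    rw [← Real.rpow_natCast, ← Real.rpow_mul hN0.le]
    norm_num
  have herr2 : (N : ℝ) ^ (1 / 2 : ℝ) ≤ N / (Real.log N) ^ l := by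
    rw [le_div_iff₀ (by positivity)]
    calc (N : ℝ) ^ (1 / 2 : ℝ) * (Real.log N) ^ l ≤ (N : ℝ) ^ (1 / 2 : ℝ) * (N : ℝ) ^ (1 / 2 : ℝ) :=
          mul_le_mul_of_nonneg_left hNlog (by positivity)
      _ = N := by
          rw [← Real.rpow_add hN0]
          norm_num
  -- main term
  have hSE : (∑ s ∈ S, sg s + ∑ s ∈ S, ∑ s' ∈ S.filter (fun s' => s < s'),
          (sg (s' - s) + sg (s' + s))) = t19_E S := rfl
  rw [hSE]
  have hexp1 : 1 ≤ Real.exp (2 * l * t19_E S) :=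
    Real.one_le_exp (mul_nonneg (by positivity) (t19_E_nonneg S))
  have hV : ∏ p ∈ (Ioc (4 * l + 2) (z - 1)).filter Nat.Prime, (1 - t19_g S p) ≤
      A * (2 / δ) ^ l * (1 / (Real.log N) ^ l) * Real.exp (2 * l * t19_E S) := by
    set P := (Ioc (4 * l + 2) (z - 1)).filter Nat.Prime with hP
    have hPp : ∀ p ∈ P, p.Prime := fun p hp => (mem_filter.1 hp).2
    have h2 := Pool.Agent.Work.MP_2dba45_nt.Psum.prod_le P (t19_g S) (fun p hp => by
      refine (t19_g_le S p (hPp p hp)).trans ?_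
      have h1 := (mem_Ioc.1 (mem_filter.1 hp).1).1
      have h2 : (4 * l + 2 : ℝ) < p := by exact_mod_cast h1
      have h3 : (0 : ℝ) < p := by exact_mod_cast (hPp p hp).pos
      rw [hSl, mul_one_div, div_le_iff₀ h3]
      have : (0 : ℝ) ≤ l := Nat.cast_nonneg l
      linarith)
    refine h2.trans ?_
    have h3 := t19_sum_g_ge S P hPp (fun s hs => (hS s hs).1)
    have h4 := (abs_le.1 (hpsum 1 (Or.inl rfl) (4 * l + 2) (z - 1) (by omega) (by omega))).1
    rw [hSl] at h3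
    -- log (z - 1)
    have h5 : (N : ℝ) ^ (δ / 2) ≤ ((z - 1 : ℕ) : ℝ) := by
      rw [Nat.cast_sub (by omega)]
      have h6 : (N : ℝ) ^ δ = (N : ℝ) ^ (δ / 2) * (N : ℝ) ^ (δ / 2) := by
        rw [← Real.rpow_add hN0]
        ring_nf
      push_cast
      nlinarith
    have h6 : δ / 2 * Real.log N ≤ Real.log ((z - 1 : ℕ) : ℝ) := by
      rw [← Real.log_rpow hN0]
      exact Real.log_le_log (by positivity) h5
    have h7 : Real.log (δ / 2 * Real.log N) ≤ Real.log (Real.log ((z - 1 : ℕ) : ℝ)) :=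
      Real.log_le_log (by positivity) h6
    have h8 : (l : ℝ) * (Real.log (δ / 2 * Real.log N) -
        Real.log (Real.log ((4 * l + 2 : ℕ) : ℝ)) - C₀) ≤
        l * ∑ p ∈ P, (Pool.Agent.Work.MP_2dba45_nt.Nu.nu 1 p : ℝ) / p := by
      refine mul_le_mul_of_nonneg_left ?_ (Nat.cast_nonneg _)
      linarith
    have h9 : Real.exp (-(∑ p ∈ P, t19_g S p)) ≤
        Real.exp (l * (Real.log (Real.log ((4 * l + 2 : ℕ) : ℝ)) + C₀) +
          -(l * Real.log (δ / 2 * Real.log N)) + 2 * l * t19_E S) := by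
      refine Real.exp_le_exp.2 ?_
      linarith
    refine h9.trans (le_of_eq ?_)
    rw [Real.exp_add, Real.exp_add, ← hA]
    have h10 : Real.exp (-(l * Real.log (δ / 2 * Real.log N))) =
        (2 / δ) ^ l * (1 / (Real.log N) ^ l) := by
      rw [Real.exp_neg, Real.exp_nat_mul, Real.exp_log (by positivity), mul_pow, mul_inv, one_div,
        ← inv_pow, inv_div]
    rw [h10]
    ring
  have hNl : 0 < N / (Real.log N) ^ l := by positivity
  calc (#((Ioc N (2 * N)).filter (fun n => ∀ s ∈ S, ∀ p : ℕ, p.Prime → p ∣ n ^ 2 + s ^ 2 →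
        z ≤ p)) : ℝ)
      ≤ 2 * N * ∏ p ∈ (Ioc (4 * l + 2) (z - 1)).filter Nat.Prime, (1 - t19_g S p) +
      2 * ((z : ℝ) ^ (4 * b + 10)) ^ 2 := by
        convert h1
    _ ≤ 2 * N * (A * (2 / δ) ^ l * (1 / (Real.log N) ^ l) * Real.exp (2 * l * t19_E S)) +
        2 * (N / (Real.log N) ^ l) := by
        refine add_le_add (mul_le_mul_of_nonneg_left hV (by positivity)) ?_
        linarith
    _ ≤ 2 * N * (A * (2 / δ) ^ l * (1 / (Real.log N) ^ l) * Real.exp (2 * l * t19_E S)) +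
        2 * (N / (Real.log N) ^ l) * Real.exp (2 * l * t19_E S) := by
        refine add_le_add le_rfl ?_
        exact le_mul_of_one_le_right (by positivity) hexp1
    _ = (2 * (A * (2 / δ) ^ l) + 2) * (N / (Real.log N) ^ l) * Real.exp (2 * l * t19_E S) := by
        ring

end Pool.Agent.Work.MP_73869e_nt.TH
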