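import Mathlib
import Pool.Agent.Work.MP_73869e_nt.TH.T18
import Pool.Agent.Work.MP_73869e_nt.TH.T19

set_option autoImplicit false

/-!
MODULE T20 (moments), size M.
R n = number of g <= G = floor (κ log N) with n^2 + g^2 having no prime factor < pw N δ.
R^k = number of maps Fin k → [1, G] all of whose values are counted; grouping by the image S, #S = l <= k, there
are at most k^k maps with image S; so sum over n of R^k <= k^k * sum over l <= k, sum over S ⊆ [1, G], #S = l, of the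
count in T19. The exponential is at most the average over the M <= l + l (l-1) terms of exp (2 l M sg (.))
(convexity, or exp (sum) <= product and Hölder), and for each term the sum over S is at most
G^(l-1) * sum over m <= 2 G of exp (2 l M sg m) * 2 <= C' G^l (avg_sg of T18). With G <= κ log N the total is at most
C N. (l = 0: the empty set, count N.) δ₁ is the minimum of the δ₁ of T19 for l <= k.
(The proof below uses R^k <= (2k)^k + 2^k k! (R choose k), so that only l = k is needed.)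
-/

namespace Pool.Agent.Work.MP_73869e_nt.TH

open Finset Pool.Agent.Work.MP_2dba45_nt.BilDef Pool.Agent.Work.MP_2dba45_nt.Sv

private theorem t20_pow_le (k R : ℕ) :
    R ^ k ≤ (2 * k) ^ k + 2 ^ k * (k.factorial * R.choose k) := by
  rcases Nat.lt_or_ge R (2 * k) with h | h
  · exact (Nat.pow_le_pow_left h.le k).trans (Nat.le_add_right _ _)
  · have h1 : (R + 1 - k) ^ k ≤ k.factorial * R.choose k := by
      rw [← Nat.descFactorial_eq_factorial_mul_choose]
      exact Nat.pow_sub_le_descFactorial R k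
    have h2 : R ^ k ≤ (2 * (R + 1 - k)) ^ k := Nat.pow_le_pow_left (by omega) k
    rw [mul_pow] at h2
    exact (h2.trans (Nat.mul_le_mul_left _ h1)).trans (Nat.le_add_left _ _)

private theorem t20_count (X T : Finset ℕ) (k : ℕ) :
    #((powersetCard k X).filter (fun S => T ⊆ S)) * (#X) ^ (#T) ≤ (#X) ^ k := by
  by_cases hT : #T ≤ k
  · have h1 : #((powersetCard k X).filter (fun S => T ⊆ S)) ≤ #(powersetCard (k - #T) X) := by
      apply card_le_card_of_injOn (fun S => S \ T)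
      · intro S hS
        have h2 := mem_filter.1 (mem_coe.1 hS)
        rw [mem_powersetCard] at h2
        rw [mem_coe, mem_powersetCard]
        refine ⟨sdiff_subset.trans h2.1.1, ?_⟩
        show #(S \ T) = _
        rw [card_sdiff_of_subset h2.2, h2.1.2]
      · intro S hS S' hS' h
        have h2 := (mem_filter.1 (mem_coe.1 hS)).2
        have h3 := (mem_filter.1 (mem_coe.1 hS')).2
        have h4 : S \ T = S' \ T := h
        rw [← sdiff_union_of_subset h2, h4, sdiff_union_of_subset h3]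
    rw [card_powersetCard] at h1
    calc #((powersetCard k X).filter (fun S => T ⊆ S)) * (#X) ^ (#T)
        ≤ (#X).choose (k - #T) * (#X) ^ (#T) := Nat.mul_le_mul_right _ h1
      _ ≤ (#X) ^ (k - #T) * (#X) ^ (#T) := Nat.mul_le_mul_right _ (Nat.choose_le_pow _ _)
      _ = (#X) ^ k := by rw [← pow_add, Nat.sub_add_cancel hT]
  · have h1 : (powersetCard k X).filter (fun S => T ⊆ S) = ∅ := by
      rw [filter_eq_empty_iff]
      intro S hS hTS
      rw [mem_powersetCard] at hS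
      have := card_le_card hTS
      omega
    rw [h1]
    simp

private theorem t20_count' (X T : Finset ℕ) (hX : X.Nonempty) (k : ℕ) :
    (#((powersetCard k X).filter (fun S => T ⊆ S)) : ℝ) ≤ (#X : ℝ) ^ k / (#X : ℝ) ^ (#T) := by
  have h0 : (0 : ℝ) < #X := by exact_mod_cast hX.card_pos
  rw [le_div_iff₀ (by positivity)]
  exact_mod_cast t20_count X T k

private theorem t20_sum_mem (X S : Finset ℕ) (hS : S ⊆ X) (f : ℕ → ℝ) :
    ∑ s ∈ S, f s = ∑ s ∈ X, (if s ∈ S then f s else 0) := by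
  rw [sum_ite_mem, inter_eq_right.2 hS]

private theorem t20_swap1 (X : Finset ℕ) (hX : X.Nonempty) (k : ℕ) (f : ℕ → ℝ)
    (hf : ∀ a, 0 ≤ f a) :
    ∑ S ∈ powersetCard k X, ∑ s ∈ S, f s ≤ (#X : ℝ) ^ k / (#X : ℝ) * ∑ s ∈ X, f s := by
  have h1 : ∑ S ∈ powersetCard k X, ∑ s ∈ S, f s =
      ∑ S ∈ powersetCard k X, ∑ s ∈ X, (if s ∈ S then f s else 0) := by
    refine sum_congr rfl fun S hS => ?_
    exact t20_sum_mem X S (mem_powersetCard.1 hS).1 f
  rw [h1, sum_comm, mul_sum]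
  refine sum_le_sum fun s _ => ?_
  rw [← sum_filter, sum_const, nsmul_eq_mul]
  refine mul_le_mul_of_nonneg_right ?_ (hf s)
  have h2 := t20_count' X {s} hX k
  rw [card_singleton, pow_one] at h2
  refine le_trans (le_of_eq ?_) h2
  congr 2
  refine filter_congr fun S _ => ?_
  rw [singleton_subset_iff]

private theorem t20_swap2 (X : Finset ℕ) (hX : X.Nonempty) (k : ℕ) (f : ℕ → ℕ → ℝ)
    (hf : ∀ a b, 0 ≤ f a b) :
    ∑ S ∈ powersetCard k X, ∑ s ∈ S, ∑ s' ∈ S.filter (fun s' => s < s'), f s s' ≤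
      (#X : ℝ) ^ k / (#X : ℝ) ^ 2 * ∑ s ∈ X, ∑ s' ∈ X.filter (fun s' => s < s'), f s s' := by
  have h1 : ∑ S ∈ powersetCard k X, ∑ s ∈ S, ∑ s' ∈ S.filter (fun s' => s < s'), f s s' =
      ∑ S ∈ powersetCard k X, ∑ s ∈ X, ∑ s' ∈ X, (if {s, s'} ⊆ S then
        (if s < s' then f s s' else 0) else 0) := by
    refine sum_congr rfl fun S hS => ?_
    have hSX := (mem_powersetCard.1 hS).1
    rw [t20_sum_mem X S hSX]
    refine sum_congr rfl fun s _ => ?_
    rw [sum_filter, t20_sum_mem X S hSX]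
    split_ifs with h2
    · refine sum_congr rfl fun s' _ => ?_
      by_cases h3 : s' ∈ S
      · have h5 : ({s, s'} : Finset ℕ) ⊆ S := by
          intro x hx
          rw [mem_insert, mem_singleton] at hx
          rcases hx with rfl | rfl
          · exact h2
          · exact h3
        rw [if_pos h3, if_pos h5]
      · have h5 : ¬ ({s, s'} : Finset ℕ) ⊆ S := fun h4 => h3 (h4 (by simp))
        rw [if_neg h3, if_neg h5]
    · symm
      refine sum_eq_zero fun s' _ => ?_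
      have h5 : ¬ ({s, s'} : Finset ℕ) ⊆ S := fun h4 => h2 (h4 (by simp))
      rw [if_neg h5]
  rw [h1, sum_comm, mul_sum]
  refine sum_le_sum fun s _ => ?_
  rw [sum_comm, sum_filter, mul_sum]
  refine sum_le_sum fun s' _ => ?_
  rw [← sum_filter, sum_const, nsmul_eq_mul]
  by_cases h2 : s < s'
  · rw [if_pos h2]
    refine mul_le_mul_of_nonneg_right ?_ (hf s s')
    have h3 := t20_count' X {s, s'} hX k
    rwa [card_pair h2.ne] at h3
  · rw [if_neg h2, mul_zero, mul_zero]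

/-- the terms of the exponential -/
private noncomputable def t20_Phi (M : ℝ) (S : Finset ℕ) : ℝ :=
  ∑ s ∈ S, Real.exp (M * sg s) + ∑ s ∈ S, ∑ s' ∈ S.filter (fun s' => s < s'),
    (Real.exp (M * sg (s' - s)) + Real.exp (M * sg (s' + s)))

private theorem t20_sg_nonneg (m : ℕ) : 0 ≤ sg m := by
  unfold sg
  exact sum_nonneg fun p _ => by positivity

private theorem t20_exp_le (k : ℕ) (S : Finset ℕ) (hS : #S = k) :
    Real.exp (2 * k * (∑ s ∈ S, sg s + ∑ s ∈ S, ∑ s' ∈ S.filter (fun s' => s < s'),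
          (sg (s' - s) + sg (s' + s)))) ≤ 1 + t20_Phi (2 * k * (k + 2 * k ^ 2)) S := by
  set M : ℝ := 2 * k * (k + 2 * k ^ 2) with hM
  have hM0 : 0 ≤ M := by positivity
  have hA : 0 ≤ ∑ s ∈ S, Real.exp (M * sg s) := sum_nonneg fun s _ => (Real.exp_pos _).le
  have hB : 0 ≤ ∑ s ∈ S, ∑ s' ∈ S.filter (fun s' => s < s'),
    (Real.exp (M * sg (s' - s)) + Real.exp (M * sg (s' + s))) :=
    sum_nonneg fun s _ => sum_nonneg fun s' _ => by positivity
  have hΦ0 : 0 ≤ t20_Phi M S := add_nonneg hA hB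
  rcases Nat.eq_zero_or_pos k with h0 | hk
  · subst h0
    rw [card_eq_zero] at hS
    subst hS
    simp only [CharP.cast_eq_zero, mul_zero, zero_mul, Real.exp_zero]
    linarith
  set Λ := Real.log (1 + t20_Phi M S) with hΛ
  have hΛ0 : 0 ≤ Λ := Real.log_nonneg (by linarith)
  have hterm : ∀ x : ℝ, Real.exp (M * x) ≤ 1 + t20_Phi M S → M * x ≤ Λ := by
    intro x hx
    rw [hΛ, Real.le_log_iff_exp_le (by linarith)]
    exact hx
  have h1 : ∀ s ∈ S, M * sg s ≤ Λ := by
    intro s hs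
    apply hterm
    have h2 : Real.exp (M * sg s) ≤ ∑ s ∈ S, Real.exp (M * sg s) :=
      single_le_sum (f := fun s => Real.exp (M * sg s)) (fun s _ => (Real.exp_pos _).le) hs
    unfold t20_Phi
    linarith
  have h2 : ∀ s ∈ S, ∀ s' ∈ S.filter (fun s' => s < s'),
      M * sg (s' - s) ≤ Λ ∧ M * sg (s' + s) ≤ Λ := by
    intro s hs s' hs'
    have h3 : Real.exp (M * sg (s' - s)) + Real.exp (M * sg (s' + s)) ≤
        ∑ s' ∈ S.filter (fun s' => s < s'),
          (Real.exp (M * sg (s' - s)) + Real.exp (M * sg (s' + s))) :=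
      single_le_sum (f := fun s' => Real.exp (M * sg (s' - s)) + Real.exp (M * sg (s' + s)))
        (fun s _ => by positivity) hs'
    have h4 : ∑ s' ∈ S.filter (fun s' => s < s'),
          (Real.exp (M * sg (s' - s)) + Real.exp (M * sg (s' + s))) ≤
        ∑ s ∈ S, ∑ s' ∈ S.filter (fun s' => s < s'),
          (Real.exp (M * sg (s' - s)) + Real.exp (M * sg (s' + s))) :=
      single_le_sum (f := fun s => ∑ s' ∈ S.filter (fun s' => s < s'),
          (Real.exp (M * sg (s' - s)) + Real.exp (M * sg (s' + s))))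
        (fun s _ => sum_nonneg fun s' _ => by positivity) hs
    have h5 := Real.exp_pos (M * sg (s' - s))
    have h6 := Real.exp_pos (M * sg (s' + s))
    constructor
    · apply hterm
      unfold t20_Phi
      linarith
    · apply hterm
      unfold t20_Phi
      linarith
  have hE : M * (∑ s ∈ S, sg s + ∑ s ∈ S, ∑ s' ∈ S.filter (fun s' => s < s'),
      (sg (s' - s) + sg (s' + s))) ≤ (k + 2 * k ^ 2) * Λ := by
    have h3 : M * ∑ s ∈ S, sg s ≤ k * Λ := by
      rw [mul_sum]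
      refine (sum_le_card_nsmul _ _ _ h1).trans (le_of_eq ?_)
      rw [nsmul_eq_mul, hS]
    have h4 : ∀ s ∈ S, M * ∑ s' ∈ S.filter (fun s' => s < s'), (sg (s' - s) + sg (s' + s)) ≤
        k * (2 * Λ) := by
      intro s hs
      rw [mul_sum]
      refine (sum_le_card_nsmul _ _ (2 * Λ) fun s' hs' => ?_).trans ?_
      · have h5 := h2 s hs s' hs'
        linarith [h5.1, h5.2]
      · rw [nsmul_eq_mul]
        refine mul_le_mul_of_nonneg_right ?_ (by linarith)
        rw [← hS]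
        exact_mod_cast card_filter_le _ _
    have h5 : M * ∑ s ∈ S, ∑ s' ∈ S.filter (fun s' => s < s'), (sg (s' - s) + sg (s' + s)) ≤
        k * (k * (2 * Λ)) := by
      rw [mul_sum]
      refine (sum_le_card_nsmul _ _ _ h4).trans (le_of_eq ?_)
      rw [nsmul_eq_mul, hS]
    rw [mul_add]
    linarith
  have hkr : (0 : ℝ) < k := by exact_mod_cast hk
  have hE' : 2 * k * (∑ s ∈ S, sg s + ∑ s ∈ S, ∑ s' ∈ S.filter (fun s' => s < s'),
      (sg (s' - s) + sg (s' + s))) ≤ Λ := by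
    have h3 : (0 : ℝ) < k + 2 * k ^ 2 := by positivity
    refine le_of_mul_le_mul_left ?_ h3
    refine le_trans (le_of_eq ?_) hE
    rw [hM]
    ring
  calc Real.exp (2 * k * (∑ s ∈ S, sg s + ∑ s ∈ S, ∑ s' ∈ S.filter (fun s' => s < s'),
          (sg (s' - s) + sg (s' + s)))) ≤ Real.exp Λ := Real.exp_le_exp.2 hE'
    _ = 1 + t20_Phi M S := Real.exp_log (by linarith)

private theorem t20_inj_sum (X Y : Finset ℕ) (f : ℕ → ℝ) (hf : ∀ a, 0 ≤ f a) (e : ℕ → ℕ)
    (he : ∀ x ∈ X, e x ∈ Y) (hinj : Set.InjOn e X) : ∑ x ∈ X, f (e x) ≤ ∑ y ∈ Y, f y := by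
  rw [← sum_image (f := f) hinj]
  refine sum_le_sum_of_subset_of_nonneg ?_ fun a _ _ => hf a
  intro y hy
  rw [mem_image] at hy
  obtain ⟨x, hx, rfl⟩ := hy
  exact he x hx

private theorem t20_sum_sets (k : ℕ) : ∃ C : ℝ, 0 < C ∧ ∀ G : ℕ, 1 ≤ G →
    ∑ S ∈ powersetCard k (Icc 1 G), Real.exp (2 * k * (∑ s ∈ S, sg s +
      ∑ s ∈ S, ∑ s' ∈ S.filter (fun s' => s < s'), (sg (s' - s) + sg (s' + s)))) ≤
      C * (G : ℝ) ^ k := by
  set M : ℝ := 2 * k * (k + 2 * k ^ 2) with hM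
  obtain ⟨C', hC', havg⟩ := avg_sg M
  refine ⟨1 + (C' + 3 * C'), by positivity, fun G hG => ?_⟩
  have hX : (Icc 1 G).Nonempty := ⟨1, by rw [mem_Icc]; omega⟩
  have hXc : #(Icc 1 G) = G := by rw [Nat.card_Icc]; omega
  have hG0 : (0 : ℝ) < G := by exact_mod_cast hG
  have h1 : ∑ S ∈ powersetCard k (Icc 1 G), Real.exp (2 * k * (∑ s ∈ S, sg s +
      ∑ s ∈ S, ∑ s' ∈ S.filter (fun s' => s < s'), (sg (s' - s) + sg (s' + s)))) ≤
      ∑ S ∈ powersetCard k (Icc 1 G), (1 + t20_Phi M S) :=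
    sum_le_sum fun S hS => t20_exp_le k S (mem_powersetCard.1 hS).2
  refine h1.trans ?_
  have h2 : ∑ S ∈ powersetCard k (Icc 1 G), (1 : ℝ) ≤ (G : ℝ) ^ k := by
    rw [sum_const, nsmul_eq_mul, mul_one, card_powersetCard, hXc]
    exact_mod_cast Nat.choose_le_pow G k
  have h3 := t20_swap1 (Icc 1 G) hX k (fun s => Real.exp (M * sg s)) (fun a => (Real.exp_pos _).le)
  have h4 := t20_swap2 (Icc 1 G) hX k
    (fun s s' => Real.exp (M * sg (s' - s)) + Real.exp (M * sg (s' + s)))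
    (fun a b => by positivity)
  rw [hXc] at h3 h4
  have h5 : (G : ℝ) ^ k / (G : ℝ) * ∑ s ∈ Icc 1 G, Real.exp (M * sg s) ≤ C' * (G : ℝ) ^ k := by
    calc (G : ℝ) ^ k / (G : ℝ) * ∑ s ∈ Icc 1 G, Real.exp (M * sg s)
        ≤ (G : ℝ) ^ k / (G : ℝ) * (C' * G) :=
          mul_le_mul_of_nonneg_left (havg G) (by positivity)
      _ = C' * (G : ℝ) ^ k := by
          field_simp
  have h6 : ∑ s ∈ Icc 1 G, ∑ s' ∈ (Icc 1 G).filter (fun s' => s < s'),
      (Real.exp (M * sg (s' - s)) + Real.exp (M * sg (s' + s))) ≤ 3 * C' * (G : ℝ) ^ 2 := by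
    have h7 : ∀ s ∈ Icc 1 G, ∑ s' ∈ (Icc 1 G).filter (fun s' => s < s'),
        (Real.exp (M * sg (s' - s)) + Real.exp (M * sg (s' + s))) ≤ 3 * C' * G := by
      intro s hs
      rw [mem_Icc] at hs
      rw [sum_add_distrib]
      have h8 : ∑ s' ∈ (Icc 1 G).filter (fun s' => s < s'), Real.exp (M * sg (s' - s)) ≤
          ∑ m ∈ Icc 1 G, Real.exp (M * sg m) := by
        refine t20_inj_sum ((Icc 1 G).filter (fun s' => s < s')) (Icc 1 G)
          (fun m => Real.exp (M * sg m)) (fun a => (Real.exp_pos _).le) (fun s' => s' - s) ?_ ?_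
        · intro s' hs'
          rw [mem_filter, mem_Icc] at hs'
          rw [mem_Icc]
          omega
        · intro a ha b hb hab
          have ha' := (mem_filter.1 (mem_coe.1 ha)).2
          have hb' := (mem_filter.1 (mem_coe.1 hb)).2
          have hab' : a - s = b - s := hab
          omega
      have h9 : ∑ s' ∈ (Icc 1 G).filter (fun s' => s < s'), Real.exp (M * sg (s' + s)) ≤
          ∑ m ∈ Icc 1 (2 * G), Real.exp (M * sg m) := by
        refine t20_inj_sum ((Icc 1 G).filter (fun s' => s < s')) (Icc 1 (2 * G))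
          (fun m => Real.exp (M * sg m)) (fun a => (Real.exp_pos _).le) (fun s' => s' + s) ?_ ?_
        · intro s' hs'
          rw [mem_filter, mem_Icc] at hs'
          rw [mem_Icc]
          omega
        · intro a _ b _ hab
          have hab' : a + s = b + s := hab
          omega
      have h10 := havg G
      have h11 := havg (2 * G)
      push_cast at h11
      linarith
    refine (sum_le_card_nsmul _ _ _ h7).trans (le_of_eq ?_)
    rw [nsmul_eq_mul, hXc]
    ring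
  have h7 : (G : ℝ) ^ k / (G : ℝ) ^ 2 * ∑ s ∈ Icc 1 G, ∑ s' ∈ (Icc 1 G).filter (fun s' => s < s'),
      (Real.exp (M * sg (s' - s)) + Real.exp (M * sg (s' + s))) ≤ 3 * C' * (G : ℝ) ^ k := by
    calc _ ≤ (G : ℝ) ^ k / (G : ℝ) ^ 2 * (3 * C' * (G : ℝ) ^ 2) :=
          mul_le_mul_of_nonneg_left h6 (by positivity)
      _ = 3 * C' * (G : ℝ) ^ k := by
          field_simp
  have h8 : ∑ S ∈ powersetCard k (Icc 1 G), (1 + t20_Phi M S) =
      ∑ S ∈ powersetCard k (Icc 1 G), (1 : ℝ) +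
      (∑ S ∈ powersetCard k (Icc 1 G), ∑ s ∈ S, Real.exp (M * sg s) +
      ∑ S ∈ powersetCard k (Icc 1 G), ∑ s ∈ S, ∑ s' ∈ S.filter (fun s' => s < s'),
        (Real.exp (M * sg (s' - s)) + Real.exp (M * sg (s' + s)))) := by
    unfold t20_Phi
    rw [sum_add_distrib, sum_add_distrib]
  rw [h8]
  linarith

open Classical in
theorem moments (k : ℕ) : ∃ δ₁ : ℝ, 0 < δ₁ ∧ ∀ δ κ : ℝ, 0 < δ → δ ≤ δ₁ → 0 < κ →
    ∃ (C : ℝ) (N₀ : ℕ), 0 < C ∧ ∀ N : ℕ, N₀ ≤ N →
      ∑ n ∈ Ioc N (2 * N), ((#((Icc 1 ⌊κ * Real.log N⌋₊).filter (fun g => ∀ p : ℕ, p.Prime →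
        p ∣ n ^ 2 + g ^ 2 → pw N δ ≤ p)) : ℝ)) ^ k ≤ C * N := by
  obtain ⟨δ₁, hδ₁, hshift⟩ := shifts_le k
  obtain ⟨C₂, hC₂, hsets⟩ := t20_sum_sets k
  refine ⟨δ₁, hδ₁, fun δ κ hδ hδ1 hκ => ?_⟩
  obtain ⟨C₁, N₁, hC₁, hcnt⟩ := hshift δ hδ hδ1
  -- large N
  have hlarge : ∃ N₀ : ℕ, ∀ N : ℕ, N₀ ≤ N → 3 ≤ N ∧ 1 ≤ κ * Real.log N ∧ κ * Real.log N ≤ N := by
    have h1 : Filter.Tendsto (fun N : ℕ => Real.log (N : ℝ)) Filter.atTop Filter.atTop :=
      Real.tendsto_log_atTop.comp tendsto_natCast_atTop_atTop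
    have h2 := (Real.isLittleO_log_id_atTop).bound (c := 1 / κ) (by positivity)
    have h3 := tendsto_natCast_atTop_atTop.eventually h2
    have h4 := (h1.eventually_ge_atTop (1 / κ)).and (h3.and (Filter.eventually_ge_atTop 3))
    obtain ⟨N₀, hN₀⟩ := Filter.eventually_atTop.1 h4
    refine ⟨N₀, fun N hN => ?_⟩
    obtain ⟨h5, h6, h7⟩ := hN₀ N hN
    have hN1 : (1 : ℝ) ≤ N := by exact_mod_cast (by omega : 1 ≤ N)
    have hlog : 0 ≤ Real.log N := Real.log_nonneg hN1
    refine ⟨h7, ?_, ?_⟩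
    · rw [div_le_iff₀ hκ] at h5
      linarith
    · rw [Real.norm_of_nonneg hlog, id, Real.norm_of_nonneg (by positivity), div_mul_eq_mul_div,
        one_mul, le_div_iff₀ hκ] at h6
      linarith
  obtain ⟨N₀, hN₀⟩ := hlarge
  refine ⟨(2 * k : ℝ) ^ k + 2 ^ k * (k.factorial * (C₁ * C₂ * κ ^ k)), max N₀ N₁, by positivity,
    fun N hN => ?_⟩
  obtain ⟨hN3, hκ1, hκN⟩ := hN₀ N ((le_max_left _ _).trans hN)
  have hcnt' := hcnt N ((le_max_right _ _).trans hN)
  have hNr : (3 : ℝ) ≤ N := by exact_mod_cast hN3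
  have hlogN : 0 < Real.log N := Real.log_pos (by linarith)
  set G := ⌊κ * Real.log N⌋₊ with hG
  have hG1 : 1 ≤ G := Nat.le_floor (by simpa using hκ1)
  have hGle : (G : ℝ) ≤ κ * Real.log N := Nat.floor_le (by positivity)
  have hGN : G ≤ N := by exact_mod_cast hGle.trans hκN
  set A : ℕ → Finset ℕ := fun n => (Icc 1 G).filter (fun g => ∀ p : ℕ, p.Prime →
        p ∣ n ^ 2 + g ^ 2 → pw N δ ≤ p) with hA
  -- binomial moments
  have hchoose : ∑ n ∈ Ioc N (2 * N), ((#(A n)).choose k : ℝ) ≤ C₁ * C₂ * κ ^ k * N := by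
    have h1 : ∀ n, ((#(A n)).choose k : ℝ) = ∑ S ∈ powersetCard k (Icc 1 G),
        (if (∀ s ∈ S, ∀ p : ℕ, p.Prime → p ∣ n ^ 2 + s ^ 2 → pw N δ ≤ p) then (1 : ℝ) else 0) := by
      intro n
      rw [← card_powersetCard, ← sum_filter, sum_const, nsmul_eq_mul, mul_one]
      congr 2
      ext S
      rw [mem_filter, mem_powersetCard, mem_powersetCard]
      constructor
      · rintro ⟨h2, h3⟩
        exact ⟨⟨h2.trans (filter_subset _ _), h3⟩, fun s hs => (mem_filter.1 (h2 hs)).2⟩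
      · rintro ⟨⟨h2, h3⟩, h4⟩
        exact ⟨fun s hs => mem_filter.2 ⟨h2 hs, h4 s hs⟩, h3⟩
    simp_rw [h1]
    rw [sum_comm]
    have h2 : ∀ S ∈ powersetCard k (Icc 1 G), ∑ n ∈ Ioc N (2 * N),
        (if (∀ s ∈ S, ∀ p : ℕ, p.Prime → p ∣ n ^ 2 + s ^ 2 → pw N δ ≤ p) then (1 : ℝ) else 0) ≤
        C₁ * (N / (Real.log N) ^ k) *
        Real.exp (2 * k * (∑ s ∈ S, sg s + ∑ s ∈ S, ∑ s' ∈ S.filter (fun s' => s < s'),
          (sg (s' - s) + sg (s' + s)))) := by
      intro S hS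
      rw [mem_powersetCard] at hS
      rw [← sum_filter, sum_const, nsmul_eq_mul, mul_one]
      refine hcnt' S hS.2 fun s hs => ?_
      have h3 := mem_Icc.1 (hS.1 hs)
      exact ⟨h3.1, h3.2.trans hGN⟩
    refine (sum_le_sum h2).trans ?_
    rw [← mul_sum]
    have h3 := hsets G hG1
    have h4 : (G : ℝ) ^ k ≤ κ ^ k * (Real.log N) ^ k := by
      rw [← mul_pow]
      exact pow_le_pow_left₀ (Nat.cast_nonneg _) hGle k
    calc C₁ * (N / (Real.log N) ^ k) * ∑ S ∈ powersetCard k (Icc 1 G), Real.exp (2 * k *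
          (∑ s ∈ S, sg s + ∑ s ∈ S, ∑ s' ∈ S.filter (fun s' => s < s'),
          (sg (s' - s) + sg (s' + s))))
        ≤ C₁ * (N / (Real.log N) ^ k) * (C₂ * (κ ^ k * (Real.log N) ^ k)) := by
          refine mul_le_mul_of_nonneg_left (h3.trans ?_) (by positivity)
          exact mul_le_mul_of_nonneg_left h4 hC₂.le
      _ = C₁ * C₂ * κ ^ k * N := by
          field_simp
  have hpow : ∀ n ∈ Ioc N (2 * N), ((#(A n) : ℝ)) ^ k ≤
      (2 * k : ℝ) ^ k + 2 ^ k * (k.factorial * ((#(A n)).choose k : ℝ)) := by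
    intro n _
    exact_mod_cast t20_pow_le k (#(A n))
  calc ∑ n ∈ Ioc N (2 * N), ((#(A n) : ℝ)) ^ k
      ≤ ∑ n ∈ Ioc N (2 * N), ((2 * k : ℝ) ^ k + 2 ^ k * (k.factorial *
        ((#(A n)).choose k : ℝ))) := sum_le_sum hpow
    _ = N * (2 * k : ℝ) ^ k + 2 ^ k * (k.factorial *
        ∑ n ∈ Ioc N (2 * N), ((#(A n)).choose k : ℝ)) := by
        rw [sum_add_distrib, sum_const, nsmul_eq_mul, Nat.card_Ioc, ← mul_sum, ← mul_sum]
        have : 2 * N - N = N := by omega
        rw [this]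
    _ ≤ N * (2 * k : ℝ) ^ k + 2 ^ k * (k.factorial * (C₁ * C₂ * κ ^ k * N)) := by
        refine add_le_add le_rfl ?_
        refine mul_le_mul_of_nonneg_left ?_ (by positivity)
        exact mul_le_mul_of_nonneg_left hchoose (Nat.cast_nonneg _)
    _ = ((2 * k : ℝ) ^ k + 2 ^ k * (k.factorial * (C₁ * C₂ * κ ^ k))) * N := by ring

end Pool.Agent.Work.MP_73869e_nt.TH
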