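import Mathlib
import Pool.Agent.Work.MP_73869e_nt.TH.A6
import Pool.Agent.Work.MP_73869e_nt.TH.T18
import Pool.Agent.Work.MP_73869e_nt.TH.T20

set_option autoImplicit false

/-!
Assembly 7: positive proportion.
-/

namespace Pool.Agent.Work.MP_73869e_nt.TH

open Finset Pool.Agent.Work.MP_2dba45_nt.BilDef Pool.Agent.Work.MP_2dba45_nt.Sv
  Pool.Agent.Work.MP_73869e_nt.SK

open Classical in
/-- `g ≤ G` for which `n ^ 2 + g ^ 2` has no prime factor below `N ^ δ` -/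
noncomputable def RS (N G : ℕ) (δ : ℝ) (n : ℕ) : Finset ℕ :=
  (Icc 1 G).filter (fun g => ∀ p : ℕ, p.Prime → p ∣ n ^ 2 + g ^ 2 → pw N δ ≤ p)

open Classical in
theorem emb_card {K : ℕ} (N G m : ℕ) (δ : ℝ) (𝒢 : Finset ℕ) (h𝒢 : 𝒢 ⊆ Icc 1 G) (n : ℕ) :
    #((univ : Finset (Fin K ↪ {x // x ∈ 𝒢})).filter (fun e =>
      Ro (pw N δ) (fun i => ((e i : {x // x ∈ 𝒢}) : ℕ)) n ∧
        m + 1 ≤ #(univ.filter (fun j => GoodK N ((e j : {x // x ∈ 𝒢}) : ℕ) n)))) ≤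
      (if m ≤ #((Icc 1 G).filter (fun g => GoodK N g n)) then 1 else 0) *
        #(RS N G δ n) ^ K := by
  by_cases hm : m ≤ #((Icc 1 G).filter (fun g => GoodK N g n))
  · rw [if_pos hm, one_mul]
    have h1 : #((Fintype.piFinset (fun _ : Fin K => RS N G δ n))) = #(RS N G δ n) ^ K := by
      rw [Fintype.card_piFinset, prod_const, card_univ, Fintype.card_fin]
    rw [← h1]
    apply card_le_card_of_injOn (fun e i => ((e i : {x // x ∈ 𝒢}) : ℕ))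
    · intro e he
      have he' := (mem_filter.1 (mem_coe.1 he)).2.1
      rw [mem_coe, Fintype.mem_piFinset]
      intro i
      unfold RS
      rw [mem_filter]
      exact ⟨h𝒢 (e i).2, fun p hp hd => he' i p hp hd⟩
    · intro e _ e' _ h
      apply DFunLike.ext
      intro i
      apply Subtype.ext
      exact congrFun h i
  · rw [if_neg hm, zero_mul, Nat.le_zero, card_eq_zero, filter_eq_empty_iff]
    rintro e - ⟨-, he⟩
    apply hm
    refine (Nat.le_succ m).trans (he.trans ?_)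
    apply card_le_card_of_injOn (fun j => ((e j : {x // x ∈ 𝒢}) : ℕ))
    · intro j hj
      have hj' := (mem_filter.1 (mem_coe.1 hj)).2
      rw [mem_coe, mem_filter]
      exact ⟨h𝒢 (e j).2, hj'⟩
    · intro j _ j' _ h
      exact e.injective (Subtype.ext h)

open Classical in
theorem theta (m : ℕ) (κ : ℝ) (hκ : 0 < κ) : ∃ ρ : ℝ, 0 < ρ ∧ ∃ N₀ : ℕ, ∀ N : ℕ, N₀ ≤ N →
    ρ * N ≤ (#((Ioc N (2 * N)).filter (fun n =>
      m ≤ #((Icc 1 ⌊κ * Real.log N⌋₊).filter (fun g => GoodK N g n)))) : ℝ) := by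
  obtain ⟨K, hK1, hT⟩ := tuple_main m
  obtain ⟨δ₁, hδ₁, hMom⟩ := moments (2 * K)
  obtain ⟨cs, Cs, hcs, hCs, G₀, hsel⟩ := sel_sg (4 * K)
  obtain ⟨δ, c, hδ, hδδ₁, hc, N1, hN1⟩ := hT δ₁ Cs hδ₁
  obtain ⟨C, N2, hC, hN2⟩ := hMom δ κ hδ hδδ₁ hκ
  have hK0 : (1 : ℝ) ≤ K := by exact_mod_cast hK1
  have htend : Filter.Tendsto (fun N : ℕ => Real.log (N : ℝ)) Filter.atTop Filter.atTop :=
    Real.tendsto_log_atTop.comp tendsto_natCast_atTop_atTop
  obtain ⟨N3, hN3⟩ := Filter.eventually_atTop.1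
    (htend.eventually_ge_atTop (max κ (max (2 * (G₀ + 1) / κ) (4 * K / (cs * κ)))))
  obtain ⟨c₃, hc₃⟩ : ∃ c₃ : ℝ, c₃ = (cs * κ / 4) ^ K * c := ⟨_, rfl⟩
  have hc₃0 : 0 < c₃ := by rw [hc₃]; positivity
  refine ⟨c₃ ^ 2 / C, by positivity, max N1 (max N2 (max N3 3)), fun N hN => ?_⟩
  simp only [max_le_iff] at hN
  obtain ⟨hNN1, hNN2, hNN3, hNN⟩ := hN
  have hN0 : (0 : ℝ) < N := by positivity
  have hlog : 0 < Real.log N := Real.log_pos (by exact_mod_cast (by omega : 1 < N))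
  have hl := hN3 N hNN3
  rw [max_le_iff, max_le_iff] at hl
  obtain ⟨hl1, hl2, hl3⟩ := hl
  rw [div_le_iff₀ hκ] at hl2
  rw [div_le_iff₀ (by positivity)] at hl3
  obtain ⟨G, hG⟩ : ∃ G : ℕ, G = ⌊κ * Real.log N⌋₊ := ⟨_, rfl⟩
  have hGle : (G : ℝ) ≤ κ * Real.log N := by
    rw [hG]; exact Nat.floor_le (by positivity)
  have hGlt : κ * Real.log N < G + 1 := by rw [hG]; exact Nat.lt_floor_add_one _
  have hGge : κ * Real.log N / 2 ≤ G := by
    have h1 : (0 : ℝ) ≤ G₀ := Nat.cast_nonneg _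
    linarith
  have hGG₀ : G₀ ≤ G := by
    have : ((G₀ : ℕ) : ℝ) ≤ (G : ℝ) := by
      have h1 : (0 : ℝ) ≤ G₀ := Nat.cast_nonneg _
      linarith
    exact_mod_cast this
  obtain ⟨𝒢, h𝒢⟩ : ∃ 𝒢 : Finset ℕ, 𝒢 = (Icc 1 G).filter (fun g =>
    (∀ p : ℕ, p.Prime → p ≤ 4 * K → p ∣ g) ∧ sg g ≤ Cs) := ⟨_, rfl⟩
  have h𝒢card : cs * G ≤ #𝒢 := by
    rw [h𝒢]
    have := hsel G hGG₀
    convert this
  have h𝒢sub : 𝒢 ⊆ Icc 1 G := by rw [h𝒢]; exact filter_subset _ _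
  have h𝒢2K : (2 * K : ℝ) ≤ #𝒢 := by
    refine le_trans ?_ h𝒢card
    calc (2 * K : ℝ) ≤ cs * (κ * Real.log N / 2) := by linarith
      _ ≤ cs * G := mul_le_mul_of_nonneg_left hGge hcs.le
  -- number of embeddings
  have hemb : (cs * κ / 4) ^ K * (Real.log N) ^ K ≤
      (#(univ : Finset (Fin K ↪ {x // x ∈ 𝒢})) : ℝ) := by
    have h1 : #(univ : Finset (Fin K ↪ {x // x ∈ 𝒢})) = (#𝒢).descFactorial K := by
      rw [card_univ, Fintype.card_embedding_eq, Fintype.card_fin, Fintype.card_coe]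
    have h2 : (#𝒢 + 1 - K) ^ K ≤ (#𝒢).descFactorial K := Nat.pow_sub_le_descFactorial _ _
    rw [h1]
    have h3 : (((#𝒢 + 1 - K : ℕ) ^ K : ℕ) : ℝ) ≤ ((#𝒢).descFactorial K : ℝ) := by exact_mod_cast h2
    refine le_trans ?_ h3
    rw [← mul_pow]
    push_cast
    apply pow_le_pow_left₀ (by positivity)
    have h4 : K ≤ #𝒢 := by
      have : (K : ℝ) ≤ #𝒢 := by linarith
      exact_mod_cast this
    rw [Nat.cast_sub (by omega)]
    push_cast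
    have h5 : cs * (κ * Real.log N / 2) ≤ #𝒢 :=
      (mul_le_mul_of_nonneg_left hGge hcs.le).trans h𝒢card
    linarith
  -- each embedding gives many `n`
  have heach : ∀ e : Fin K ↪ {x // x ∈ 𝒢}, c * (N / (Real.log N) ^ K) ≤
      (#((Ioc N (2 * N)).filter (fun n => Ro (pw N δ) (fun i => ((e i : {x // x ∈ 𝒢}) : ℕ)) n ∧
        m + 1 ≤ #(univ.filter (fun j => GoodK N ((e j : {x // x ∈ 𝒢}) : ℕ) n)))) : ℝ) := by
    intro e
    have hmem : ∀ i, ((e i : {x // x ∈ 𝒢}) : ℕ) ∈ (Icc 1 G).filter (fun g =>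
        (∀ p : ℕ, p.Prime → p ≤ 4 * K → p ∣ g) ∧ sg g ≤ Cs) := by
      intro i
      have := (e i).2
      rw [← h𝒢]
      exact this
    apply hN1 N hNN1 (fun i => ((e i : {x // x ∈ 𝒢}) : ℕ))
    · intro i i' h
      exact e.injective (Subtype.ext h)
    · intro i
      have h1 := mem_Icc.1 (mem_filter.1 (hmem i)).1
      refine ⟨h1.1, ?_⟩
      have h2 : (((e i : {x // x ∈ 𝒢}) : ℕ) : ℝ) ≤ G := by exact_mod_cast h1.2
      refine h2.trans (hGle.trans ?_)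
      rw [sq]
      exact mul_le_mul_of_nonneg_right hl1 hlog.le
    · intro p hp hp4 i
      exact (mem_filter.1 (hmem i)).2.1 p hp hp4
    · intro i
      exact (mem_filter.1 (hmem i)).2.2
  have hsum1 := sum_le_sum fun (e : Fin K ↪ {x // x ∈ 𝒢}) (_ : e ∈ univ) => heach e
  rw [sum_const, nsmul_eq_mul] at hsum1
  have hlow : c₃ * N ≤ ∑ e : Fin K ↪ {x // x ∈ 𝒢},
      (#((Ioc N (2 * N)).filter (fun n => Ro (pw N δ) (fun i => ((e i : {x // x ∈ 𝒢}) : ℕ)) n ∧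
        m + 1 ≤ #(univ.filter (fun j => GoodK N ((e j : {x // x ∈ 𝒢}) : ℕ) n)))) : ℝ) := by
    refine le_trans ?_ hsum1
    calc c₃ * N = ((cs * κ / 4) ^ K * (Real.log N) ^ K) * (c * (N / (Real.log N) ^ K)) := by
          rw [hc₃]; field_simp
      _ ≤ _ := mul_le_mul_of_nonneg_right hemb (by positivity)
  -- exchange the order of summation
  obtain ⟨𝒩, h𝒩⟩ : ∃ 𝒩 : Finset ℕ, 𝒩 = (Ioc N (2 * N)).filter (fun n =>
    m ≤ #((Icc 1 G).filter (fun g => GoodK N g n))) := ⟨_, rfl⟩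
  have hswap : ∑ e : Fin K ↪ {x // x ∈ 𝒢},
      (#((Ioc N (2 * N)).filter (fun n => Ro (pw N δ) (fun i => ((e i : {x // x ∈ 𝒢}) : ℕ)) n ∧
        m + 1 ≤ #(univ.filter (fun j => GoodK N ((e j : {x // x ∈ 𝒢}) : ℕ) n)))) : ℝ) ≤
      ∑ n ∈ Ioc N (2 * N), (if m ≤ #((Icc 1 G).filter (fun g => GoodK N g n)) then (1 : ℝ) else 0) *
        (#(RS N G δ n) : ℝ) ^ K := by
    have h1 : ∀ e : Fin K ↪ {x // x ∈ 𝒢},
      (#((Ioc N (2 * N)).filter (fun n => Ro (pw N δ) (fun i => ((e i : {x // x ∈ 𝒢}) : ℕ)) n ∧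
        m + 1 ≤ #(univ.filter (fun j => GoodK N ((e j : {x // x ∈ 𝒢}) : ℕ) n)))) : ℝ) =
      ∑ n ∈ Ioc N (2 * N), (if Ro (pw N δ) (fun i => ((e i : {x // x ∈ 𝒢}) : ℕ)) n ∧
        m + 1 ≤ #(univ.filter (fun j => GoodK N ((e j : {x // x ∈ 𝒢}) : ℕ) n)) then (1 : ℝ)
          else 0) := by
      intro e
      rw [sum_boole]
    rw [sum_congr rfl fun e _ => h1 e, sum_comm]
    refine sum_le_sum fun n _ => ?_
    rw [sum_boole]
    have h2 := emb_card (K := K) N G m δ 𝒢 h𝒢sub n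
    have h3 : (#((univ : Finset (Fin K ↪ {x // x ∈ 𝒢})).filter (fun e =>
      Ro (pw N δ) (fun i => ((e i : {x // x ∈ 𝒢}) : ℕ)) n ∧
        m + 1 ≤ #(univ.filter (fun j => GoodK N ((e j : {x // x ∈ 𝒢}) : ℕ) n)))) : ℝ) ≤
      (((if m ≤ #((Icc 1 G).filter (fun g => GoodK N g n)) then 1 else 0) *
        #(RS N G δ n) ^ K : ℕ) : ℝ) := by exact_mod_cast h2
    refine h3.trans (le_of_eq ?_)
    push_cast
    rfl
  -- Cauchy-Schwarz
  have hCS := Finset.sum_mul_sq_le_sq_mul_sq (Ioc N (2 * N))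
    (fun n => if m ≤ #((Icc 1 G).filter (fun g => GoodK N g n)) then (1 : ℝ) else 0)
    (fun n => (#(RS N G δ n) : ℝ) ^ K)
  have e1 : ∑ n ∈ Ioc N (2 * N),
      (if m ≤ #((Icc 1 G).filter (fun g => GoodK N g n)) then (1 : ℝ) else 0) ^ 2 = #𝒩 := by
    rw [h𝒩, ← sum_boole]
    refine sum_congr rfl fun n _ => ?_
    split_ifs <;> norm_num
  have e2 : ∑ n ∈ Ioc N (2 * N), ((#(RS N G δ n) : ℝ) ^ K) ^ 2 ≤ C * N := by
    have h1 := hN2 N hNN2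
    rw [← hG] at h1
    refine le_trans (le_of_eq ?_) h1
    refine sum_congr rfl fun n _ => ?_
    rw [← pow_mul, mul_comm K 2]
    unfold RS
    congr!
  rw [e1] at hCS
  have h1 : (c₃ * N) ^ 2 ≤ #𝒩 * (C * N) := by
    refine (pow_le_pow_left₀ (by positivity) (hlow.trans hswap) 2).trans (hCS.trans ?_)
    exact mul_le_mul_of_nonneg_left e2 (Nat.cast_nonneg _)
  have h2 : c₃ ^ 2 / C * N ≤ #𝒩 := by
    rw [div_mul_eq_mul_div, div_le_iff₀ hC]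
    have h3 : (c₃ ^ 2 * N) * N ≤ (#𝒩 * C) * N := by
      calc (c₃ ^ 2 * N) * N = (c₃ * N) ^ 2 := by ring
        _ ≤ #𝒩 * (C * N) := h1
        _ = _ := by ring
    exact le_of_mul_le_mul_right h3 hN0
  rw [h𝒩] at h2
  rw [← hG]
  exact h2

end Pool.Agent.Work.MP_73869e_nt.TH
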